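import Mathlib
import Pool.Agent.Helper35.YG.CoverDefs

set_option autoImplicit false
set_option linter.unusedSectionVars false

namespace Pool.Agent.Helper56.YGOdd

open Pool.Agent.Helper35.YG QuadraticMap

section tools

variable {K V : Type*} [Field K] [CharP K 2] [AddCommGroup V] [Module K V] {Q : QuadraticForm K V}

lemma pself (x : V) : polar Q x x = 0 := by
  rw [polar_self]
  have h2 : (2 : K) = 0 := CharTwo.two_eq_zero
  simp [two_smul, ← two_mul, h2]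

lemma qadd (x y : V) : Q (x + y) = Q x + Q y + polar Q x y := QuadraticMap.map_add Q x y

lemma qsmul (c : K) (x : V) : Q (c • x) = c * c * Q x := by
  rw [QuadraticMap.map_smul, smul_eq_mul]

lemma padd (x y z : V) : polar Q (x + y) z = polar Q x z + polar Q y z := polar_add_left Q x y z

lemma psmul (c : K) (x z : V) : polar Q (c • x) z = c * polar Q x z := by
  rw [polar_smul_left, smul_eq_mul]

lemma padd' (x y z : V) : polar Q z (x + y) = polar Q z x + polar Q z y := polar_add_right Q z x y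

lemma psmul' (c : K) (x z : V) : polar Q z (c • x) = c * polar Q z x := by
  rw [polar_smul_right, smul_eq_mul]

lemma exists_sqrt [Finite K] (t : K) : ∃ s : K, s * s = t := by
  cases nonempty_fintype K
  obtain ⟨s, hs⟩ := FiniteField.isSquare_of_char_two (ringChar.eq K 2) t
  exact ⟨s, hs.symm⟩

lemma solve2 [Finite K] {e f : V} (hef : polar Q e f = 1) (w : V) (t : K) :
    ∃ α β : K, Q (w + (α • e + β • f)) = t := by
  have key : ∀ α β : K, Q (w + (α • e + β • f)) = Q w + (α * α * Q e + β * β * Q f + α * β)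
      + (α * polar Q w e + β * polar Q w f) := by
    intro α β
    simp only [qadd, qsmul, padd', psmul', psmul, hef]
    ring
  set x := polar Q w e with hx
  set y := polar Q w f with hy
  by_cases he : Q e = 0
  · by_cases hf : Q f = 0
    · refine ⟨t + Q w + x * y + y, 1 + x, ?_⟩
      rw [key, he, hf]
      grind
    · obtain ⟨s, hs⟩ := exists_sqrt ((t + Q w + x * x * Q f + x * y) / Q f)
      have hs' : s * s * Q f = t + Q w + x * x * Q f + x * y := by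
        rw [hs]; field_simp
      refine ⟨y, s + x, ?_⟩
      rw [key, he]
      grind
  · obtain ⟨s, hs⟩ := exists_sqrt ((t + Q w + y * y * Q e + x * x * Q f + x * y) / Q e)
    have hs' : s * s * Q e = t + Q w + y * y * Q e + x * x * Q f + x * y := by
      rw [hs]; field_simp
    refine ⟨s + y, x, ?_⟩
    rw [key]
    grind

variable (hnd : ∀ x, (∀ y, polar Q x y = 0) → x = 0)

include hnd

lemma exists_one {x : V} (hx : x ≠ 0) : ∃ g, polar Q g x = 1 := by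
  by_contra hcon
  push Not at hcon
  apply hx
  apply hnd
  intro y
  by_contra hy
  apply hcon ((polar Q x y)⁻¹ • y)
  rw [psmul, polar_comm Q y x]
  exact inv_mul_cancel₀ hy

lemma lin2 {x y : V} (hxy : ∀ c d : K, c • x + d • y = 0 → c = 0 ∧ d = 0) (s t : K) :
    ∃ g, polar Q g x = s ∧ polar Q g y = t := by
  have aux : ∀ {x y : V}, (∀ c d : K, c • x + d • y = 0 → c = 0 ∧ d = 0) →
      ∃ g, polar Q g x = 1 ∧ polar Q g y = 0 := by
    intro x y hxy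
    have hy : y ≠ 0 := by
      intro h
      have := hxy 0 1 (by simp [h])
      exact one_ne_zero this.2
    obtain ⟨g0, hg0⟩ := exists_one hnd hy
    by_contra hcon
    push Not at hcon
    have h1 : ∀ g, polar Q g y = 0 → polar Q g x = 0 := by
      intro g hg
      by_contra hne
      refine hcon ((polar Q g x)⁻¹ • g) ?_ ?_
      · rw [psmul]; exact inv_mul_cancel₀ hne
      · rw [psmul, hg, mul_zero]
    have h2 : (1 : K) • x + polar Q g0 x • y = 0 := by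
      apply hnd
      intro g
      have h3 := h1 (g + polar Q g y • g0) (by rw [padd, psmul, hg0]; grind)
      rw [padd, psmul] at h3
      rw [padd, psmul, psmul, polar_comm Q x g, polar_comm Q y g]
      grind
    exact one_ne_zero (hxy _ _ h2).1
  obtain ⟨g1, h1, h2⟩ := aux hxy
  obtain ⟨g2, h3, h4⟩ := aux (x := y) (y := x) (fun c d h => by
    have := hxy d c (by rw [add_comm]; exact h)
    exact ⟨this.2, this.1⟩)
  refine ⟨s • g1 + t • g2, ?_, ?_⟩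
  · rw [padd, psmul, psmul, h1, h4]; ring
  · rw [padd, psmul, psmul, h2, h3]; ring

omit hnd in
lemma exists_orth {k : ℕ} (m : Fin k → V) (hk : k < Module.finrank K V) :
    ∃ e : V, e ≠ 0 ∧ ∀ i, polar Q e (m i) = 0 := by
  have : FiniteDimensional K V := Module.finite_of_finrank_pos (by omega)
  let Φ : V →ₗ[K] (Fin k → K) := LinearMap.pi (fun i => Q.polarBilin.flip (m i))
  have h1 : LinearMap.ker Φ ≠ ⊥ := LinearMap.ker_ne_bot_of_finrank_lt (by simpa using hk)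
  obtain ⟨e, he, he0⟩ := Submodule.exists_mem_ne_zero_of_ne_bot h1
  refine ⟨e, he0, fun i => ?_⟩
  have := congrFun (LinearMap.mem_ker.1 he) i
  simpa [Φ] using this

omit hnd in
/-- projection to the orthogonal complement of a hyperbolic pair -/
lemma proj {v₁ v₂ : V} (h12 : polar Q v₁ v₂ = 1) (g : V) :
    ∃ g' : V, polar Q g' v₁ = 0 ∧ polar Q g' v₂ = 0 ∧
      ∀ x, polar Q x v₁ = 0 → polar Q x v₂ = 0 → polar Q g' x = polar Q g x := by
  refine ⟨g + (polar Q g v₂ • v₁ + polar Q g v₁ • v₂), ?_, ?_, ?_⟩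
  · rw [padd, padd, psmul, psmul, pself, polar_comm Q v₂ v₁, h12]
    grind
  · rw [padd, padd, psmul, psmul, pself, h12]
    grind
  · intro x hx1 hx2
    rw [padd, padd, psmul, psmul, polar_comm Q v₁ x, polar_comm Q v₂ x, hx1, hx2]
    ring

end tools

section solving

variable {K V : Type*} [Field K] [CharP K 2] [Finite K] [AddCommGroup V] [Module K V]
  {Q : QuadraticForm K V} (hnd : ∀ x, (∀ y, polar Q x y = 0) → x = 0)
  {v₁ v₂ : V} (h12 : polar Q v₁ v₂ = 1)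

include hnd h12

/-- case of a nondegenerate plane -/
lemma solve_plane (hdim : 6 ≤ Module.finrank K V) {x y : V} (hx1 : polar Q x v₁ = 0)
    (hx2 : polar Q x v₂ = 0) (hy1 : polar Q y v₁ = 0) (hy2 : polar Q y v₂ = 0)
    (hxy : polar Q x y ≠ 0) (s t r : K) :
    ∃ w, polar Q w v₁ = 0 ∧ polar Q w v₂ = 0 ∧ polar Q w x = s ∧ polar Q w y = t ∧ Q w = r := by
  set P := polar Q x y with hP
  obtain ⟨e, he0, he⟩ := exists_orth (Q := Q) ![v₁, v₂, x, y] (by omega)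
  have he1 : polar Q e v₁ = 0 := he 0
  have he2 : polar Q e v₂ = 0 := he 1
  have hex : polar Q e x = 0 := he 2
  have hey : polar Q e y = 0 := he 3
  obtain ⟨g, hg⟩ := exists_one hnd he0
  obtain ⟨g', hg1, hg2, hg3⟩ := proj h12 g
  -- the projection to the complement of `x, y`
  set f := g' + ((polar Q g' y / P) • x + (polar Q g' x / P) • y) with hf
  have hfe : polar Q e f = 1 := by
    rw [hf, padd', padd', psmul', psmul', hex, hey, polar_comm Q e g', hg3 e he1 he2, hg]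
    ring
  have hf1 : polar Q f v₁ = 0 := by
    rw [hf, padd, padd, psmul, psmul, hg1, hx1, hy1]; ring
  have hf2 : polar Q f v₂ = 0 := by
    rw [hf, padd, padd, psmul, psmul, hg2, hx2, hy2]; ring
  have hfx : polar Q f x = 0 := by
    rw [hf, padd, padd, psmul, psmul, pself, polar_comm Q y x, ← hP, div_mul_cancel₀ _ hxy]
    grind
  have hfy : polar Q f y = 0 := by
    rw [hf, padd, padd, psmul, psmul, pself, ← hP, div_mul_cancel₀ _ hxy]
    grind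
  obtain ⟨α, β, hαβ⟩ := solve2 hfe ((t / P) • x + (s / P) • y) r
  refine ⟨_, ?_, ?_, ?_, ?_, hαβ⟩
  · simp only [padd, psmul, hx1, hy1, he1, hf1]; ring
  · simp only [padd, psmul, hx2, hy2, he2, hf2]; ring
  · simp only [padd, psmul, pself, hex, hfx, polar_comm Q y x, ← hP]
    rw [div_mul_cancel₀ _ hxy]; ring
  · simp only [padd, psmul, pself, hey, hfy, ← hP]
    rw [div_mul_cancel₀ _ hxy]; ring

/-- case of one vector -/
lemma solve_line (hdim : 6 ≤ Module.finrank K V) {x : V} (hx1 : polar Q x v₁ = 0)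
    (hx2 : polar Q x v₂ = 0) (hx0 : x ≠ 0) (s r : K) :
    ∃ w, polar Q w v₁ = 0 ∧ polar Q w v₂ = 0 ∧ polar Q w x = s ∧ Q w = r := by
  obtain ⟨g, hg⟩ := exists_one hnd hx0
  obtain ⟨e, he0, he⟩ := exists_orth (Q := Q) ![v₁, v₂, x, g] (by omega)
  have he1 : polar Q e v₁ = 0 := he 0
  have he2 : polar Q e v₂ = 0 := he 1
  have hex : polar Q e x = 0 := he 2
  have heg : polar Q e g = 0 := he 3
  have hind : ∀ c d : K, c • x + d • e = 0 → c = 0 ∧ d = 0 := by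
    intro c d h
    have h1 : polar Q g (c • x + d • e) = 0 := by rw [h]; simp [polar_zero_right]
    rw [padd', psmul', psmul', hg, polar_comm Q g e, heg] at h1
    have hc : c = 0 := by linear_combination h1
    rw [hc, zero_smul, zero_add] at h
    exact ⟨hc, (smul_eq_zero.1 h).resolve_right he0⟩
  obtain ⟨f0, hf0x, hf0e⟩ := lin2 hnd hind 0 1
  obtain ⟨f, hf1, hf2, hf3⟩ := proj h12 f0
  have hfx : polar Q f x = 0 := by rw [hf3 x hx1 hx2, hf0x]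
  have hfe : polar Q e f = 1 := by rw [polar_comm, hf3 e he1 he2, hf0e]
  obtain ⟨g', hg1, hg2, hg3⟩ := proj h12 g
  have hg'x : polar Q g' x = 1 := by rw [hg3 x hx1 hx2, hg]
  obtain ⟨α, β, hαβ⟩ := solve2 hfe (s • g') r
  refine ⟨_, ?_, ?_, ?_, hαβ⟩
  · simp only [padd, psmul, hg1, he1, hf1]; ring
  · simp only [padd, psmul, hg2, he2, hf2]; ring
  · simp only [padd, psmul, hg'x, hex, hfx]; ring

/-- case of a totally degenerate plane, varying by `x` -/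
lemma solve_deg {x y : V} (hx1 : polar Q x v₁ = 0)
    (hx2 : polar Q x v₂ = 0) (hy1 : polar Q y v₁ = 0) (hy2 : polar Q y v₂ = 0)
    (hxy : polar Q x y = 0) (hind : ∀ c d : K, c • x + d • y = 0 → c = 0 ∧ d = 0)
    (s t r : K) (hs : (s = 0 ∧ Q x ≠ 0) ∨ (s ≠ 0 ∧ Q x = 0)) :
    ∃ w, polar Q w v₁ = 0 ∧ polar Q w v₂ = 0 ∧ polar Q w x = s ∧ polar Q w y = t ∧ Q w = r := by
  obtain ⟨g, hgx, hgy⟩ := lin2 hnd hind s t
  obtain ⟨g', hg1, hg2, hg3⟩ := proj h12 g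
  have hg'x : polar Q g' x = s := by rw [hg3 x hx1 hx2, hgx]
  have hg'y : polar Q g' y = t := by rw [hg3 y hy1 hy2, hgy]
  have hex : ∃ α : K, Q (g' + α • x) = r := by
    rcases hs with ⟨hs, hQ⟩ | ⟨hs, hQ⟩
    · obtain ⟨α, hα⟩ := exists_sqrt ((r + Q g') / Q x)
      have hα' : α * α * Q x = r + Q g' := by rw [hα]; field_simp
      refine ⟨α, ?_⟩
      rw [qadd, qsmul, psmul', hg'x, hs]
      grind
    · refine ⟨(r + Q g') / s, ?_⟩
      rw [qadd, qsmul, psmul', hg'x, hQ]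
      have : (r + Q g') / s * s = r + Q g' := by field_simp
      grind
  obtain ⟨α, hα⟩ := hex
  refine ⟨_, ?_, ?_, ?_, ?_, hα⟩
  · rw [padd, psmul, hg1, hx1]; ring
  · rw [padd, psmul, hg2, hx2]; ring
  · rw [padd, psmul, hg'x, pself]; ring
  · rw [padd, psmul, hg'y, hxy]; ring

end solving

section walks

variable {K V : Type*} [Field K] [CharP K 2] [Finite K] [AddCommGroup V] [Module K V]
  {Q : QuadraticForm K V} {κ : K} {Ω : Type*} {E : Ω → Ω → Prop} {π : Ω → V}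

/-- All walks over `v₀, v₁, v₂, v₃` have endpoints at distance at most two. -/
def Good (E : Ω → Ω → Prop) (π : Ω → V) (v₀ v₁ v₂ v₃ : V) : Prop :=
  ∀ ω₀ ω₁ ω₂ ω₃, E ω₀ ω₁ → E ω₁ ω₂ → E ω₂ ω₃ → π ω₀ = v₀ → π ω₁ = v₁ → π ω₂ = v₂ →
    π ω₃ = v₃ → Near E ω₀ ω₃

/-- A walk of length three in `X`. -/
structure Walk (Q : QuadraticForm K V) (κ : K) (v₀ v₁ v₂ v₃ : V) : Prop where
  q0 : Q v₀ = κ
  q1 : Q v₁ = κ
  q2 : Q v₂ = κ
  q3 : Q v₃ = κ
  b01 : polar Q v₀ v₁ = 1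
  b12 : polar Q v₁ v₂ = 1
  b23 : polar Q v₂ v₃ = 1

lemma Walk.rev {v₀ v₁ v₂ v₃ : V} (h : Walk Q κ v₀ v₁ v₂ v₃) : Walk Q κ v₃ v₂ v₁ v₀ :=
  ⟨h.q3, h.q2, h.q1, h.q0, by rw [polar_comm]; exact h.b23, by rw [polar_comm]; exact h.b12,
    by rw [polar_comm]; exact h.b01⟩

/-- The projection of `v₀`. -/
def xx (Q : QuadraticForm K V) (v₀ v₁ v₂ : V) : V := v₀ + polar Q v₀ v₂ • v₁ + v₂

lemma xx1 {v₀ v₁ v₂ v₃ : V} (h : Walk Q κ v₀ v₁ v₂ v₃) : polar Q (xx Q v₀ v₁ v₂) v₁ = 0 := by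
  have h1 := h.b01; have h2 := h.b12
  simp only [xx, padd, psmul, pself, polar_comm Q v₂ v₁, h1, h2]
  grind

lemma xx2 {v₀ v₁ v₂ v₃ : V} (h : Walk Q κ v₀ v₁ v₂ v₃) : polar Q (xx Q v₀ v₁ v₂) v₂ = 0 := by
  have h1 := h.b01; have h2 := h.b12
  simp only [xx, padd, psmul, pself, h2]
  grind

lemma yy1 {v₀ v₁ v₂ v₃ : V} (h : Walk Q κ v₀ v₁ v₂ v₃) : polar Q (xx Q v₃ v₂ v₁) v₁ = 0 :=
  xx2 h.rev

lemma yy2 {v₀ v₁ v₂ v₃ : V} (h : Walk Q κ v₀ v₁ v₂ v₃) : polar Q (xx Q v₃ v₂ v₁) v₂ = 0 :=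
  xx1 h.rev

lemma xy {v₀ v₁ v₂ v₃ : V} (h : Walk Q κ v₀ v₁ v₂ v₃) :
    polar Q (xx Q v₀ v₁ v₂) (xx Q v₃ v₂ v₁) =
      1 + polar Q v₀ v₂ * polar Q v₁ v₃ + polar Q v₀ v₃ := by
  have h1 := yy1 h; have h2 := yy2 h
  rw [xx, padd, padd, psmul, polar_comm Q v₁, polar_comm Q v₂, h1, h2]
  simp only [xx, padd', psmul', h.b01, polar_comm Q v₃ v₁]
  grind

lemma qxx {v₀ v₁ v₂ v₃ : V} (h : Walk Q κ v₀ v₁ v₂ v₃) :
    Q (xx Q v₀ v₁ v₂) = κ * polar Q v₀ v₂ * polar Q v₀ v₂ + polar Q v₀ v₂ := by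
  simp only [xx, qadd, qsmul, padd, psmul, psmul', h.b01, h.b12, h.q0, h.q1, h.q2]
  grind

lemma qyy {v₀ v₁ v₂ v₃ : V} (h : Walk Q κ v₀ v₁ v₂ v₃) :
    Q (xx Q v₃ v₂ v₁) = κ * polar Q v₁ v₃ * polar Q v₁ v₃ + polar Q v₁ v₃ := by
  rw [qxx h.rev, polar_comm Q v₃ v₁]

section cover

variable (hc : Cover {v : V | Q v = κ ∧ v ≠ 0} (fun v w => polar Q v w = 1) E π)

include hc

omit [Finite K] in
lemma Good.rev {v₀ v₁ v₂ v₃ : V} (h : Good E π v₃ v₂ v₁ v₀) : Good E π v₀ v₁ v₂ v₃ := by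
  intro ω₀ ω₁ ω₂ ω₃ h01 h12 h23 e0 e1 e2 e3
  rcases h ω₃ ω₂ ω₁ ω₀ (hc.symm _ _ h23) (hc.symm _ _ h12) (hc.symm _ _ h01) e3 e2 e1 e0 with
    h | h | ⟨x, hx1, hx2⟩
  · exact Or.inl h.symm
  · exact Or.inr (Or.inl (hc.symm _ _ h))
  · exact Or.inr (Or.inr ⟨x, hc.symm _ _ hx2, hc.symm _ _ hx1⟩)

omit [Finite K] in
lemma good_direct {v₀ v₁ v₂ v₃ z : V} (hz : Q z = κ) (h0 : polar Q v₀ z = 1)
    (h1 : polar Q v₁ z = 1) (h2 : polar Q v₂ z = 1) (h3 : polar Q v₃ z = 1) :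
    Good E π v₀ v₁ v₂ v₃ := by
  intro ω₀ ω₁ ω₂ ω₃ h01 h12 h23 e0 e1 e2 e3
  have hz0 : z ≠ 0 := by
    intro h
    rw [h, polar_zero_right] at h0
    exact zero_ne_one h0
  obtain ⟨ωz, hωz, hπ⟩ := hc.lift ω₁ z ⟨hz, hz0⟩ (by rw [e1]; exact h1)
  have a0 : E ω₀ ωz := hc.tri _ _ _ h01 hωz (by rw [e0, hπ]; exact h0)
  have a2 : E ω₂ ωz := hc.tri _ _ _ (hc.symm _ _ h12) hωz (by rw [e2, hπ]; exact h2)
  have a3 : E ω₃ ωz := hc.tri _ _ _ (hc.symm _ _ h23) a2 (by rw [e3, hπ]; exact h3)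
  exact Or.inr (Or.inr ⟨ωz, a0, hc.symm _ _ a3⟩)

omit [Finite K] in
lemma good_move1 {v₀ v₁ v₂ v₃ z : V} (hz : Q z = κ) (h0 : polar Q v₀ z = 1)
    (h1 : polar Q v₁ z = 1) (h2 : polar Q z v₂ = 1) (hg : Good E π v₀ z v₂ v₃) :
    Good E π v₀ v₁ v₂ v₃ := by
  intro ω₀ ω₁ ω₂ ω₃ h01 h12 h23 e0 e1 e2 e3
  have hz0 : z ≠ 0 := by
    intro h
    rw [h, polar_zero_right] at h0
    exact zero_ne_one h0
  obtain ⟨ωz, hωz, hπ⟩ := hc.lift ω₁ z ⟨hz, hz0⟩ (by rw [e1]; exact h1)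
  have a0 : E ω₀ ωz := hc.tri _ _ _ h01 hωz (by rw [e0, hπ]; exact h0)
  have a2 : E ωz ω₂ := hc.tri _ _ _ (hc.symm _ _ hωz) h12 (by rw [e2, hπ]; exact h2)
  exact hg ω₀ ωz ω₂ ω₃ a0 a2 h23 e0 hπ e2 e3

/-- the direct criterion -/
lemma direct {v₀ v₁ v₂ v₃ : V} (h : Walk Q κ v₀ v₁ v₂ v₃) {w : V} (hw1 : polar Q w v₁ = 0)
    (hw2 : polar Q w v₂ = 0) (hwx : polar Q w (xx Q v₀ v₁ v₂) = polar Q v₀ v₂)
    (hwy : polar Q w (xx Q v₃ v₂ v₁) = polar Q v₁ v₃) (hq : Q w = κ + 1) :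
    Good E π v₀ v₁ v₂ v₃ := by
  have h01 := h.b01; have h12 := h.b12; have h23 := h.b23
  rw [xx, padd', padd', psmul', hw1, hw2] at hwx hwy
  refine good_direct hc (z := v₁ + v₂ + w) ?_ ?_ ?_ ?_ ?_
  · rw [qadd, qadd, padd, polar_comm Q v₁ w, polar_comm Q v₂ w, hw1, hw2, h12, h.q1, h.q2, hq]
    grind
  · rw [padd', padd', h01, polar_comm Q v₀ w]
    grind
  · rw [padd', padd', pself, h12, polar_comm Q v₁ w, hw1]; ring
  · rw [padd', padd', pself, polar_comm Q v₂ v₁, h12, polar_comm Q v₂ w, hw2]; ring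
  · rw [padd', padd', polar_comm Q v₃ v₁, polar_comm Q v₃ v₂, h23, polar_comm Q v₃ w]
    grind

/-- the first move -/
lemma move1 {v₀ v₁ v₂ v₃ : V} (h : Walk Q κ v₀ v₁ v₂ v₃) (δ : K) {w : V}
    (hw1 : polar Q w v₁ = 0)
    (hw2 : polar Q w v₂ = 0) (hwx : polar Q w (xx Q v₀ v₁ v₂) = polar Q v₀ v₂)
    (hwy : polar Q w (xx Q v₃ v₂ v₁) = 1 + δ) (hq : Q w = κ + 1)
    (hnext : ∀ z, Walk Q κ v₀ z v₂ v₃ → polar Q z v₃ = polar Q v₁ v₃ + δ →
      Good E π v₀ z v₂ v₃) :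
    Good E π v₀ v₁ v₂ v₃ := by
  have h01 := h.b01; have h12 := h.b12; have h23 := h.b23
  rw [xx, padd', padd', psmul', hw1, hw2] at hwx hwy
  have q : Q (v₁ + v₂ + w) = κ := by
    rw [qadd, qadd, padd, polar_comm Q v₁ w, polar_comm Q v₂ w, hw1, hw2, h12, h.q1, h.q2, hq]
    grind
  have z0 : polar Q v₀ (v₁ + v₂ + w) = 1 := by
    rw [padd', padd', h01, polar_comm Q v₀ w]
    grind
  have z1 : polar Q v₁ (v₁ + v₂ + w) = 1 := by
    rw [padd', padd', pself, h12, polar_comm Q v₁ w, hw1]; ring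
  have z2 : polar Q (v₁ + v₂ + w) v₂ = 1 := by
    rw [padd, padd, pself, h12, hw2]; ring
  refine good_move1 hc q z0 z1 z2 (hnext _ ⟨h.q0, q, h.q2, h.q3, z0, z2, h23⟩ ?_)
  rw [padd, padd, h23]
  grind

/-- the second move -/
lemma move2 {v₀ v₁ v₂ v₃ : V} (h : Walk Q κ v₀ v₁ v₂ v₃) (δ : K) {w : V}
    (hw1 : polar Q w v₁ = 0)
    (hw2 : polar Q w v₂ = 0) (hwx : polar Q w (xx Q v₀ v₁ v₂) = 1 + δ)
    (hwy : polar Q w (xx Q v₃ v₂ v₁) = polar Q v₁ v₃) (hq : Q w = κ + 1)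
    (hnext : ∀ z, Walk Q κ v₀ v₁ z v₃ → polar Q v₀ z = polar Q v₀ v₂ + δ →
      Good E π v₀ v₁ z v₃) :
    Good E π v₀ v₁ v₂ v₃ := by
  refine Good.rev hc (move1 hc h.rev δ hw2 hw1 ?_ hwx hq ?_)
  · rw [hwy, polar_comm]
  · intro z hz hzδ
    refine Good.rev hc (hnext z hz.rev ?_)
    rw [polar_comm, hzδ, polar_comm Q v₂ v₀]

variable (hnd : ∀ x, (∀ y, polar Q x y = 0) → x = 0) (hdim : 6 ≤ Module.finrank K V)

include hnd hdim

lemma G1 {v₀ v₁ v₂ v₃ : V} (h : Walk Q κ v₀ v₁ v₂ v₃)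
    (hP : 1 + polar Q v₀ v₂ * polar Q v₁ v₃ + polar Q v₀ v₃ ≠ 0) : Good E π v₀ v₁ v₂ v₃ := by
  rw [← xy h] at hP
  obtain ⟨w, h1, h2, h3, h4, h5⟩ := solve_plane hnd h.b12 hdim (xx1 h) (xx2 h) (yy1 h) (yy2 h) hP
    (polar Q v₀ v₂) (polar Q v₁ v₃) (κ + 1)
  exact direct hc h h1 h2 h3 h4 h5

lemma G2a {v₀ v₁ v₂ v₃ : V} (h : Walk Q κ v₀ v₁ v₂ v₃) (hK : ∃ δ : K, δ ≠ 0 ∧ δ ≠ 1)
    (hP : 1 + polar Q v₀ v₂ * polar Q v₁ v₃ + polar Q v₀ v₃ = 0)
    (hind : ∀ c d : K, c • xx Q v₀ v₁ v₂ + d • xx Q v₃ v₂ v₁ = 0 → c = 0 ∧ d = 0)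
    (hκ : κ = 0 ∨ κ = 1)
    (ha : polar Q v₀ v₂ ≠ 1) (hb : polar Q v₁ v₃ ≠ 0) : Good E π v₀ v₁ v₂ v₃ := by
  have hxy : polar Q (xx Q v₀ v₁ v₂) (xx Q v₃ v₂ v₁) = 0 := by rw [xy h, hP]
  have hex : ∃ δ : K, δ ≠ 0 ∧ ((1 + δ = 0 ∧ Q (xx Q v₀ v₁ v₂) ≠ 0) ∨
      (1 + δ ≠ 0 ∧ Q (xx Q v₀ v₁ v₂) = 0)) := by
    by_cases ha0 : polar Q v₀ v₂ = 0
    · obtain ⟨δ, h0, h1⟩ := hK
      refine ⟨δ, h0, Or.inr ⟨?_, ?_⟩⟩
      · intro h2
        apply h1
        grind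
      · rw [qxx h, ha0]; ring
    · refine ⟨1, one_ne_zero, Or.inl ⟨CharTwo.add_self_eq_zero 1, ?_⟩⟩
      rw [qxx h]
      intro h2
      have h3 : polar Q v₀ v₂ * (κ * polar Q v₀ v₂ + 1) = 0 := by linear_combination h2
      rcases mul_eq_zero.1 h3 with h4 | h4
      · exact ha0 h4
      · rcases hκ with rfl | rfl
        · simp at h4
        · apply ha
          grind
  obtain ⟨δ, hδ0, hδ⟩ := hex
  obtain ⟨w, h1, h2, h3, h4, h5⟩ := solve_deg hnd h.b12 (xx1 h) (xx2 h) (yy1 h) (yy2 h) hxy hind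
    (1 + δ) (polar Q v₁ v₃) (κ + 1) hδ
  refine move2 hc h δ h1 h2 h3 h4 h5 (fun z hz hzδ => G1 hc hnd hdim hz ?_)
  rw [hzδ]
  have : 1 + (polar Q v₀ v₂ + δ) * polar Q v₁ v₃ + polar Q v₀ v₃ = δ * polar Q v₁ v₃ := by
    linear_combination hP
  rw [this]
  exact mul_ne_zero hδ0 hb

lemma G2b {v₀ v₁ v₂ v₃ : V} (h : Walk Q κ v₀ v₁ v₂ v₃) (hK : ∃ δ : K, δ ≠ 0 ∧ δ ≠ 1)
    (hP : 1 + polar Q v₀ v₂ * polar Q v₁ v₃ + polar Q v₀ v₃ = 0)
    (hind : ∀ c d : K, c • xx Q v₀ v₁ v₂ + d • xx Q v₃ v₂ v₁ = 0 → c = 0 ∧ d = 0)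
    (hκ : κ = 0 ∨ κ = 1)
    (hb : polar Q v₁ v₃ ≠ 1) (ha : polar Q v₀ v₂ ≠ 0) : Good E π v₀ v₁ v₂ v₃ := by
  refine Good.rev hc (G2a hc hnd hdim h.rev hK ?_ ?_ hκ ?_ ?_)
  · rw [polar_comm Q v₃ v₁, polar_comm Q v₂ v₀, polar_comm Q v₃ v₀]
    linear_combination hP
  · intro c d hcd
    have := hind d c (by rw [add_comm]; exact hcd)
    exact ⟨this.2, this.1⟩
  · rw [polar_comm]; exact hb
  · rw [polar_comm]; exact ha

lemma G3 {v₀ v₁ v₂ v₃ : V} (h : Walk Q κ v₀ v₁ v₂ v₃)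
    (hP : 1 + polar Q v₀ v₂ * polar Q v₁ v₃ + polar Q v₀ v₃ = 0)
    {τ : K} (hτ : xx Q v₃ v₂ v₁ = τ • xx Q v₀ v₁ v₂) (hx0 : xx Q v₀ v₁ v₂ ≠ 0) (hτ0 : τ ≠ 0)
    (hκ : κ = 0 ∨ κ = 1) (ha : polar Q v₀ v₂ ≠ 1) (hb : polar Q v₁ v₃ ≠ 1)
    (hbad : ¬ (κ = 0 ∧ ∃ c : K, v₃ = c • v₀)) : Good E π v₀ v₁ v₂ v₃ := by
  have hrel : κ * polar Q v₁ v₃ * polar Q v₁ v₃ + polar Q v₁ v₃ =
      τ * τ * (κ * polar Q v₀ v₂ * polar Q v₀ v₂ + polar Q v₀ v₂) := by
    rw [← qyy h, ← qxx h, hτ, qsmul]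
  by_cases hbt : polar Q v₁ v₃ = τ * polar Q v₀ v₂
  · obtain ⟨w, h1, h2, h3, h4⟩ := solve_line hnd h.b12 hdim (xx1 h) (xx2 h) hx0
      (polar Q v₀ v₂) (κ + 1)
    refine direct hc h h1 h2 h3 ?_ h4
    rw [hτ, psmul', h3, hbt]
  by_cases h1 : polar Q v₀ v₂ * (1 + τ * polar Q v₀ v₂) = 0
  · by_cases h2 : polar Q v₁ v₃ * (1 + polar Q v₁ v₃ / τ) = 0
    · exfalso
      have hb' : polar Q v₁ v₃ = 0 ∨ polar Q v₁ v₃ = τ := by
        rcases mul_eq_zero.1 h2 with h3 | h3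
        · exact Or.inl h3
        · right
          field_simp at h3
          grind
      have ha' : polar Q v₀ v₂ = 0 ∨ τ * polar Q v₀ v₂ = 1 := by
        rcases mul_eq_zero.1 h1 with h3 | h3
        · exact Or.inl h3
        · right
          grind
      rcases ha' with ha' | ha' <;> rcases hb' with hb' | hb'
      · apply hbt
        rw [ha', hb', mul_zero]
      · -- `a = 0`, `b = τ`
        rw [ha', hb'] at hrel
        rcases hκ with rfl | rfl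
        · apply hτ0; linear_combination hrel
        · have h5 : τ * (τ + 1) = 0 := by linear_combination hrel
          rcases mul_eq_zero.1 h5 with h6 | h6
          · exact hτ0 h6
          · apply hb
            rw [hb']
            grind
      · -- `τ a = 1`, `b = 0`
        rw [hb'] at hrel
        rcases hκ with rfl | rfl
        · have h5 : τ * (τ * polar Q v₀ v₂) = 0 := by linear_combination -hrel
          rw [ha', mul_one] at h5
          exact hτ0 h5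
        · have h5 : (τ * polar Q v₀ v₂) * (τ * polar Q v₀ v₂) + τ * (τ * polar Q v₀ v₂) = 0 := by
            linear_combination -hrel
          rw [ha'] at h5
          have h6 : τ = 1 := by grind
          rw [h6, one_mul] at ha'
          exact ha ha'
      · -- `τ a = 1`, `b = τ`
        rcases hκ with rfl | rfl
        · apply hbad
          refine ⟨rfl, τ, ?_⟩
          have h5 := hτ
          simp only [xx] at h5
          rw [polar_comm Q v₃ v₁, hb', smul_add, smul_add, smul_smul, ha', one_smul] at h5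
          have h6 : v₃ + τ • v₂ + v₁ = τ • v₀ + τ • v₂ + v₁ := by
            rw [h5]; abel
          exact add_right_cancel (add_right_cancel h6)
        · rw [hb'] at hrel
          have h5 : τ * τ + τ = (τ * polar Q v₀ v₂) * (τ * polar Q v₀ v₂)
              + τ * (τ * polar Q v₀ v₂) := by linear_combination hrel
          rw [ha'] at h5
          have h6 : (τ + 1) * (τ + 1) = 0 := by grind
          have h7 : τ + 1 = 0 := by
            rcases mul_eq_zero.1 h6 with h | h <;> exact h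
          apply hb
          rw [hb']
          grind
    · -- second move
      obtain ⟨w, h3, h4, h5, h6⟩ := solve_line hnd h.b12 hdim (xx1 h) (xx2 h) hx0
        (polar Q v₁ v₃ / τ) (κ + 1)
      refine move2 hc h (1 + polar Q v₁ v₃ / τ) h3 h4 ?_ ?_ h6
        (fun z hz hzδ => G1 hc hnd hdim hz ?_)
      · rw [h5]; grind
      · rw [hτ, psmul', h5]; field_simp
      · rw [hzδ]
        have : 1 + (polar Q v₀ v₂ + (1 + polar Q v₁ v₃ / τ)) * polar Q v₁ v₃ + polar Q v₀ v₃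
            = polar Q v₁ v₃ * (1 + polar Q v₁ v₃ / τ) := by linear_combination hP
        rw [this]
        exact h2
  · -- first move
    obtain ⟨w, h3, h4, h5, h6⟩ := solve_line hnd h.b12 hdim (xx1 h) (xx2 h) hx0
      (polar Q v₀ v₂) (κ + 1)
    refine move1 hc h (1 + τ * polar Q v₀ v₂) h3 h4 h5 ?_ h6
      (fun z hz hzδ => G1 hc hnd hdim hz ?_)
    · rw [hτ, psmul', h5]; grind
    · rw [hzδ]
      have : 1 + polar Q v₀ v₂ * (polar Q v₁ v₃ + (1 + τ * polar Q v₀ v₂)) + polar Q v₀ v₃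
          = polar Q v₀ v₂ * (1 + τ * polar Q v₀ v₂) := by linear_combination hP
      rw [this]
      exact h1

omit [Finite K] hc hnd hdim in
/-- linear dependence of two nonzero vectors -/
lemma dep {x y : V} (hx : x ≠ 0) (hy : y ≠ 0)
    (hdep : ¬ ∀ c d : K, c • x + d • y = 0 → c = 0 ∧ d = 0) : ∃ τ : K, τ ≠ 0 ∧ y = τ • x := by
  push Not at hdep
  obtain ⟨c, d, h, hcd⟩ := hdep
  have hd : d ≠ 0 := by
    intro hd
    rw [hd, zero_smul, add_zero] at h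
    exact hcd ((smul_eq_zero.1 h).resolve_right hx) hd
  have hy' : y = (-(d⁻¹ * c)) • x := by
    have h1 : d • y = -(c • x) := by
      rw [eq_neg_iff_add_eq_zero, add_comm]; exact h
    calc y = d⁻¹ • (d • y) := by rw [smul_smul, inv_mul_cancel₀ hd, one_smul]
      _ = _ := by rw [h1, smul_neg, smul_smul, neg_smul]
  refine ⟨_, ?_, hy'⟩
  intro h0
  rw [h0, zero_smul] at hy'
  exact hy hy'

lemma G2c {v₀ v₁ v₂ v₃ : V} (h : Walk Q κ v₀ v₁ v₂ v₃) (hK : ∃ δ : K, δ ≠ 0 ∧ δ ≠ 1)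
    (hP : 1 + polar Q v₀ v₂ * polar Q v₁ v₃ + polar Q v₀ v₃ = 0)
    (hind : ∀ c d : K, c • xx Q v₀ v₁ v₂ + d • xx Q v₃ v₂ v₁ = 0 → c = 0 ∧ d = 0)
    (hκ : κ = 0 ∨ κ = 1)
    (ha : polar Q v₀ v₂ = 0) (hb : polar Q v₁ v₃ = 0)
    (hbad : ¬ (κ = 0 ∧ ∃ c : K, v₃ = c • v₀)) : Good E π v₀ v₁ v₂ v₃ := by
  obtain ⟨δ, hδ0, hδ1⟩ := hK
  have hxy : polar Q (xx Q v₃ v₂ v₁) (xx Q v₀ v₁ v₂) = 0 := by rw [polar_comm, xy h, hP]
  have hδ2 : 1 + δ ≠ 0 := by
    intro h2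
    apply hδ1
    grind
  obtain ⟨w, h1, h2, h3, h4, h5⟩ := solve_deg hnd h.b12 (yy1 h) (yy2 h) (xx1 h) (xx2 h) hxy
    (fun c d hcd => by
      have := hind d c (by rw [add_comm]; exact hcd)
      exact ⟨this.2, this.1⟩)
    (1 + δ) (polar Q v₀ v₂) (κ + 1) (Or.inr ⟨hδ2, by rw [qyy h, hb]; ring⟩)
  refine move1 hc h δ h1 h2 h4 h3 h5 (fun z hz hzδ => ?_)
  rw [hb, zero_add] at hzδ
  have hP' : 1 + polar Q v₀ v₂ * polar Q z v₃ + polar Q v₀ v₃ = 0 := by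
    rw [ha] at hP ⊢; linear_combination hP
  have hx0 : xx Q v₀ z v₂ ≠ 0 := by
    have : xx Q v₀ z v₂ = xx Q v₀ v₁ v₂ := by simp [xx, ha]
    rw [this]
    intro h0
    have := hind 1 0 (by rw [h0]; simp)
    exact one_ne_zero this.1
  have hy0 : xx Q v₃ v₂ z ≠ 0 := by
    intro h0
    have h6 := qyy hz
    rw [h0, QuadraticMap.map_zero, hzδ] at h6
    rcases hκ with rfl | rfl
    · apply hδ0; linear_combination -h6
    · have h7 : δ * (δ + 1) = 0 := by linear_combination -h6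
      rcases mul_eq_zero.1 h7 with h8 | h8
      · exact hδ0 h8
      · apply hδ1; grind
  by_cases hind' : ∀ c d : K, c • xx Q v₀ z v₂ + d • xx Q v₃ v₂ z = 0 → c = 0 ∧ d = 0
  · exact G2a hc hnd hdim hz ⟨δ, hδ0, hδ1⟩ hP' hind' hκ (by rw [ha]; exact zero_ne_one)
      (by rw [hzδ]; exact hδ0)
  · obtain ⟨τ, hτ0, hτ⟩ := dep hx0 hy0 hind'
    exact G3 hc hnd hdim hz hP' hτ hx0 hτ0 hκ (by rw [ha]; exact zero_ne_one)
      (by rw [hzδ]; exact hδ1) hbad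

lemma good_all {v₀ v₁ v₂ v₃ : V} (h : Walk Q κ v₀ v₁ v₂ v₃) (hK : ∃ δ : K, δ ≠ 0 ∧ δ ≠ 1)
    (hκ : κ = 0 ∨ κ = 1) (hbad : ¬ (κ = 0 ∧ ∃ c : K, v₃ = c • v₀)) :
    Good E π v₀ v₁ v₂ v₃ := by
  by_cases ha : polar Q v₀ v₂ = 1
  · intro ω₀ ω₁ ω₂ ω₃ h01 h12 h23 e0 e1 e2 e3
    exact Or.inr (Or.inr ⟨ω₂, hc.tri _ _ _ h01 h12 (by rw [e0, e2]; exact ha), h23⟩)
  by_cases hb : polar Q v₁ v₃ = 1
  · intro ω₀ ω₁ ω₂ ω₃ h01 h12 h23 e0 e1 e2 e3
    exact Or.inr (Or.inr ⟨ω₁, h01, hc.tri _ _ _ h12 h23 (by rw [e1, e3]; exact hb)⟩)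
  by_cases h02 : v₀ = v₂
  · intro ω₀ ω₁ ω₂ ω₃ h01 h12 h23 e0 e1 e2 e3
    have : ω₀ = ω₂ := hc.uniq ω₁ _ _ (hc.symm _ _ h01) h12 (by rw [e0, e2, h02])
    rw [← this] at h23
    exact Or.inr (Or.inl h23)
  by_cases h13 : v₁ = v₃
  · intro ω₀ ω₁ ω₂ ω₃ h01 h12 h23 e0 e1 e2 e3
    have : ω₁ = ω₃ := hc.uniq ω₂ _ _ (hc.symm _ _ h12) h23 (by rw [e1, e3, h13])
    rw [this] at h01
    exact Or.inr (Or.inl h01)
  by_cases hP : 1 + polar Q v₀ v₂ * polar Q v₁ v₃ + polar Q v₀ v₃ = 0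
  swap
  · exact G1 hc hnd hdim h hP
  -- nonvanishing of the projections
  have nz : ∀ {v₀ v₁ v₂ v₃ : V}, Walk Q κ v₀ v₁ v₂ v₃ → polar Q v₀ v₂ ≠ 1 → v₀ ≠ v₂ →
      xx Q v₀ v₁ v₂ ≠ 0 := by
    intro v₀ v₁ v₂ v₃ h ha h02 h0
    have h6 := qxx h
    rw [h0, QuadraticMap.map_zero] at h6
    have h7 : polar Q v₀ v₂ * (κ * polar Q v₀ v₂ + 1) = 0 := by linear_combination -h6
    rcases mul_eq_zero.1 h7 with h8 | h8
    · apply h02
      simp only [xx, h8, zero_smul, add_zero] at h0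
      have h9 : v₀ = -v₂ := eq_neg_of_add_eq_zero_left h0
      have h2 : (2 : K) = 0 := CharTwo.two_eq_zero
      have h10 : v₂ + v₂ = 0 := by rw [← two_smul K v₂, h2, zero_smul]
      rw [h9, eq_comm]
      exact eq_neg_of_add_eq_zero_left h10
    · rcases hκ with rfl | rfl
      · simp at h8
      · apply ha
        grind
  have hx0 := nz h ha h02
  have hy0 := nz h.rev (by rw [polar_comm]; exact hb) (fun h => h13 h.symm)
  by_cases hind : ∀ c d : K, c • xx Q v₀ v₁ v₂ + d • xx Q v₃ v₂ v₁ = 0 → c = 0 ∧ d = 0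
  · by_cases hb0 : polar Q v₁ v₃ = 0
    · by_cases ha0 : polar Q v₀ v₂ = 0
      · exact G2c hc hnd hdim h hK hP hind hκ ha0 hb0 hbad
      · exact G2b hc hnd hdim h hK hP hind hκ hb ha0
    · exact G2a hc hnd hdim h hK hP hind hκ ha hb0
  · obtain ⟨τ, hτ0, hτ⟩ := dep hx0 hy0 hind
    exact G3 hc hnd hdim h hP hτ hx0 hτ0 hκ ha hb hbad

end cover

end walks

/-- **Simple connectivity, odd case.** -/
theorem SC_odd {K V : Type*} [Field K] [Fintype K] [CharP K 2] (hq : 4 ≤ Fintype.card K)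
    [AddCommGroup V] [Module K V] [FiniteDimensional K V] (Q : QuadraticForm K V)
    (hnd : ∀ x, (∀ y, QuadraticMap.polar Q x y = 0) → x = 0) (hdim : 6 ≤ Module.finrank K V)
    (κ : K) (hκ : κ = 0 ∨ κ = 1) {Ω : Type*} {E : Ω → Ω → Prop} {π : Ω → V}
    (hc : Cover {v : V | Q v = κ ∧ v ≠ 0} (fun v w => QuadraticMap.polar Q v w = 1) E π) :
    Function.Injective π := by
  have hK : ∃ δ : K, δ ≠ 0 ∧ δ ≠ 1 := by
    by_contra hcon
    push Not at hcon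
    classical
    have h1 : (Finset.univ : Finset K) ⊆ {0, 1} := by
      intro x _
      by_cases hx : x = 0
      · simp [hx]
      · simp [hcon x hx]
    have h2 := Finset.card_le_card h1
    have h3 : ({0, 1} : Finset K).card ≤ 2 := Finset.card_le_two
    rw [Finset.card_univ] at h2
    omega
  refine cover_injective hc (fun v w => κ = 0 ∧ ∃ c : K, w = c • v) ?_ ?_ ?_ ?_ ?_
  · intro v _ h
    rw [pself] at h
    exact zero_ne_one h
  · intro v w h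
    rw [polar_comm]; exact h
  · rintro v w h ⟨hκ0, c, rfl⟩
    rw [psmul', pself, mul_zero] at h
    exact zero_ne_one h
  · intro ω₀ ω₁ ω₂ ω₃ h01 h12 h23 hbad
    exact good_all hc hnd hdim ⟨(hc.mem ω₀).1, (hc.mem ω₁).1, (hc.mem ω₂).1, (hc.mem ω₃).1,
      hc.adj _ _ h01, hc.adj _ _ h12, hc.adj _ _ h23⟩ hK hκ hbad ω₀ ω₁ ω₂ ω₃ h01 h12 h23
      rfl rfl rfl rfl
  · intro v₀ hv₀ v₁ hv₁ v₂ hv₂ v₄ hv₄ h01 h12 hbad
    obtain ⟨hκ0, c, hc4⟩ := hbad
    -- a nonzero isotropic vector orthogonal to `v₀, v₁, v₂`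
    have hu : ∃ u : V, u ≠ 0 ∧ Q u = 0 ∧ polar Q u v₀ = 0 ∧ polar Q u v₁ = 0 ∧
        polar Q u v₂ = 0 := by
      obtain ⟨e, he0, he⟩ := exists_orth (Q := Q) ![v₀, v₁, v₂] (by omega)
      have he1 : polar Q e v₀ = 0 := he 0
      have he2 : polar Q e v₁ = 0 := he 1
      have he3 : polar Q e v₂ = 0 := he 2
      by_cases hQe : Q e = 0
      · exact ⟨e, he0, hQe, he1, he2, he3⟩
      obtain ⟨g, hg⟩ := exists_one hnd he0
      obtain ⟨f, hf0, hf⟩ := exists_orth (Q := Q) ![v₀, v₁, v₂, e, g] (by omega)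
      have hf1 : polar Q f v₀ = 0 := hf 0
      have hf2 : polar Q f v₁ = 0 := hf 1
      have hf3 : polar Q f v₂ = 0 := hf 2
      have hf4 : polar Q f e = 0 := hf 3
      have hf5 : polar Q f g = 0 := hf 4
      obtain ⟨s, hs⟩ := exists_sqrt (Q f / Q e)
      have hs' : s * s * Q e = Q f := by rw [hs]; field_simp
      refine ⟨f + s • e, ?_, ?_, ?_, ?_, ?_⟩
      · intro h0
        have h1 : polar Q g (f + s • e) = 0 := by rw [h0, polar_zero_right]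
        rw [padd', psmul', hg, polar_comm Q g f, hf5] at h1
        have hs0 : s = 0 := by linear_combination h1
        rw [hs0, zero_smul, add_zero] at h0
        exact hf0 h0
      · rw [qadd, qsmul, psmul', hf4, hs']
        grind
      · rw [padd, psmul, hf1, he1]; ring
      · rw [padd, psmul, hf2, he2]; ring
      · rw [padd, psmul, hf3, he3]; ring
    obtain ⟨u, hu0, hQu, hu1, hu2, hu3⟩ := hu
    have hw0 : polar Q v₀ (v₁ + u) = 1 := by
      rw [padd', h01, polar_comm Q v₀ u, hu1, add_zero]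
    refine ⟨v₁ + u, ⟨?_, ?_⟩, hw0, ?_, ?_⟩
    · rw [qadd, hQu, polar_comm Q v₁ u, hu2, hv₁.1]; ring
    · intro h0
      rw [h0, polar_zero_right] at hw0
      exact zero_ne_one hw0
    · show polar Q (v₁ + u) v₂ = 1
      rw [padd, h12, hu3, add_zero]
    · rintro ⟨-, c', hc'⟩
      rw [hc4] at hc'
      have h1 : polar Q (c • v₁) v₂ = polar Q (c' • (v₁ + u)) v₂ := by rw [hc']
      rw [psmul, psmul, padd, h12, hu3, add_zero, mul_one, mul_one] at h1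
      rw [h1, smul_add] at hc'
      have h2 : c' • u = 0 := by
        have : c' • v₁ + 0 = c' • v₁ + c' • u := by rw [add_zero]; exact hc'
        exact (add_left_cancel this).symm
      rcases smul_eq_zero.1 h2 with h3 | h3
      · apply hv₄.2
        rw [hc4, h1, h3, zero_smul]
      · exact hu0 h3

end Pool.Agent.Helper56.YGOdd
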