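import Mathlib
import Pool.Agent.Helper56.YGOdd

set_option autoImplicit false
set_option linter.unusedSectionVars false

namespace Pool.Agent.Helper56.YGConn

open Pool.Agent.Helper56.YGOdd QuadraticMap

section

variable {K V : Type*} [Field K] [CharP K 2] [Finite K] [AddCommGroup V] [Module K V]
  {Q : QuadraticForm K V} (hnd : ∀ x, (∀ y, polar Q x y = 0) → x = 0)

include hnd

/-- two independent vectors -/
lemma solve_two (hdim : 6 ≤ Module.finrank K V) {v w : V}
    (hind : ∀ c d : K, c • v + d • w = 0 → c = 0 ∧ d = 0) (s t r : K) :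
    ∃ x, polar Q x v = s ∧ polar Q x w = t ∧ Q x = r := by
  obtain ⟨g₁, h1v, h1w⟩ := lin2 hnd hind 1 0
  obtain ⟨g₂, h2v, h2w⟩ := lin2 hnd hind 0 1
  obtain ⟨e, he0, he⟩ := exists_orth (Q := Q) ![v, w, g₁, g₂] (by omega)
  have he1 : polar Q e v = 0 := he 0
  have he2 : polar Q e w = 0 := he 1
  have he3 : polar Q e g₁ = 0 := he 2
  have he4 : polar Q e g₂ = 0 := he 3
  obtain ⟨g, hg⟩ := exists_one hnd he0
  set f := g + (polar Q g v • g₁ + polar Q g w • g₂) with hf
  have hfe : polar Q e f = 1 := by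
    rw [hf, padd', padd', psmul', psmul', he3, he4, polar_comm Q e g, hg]; ring
  have hfv : polar Q f v = 0 := by
    rw [hf, padd, padd, psmul, psmul, h1v, h2v]; grind
  have hfw : polar Q f w = 0 := by
    rw [hf, padd, padd, psmul, psmul, h1w, h2w]; grind
  obtain ⟨α, β, hαβ⟩ := solve2 hfe (s • g₁ + t • g₂) r
  refine ⟨_, ?_, ?_, hαβ⟩
  · simp only [padd, psmul, h1v, h2v, he1, hfv]; ring
  · simp only [padd, psmul, h1w, h2w, he2, hfw]; ring

lemma ne_zero_of_polar {x y : V} {c : K} (h : polar Q x y = c) (hc : c ≠ 0) : x ≠ 0 := by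
  intro h0
  rw [h0, polar_zero_left] at h
  exact hc h.symm

end

theorem conn_odd {K V : Type*} [Field K] [Fintype K] [CharP K 2] (hq : 4 ≤ Fintype.card K)
    [AddCommGroup V] [Module K V] [FiniteDimensional K V] (Q : QuadraticForm K V)
    (hnd : ∀ x, (∀ y, QuadraticMap.polar Q x y = 0) → x = 0) (hdim : 6 ≤ Module.finrank K V)
    (κ : K) (hκ : κ = 0 ∨ κ = 1) (v w : V) (hv : Q v = κ ∧ v ≠ 0) (hw : Q w = κ ∧ w ≠ 0) :
    Relation.ReflTransGen (fun a b => (Q b = κ ∧ b ≠ 0) ∧ QuadraticMap.polar Q a b = 1) v w := by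
  have aux : ∀ v w : V, (Q v = κ ∧ v ≠ 0) → (Q w = κ ∧ w ≠ 0) →
      (∀ c d : K, c • v + d • w = 0 → c = 0 ∧ d = 0) →
      Relation.ReflTransGen (fun a b => (Q b = κ ∧ b ≠ 0) ∧ QuadraticMap.polar Q a b = 1) v w := by
    intro v w hv hw hind
    obtain ⟨x, hxv, hxw, hx⟩ := solve_two hnd hdim hind 1 1 κ
    have hx0 : x ≠ 0 := ne_zero_of_polar hnd hxv one_ne_zero
    refine Relation.ReflTransGen.tail (Relation.ReflTransGen.tail Relation.ReflTransGen.refl
      (b := v) (c := x) ⟨⟨hx, hx0⟩, ?_⟩) ⟨hw, hxw⟩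
    rw [polar_comm]; exact hxv
  obtain ⟨g, hg⟩ := exists_one hnd hv.2
  have hind : ∀ c d : K, c • v + d • g = 0 → c = 0 ∧ d = 0 := by
    intro c d h
    have h1 : polar Q (c • v + d • g) v = 0 := by rw [h, polar_zero_left]
    rw [padd, psmul, psmul, pself, hg] at h1
    have hd : d = 0 := by linear_combination h1
    rw [hd, zero_smul, add_zero] at h
    exact ⟨(smul_eq_zero.1 h).resolve_right hv.2, hd⟩
  obtain ⟨x, hxv, -, hx⟩ := solve_two hnd hdim hind 1 0 κ
  have hx0 : x ≠ 0 := ne_zero_of_polar hnd hxv one_ne_zero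
  by_cases hvw : ∀ c d : K, c • v + d • w = 0 → c = 0 ∧ d = 0
  · exact aux v w hv hw hvw
  · obtain ⟨τ, hτ0, hτ⟩ := dep hv.2 hw.2 hvw
    refine Relation.ReflTransGen.head (b := x) ⟨⟨hx, hx0⟩, by rw [polar_comm]; exact hxv⟩
      (aux x w ⟨hx, hx0⟩ hw ?_)
    intro c d h
    have h1 : polar Q (c • x + d • w) v = 0 := by rw [h, polar_zero_left]
    rw [padd, psmul, psmul, hxv, hτ, psmul, pself] at h1
    have hc : c = 0 := by linear_combination h1
    rw [hc, zero_smul, zero_add] at h
    exact ⟨hc, (smul_eq_zero.1 h).resolve_right hw.2⟩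

theorem conn_even {K V : Type*} [Field K] [Fintype K] [CharP K 2] (hq : 4 ≤ Fintype.card K)
    [AddCommGroup V] [Module K V] [FiniteDimensional K V] (Q : QuadraticForm K V)
    (hnd : ∀ x, (∀ y, QuadraticMap.polar Q x y = 0) → x = 0) (hdim : 6 ≤ Module.finrank K V)
    (ρ : V) (hρ0 : ρ ≠ 0) (hρ : Q ρ = 0 ∨ Q ρ = 1) (v w : V)
    (hv : QuadraticMap.polar Q v ρ = 1 ∧ Q v = 1) (hw : QuadraticMap.polar Q w ρ = 1 ∧ Q w = 1) :
    Relation.ReflTransGen (fun a b => (QuadraticMap.polar Q b ρ = 1 ∧ Q b = 1) ∧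
      QuadraticMap.polar Q a b = 1 ∧ a + b ≠ ρ) v w := by
  have h2 : (2 : K) = 0 := CharTwo.two_eq_zero
  have vv : ∀ x : V, x + x = 0 := fun x => by rw [← two_smul K x, h2, zero_smul]
  obtain ⟨t, ht0, ht1⟩ : ∃ δ : K, δ ≠ 0 ∧ δ ≠ 1 := by
    by_contra hcon
    push Not at hcon
    classical
    have h1 : (Finset.univ : Finset K) ⊆ {0, 1} := by
      intro x _
      by_cases hx : x = 0
      · simp [hx]
      · simp [hcon x hx]
    have h2 := Finset.card_le_card h1
    have h3 : ({0, 1} : Finset K).card ≤ 2 := Finset.card_le_two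
    rw [Finset.card_univ] at h2
    omega
  have aux : ∀ v w : V, (polar Q v ρ = 1 ∧ Q v = 1) → (polar Q w ρ = 1 ∧ Q w = 1) →
      v + w + polar Q v w • ρ ≠ 0 →
      Relation.ReflTransGen (fun a b => (QuadraticMap.polar Q b ρ = 1 ∧ Q b = 1) ∧
        QuadraticMap.polar Q a b = 1 ∧ a + b ≠ ρ) v w := by
    intro v w hv hw hr0
    set b := polar Q v w with hb
    set r := v + w + b • ρ with hr
    have hrv : polar Q r v = 0 := by
      rw [hr, padd, padd, psmul, pself, polar_comm Q w v, polar_comm Q ρ v, hv.1, ← hb]; grind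
    have hrρ : polar Q r ρ = 0 := by
      rw [hr, padd, padd, psmul, pself, hv.1, hw.1]; grind
    obtain ⟨y0, hy0⟩ := exists_one hnd hr0
    obtain ⟨y, hyv, hyρ, hy⟩ := proj hv.1 y0
    have hry : polar Q r y = 1 := by rw [polar_comm, hy r hrv hrρ, hy0]
    obtain ⟨z, hz1, hz2, hz3, hz4, hz5⟩ := solve_plane hnd hv.1 hdim hrv hrρ hyv hyρ
      (by rw [hry]; exact one_ne_zero) b t (1 + Q ρ)
    have hw' : w = v + b • ρ + r := by
      rw [hr]
      calc w = (v + v) + (b • ρ + b • ρ) + w := by rw [vv, vv]; abel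
        _ = _ := by abel
    have hzr : polar Q z r = b := hz3
    have ezw : polar Q z w = b := by
      rw [hw', padd', padd', psmul', hz1, hz2, hzr]; ring
    have hxv : polar Q v (v + ρ + z) = 1 := by
      rw [padd', padd', pself, hv.1, polar_comm Q v z, hz1]; ring
    have hxρ : polar Q (v + ρ + z) ρ = 1 := by
      rw [padd, padd, pself, hv.1, hz2]; ring
    have hxw : polar Q (v + ρ + z) w = 1 := by
      rw [padd, padd, ← hb, polar_comm Q ρ w, hw.1, ezw]; grind
    have hQx : Q (v + ρ + z) = 1 := by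
      rw [qadd, qadd, padd, polar_comm Q v z, polar_comm Q ρ z, hz1, hz2, hv.1, hv.2, hz5]; grind
    refine Relation.ReflTransGen.tail (Relation.ReflTransGen.tail Relation.ReflTransGen.refl
      (b := v) (c := v + ρ + z) ⟨⟨hxρ, hQx⟩, hxv, ?_⟩) ⟨hw, hxw, ?_⟩
    · intro h
      have hz0 : z = 0 := by
        have e1 : v + (v + ρ + z) = (v + v) + (ρ + z) := by abel
        rw [e1, vv, zero_add] at h
        exact add_eq_left.1 h
      rw [hz0, polar_zero_left] at hz4
      exact ht0 hz4.symm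
    · intro h
      -- then `z = v + w`
      have hz0 : z = v + w := by
        have : v + ρ + z + w + (v + w) + ρ = z := by
          calc v + ρ + z + w + (v + w) + ρ = (v + v) + (ρ + ρ) + (w + w) + z := by abel
            _ = z := by simp only [vv, zero_add]
        rw [← this, h]
        calc ρ + (v + w) + ρ = (ρ + ρ) + (v + w) := by abel
          _ = v + w := by rw [vv, zero_add]
      have hb0 : b = 0 := by
        rw [hz0, padd, pself, polar_comm Q w v, ← hb] at hz1
        linear_combination hz1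
      rw [hz0] at hz4
      have hr' : r = v + w := by rw [hr, hb0, zero_smul, add_zero]
      rw [← hr', hry] at hz4
      exact ht1 hz4.symm
  by_cases hr : v + w + polar Q v w • ρ = 0
  · by_cases hb0 : polar Q v w = 0
    · rw [hb0, zero_smul, add_zero] at hr
      have : v = w := by
        calc v = v + (w + w) := by rw [vv, add_zero]
          _ = (v + w) + w := by abel
          _ = w := by rw [hr, zero_add]
      rw [this]
    · -- `w = v + ρ`
      have hw' : w = v + polar Q v w • ρ := by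
        calc w = (v + w + polar Q v w • ρ) + (v + polar Q v w • ρ) - ((v + v) + (polar Q v w • ρ
              + polar Q v w • ρ)) := by abel
          _ = _ := by rw [hr, vv, vv]; abel
      have h1 : Q w = Q (v + polar Q v w • ρ) := by rw [← hw']
      rw [qadd, qsmul, psmul', hv.1, hv.2, hw.2] at h1
      have h3 : polar Q v w * (polar Q v w * Q ρ + 1) = 0 := by linear_combination -h1
      have h4 : polar Q v w * Q ρ + 1 = 0 := (mul_eq_zero.1 h3).resolve_left hb0
      have hQρ : Q ρ = 1 := by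
        rcases hρ with h | h
        · rw [h] at h4; simp at h4
        · exact h
      have hb1 : polar Q v w = 1 := by rw [hQρ] at h4; grind
      rw [hb1, one_smul] at hw'
      obtain ⟨r0, hr00, hr0⟩ := exists_orth (Q := Q) ![v, ρ] (by omega)
      have hr1 : polar Q r0 v = 0 := hr0 0
      have hr2 : polar Q r0 ρ = 0 := hr0 1
      obtain ⟨z, hz1, hz2, hz3, hz4⟩ := solve_line hnd hv.1 hdim hr1 hr2 hr00 1 (1 + Q ρ)
      have hz0 : z ≠ 0 := ne_zero_of_polar hnd hz3 one_ne_zero
      have hxv : polar Q v (v + ρ + z) = 1 := by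
        rw [padd', padd', pself, hv.1, polar_comm Q v z, hz1]; ring
      have hxρ : polar Q (v + ρ + z) ρ = 1 := by
        rw [padd, padd, pself, hv.1, hz2]; ring
      have hQx : Q (v + ρ + z) = 1 := by
        rw [qadd, qadd, padd, polar_comm Q v z, polar_comm Q ρ z, hz1, hz2, hv.1, hv.2, hz4]; grind
      refine Relation.ReflTransGen.head (b := v + ρ + z) ⟨⟨hxρ, hQx⟩, hxv, ?_⟩
        (aux _ _ ⟨hxρ, hQx⟩ hw ?_)
      · intro h
        apply hz0
        have : v + (v + ρ + z) + ρ = z := by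
          calc v + (v + ρ + z) + ρ = (v + v) + (ρ + ρ) + z := by abel
            _ = z := by rw [vv, vv]; abel
        rw [← this, h, vv]
      · have h5 : polar Q (v + ρ + z) w = 0 := by
          rw [hw']
          simp only [padd, padd', pself, hv.1, hz1, hz2, polar_comm Q ρ v]
          grind
        rw [h5, zero_smul, add_zero, hw']
        intro h
        apply hz0
        calc z = (v + ρ + z + (v + ρ)) - ((v + v) + (ρ + ρ)) := by abel
          _ = 0 := by rw [h, vv, vv]; abel
  · exact aux v w hv hw hr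

end Pool.Agent.Helper56.YGConn
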