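import Mathlib
import Pool.Agent.Helper47.MA.Defs

set_option autoImplicit false

namespace Pool.Agent.Helper56.MAFinal

open Set Pool.Agent.Helper47.MA

section basics

variable {U : Set (ℝ × ℝ)} {u : ℝ × ℝ → ℝ}

lemma fderiv_contDiffOn (hU : IsOpen U) (hu : ContDiffOn ℝ 2 u U) :
    ContDiffOn ℝ 1 (fderiv ℝ u) U :=
  hu.fderiv_of_isOpen hU (by norm_num)

lemma fderiv_diffAt (hU : IsOpen U) (hu : ContDiffOn ℝ 2 u U) {z : ℝ × ℝ} (hz : z ∈ U) :
    DifferentiableAt ℝ (fderiv ℝ u) z :=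
  ((fderiv_contDiffOn hU hu).differentiableOn (by norm_num)).differentiableAt (hU.mem_nhds hz)

lemma diffAt (hU : IsOpen U) (hu : ContDiffOn ℝ 2 u U) {z : ℝ × ℝ} (hz : z ∈ U) :
    DifferentiableAt ℝ u z :=
  (hu.differentiableOn (by norm_num)).differentiableAt (hU.mem_nhds hz)

lemma D2_eq (hU : IsOpen U) (hu : ContDiffOn ℝ 2 u U) {z : ℝ × ℝ} (hz : z ∈ U) (a b : ℝ × ℝ) :
    D2 u z a b = fderiv ℝ (fderiv ℝ u) z b a := by
  unfold D2
  have hd := fderiv_diffAt hU hu hz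
  have h := (hd.hasFDerivAt.clm_apply (hasFDerivAt_const a z)).fderiv
  rw [h]
  simp

lemma D2_symm (hU : IsOpen U) (hu : ContDiffOn ℝ 2 u U) {z : ℝ × ℝ} (hz : z ∈ U) (a b : ℝ × ℝ) :
    D2 u z a b = D2 u z b a := by
  rw [D2_eq hU hu hz, D2_eq hU hu hz]
  have h : ContDiffAt ℝ 2 u z := hu.contDiffAt (hU.mem_nhds hz)
  have := h.isSymmSndFDerivAt (by simp)
  exact this b a

lemma D2_expand (hU : IsOpen U) (hu : ContDiffOn ℝ 2 u U) {z : ℝ × ℝ} (hz : z ∈ U)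
    (a b : ℝ × ℝ) :
    D2 u z a b = a.1 * b.1 * D2 u z e1 e1 + (a.1 * b.2 + a.2 * b.1) * D2 u z e1 e2
      + a.2 * b.2 * D2 u z e2 e2 := by
  have hs := D2_symm hU hu hz e1 e2
  have ha : a = a.1 • e1 + a.2 • e2 := by ext <;> simp [e1, e2]
  have hb : b = b.1 • e1 + b.2 • e2 := by ext <;> simp [e1, e2]
  rw [D2_eq hU hu hz e1 e2, D2_eq hU hu hz e2 e1] at hs
  rw [D2_eq hU hu hz, D2_eq hU hu hz, D2_eq hU hu hz, D2_eq hU hu hz]
  conv_lhs => rw [ha, hb]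
  simp only [map_add, map_smul, add_apply, smul_apply, smul_eq_mul]
  rw [← hs]
  ring

lemma D2_cont (hU : IsOpen U) (hu : ContDiffOn ℝ 2 u U) (a b : ℝ × ℝ) :
    ContinuousOn (fun z => D2 u z a b) U := by
  have h1 : ContinuousOn (fderiv ℝ (fderiv ℝ u)) U :=
    (fderiv_contDiffOn hU hu).continuousOn_fderiv_of_isOpen hU (by norm_num)
  have h2 : ContinuousOn (fun z => fderiv ℝ (fderiv ℝ u) z b a) U := by
    have h3 : ContinuousOn (fun z => fderiv ℝ (fderiv ℝ u) z b) U :=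
      h1.clm_apply continuousOn_const
    exact h3.clm_apply continuousOn_const
  exact h2.congr (fun z hz => D2_eq hU hu hz a b)

end basics

section affine

/-- The linear map `ξ ↦ ξ.1 f + ξ.2 g`. -/
noncomputable def lin (f g : ℝ × ℝ) : (ℝ × ℝ) →L[ℝ] (ℝ × ℝ) :=
  (ContinuousLinearMap.fst ℝ ℝ ℝ).smulRight f + (ContinuousLinearMap.snd ℝ ℝ ℝ).smulRight g

lemma lin_apply (f g ξ : ℝ × ℝ) : lin f g ξ = ξ.1 • f + ξ.2 • g := by simp [lin]

/-- The inverse of `lin f g` when the determinant is nonzero. -/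
noncomputable def linInv (f g : ℝ × ℝ) : (ℝ × ℝ) →L[ℝ] (ℝ × ℝ) :=
  (f.1 * g.2 - f.2 * g.1)⁻¹ • lin (g.2, -f.2) (-g.1, f.1)

lemma lin_linInv {f g : ℝ × ℝ} (hdet : f.1 * g.2 - f.2 * g.1 ≠ 0) (w : ℝ × ℝ) :
    lin f g (linInv f g w) = w := by
  ext
  · simp only [linInv, smul_apply, lin_apply, Prod.smul_fst, Prod.smul_snd, Prod.fst_add,
      Prod.snd_add, smul_eq_mul]
    field_simp
    ring
  · simp only [linInv, smul_apply, lin_apply, Prod.smul_fst, Prod.smul_snd, Prod.fst_add,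
      Prod.snd_add, smul_eq_mul]
    field_simp
    ring

lemma linInv_lin {f g : ℝ × ℝ} (hdet : f.1 * g.2 - f.2 * g.1 ≠ 0) (w : ℝ × ℝ) :
    linInv f g (lin f g w) = w := by
  ext
  · simp only [linInv, smul_apply, lin_apply, Prod.smul_fst, Prod.smul_snd, Prod.fst_add,
      Prod.snd_add, smul_eq_mul]
    field_simp
    ring
  · simp only [linInv, smul_apply, lin_apply, Prod.smul_fst, Prod.smul_snd, Prod.fst_add,
      Prod.snd_add, smul_eq_mul]
    field_simp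
    ring

lemma norm_lin_le (f g ξ : ℝ × ℝ) : ‖lin f g ξ‖ ≤ ‖ξ‖ * (‖f‖ + ‖g‖) := by
  rw [lin_apply]
  calc ‖ξ.1 • f + ξ.2 • g‖ ≤ ‖ξ.1 • f‖ + ‖ξ.2 • g‖ := norm_add_le _ _
    _ = ‖ξ.1‖ * ‖f‖ + ‖ξ.2‖ * ‖g‖ := by rw [norm_smul, norm_smul]
    _ ≤ ‖ξ‖ * ‖f‖ + ‖ξ‖ * ‖g‖ := by
        gcongr
        · exact norm_fst_le ξ
        · exact norm_snd_le ξ
    _ = _ := by ring

lemma D2_comp_affine {W : Set (ℝ × ℝ)} (hW : IsOpen W) {u : ℝ × ℝ → ℝ}
    (hu : ContDiffOn ℝ 2 u W) (z : ℝ × ℝ) (L : (ℝ × ℝ) →L[ℝ] (ℝ × ℝ)) (c : ℝ) {ξ : ℝ × ℝ}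
    (hξ : z + L ξ ∈ W) (a b : ℝ × ℝ) :
    D2 (fun ξ => c * u (z + L ξ)) ξ a b = c * D2 u (z + L ξ) (L a) (L b) := by
  have hcont : Continuous (fun ξ => z + L ξ) := by fun_prop
  have hW' : IsOpen {ξ | z + L ξ ∈ W} := hW.preimage hcont
  have haff : ∀ ξ, HasFDerivAt (fun ξ => z + L ξ) L ξ := fun ξ => by
    simpa using (L.hasFDerivAt (x := ξ)).const_add z
  have h1 : (fun w => fderiv ℝ (fun ξ => c * u (z + L ξ)) w a) =ᶠ[nhds ξ]
      fun w => c * (fun y => fderiv ℝ u y (L a)) (z + L w) := by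
    filter_upwards [hW'.mem_nhds hξ] with w hw
    have hd := (diffAt hW hu hw).hasFDerivAt
    have h2 := (hd.comp w (haff w)).const_mul c
    have h3 : (fun ξ => c * u (z + L ξ)) = fun y => c * (u ∘ fun ξ => z + L ξ) y := rfl
    rw [h3, h2.fderiv]
    simp
  unfold D2
  rw [h1.fderiv_eq]
  have hG : DifferentiableAt ℝ (fun y => fderiv ℝ u y (L a)) (z + L ξ) :=
    (fderiv_diffAt hW hu hξ).clm_apply (differentiableAt_const _)
  have h4 := (hG.hasFDerivAt.comp ξ (haff ξ)).const_mul c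
  have h5 : (fun w => c * (fun y => fderiv ℝ u y (L a)) (z + L w)) =
      fun y => c * ((fun y => fderiv ℝ u y (L a)) ∘ fun ξ => z + L ξ) y := rfl
  rw [h5, h4.fderiv]
  simp

end affine

section bump

lemma bump (h : NLStatement) (z : ℝ × ℝ) {R : ℝ} (hR : 0 < R) (f g : ℝ × ℝ)
    (hdet : f.1 * g.2 - f.2 * g.1 ≠ 0) (N : ℕ) {η : ℝ} (hη : 0 < η) :
    ∃ k : ℝ × ℝ → ℝ, ContDiff ℝ (↑(⊤ : ℕ∞)) k ∧ (∀ w, R ≤ ‖w - z‖ → k w = 0) ∧
      (∃ w, ‖w - z‖ < R ∧ k w < 0) ∧ (∀ n ≤ N, ∀ w, ‖iteratedFDeriv ℝ n k w‖ ≤ η) ∧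
      ∀ (u : ℝ × ℝ → ℝ) (σ : ℝ), σ ^ 2 = 1 → ContDiffOn ℝ 2 u (Metric.ball z R) →
        (∀ w ∈ Metric.ball z R, |σ * D2 u w g g - 1| ≤ 1 / 1000 ∧ |D2 u w f g| ≤ 1 / 1000 ∧
          MAop u w = k w) → False := by
  set d := f.1 * g.2 - f.2 * g.1 with hd
  set S := ‖f‖ + ‖g‖ with hS
  have hS0 : 0 ≤ S := by positivity
  set r := R / (20 * (1 + S)) with hr
  have hr0 : 0 < r := by positivity
  have hrS : r * S ≤ R / 20 := by
    rw [hr, div_mul_eq_mul_div, div_le_div_iff₀ (by positivity) (by norm_num)]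
    nlinarith
  set T : (ℝ × ℝ) →L[ℝ] (ℝ × ℝ) := r⁻¹ • linInv f g with hT
  set c := (d⁻¹) ^ 2 with hc
  have hd1 : d⁻¹ ≠ 0 := inv_ne_zero hdet
  have hc0 : 0 < c := by positivity
  have hTN : 0 < (1 + ‖T‖) ^ N := by positivity
  obtain ⟨K', hK1, hK2, ⟨ξ0, hξ0⟩, hK4, hK5⟩ := h N (η / (c * (1 + ‖T‖) ^ N)) (by positivity)
  have hTl : ∀ w, T (r • lin f g w) = w := fun w => by
    simp only [hT, smul_apply, map_smul, smul_smul]
    rw [linInv_lin hdet, mul_inv_cancel₀ hr0.ne', one_smul]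
  have hlT : ∀ w, r • lin f g (T w) = w := fun w => by
    simp only [hT, smul_apply, map_smul, smul_smul]
    rw [lin_linInv hdet, mul_inv_cancel₀ hr0.ne', one_smul]
  have hnorm : ∀ ξ, ‖r • lin f g ξ‖ ≤ ‖ξ‖ * (R / 20) := fun ξ => by
    rw [norm_smul, Real.norm_of_nonneg hr0.le]
    calc r * ‖lin f g ξ‖ ≤ r * (‖ξ‖ * S) := by gcongr; exact norm_lin_le f g ξ
      _ = ‖ξ‖ * (r * S) := by ring
      _ ≤ ‖ξ‖ * (R / 20) := by gcongr
  refine ⟨fun w => c * K' (T (w - z)), ?_, ?_, ?_, ?_, ?_⟩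
  · exact contDiff_const.mul (hK1.comp (T.contDiff.comp (contDiff_id.sub contDiff_const)))
  · intro w hw
    have h1 : ‖w - z‖ ≤ ‖T (w - z)‖ * (R / 20) := by
      calc ‖w - z‖ = ‖r • lin f g (T (w - z))‖ := by rw [hlT]
        _ ≤ _ := hnorm _
    have h2 : 10 ≤ ‖T (w - z)‖ := by
      by_contra hcon
      push Not at hcon
      have : ‖T (w - z)‖ * (R / 20) ≤ 10 * (R / 20) := by gcongr
      linarith
    show c * K' (T (w - z)) = 0
    rw [hK2 _ h2, mul_zero]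
  · have h1 : ‖ξ0‖ < 10 := by
      by_contra hcon
      push Not at hcon
      rw [hK2 _ hcon] at hξ0
      exact lt_irrefl _ hξ0
    refine ⟨z + r • lin f g ξ0, ?_, ?_⟩
    · have h2 := hnorm ξ0
      have h3 : ‖ξ0‖ * (R / 20) ≤ 10 * (R / 20) := by gcongr
      have h4 : z + r • lin f g ξ0 - z = r • lin f g ξ0 := by abel
      rw [h4]
      linarith
    · have h4 : z + r • lin f g ξ0 - z = r • lin f g ξ0 := by abel
      show c * K' (T (z + r • lin f g ξ0 - z)) < 0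
      rw [h4, hTl]
      exact mul_neg_of_pos_of_neg hc0 hξ0
  · intro n hn w
    have hsm : ContDiff ℝ (↑(⊤ : ℕ∞)) (K' ∘ T) := hK1.comp T.contDiff
    have e1 : iteratedFDeriv ℝ n (fun w => c * K' (T (w - z))) w
        = c • iteratedFDeriv ℝ n (K' ∘ T) (w - z) := by
      have h5 : (fun w => c * K' (T (w - z))) = c • (fun w => (K' ∘ T) (w - z)) := by
        funext w; simp
      rw [h5, iteratedFDeriv_const_smul_apply, iteratedFDeriv_comp_sub]
      have h6 : ContDiff ℝ (↑(⊤ : ℕ∞)) (fun w => (K' ∘ T) (w - z)) :=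
        hsm.comp (contDiff_id.sub contDiff_const)
      exact (h6.of_le (by exact_mod_cast le_top)).contDiffAt
    rw [e1, norm_smul, Real.norm_of_nonneg hc0.le,
      T.iteratedFDeriv_comp_right hK1 (w - z) (i := n) (by exact_mod_cast le_top)]
    have h7 := ContinuousMultilinearMap.norm_compContinuousLinearMap_le
      (iteratedFDeriv ℝ n K' (T (w - z))) (fun _ : Fin n => T)
    have h8 : (∏ _i : Fin n, ‖T‖) ≤ (1 + ‖T‖) ^ N := by
      simp only [Finset.prod_const, Finset.card_univ, Fintype.card_fin]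
      calc ‖T‖ ^ n ≤ (1 + ‖T‖) ^ n := by
            gcongr
            linarith
        _ ≤ (1 + ‖T‖) ^ N := pow_le_pow_right₀ (by linarith [norm_nonneg T]) hn
    calc c * ‖(iteratedFDeriv ℝ n K' (T (w - z))).compContinuousLinearMap fun _ => T‖
        ≤ c * (‖iteratedFDeriv ℝ n K' (T (w - z))‖ * ∏ _i : Fin n, ‖T‖) := by gcongr
      _ ≤ c * ((η / (c * (1 + ‖T‖) ^ N)) * (1 + ‖T‖) ^ N) := by
          gcongr
          exact hK4 n hn _
      _ = η := by field_simp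
  · intro u σ hσ hu hw
    have hσ1 : |σ| = 1 := by
      have := sq_abs σ
      rw [hσ] at this
      nlinarith [abs_nonneg σ]
    refine hK5 ⟨fun ξ => (σ * (r⁻¹) ^ 2) * u (z + (r • lin f g) ξ), ?_, ?_⟩
    · have hmaps : MapsTo (fun ξ => z + (r • lin f g) ξ) (Ioo (-3 : ℝ) 3 ×ˢ Ioo (-1 : ℝ) 1)
          (Metric.ball z R) := by
        intro ξ hξ
        have h1 : ‖ξ‖ ≤ 3 := by
          rw [Prod.norm_def]
          have := hξ.1; have := hξ.2
          simp only [mem_Ioo] at *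
          refine max_le (abs_le.2 ⟨by linarith, by linarith⟩) (abs_le.2 ⟨by linarith, by linarith⟩)
        have h2 := hnorm ξ
        have h3 : ‖ξ‖ * (R / 20) ≤ 3 * (R / 20) := by gcongr
        rw [Metric.mem_ball, dist_eq_norm]
        have h4 : z + (r • lin f g) ξ - z = r • lin f g ξ := by
          simp
        rw [h4]
        linarith
      have h5 : ContDiff ℝ 2 (fun ξ => z + (r • lin f g) ξ) :=
        contDiff_const.add (r • lin f g).contDiff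
      exact contDiffOn_const.mul (hu.comp h5.contDiffOn hmaps)
    · intro ξ hξ
      have h1 : ‖ξ‖ ≤ 3 := by
        rw [Prod.norm_def]
        have := hξ.1; have := hξ.2
        simp only [mem_Ioo] at *
        refine max_le (abs_le.2 ⟨by linarith, by linarith⟩) (abs_le.2 ⟨by linarith, by linarith⟩)
      have h2 := hnorm ξ
      have h3 : ‖ξ‖ * (R / 20) ≤ 3 * (R / 20) := by gcongr
      have hmem : z + (r • lin f g) ξ ∈ Metric.ball z R := by
        rw [Metric.mem_ball, dist_eq_norm]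
        have h4 : z + (r • lin f g) ξ - z = r • lin f g ξ := by simp
        rw [h4]
        linarith
      have hD := D2_comp_affine Metric.isOpen_ball hu z (r • lin f g) (σ * (r⁻¹) ^ 2) hmem
      obtain ⟨hw1, hw2, hw3⟩ := hw _ hmem
      set y := z + (r • lin f g) ξ with hy
      have hf : (r • lin f g) e1 = r • f := by simp [lin_apply, e1]
      have hg : (r • lin f g) e2 = r • g := by simp [lin_apply, e2]
      have hb : ∀ a b, D2 u y (r • a) (r • b) = r ^ 2 * D2 u y a b := fun a b => by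
        rw [D2_expand Metric.isOpen_ball hu hmem (r • a), D2_expand Metric.isOpen_ball hu hmem a]
        simp only [Prod.smul_fst, Prod.smul_snd, smul_eq_mul]
        ring
      have E22 : D2 (fun ξ => (σ * (r⁻¹) ^ 2) * u (z + (r • lin f g) ξ)) ξ e2 e2
          = σ * D2 u y g g := by
        rw [hD, hg, hb]; field_simp
      have E12 : D2 (fun ξ => (σ * (r⁻¹) ^ 2) * u (z + (r • lin f g) ξ)) ξ e1 e2
          = σ * D2 u y f g := by
        rw [hD, hf, hg, hb]; field_simp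
      have E11 : D2 (fun ξ => (σ * (r⁻¹) ^ 2) * u (z + (r • lin f g) ξ)) ξ e1 e1
          = σ * D2 u y f f := by
        rw [hD, hf, hb]; field_simp
      refine ⟨?_, ?_, ?_⟩
      · rw [E22]; exact hw1
      · rw [E12, abs_mul, hσ1, one_mul]; exact hw2
      · unfold MAop
        rw [E11, E22, E12]
        have h9 : y - z = r • lin f g ξ := by simp [hy]
        change MAop u y = c * K' (T (y - z)) at hw3
        rw [h9, hTl] at hw3
        have h10 : K' ξ = d ^ 2 * MAop u y := by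
          rw [hw3, hc]; field_simp
        rw [h10]
        unfold MAop
        rw [D2_expand Metric.isOpen_ball hu hmem f f, D2_expand Metric.isOpen_ball hu hmem g g,
          D2_expand Metric.isOpen_ball hu hmem f g, hd]
        linear_combination ((f.1 * f.1 * D2 u y e1 e1 + (f.1 * f.2 + f.2 * f.1) * D2 u y e1 e2
          + f.2 * f.2 * D2 u y e2 e2) * (g.1 * g.1 * D2 u y e1 e1
          + (g.1 * g.2 + g.2 * g.1) * D2 u y e1 e2 + g.2 * g.2 * D2 u y e2 e2)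
          - (f.1 * g.1 * D2 u y e1 e1 + (f.1 * g.2 + f.2 * g.1) * D2 u y e1 e2
          + f.2 * g.2 * D2 u y e2 e2) ^ 2) * hσ

end bump

section enumeration

open TopologicalSpace

/-- The coordinate of the `n`-th centre along its half-axis. -/
noncomputable def av (n : ℕ) : ℝ := |denseSeq ℝ (n.unpair.1.unpair.2.unpair.1)|

/-- The `n`-th pair of vectors. -/
noncomputable def dt (n : ℕ) : (ℝ × ℝ) × (ℝ × ℝ) :=
  denseSeq ((ℝ × ℝ) × (ℝ × ℝ)) (n.unpair.1.unpair.2.unpair.2)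

/-- The `n`-th centre. -/
noncomputable def cen (n : ℕ) : ℝ × ℝ :=
  if n.unpair.1.unpair.1 = 0 then (av n, -(1 / 4 : ℝ) ^ n) else (-(1 / 4 : ℝ) ^ n, av n)

/-- The `n`-th radius. -/
noncomputable def rad (n : ℕ) : ℝ := (1 / 4 : ℝ) ^ n / 4

lemma rad_pos (n : ℕ) : 0 < rad n := by unfold rad; positivity

lemma enum1 (i j M : ℕ) : ∃ n, M ≤ n ∧ dt n = denseSeq ((ℝ × ℝ) × (ℝ × ℝ)) j ∧
    cen n = (|denseSeq ℝ i|, -(1 / 4 : ℝ) ^ n) := by
  refine ⟨Nat.pair (Nat.pair 0 (Nat.pair i j)) M, Nat.right_le_pair _ _, ?_, ?_⟩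
  · simp [dt]
  · simp [cen, av]

lemma enum2 (i j M : ℕ) : ∃ n, M ≤ n ∧ dt n = denseSeq ((ℝ × ℝ) × (ℝ × ℝ)) j ∧
    cen n = (-(1 / 4 : ℝ) ^ n, |denseSeq ℝ i|) := by
  refine ⟨Nat.pair (Nat.pair 1 (Nat.pair i j)) M, Nat.right_le_pair _ _, ?_, ?_⟩
  · simp [dt]
  · simp [cen, av]

lemma loc {n : ℕ} {w : ℝ × ℝ} (hw : ‖w - cen n‖ < rad n) :
    (-(1 / 4 : ℝ) ^ n / 4 < w.1 ∧ -5 * (1 / 4 : ℝ) ^ n / 4 < w.2 ∧
      w.2 < -3 * (1 / 4 : ℝ) ^ n / 4) ∨
    (-(1 / 4 : ℝ) ^ n / 4 < w.2 ∧ -5 * (1 / 4 : ℝ) ^ n / 4 < w.1 ∧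
      w.1 < -3 * (1 / 4 : ℝ) ^ n / 4) := by
  rw [Prod.norm_def, max_lt_iff] at hw
  obtain ⟨h1, h2⟩ := hw
  rw [Real.norm_eq_abs, abs_lt] at h1 h2
  have ha : 0 ≤ av n := abs_nonneg _
  unfold cen rad at h1 h2
  by_cases hs : n.unpair.1.unpair.1 = 0
  · left
    simp only [hs, if_true, Prod.fst_sub, Prod.snd_sub] at h1 h2
    refine ⟨by linarith [h1.1], by linarith [h2.1], by linarith [h2.2]⟩
  · right
    simp only [hs, if_false, Prod.fst_sub, Prod.snd_sub] at h1 h2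
    refine ⟨by linarith [h2.1], by linarith [h1.1], by linarith [h1.2]⟩

lemma disj_lt {m n : ℕ} (hmn : m < n) {w : ℝ × ℝ} (hm : ‖w - cen m‖ < rad m)
    (hn : ‖w - cen n‖ < rad n) : False := by
  have h1 := loc hm
  have h2 := loc hn
  have hA : (0 : ℝ) < (1 / 4 : ℝ) ^ n := by positivity
  have hB : (1 / 4 : ℝ) ^ n ≤ (1 / 4 : ℝ) ^ m / 4 := by
    have : (1 / 4 : ℝ) ^ n ≤ (1 / 4 : ℝ) ^ (m + 1) :=
      pow_le_pow_of_le_one (by norm_num) (by norm_num) hmn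
    rw [pow_succ] at this
    linarith
  rcases h1 with ⟨a1, a2, a3⟩ | ⟨a1, a2, a3⟩ <;> rcases h2 with ⟨b1, b2, b3⟩ | ⟨b1, b2, b3⟩ <;>
    linarith

lemma disj {m n : ℕ} (hmn : m ≠ n) {w : ℝ × ℝ} (hm : ‖w - cen m‖ < rad m)
    (hn : ‖w - cen n‖ < rad n) : False := by
  rcases lt_or_gt_of_ne hmn with h | h
  · exact disj_lt h hm hn
  · exact disj_lt h hn hm

lemma not_quad {n : ℕ} {w : ℝ × ℝ} (h1 : 0 ≤ w.1) (h2 : 0 ≤ w.2) : rad n ≤ ‖w - cen n‖ := by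
  by_contra hcon
  push Not at hcon
  have hA : (0 : ℝ) < (1 / 4 : ℝ) ^ n := by positivity
  rcases loc hcon with ⟨a1, a2, a3⟩ | ⟨a1, a2, a3⟩ <;> linarith

end enumeration

section assembly

open TopologicalSpace

/-- The conditions on the pieces. -/
def Piece (n : ℕ) (k : ℝ × ℝ → ℝ) : Prop :=
  ContDiff ℝ (↑(⊤ : ℕ∞)) k ∧ (∀ w, rad n ≤ ‖w - cen n‖ → k w = 0) ∧
  (∀ m ≤ n, ∀ w, ‖iteratedFDeriv ℝ m k w‖ ≤ (1 / 2 : ℝ) ^ n) ∧
  ((dt n).1.1 * (dt n).2.2 - (dt n).1.2 * (dt n).2.1 ≠ 0 →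
    (∃ w, ‖w - cen n‖ < rad n ∧ k w < 0) ∧
    ∀ (u : ℝ × ℝ → ℝ) (σ : ℝ), σ ^ 2 = 1 → ContDiffOn ℝ 2 u (Metric.ball (cen n) (rad n)) →
        (∀ w ∈ Metric.ball (cen n) (rad n), |σ * D2 u w (dt n).2 (dt n).2 - 1| ≤ 1 / 1000 ∧
          |D2 u w (dt n).1 (dt n).2| ≤ 1 / 1000 ∧ MAop u w = k w) → False)

lemma exists_piece (h : NLStatement) (n : ℕ) : ∃ k, Piece n k := by
  by_cases hdet : (dt n).1.1 * (dt n).2.2 - (dt n).1.2 * (dt n).2.1 = 0
  · refine ⟨fun _ => 0, contDiff_const, fun _ _ => rfl, ?_, fun h => absurd hdet h⟩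
    intro m _ w
    have h0 : iteratedFDeriv ℝ m (fun _ : ℝ × ℝ => (0 : ℝ)) w = 0 := by
      simp
    rw [h0, norm_zero]
    positivity
  · obtain ⟨k, h1, h2, h3, h4, h5⟩ := bump h (cen n) (rad_pos n) (dt n).1 (dt n).2 hdet n
      (η := (1 / 2 : ℝ) ^ n) (by positivity)
    exact ⟨k, h1, h2, h4, fun _ => ⟨h3, h5⟩⟩

variable {k : ℕ → ℝ × ℝ → ℝ}

/-- The right-hand side. -/
noncomputable def KK (k : ℕ → ℝ × ℝ → ℝ) (z : ℝ × ℝ) : ℝ :=
  expNegInvGlue z.1 * expNegInvGlue z.2 + ∑' n, k n z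

lemma KK_smooth (hk : ∀ n, Piece n (k n)) : ContDiff ℝ (↑(⊤ : ℕ∞)) (KK k) := by
  have h1 : ContDiff ℝ (↑(⊤ : ℕ∞)) (fun z : ℝ × ℝ => expNegInvGlue z.1 * expNegInvGlue z.2) :=
    (expNegInvGlue.contDiff.comp contDiff_fst).mul (expNegInvGlue.contDiff.comp contDiff_snd)
  have h2 : ContDiff ℝ (↑(⊤ : ℕ∞)) (fun z : ℝ × ℝ => ∑' n, k n z) := by
    refine contDiff_tsum_of_eventually (v := fun _ n => (1 / 2 : ℝ) ^ n) (fun n => (hk n).1)
      (fun m _ => summable_geometric_of_lt_one (by norm_num) (by norm_num)) (fun m _ => ?_)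
    rw [Nat.cofinite_eq_atTop]
    filter_upwards [Filter.eventually_ge_atTop m] with n hn
    exact fun x => (hk n).2.2.1 m hn x
  exact h1.add h2

lemma KK_ball (hk : ∀ n, Piece n (k n)) {n : ℕ} {w : ℝ × ℝ} (hw : ‖w - cen n‖ < rad n) :
    KK k w = k n w := by
  unfold KK
  have h1 : ∑' m, k m w = k n w := by
    refine tsum_eq_single n (fun m hm => (hk m).2.1 w ?_)
    by_contra hcon
    push Not at hcon
    exact disj hm hcon hw
  have h2 : expNegInvGlue w.1 * expNegInvGlue w.2 = 0 := by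
    have hA : (0 : ℝ) < (1 / 4 : ℝ) ^ n := by positivity
    rcases loc hw with ⟨a1, a2, a3⟩ | ⟨a1, a2, a3⟩
    · rw [expNegInvGlue.zero_of_nonpos (x := w.2) (by linarith), mul_zero]
    · rw [expNegInvGlue.zero_of_nonpos (x := w.1) (by linarith), zero_mul]
  rw [h1, h2, zero_add]

lemma KK_quad (hk : ∀ n, Piece n (k n)) {w : ℝ × ℝ} (h1 : 0 ≤ w.1) (h2 : 0 ≤ w.2) :
    KK k w = expNegInvGlue w.1 * expNegInvGlue w.2 := by
  unfold KK
  have h3 : ∀ m, k m w = 0 := fun m => (hk m).2.1 w (not_quad h1 h2)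
  simp [h3]

lemma exists_dir {a b c : ℝ} (hdet : a * c - b ^ 2 = 0) (hne : ¬ (a = 0 ∧ b = 0 ∧ c = 0)) :
    ∃ (σ : ℝ) (f g : ℝ × ℝ), σ ^ 2 = 1 ∧ f.1 * g.2 - f.2 * g.1 ≠ 0 ∧
      σ * (g.1 * g.1 * a + (g.1 * g.2 + g.2 * g.1) * b + g.2 * g.2 * c) = 1 ∧
      f.1 * g.1 * a + (f.1 * g.2 + f.2 * g.1) * b + f.2 * g.2 * c = 0 := by
  have hsign : ∀ x : ℝ, x ≠ 0 → ∃ σ s : ℝ, σ ^ 2 = 1 ∧ s ≠ 0 ∧ σ * (s * s * x) = 1 := by
    intro x hx
    rcases lt_or_gt_of_ne hx with h | h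
    · refine ⟨-1, (Real.sqrt (-x))⁻¹, by norm_num,
        inv_ne_zero (Real.sqrt_pos.2 (by linarith)).ne', ?_⟩
      have h1 : Real.sqrt (-x) * Real.sqrt (-x) = -x := Real.mul_self_sqrt (by linarith)
      rw [← mul_inv, h1]
      field_simp
    · refine ⟨1, (Real.sqrt x)⁻¹, by norm_num, inv_ne_zero (Real.sqrt_pos.2 h).ne', ?_⟩
      have h1 : Real.sqrt x * Real.sqrt x = x := Real.mul_self_sqrt h.le
      rw [← mul_inv, h1]
      field_simp
  by_cases hc : c = 0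
  · have hb : b = 0 := by
      rw [hc] at hdet
      have : b ^ 2 = 0 := by linarith
      exact pow_eq_zero_iff (two_ne_zero) |>.1 this
    have ha : a ≠ 0 := fun ha => hne ⟨ha, hb, hc⟩
    obtain ⟨σ, s, hσ, hs, h1⟩ := hsign a ha
    refine ⟨σ, (0, 1), (s, 0), hσ, ?_, ?_, ?_⟩
    · simpa using hs
    · simp only [hb, hc]
      linarith
    · simp [hb, hc]
  · obtain ⟨σ, s, hσ, hs, h1⟩ := hsign c hc
    refine ⟨σ, (1, -b / c), (0, s), hσ, ?_, ?_, ?_⟩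
    · simpa using hs
    · simp only
      linarith
    · simp only
      field_simp
      ring

lemma vanish (hk : ∀ n, Piece n (k n)) {U : Set (ℝ × ℝ)} {u : ℝ × ℝ → ℝ} (hU : IsOpen U)
    (hu : ContDiffOn ℝ 2 u U) (hMA : ∀ z ∈ U, MAop u z = KK k z) {p : ℝ × ℝ} (hp : p ∈ U)
    (hK : KK k p = 0)
    (happ : ∀ j M : ℕ, ∃ n, M ≤ n ∧ dt n = denseSeq ((ℝ × ℝ) × (ℝ × ℝ)) j ∧
      ‖cen n - p‖ ≤ (1 / 4 : ℝ) ^ n) (a b : ℝ × ℝ) : D2 u p a b = 0 := by
  by_contra hab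
  set A := D2 u p e1 e1 with hA
  set B := D2 u p e1 e2 with hB
  set C := D2 u p e2 e2 with hC
  have hdet : A * C - B ^ 2 = 0 := by
    have := hMA p hp
    rw [hK] at this
    exact this
  have hne : ¬ (A = 0 ∧ B = 0 ∧ C = 0) := by
    rintro ⟨h1, h2, h3⟩
    apply hab
    rw [D2_expand hU hu hp, ← hA, ← hB, ← hC, h1, h2, h3]
    ring
  obtain ⟨σ, f, g, hσ, hfg, h1, h2⟩ := exists_dir hdet hne
  let O : Set ((ℝ × ℝ) × (ℝ × ℝ)) := {x | |σ * (x.2.1 * x.2.1 * A + (x.2.1 * x.2.2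
      + x.2.2 * x.2.1) * B + x.2.2 * x.2.2 * C) - 1| < 1 / 1000} ∩
    ({x | |x.1.1 * x.2.1 * A + (x.1.1 * x.2.2 + x.1.2 * x.2.1) * B
      + x.1.2 * x.2.2 * C| < 1 / 1000} ∩ {x | x.1.1 * x.2.2 - x.1.2 * x.2.1 ≠ 0})
  have hO : IsOpen O := by
    refine (isOpen_lt (by fun_prop) continuous_const).inter
      ((isOpen_lt (by fun_prop) continuous_const).inter ?_)
    exact isOpen_ne_fun (by fun_prop) continuous_const
  have hne' : O.Nonempty := by
    refine ⟨(f, g), ?_, ?_, hfg⟩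
    · rw [mem_ofPred_eq, h1]; norm_num
    · rw [mem_ofPred_eq, h2]; norm_num
  obtain ⟨j, hj⟩ := (denseRange_denseSeq ((ℝ × ℝ) × (ℝ × ℝ))).exists_mem_open hO hne'
  obtain ⟨hj1, hj2, hj3⟩ := hj
  set x := denseSeq ((ℝ × ℝ) × (ℝ × ℝ)) j with hx
  have hj1' : |σ * D2 u p x.2 x.2 - 1| < 1 / 1000 := by
    rw [D2_expand hU hu hp]; exact hj1
  have hj2' : |D2 u p x.1 x.2| < 1 / 1000 := by
    rw [D2_expand hU hu hp]; exact hj2
  have hc1 : ContinuousAt (fun z => |σ * D2 u z x.2 x.2 - 1|) p :=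
    ((((D2_cont hU hu x.2 x.2).continuousAt (hU.mem_nhds hp)).const_mul σ).sub_const 1).abs
  have hc2 : ContinuousAt (fun z => |D2 u z x.1 x.2|) p :=
    ((D2_cont hU hu x.1 x.2).continuousAt (hU.mem_nhds hp)).abs
  have hev : ∀ᶠ z in nhds p, z ∈ U ∧ |σ * D2 u z x.2 x.2 - 1| < 1 / 1000 ∧
      |D2 u z x.1 x.2| < 1 / 1000 := by
    have hev0 : ∀ᶠ z in nhds p, z ∈ U := hU.mem_nhds hp
    exact hev0.and ((hc1.eventually (gt_mem_nhds hj1')).and (hc2.eventually (gt_mem_nhds hj2')))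
  obtain ⟨ε, hε, hball⟩ := Metric.eventually_nhds_iff.1 hev
  obtain ⟨M, hM⟩ := exists_pow_lt_of_lt_one (show (0 : ℝ) < ε / 2 by positivity)
    (show (1 / 4 : ℝ) < 1 by norm_num)
  obtain ⟨n, hn, hdt, hcen⟩ := happ j M
  have hnM : (1 / 4 : ℝ) ^ n ≤ (1 / 4 : ℝ) ^ M :=
    pow_le_pow_of_le_one (by norm_num) (by norm_num) hn
  have hsub : ∀ w ∈ Metric.ball (cen n) (rad n), w ∈ U ∧ |σ * D2 u w x.2 x.2 - 1| < 1 / 1000 ∧
      |D2 u w x.1 x.2| < 1 / 1000 := by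
    intro w hw
    apply hball
    rw [Metric.mem_ball, dist_eq_norm] at hw
    have h3 : dist w p ≤ ‖w - cen n‖ + ‖cen n - p‖ := by
      rw [dist_eq_norm]
      calc ‖w - p‖ = ‖(w - cen n) + (cen n - p)‖ := by congr 1; abel
        _ ≤ _ := norm_add_le _ _
    unfold rad at hw
    have h4 : (0 : ℝ) < (1 / 4 : ℝ) ^ n := by positivity
    linarith
  have hP := (hk n).2.2.2
  rw [hdt] at hP
  refine (hP hj3).2 u σ hσ (hu.mono fun w hw => (hsub w hw).1) (fun w hw => ?_)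
  obtain ⟨hw1, hw2, hw3⟩ := hsub w hw
  refine ⟨hw2.le, hw3.le, ?_⟩
  rw [hMA w hw1]
  rw [Metric.mem_ball, dist_eq_norm] at hw
  exact KK_ball hk hw

lemma axis_vanish (hk : ∀ n, Piece n (k n)) {U : Set (ℝ × ℝ)} {u : ℝ × ℝ → ℝ} (hU : IsOpen U)
    (hu : ContDiffOn ℝ 2 u U) (hMA : ∀ z ∈ U, MAop u z = KK k z) (e : ℝ × ℝ) {ρ : ℝ}
    (hρ : ∀ t : ℝ, 0 ≤ t → t < ρ → t • e ∈ U) (hK : ∀ t : ℝ, 0 ≤ t → KK k (t • e) = 0)
    (happ : ∀ i j M : ℕ, ∃ n, M ≤ n ∧ dt n = denseSeq ((ℝ × ℝ) × (ℝ × ℝ)) j ∧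
      ‖cen n - |denseSeq ℝ i| • e‖ ≤ (1 / 4 : ℝ) ^ n) {t : ℝ} (ht0 : 0 ≤ t) (htρ : t < ρ)
    (a b : ℝ × ℝ) : D2 u (t • e) a b = 0 := by
  by_contra hne
  have hc : ContinuousAt (fun s : ℝ => D2 u (s • e) a b) t := by
    have h1 : ContinuousAt (fun z => D2 u z a b) (t • e) :=
      (D2_cont hU hu a b).continuousAt (hU.mem_nhds (hρ t ht0 htρ))
    have h2 : ContinuousAt (fun s : ℝ => s • e) t := by fun_prop
    exact ContinuousAt.comp (f := fun s : ℝ => s • e) (g := fun z => D2 u z a b) h1 h2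
  obtain ⟨δ, hδ, hδ'⟩ := Metric.eventually_nhds_iff.1 (hc.eventually_ne hne)
  have hne' : (Ioo t (min (t + δ) ρ)).Nonempty := by
    rw [nonempty_Ioo]
    exact lt_min (by linarith) htρ
  obtain ⟨i, hi⟩ := (denseRange_denseSeq ℝ).exists_mem_open isOpen_Ioo hne'
  obtain ⟨hi1, hi2⟩ := hi
  rw [lt_min_iff] at hi2
  have hpos : 0 ≤ denseSeq ℝ i := by linarith
  refine hδ' (y := denseSeq ℝ i) ?_ ?_
  · rw [Real.dist_eq, abs_lt]
    constructor <;> linarith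
  · refine vanish hk hU hu hMA (hρ _ hpos hi2.2) (hK _ hpos) (fun j M => ?_) a b
    have := happ i j M
    rwa [abs_of_nonneg hpos] at this

lemma axis_const {U : Set (ℝ × ℝ)} {u : ℝ × ℝ → ℝ} (hU : IsOpen U)
    (hu : ContDiffOn ℝ 2 u U) (e : ℝ × ℝ) {ρ : ℝ}
    (hρ : ∀ t : ℝ, 0 ≤ t → t < ρ → t • e ∈ U)
    (h0 : ∀ t : ℝ, 0 ≤ t → t < ρ → ∀ a b, D2 u (t • e) a b = 0) {t : ℝ} (ht0 : 0 ≤ t)
    (htρ : t < ρ) : fderiv ℝ u (t • e) = fderiv ℝ u 0 := by
  have hd : ∀ s : ℝ, 0 ≤ s → s < ρ → HasDerivAt (fun s : ℝ => fderiv ℝ u (s • e)) 0 s := by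
    intro s hs0 hs1
    have h1 := (fderiv_diffAt hU hu (hρ s hs0 hs1)).hasFDerivAt
    have h2 : HasDerivAt (fun s : ℝ => s • e) e s := by
      simpa using (hasDerivAt_id s).smul_const e
    have h3 := h1.comp_hasDerivAt s h2
    have h4 : fderiv ℝ (fderiv ℝ u) (s • e) e = 0 := by
      ext
      · have := h0 s hs0 hs1 (1, 0) e
        rw [D2_eq hU hu (hρ s hs0 hs1)] at this
        simpa using this
      · have := h0 s hs0 hs1 (0, 1) e
        rw [D2_eq hU hu (hρ s hs0 hs1)] at this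
        simpa using this
    rw [h4] at h3
    exact h3
  have := constant_of_has_deriv_right_zero (f := fun s : ℝ => fderiv ℝ u (s • e)) (a := 0)
    (b := t) (fun s hs => (hd s hs.1 (lt_of_le_of_lt hs.2 htρ)).continuousAt.continuousWithinAt)
    (fun s hs => (hd s hs.1 (lt_trans hs.2 htρ)).hasDerivWithinAt) t ⟨ht0, le_rfl⟩
  simpa using this

/-- **Final assembly.** -/
theorem final (h : NLStatement) : ∃ K : ℝ × ℝ → ℝ, ContDiff ℝ (↑(⊤ : ℕ∞)) K ∧ K 0 = 0 ∧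
    (∀ ε > 0, ∃ z, ‖z‖ < ε ∧ 0 < K z) ∧ (∀ ε > 0, ∃ z, ‖z‖ < ε ∧ K z < 0) ∧
    ¬ ∃ (U : Set (ℝ × ℝ)) (u : ℝ × ℝ → ℝ), IsOpen U ∧ (0 : ℝ × ℝ) ∈ U ∧ ContDiffOn ℝ 2 u U ∧
      ∀ z ∈ U, MAop u z = K z := by
  choose k hk using exists_piece h
  refine ⟨KK k, KK_smooth hk, ?_, ?_, ?_, ?_⟩
  · rw [KK_quad hk (by simp) (by simp)]
    simp
  · intro ε hε
    refine ⟨(ε / 2, ε / 2), ?_, ?_⟩
    · rw [Prod.norm_def, Real.norm_of_nonneg (by positivity)]
      simp only [max_self]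
      linarith
    · rw [KK_quad hk (by positivity) (by positivity)]
      exact mul_pos (expNegInvGlue.pos_of_pos (by positivity))
        (expNegInvGlue.pos_of_pos (by positivity))
  · intro ε hε
    obtain ⟨i, hi⟩ := (denseRange_denseSeq ℝ).exists_mem_open
      (Metric.isOpen_ball (x := (0 : ℝ)) (ε := ε / 2)) ⟨0, Metric.mem_ball_self (by positivity)⟩
    obtain ⟨j, hj⟩ := (denseRange_denseSeq ((ℝ × ℝ) × (ℝ × ℝ))).exists_mem_open
      (s := {x | x.1.1 * x.2.2 - x.1.2 * x.2.1 ≠ 0})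
      (isOpen_ne_fun (by fun_prop) continuous_const) ⟨((1, 0), (0, 1)), by simp⟩
    obtain ⟨M, hM⟩ := exists_pow_lt_of_lt_one (show (0 : ℝ) < ε / 4 by positivity)
      (show (1 / 4 : ℝ) < 1 by norm_num)
    obtain ⟨n, hn, hdt, hcen⟩ := enum1 i j M
    have hnM : (1 / 4 : ℝ) ^ n ≤ (1 / 4 : ℝ) ^ M :=
      pow_le_pow_of_le_one (by norm_num) (by norm_num) hn
    have h4 : (0 : ℝ) < (1 / 4 : ℝ) ^ n := by positivity
    have hP := (hk n).2.2.2
    rw [hdt] at hP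
    obtain ⟨⟨w, hw1, hw2⟩, -⟩ := hP hj
    refine ⟨w, ?_, ?_⟩
    · rw [Metric.mem_ball, dist_zero_right, Real.norm_eq_abs] at hi
      have h5 : ‖cen n‖ < ε / 2 := by
        rw [hcen, Prod.norm_def]
        simp only [Real.norm_eq_abs, abs_abs, abs_neg]
        rw [abs_of_pos h4]
        exact max_lt hi (by linarith)
      have h6 : ‖w‖ ≤ ‖w - cen n‖ + ‖cen n‖ := by
        calc ‖w‖ = ‖(w - cen n) + cen n‖ := by congr 1; abel
          _ ≤ _ := norm_add_le _ _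
      unfold rad at hw1
      linarith
    · rw [KK_ball hk hw1]
      exact hw2
  · rintro ⟨U, u, hU, h0, hu, hMA⟩
    obtain ⟨ρ, hρ, hball⟩ := Metric.isOpen_iff.1 hU 0 h0
    have hmem : ∀ z : ℝ × ℝ, ‖z‖ < ρ → z ∈ U := fun z hz => hball (by simpa using hz)
    have hn1 : ∀ t : ℝ, 0 ≤ t → t < ρ → t • e1 ∈ U := by
      intro t ht0 ht1
      apply hmem
      rw [norm_smul, Real.norm_of_nonneg ht0]
      simpa [e1, Prod.norm_def] using ht1
    have hn2 : ∀ t : ℝ, 0 ≤ t → t < ρ → t • e2 ∈ U := by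
      intro t ht0 ht1
      apply hmem
      rw [norm_smul, Real.norm_of_nonneg ht0]
      simpa [e2, Prod.norm_def] using ht1
    have hK1 : ∀ t : ℝ, 0 ≤ t → KK k (t • e1) = 0 := by
      intro t ht0
      rw [KK_quad hk (by simpa [e1] using ht0) (by simp [e1])]
      simp [e1]
    have hK2 : ∀ t : ℝ, 0 ≤ t → KK k (t • e2) = 0 := by
      intro t ht0
      rw [KK_quad hk (by simp [e2]) (by simpa [e2] using ht0)]
      simp [e2]
    have hz1 : ∀ t : ℝ, 0 ≤ t → t < ρ → ∀ a b, D2 u (t • e1) a b = 0 := by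
      intro t ht0 ht1 a b
      refine axis_vanish hk hU hu hMA e1 hn1 hK1 (fun i j M => ?_) ht0 ht1 a b
      obtain ⟨n, hn, hdt, hcen⟩ := enum1 i j M
      refine ⟨n, hn, hdt, ?_⟩
      rw [hcen, Prod.norm_def]
      simp [e1]
    have hz2 : ∀ t : ℝ, 0 ≤ t → t < ρ → ∀ a b, D2 u (t • e2) a b = 0 := by
      intro t ht0 ht1 a b
      refine axis_vanish hk hU hu hMA e2 hn2 hK2 (fun i j M => ?_) ht0 ht1 a b
      obtain ⟨n, hn, hdt, hcen⟩ := enum2 i j M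
      refine ⟨n, hn, hdt, ?_⟩
      rw [hcen, Prod.norm_def]
      simp [e2]
    set t := ρ / 2 with ht
    have ht0 : 0 < t := by positivity
    have ht1 : t < ρ := by linarith
    have hG1 := axis_const hU hu e1 hn1 hz1 ht0.le ht1
    have hG2 := axis_const hU hu e2 hn2 hz2 ht0.le ht1
    set w : ℝ × ℝ := (-t, t) with hw
    have hγmem : ∀ s ∈ Icc (0 : ℝ) 1, t • e1 + s • w ∈ U := by
      intro s hs
      apply hmem
      have h1 : t • e1 + s • w = ((1 - s) * t, s * t) := by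
        ext
        · simp [e1, hw]; ring
        · simp [e1, hw]
      rw [h1, Prod.norm_def, Real.norm_of_nonneg (mul_nonneg (by linarith [hs.2]) ht0.le),
        Real.norm_of_nonneg (mul_nonneg hs.1 ht0.le)]
      refine max_lt ?_ ?_
      · nlinarith [hs.1, hs.2]
      · nlinarith [hs.1, hs.2]
    have hderiv : ∀ s ∈ Icc (0 : ℝ) 1, HasDerivAt (fun s : ℝ => fderiv ℝ u (t • e1 + s • w) w)
        (D2 u (t • e1 + s • w) w w) s := by
      intro s hs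
      have h1 := (fderiv_diffAt hU hu (hγmem s hs)).hasFDerivAt
      have h2 : HasDerivAt (fun s : ℝ => t • e1 + s • w) w s := by
        simpa using ((hasDerivAt_id s).smul_const w).const_add (t • e1)
      have h3 := h1.comp_hasDerivAt s h2
      have h4 := h3.clm_apply (hasDerivAt_const s w)
      rw [D2_eq hU hu (hγmem s hs)]
      simpa using h4
    have hroll : ∃ c ∈ Ioo (0 : ℝ) 1, D2 u (t • e1 + c • w) w w = 0 := by
      refine exists_hasDerivAt_eq_zero (f := fun s : ℝ => fderiv ℝ u (t • e1 + s • w) w)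
        (f' := fun c => D2 u (t • e1 + c • w) w w) zero_lt_one
        (fun s hs => (hderiv s hs).continuousAt.continuousWithinAt) ?_
        (fun s hs => hderiv s (Ioo_subset_Icc_self hs))
      have h1 : t • e1 + (1 : ℝ) • w = t • e2 := by
        ext <;> simp [e1, e2, hw]
      have h0 : t • e1 + (0 : ℝ) • w = t • e1 := by simp
      simp only [h1, h0]
      rw [hG1, hG2]
    obtain ⟨c, hc, hc0⟩ := hroll
    have hcU := hγmem c (Ioo_subset_Icc_self hc)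
    have hpos := hMA _ hcU
    have hx1 : 0 < (t • e1 + c • w).1 := by
      simp only [e1, hw, Prod.fst_add, Prod.smul_fst, smul_eq_mul]
      nlinarith [hc.1, hc.2]
    have hx2 : 0 < (t • e1 + c • w).2 := by
      simp only [e1, hw, Prod.snd_add, Prod.smul_snd, smul_eq_mul]
      nlinarith [hc.1, hc.2]
    rw [KK_quad hk hx1.le hx2.le] at hpos
    have hpos' : 0 < MAop u (t • e1 + c • w) := by
      rw [hpos]
      exact mul_pos (expNegInvGlue.pos_of_pos hx1) (expNegInvGlue.pos_of_pos hx2)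
    rw [D2_expand hU hu hcU] at hc0
    unfold MAop at hpos'
    set A := D2 u (t • e1 + c • w) e1 e1
    set B := D2 u (t • e1 + c • w) e1 e2
    set C := D2 u (t • e1 + c • w) e2 e2
    have h7 : t ^ 2 * (A - 2 * B + C) = 0 := by
      simp only [hw] at hc0
      linear_combination hc0
    have h8 : A - 2 * B + C = 0 := by
      rcases mul_eq_zero.1 h7 with h | h
      · exact absurd h (by positivity)
      · exact h
    have h9 : B = (A + C) / 2 := by linarith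
    rw [h9] at hpos'
    nlinarith [sq_nonneg (A - C)]

end assembly

end Pool.Agent.Helper56.MAFinal
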