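import Mathlib

/-! Ordered graphs, non-nested and strongly non-nested matchings. -/

namespace Pool.Agent.Helper56.NonNested

/-- A finite set `M` of pairs is a matching of the ordered graph `G` on `Fin n`: every `(x, y)` in
`M` is an edge of `G` written with `x < y`, and distinct members of `M` are vertex-disjoint. -/
def IsMatching {n : ℕ} (G : SimpleGraph (Fin n)) (M : Finset (Fin n × Fin n)) : Prop :=
  (∀ e ∈ M, e.1 < e.2 ∧ G.Adj e.1 e.2) ∧
    ∀ e ∈ M, ∀ f ∈ M, e ≠ f → e.1 ≠ f.1 ∧ e.1 ≠ f.2 ∧ e.2 ≠ f.1 ∧ e.2 ≠ f.2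

/-- The edges `(x, y)` and `(u, v)` are nested: one of the intervals `[x, y]`, `[u, v]` contains
the other. -/
def Nested {n : ℕ} (e f : Fin n × Fin n) : Prop :=
  (e.1 ≤ f.1 ∧ f.2 ≤ e.2) ∨ (f.1 ≤ e.1 ∧ e.2 ≤ f.2)

/-- The edges are separated: the intervals are disjoint. -/
def Separated {n : ℕ} (e f : Fin n × Fin n) : Prop :=
  e.2 < f.1 ∨ f.2 < e.1

/-- The edges are crossing: `x < u < y < v` or `u < x < v < y`. -/
def Crossing {n : ℕ} (e f : Fin n × Fin n) : Prop :=
  (e.1 < f.1 ∧ f.1 < e.2 ∧ e.2 < f.2) ∨ (f.1 < e.1 ∧ e.1 < f.2 ∧ f.2 < e.2)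

/-- No two distinct edges of `M` are nested. -/
def IsNonNested {n : ℕ} (M : Finset (Fin n × Fin n)) : Prop :=
  ∀ e ∈ M, ∀ f ∈ M, e ≠ f → ¬ Nested e f

/-- `M` is partitioned into parts (the fibres of `c`) so that two distinct edges in the same part
cross and two edges in different parts are separated. -/
def IsStronglyNonNested {n : ℕ} (M : Finset (Fin n × Fin n)) : Prop :=
  ∃ c : Fin n × Fin n → ℕ, ∀ e ∈ M, ∀ f ∈ M, e ≠ f →
    (c e = c f → Crossing e f) ∧ (c e ≠ c f → Separated e f)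

/-- The largest number of edges of an ordered graph on `n` vertices without a non-nested
`k`-matching. -/
noncomputable def exNonNested (n k : ℕ) : ℕ :=
  sSup {m | ∃ G : SimpleGraph (Fin n), G.edgeSet.ncard = m ∧
    ¬ ∃ M : Finset (Fin n × Fin n), IsMatching G M ∧ M.card = k ∧ IsNonNested M}

/-- The largest number of edges of an ordered graph on `n` vertices without a strongly non-nested
`k`-matching. -/
noncomputable def exStronglyNonNested (n k : ℕ) : ℕ :=
  sSup {m | ∃ G : SimpleGraph (Fin n), G.edgeSet.ncard = m ∧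
    ¬ ∃ M : Finset (Fin n × Fin n), IsMatching G M ∧ M.card = k ∧ IsStronglyNonNested M}

end Pool.Agent.Helper56.NonNested
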