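import Pool.Agent.Helper56.NonNestedDefs

/-! Extraction of sorted sequences from a matching, the extension of a base graph, edge counts. -/

namespace Pool.Agent.Helper56.NonNested

/-- Sorted sequences of a non-nested matching. -/
structure Seqs (k : ℕ) (P : ℕ → ℕ → Prop) (o c : ℕ → ℕ) : Prop where
  mo : ∀ i j, i < j → j < k → o i < o j
  mc : ∀ i j, i < j → j < k → c i < c j
  oc : ∀ i, i < k → o i < c i
  dis : ∀ i, i < k → ∀ j, j < k → o i ≠ c j
  adj : ∀ i, i < k → P (o i) (c i)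

/-- Adjacency relation (for `x < y`) of the extension of a base graph with `m` vertices. -/
def extP (P : ℕ → ℕ → Prop) (k m x y : ℕ) : Prop :=
  (y < m ∧ P x y) ∨ (m ≤ y ∧ x < k - 1)

/-- The extension as a graph on `Fin n`. -/
def extGraph (P : ℕ → ℕ → Prop) (k m n : ℕ) : SimpleGraph (Fin n) where
  Adj x y := (x < y ∧ extP P k m x y) ∨ (y < x ∧ extP P k m y x)
  symm := ⟨by intro x y h; exact h.symm⟩
  loopless := ⟨by intro x h; rcases h with ⟨h, _⟩ | ⟨h, _⟩ <;> exact lt_irrefl _ h⟩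

theorem extGraph_adj {P : ℕ → ℕ → Prop} {k m n : ℕ} {x y : Fin n} (hxy : x < y)
    (h : (extGraph P k m n).Adj x y) : extP P k m x y := by
  rcases h with ⟨_, h⟩ | ⟨h, _⟩
  · exact h
  · exact absurd h (lt_asymm hxy)

theorem seqs_of_matching {n k : ℕ} {P : ℕ → ℕ → Prop} {m : ℕ} {M : Finset (Fin n × Fin n)}
    (hM : IsMatching (extGraph P k m n) M) (hk : M.card = k) (hnn : IsNonNested M) :
    ∃ o c : ℕ → ℕ, Seqs k (extP P k m) o c ∧
      ∀ i, i < k → ∃ e ∈ M, (e.1 : ℕ) = o i ∧ (e.2 : ℕ) = c i := by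
  classical
  have hinj : Set.InjOn Prod.fst (M : Set (Fin n × Fin n)) := by
    intro a ha b hb hab
    by_contra hne
    exact (hM.2 a ha b hb hne).1 hab
  have hcard : (M.image Prod.fst).card = k := by
    rw [Finset.card_image_of_injOn hinj, hk]
  set e := (M.image Prod.fst).orderEmbOfFin hcard with he
  have hex : ∀ i : Fin k, ∃ p ∈ M, p.1 = e i := by
    intro i
    have := Finset.orderEmbOfFin_mem (M.image Prod.fst) hcard i
    obtain ⟨p, hp, hpe⟩ := Finset.mem_image.1 this
    exact ⟨p, hp, hpe⟩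
  choose f hfM hfe using hex
  have hlt : ∀ i j : Fin k, i < j → (f i).1 < (f j).1 := by
    intro i j hij
    rw [hfe, hfe]
    exact e.strictMono hij
  have hne : ∀ i j : Fin k, i < j → f i ≠ f j := by
    intro i j hij h
    have := hlt i j hij
    rw [h] at this
    exact lt_irrefl _ this
  refine ⟨fun i => if h : i < k then ((f ⟨i, h⟩).1 : ℕ) else 0,
    fun i => if h : i < k then ((f ⟨i, h⟩).2 : ℕ) else 0, ⟨?_, ?_, ?_, ?_, ?_⟩, ?_⟩
  · intro i j hij hj
    have hi : i < k := lt_trans hij hj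
    simp only [hi, hj, dif_pos]
    exact hlt ⟨i, hi⟩ ⟨j, hj⟩ hij
  · intro i j hij hj
    have hi : i < k := lt_trans hij hj
    simp only [hi, hj, dif_pos]
    have h1 := hlt ⟨i, hi⟩ ⟨j, hj⟩ hij
    have h2 := hnn _ (hfM ⟨i, hi⟩) _ (hfM ⟨j, hj⟩) (hne ⟨i, hi⟩ ⟨j, hj⟩ hij)
    unfold Nested at h2
    push Not at h2
    exact h2.1 h1.le
  · intro i hi
    simp only [hi, dif_pos]
    exact (hM.1 _ (hfM ⟨i, hi⟩)).1
  · intro i hi j hj
    simp only [hi, hj, dif_pos]
    by_cases hij : i = j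
    · subst hij
      have := (hM.1 _ (hfM ⟨i, hi⟩)).1
      exact fun h => absurd this (by rw [Fin.lt_def, h]; exact lt_irrefl _)
    · have hne' : f ⟨i, hi⟩ ≠ f ⟨j, hj⟩ := by
        rcases lt_or_gt_of_ne hij with h | h
        · exact hne ⟨i, hi⟩ ⟨j, hj⟩ h
        · exact (hne ⟨j, hj⟩ ⟨i, hi⟩ h).symm
      have := (hM.2 _ (hfM ⟨i, hi⟩) _ (hfM ⟨j, hj⟩) hne').2.1
      exact fun h => this (Fin.ext h)
  · intro i hi
    simp only [hi, dif_pos]
    have := hM.1 _ (hfM ⟨i, hi⟩)
    exact extGraph_adj this.1 this.2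
  · intro i hi
    exact ⟨f ⟨i, hi⟩, hfM _, by simp [hi], by simp [hi]⟩

/-- All edges of a `k`-matching of the extension lie in the base. -/
theorem in_base {k m : ℕ} {P : ℕ → ℕ → Prop} {o c : ℕ → ℕ} (hs : Seqs k (extP P k m) o c) :
    ∀ i, i < k → c i < m ∧ P (o i) (c i) := by
  have hmono : ∀ d i, i + d < k → o i + d ≤ o (i + d) := by
    intro d
    induction d with
    | zero => intro i _; simp
    | succ d ih =>
      intro i hi
      have h1 := ih i (by omega)
      have h2 := hs.mo (i + d) (i + d + 1) (by omega) (by omega)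
      have : i + (d + 1) = i + d + 1 := by omega
      rw [this]; omega
  have hlast : 0 < k → c (k - 1) < m := by
    intro hk
    by_contra h
    push Not at h
    have h1 := hs.adj (k - 1) (by omega)
    have h2 := hmono (k - 1) 0 (by omega)
    rw [Nat.zero_add] at h2
    rcases h1 with ⟨h1, _⟩ | ⟨_, h1⟩ <;> omega
  intro i hi
  have h0 := hlast (by omega)
  have hci : c i < m := by
    rcases Nat.lt_or_ge i (k - 1) with h | h
    · have := hs.mc i (k - 1) h (by omega)
      omega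
    · have : i = k - 1 := by omega
      rw [this]; exact h0
  refine ⟨hci, ?_⟩
  rcases hs.adj i hi with ⟨_, h⟩ | ⟨h, _⟩
  · exact h
  · omega

theorem strong_nonNested {n : ℕ} {M : Finset (Fin n × Fin n)}
    (hM : ∀ e ∈ M, e.1 < e.2) (h : IsStronglyNonNested M) : IsNonNested M := by
  obtain ⟨c, hc⟩ := h
  intro e he f hf hef hn
  have h1 := hc e he f hf hef
  have he' := hM e he
  have hf' := hM f hf
  unfold Nested at hn
  simp only [Fin.lt_def, Fin.le_def] at hn he' hf'
  by_cases hcc : c e = c f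
  · have := h1.1 hcc
    unfold Crossing at this
    simp only [Fin.lt_def] at this
    omega
  · have := h1.2 hcc
    unfold Separated at this
    simp only [Fin.lt_def] at this
    omega

/-- Counting the edges of the extension. -/
theorem card_ext {P : ℕ → ℕ → Prop} {k m n : ℕ} (hmn : m ≤ n) (hkm : k ≤ m)
    (B : Finset (ℕ × ℕ)) (hB : ∀ p ∈ B, p.1 < p.2 ∧ p.2 < m ∧ P p.1 p.2) :
    B.card + (k - 1) * (n - m) ≤ (extGraph P k m n).edgeSet.ncard := by
  classical
  set T : Finset (ℕ × ℕ) := B ∪ (Finset.range (k - 1)) ×ˢ (Finset.Ico m n) with hT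
  have hTc : T.card = B.card + (k - 1) * (n - m) := by
    rw [hT, Finset.card_union_of_disjoint]
    · rw [Finset.card_product, Finset.card_range, Nat.card_Ico]
    · rw [Finset.disjoint_left]
      intro p hp hp'
      have h1 := hB p hp
      rw [Finset.mem_product, Finset.mem_Ico] at hp'
      omega
  have hTp : ∀ p ∈ T, p.1 < p.2 ∧ p.2 < n ∧ extP P k m p.1 p.2 := by
    intro p hp
    rw [hT, Finset.mem_union] at hp
    rcases hp with hp | hp
    · have h1 := hB p hp
      exact ⟨h1.1, by omega, Or.inl ⟨h1.2.1, h1.2.2⟩⟩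
    · rw [Finset.mem_product, Finset.mem_Ico, Finset.mem_range] at hp
      exact ⟨by omega, by omega, Or.inr ⟨hp.2.1, hp.1⟩⟩
  rw [← hTc]
  set F : Finset (Fin n × Fin n) := Finset.univ.filter
    (fun p => (p.1 : ℕ) < p.2 ∧ extP P k m p.1 p.2) with hF
  have h1 : T.card ≤ F.card := by
    have : T ⊆ F.image (fun p => ((p.1 : ℕ), (p.2 : ℕ))) := by
      intro p hp
      obtain ⟨a, b, c⟩ := hTp p hp
      refine Finset.mem_image.2 ⟨(⟨p.1, by omega⟩, ⟨p.2, b⟩), ?_, rfl⟩
      rw [hF, Finset.mem_filter]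
      exact ⟨Finset.mem_univ _, a, c⟩
    exact (Finset.card_le_card this).trans Finset.card_image_le
  refine h1.trans ?_
  have hinj : Set.InjOn (fun p : Fin n × Fin n => s(p.1, p.2)) (F : Set (Fin n × Fin n)) := by
    intro a ha b hb hab
    rw [Finset.mem_coe, hF, Finset.mem_filter] at ha hb
    simp only [Sym2.eq_iff] at hab
    rcases hab with ⟨h1, h2⟩ | ⟨h1, h2⟩
    · exact Prod.ext h1 h2
    · exfalso
      have h3 := ha.2.1
      have h4 := hb.2.1
      rw [h1, h2] at h3
      omega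
  rw [← Finset.card_image_of_injOn hinj, ← Set.ncard_coe_finset]
  apply Set.ncard_le_ncard _ (Set.toFinite _)
  intro x hx
  rw [Finset.mem_coe, Finset.mem_image] at hx
  obtain ⟨p, hp, rfl⟩ := hx
  rw [hF, Finset.mem_filter] at hp
  rw [SimpleGraph.mem_edgeSet]
  exact Or.inl ⟨hp.2.1, hp.2.2⟩

theorem ncard_bdd (n : ℕ) (Q : SimpleGraph (Fin n) → Prop) :
    BddAbove {m | ∃ G : SimpleGraph (Fin n), G.edgeSet.ncard = m ∧ Q G} := by
  refine ⟨(Set.univ : Set (Sym2 (Fin n))).ncard, ?_⟩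
  rintro m ⟨G, rfl, _⟩
  exact Set.ncard_le_ncard (Set.subset_univ _) (Set.toFinite _)

theorem lower_nonNested {P : ℕ → ℕ → Prop} {k m n : ℕ} (hmn : m ≤ n) (hkm : k ≤ m)
    (B : Finset (ℕ × ℕ)) (hB : ∀ p ∈ B, p.1 < p.2 ∧ p.2 < m ∧ P p.1 p.2)
    (hcard : (k - 1) * m < B.card)
    (hno : ∀ o c : ℕ → ℕ, Seqs k P o c → (∀ i, i < k → c i < m) → False) :
    (k - 1) * n < exNonNested n k := by
  have h1 := card_ext hmn hkm B hB
  have h2 : (extGraph P k m n).edgeSet.ncard ≤ exNonNested n k := by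
    apply le_csSup (ncard_bdd n _)
    refine ⟨extGraph P k m n, rfl, ?_⟩
    rintro ⟨M, hM, hMk, hnn⟩
    obtain ⟨o, c, hs, _⟩ := seqs_of_matching hM hMk hnn
    have hb := in_base hs
    exact hno o c ⟨hs.mo, hs.mc, hs.oc, hs.dis, fun i hi => (hb i hi).2⟩ (fun i hi => (hb i hi).1)
  have h3 : (k - 1) * n = (k - 1) * m + (k - 1) * (n - m) := by
    rw [← Nat.mul_add]; congr 1; omega
  omega

/-- Labels on the sorted sequence of a strongly non-nested matching. -/
def SeqLabels (k : ℕ) (o c L : ℕ → ℕ) : Prop :=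
  ∀ i j, i < j → j < k → (L i = L j → o j < c i) ∧ (L i ≠ L j → c i < o j)

theorem lower_strong {P : ℕ → ℕ → Prop} {k m n : ℕ} (hmn : m ≤ n) (hkm : k ≤ m)
    (B : Finset (ℕ × ℕ)) (hB : ∀ p ∈ B, p.1 < p.2 ∧ p.2 < m ∧ P p.1 p.2)
    (hcard : (k - 1) * m < B.card)
    (hno : ∀ o c L : ℕ → ℕ, Seqs k P o c → (∀ i, i < k → c i < m) → SeqLabels k o c L → False) :
    (k - 1) * n < exStronglyNonNested n k := by
  have h1 := card_ext hmn hkm B hB
  have h2 : (extGraph P k m n).edgeSet.ncard ≤ exStronglyNonNested n k := by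
    apply le_csSup (ncard_bdd n _)
    refine ⟨extGraph P k m n, rfl, ?_⟩
    rintro ⟨M, hM, hMk, hst⟩
    have hnn := strong_nonNested (fun e he => (hM.1 e he).1) hst
    obtain ⟨o, c, hs, hex⟩ := seqs_of_matching hM hMk hnn
    have hb := in_base hs
    obtain ⟨l, hl⟩ := hst
    choose e he1 he2 he3 using hex
    refine hno o c (fun i => if h : i < k then l (e i h) else 0)
      ⟨hs.mo, hs.mc, hs.oc, hs.dis, fun i hi => (hb i hi).2⟩ (fun i hi => (hb i hi).1) ?_
    intro i j hij hj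
    have hi : i < k := lt_trans hij hj
    have hne : e i hi ≠ e j hj := by
      intro h
      have h5 := hs.mo i j hij hj
      rw [← he2 i hi, ← he2 j hj, h] at h5
      exact lt_irrefl _ h5
    have h6 := hl (e i hi) (he1 i hi) (e j hj) (he1 j hj) hne
    have h7 := hs.mo i j hij hj
    have h8 := hs.mc i j hij hj
    have h9 := hs.oc j hj
    simp only [hi, hj, dif_pos]
    constructor
    · intro hL
      have := h6.1 hL
      unfold Crossing at this
      simp only [Fin.lt_def, he2, he3] at this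
      omega
    · intro hL
      have := h6.2 hL
      unfold Separated at this
      simp only [Fin.lt_def, he2, he3] at this
      omega
  have h3 : (k - 1) * n = (k - 1) * m + (k - 1) * (n - m) := by
    rw [← Nat.mul_add]; congr 1; omega
  omega

theorem nonNested_le_strong (n k : ℕ) : exNonNested n k ≤ exStronglyNonNested n k := by
  unfold exNonNested
  apply csSup_le'
  rintro m ⟨G, rfl, hG⟩
  apply le_csSup (ncard_bdd n _)
  refine ⟨G, rfl, ?_⟩
  rintro ⟨M, hM, hMk, hst⟩
  exact hG ⟨M, hM, hMk, strong_nonNested (fun e he => (hM.1 e he).1) hst⟩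

end Pool.Agent.Helper56.NonNested
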