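import Pool.Agent.Helper56.NonNestedGraph

/-! Small base graphs, checked by an exhaustive search. -/

namespace Pool.Agent.Helper56.NonNested

/-- Search for a non-nested sequence of `d` further edges. -/
def search (E : List (ℕ × ℕ)) : ℕ → ℕ → ℕ → List ℕ → Bool
  | 0, _, _, _ => true
  | d + 1, xl, yl, used => E.any (fun e =>
      decide (xl ≤ e.1) && decide (yl ≤ e.2) && !(used.contains e.1) &&
        search E d (e.1 + 1) (e.2 + 1) (e.2 :: used))

theorem search_sound {E : List (ℕ × ℕ)} {k : ℕ} {o c : ℕ → ℕ}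
    (hs : Seqs k (fun x y => (x, y) ∈ E) o c) :
    ∀ d i, i + d = k → ∀ xl yl used, (i < k → xl ≤ o i) → (i < k → yl ≤ c i) →
      (∀ u ∈ used, ∃ j, j < k ∧ c j = u) → search E d xl yl used = true := by
  intro d
  induction d with
  | zero => intro i _ xl yl used _ _ _; rfl
  | succ d ih =>
    intro i hi xl yl used hx hy hu
    have hik : i < k := by omega
    rw [search, List.any_eq_true]
    refine ⟨(o i, c i), hs.adj i hik, ?_⟩
    simp only [Bool.and_eq_true, decide_eq_true_eq, Bool.not_eq_true']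
    refine ⟨⟨⟨hx hik, hy hik⟩, ?_⟩, ?_⟩
    · rw [Bool.eq_false_iff]
      intro h
      rw [List.contains_iff_mem] at h
      obtain ⟨j, hj, hcj⟩ := hu _ h
      exact hs.dis i hik j hj hcj.symm
    · refine ih (i + 1) (by omega) _ _ _ ?_ ?_ ?_
      · intro h; exact hs.mo i (i + 1) (by omega) h
      · intro h; exact hs.mc i (i + 1) (by omega) h
      · intro u hu'
        rw [List.mem_cons] at hu'
        rcases hu' with rfl | hu'
        · exact ⟨i, hik, rfl⟩
        · exact hu u hu'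

/-- Search for a strongly non-nested sequence of `d` further edges; `cf` is the larger endpoint of
the first edge of the current part. -/
def searchS (E : List (ℕ × ℕ)) : ℕ → ℕ → ℕ → ℕ → Bool
  | 0, _, _, _ => true
  | d + 1, xl, yl, cf => E.any (fun e =>
      decide (xl ≤ e.1) && decide (yl ≤ e.2) &&
        ((decide (e.1 < cf) && searchS E d (e.1 + 1) (e.2 + 1) cf) ||
          (decide (yl ≤ e.1) && searchS E d (e.1 + 1) (e.2 + 1) e.2)))

theorem searchS_sound {E : List (ℕ × ℕ)} {k : ℕ} {o c L : ℕ → ℕ}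
    (hs : Seqs k (fun x y => (x, y) ∈ E) o c) (hL : SeqLabels k o c L) :
    ∀ d i, i + 1 + d = k → ∀ s, s ≤ i → L s = L i →
      searchS E d (o i + 1) (c i + 1) (c s) = true := by
  intro d
  induction d with
  | zero => intro i _ s _ _; rfl
  | succ d ih =>
    intro i hi s hsi hLs
    have hik : i + 1 < k := by omega
    rw [searchS, List.any_eq_true]
    refine ⟨(o (i + 1), c (i + 1)), hs.adj (i + 1) hik, ?_⟩
    simp only [Bool.and_eq_true, Bool.or_eq_true, decide_eq_true_eq]
    refine ⟨⟨hs.mo i (i + 1) (by omega) hik, hs.mc i (i + 1) (by omega) hik⟩, ?_⟩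
    by_cases h : L i = L (i + 1)
    · left
      refine ⟨(hL s (i + 1) (by omega) hik).1 (hLs.trans h), ?_⟩
      exact ih (i + 1) (by omega) s (by omega) (hLs.trans h)
    · right
      have := (hL i (i + 1) (by omega) hik).2 h
      refine ⟨this, ?_⟩
      exact ih (i + 1) (by omega) (i + 1) le_rfl rfl

/-- Edges of the base graph for `k = 5` on 12 vertices. -/
def E12 : List (ℕ × ℕ) :=
  [(0, 4), (0, 5), (0, 6), (0, 7), (0, 8), (0, 9), (0, 10), (0, 11), (1, 2), (1, 3), (1, 4),
   (1, 5), (1, 6), (1, 7), (1, 8), (1, 9), (1, 10), (1, 11), (2, 3), (2, 4), (2, 5), (2, 6),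
   (2, 10), (2, 11), (3, 4), (3, 5), (3, 6), (3, 10), (3, 11), (4, 5), (4, 6), (4, 7), (4, 8),
   (4, 9), (4, 10), (4, 11), (5, 6), (5, 7), (5, 8), (5, 9), (5, 11), (6, 7), (6, 8), (6, 9),
   (6, 10), (6, 11), (7, 8), (7, 9), (8, 9)]

/-- Edges of the base graph for the strong version, `k = 4`, 9 vertices. -/
def E9 : List (ℕ × ℕ) :=
  [(0, 3), (0, 6), (0, 7), (0, 8), (1, 3), (1, 5), (1, 6), (1, 7), (1, 8), (2, 3), (2, 5),
   (2, 7), (2, 8), (3, 4), (3, 5), (3, 6), (3, 7), (3, 8), (4, 5), (4, 6), (4, 7), (4, 8),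
   (5, 6), (5, 7), (5, 8), (6, 7), (6, 8), (7, 8)]

/-- Edges of the base graph for the strong version, `k = 5`, 11 vertices. -/
def E11 : List (ℕ × ℕ) :=
  [(0, 3), (0, 4), (0, 5), (0, 6), (0, 7), (0, 8), (0, 9), (0, 10), (1, 2), (1, 3), (1, 4),
   (1, 5), (1, 7), (1, 8), (1, 9), (1, 10), (2, 3), (2, 4), (2, 6), (2, 7), (2, 9), (2, 10),
   (3, 4), (3, 5), (3, 6), (3, 8), (3, 9), (3, 10), (4, 5), (4, 6), (4, 7), (4, 8), (4, 9),
   (4, 10), (5, 6), (5, 7), (5, 8), (5, 9), (6, 7), (6, 8), (6, 10), (7, 8), (7, 10), (8, 9),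
   (8, 10)]

theorem small12 {n : ℕ} (hn : 12 ≤ n) : (5 - 1) * n < exNonNested n 5 := by
  refine lower_nonNested (P := fun x y => (x, y) ∈ E12) hn (by norm_num) E12.toFinset ?_ ?_ ?_
  · decide +kernel
  · decide +kernel
  · intro o c hs _
    have := search_sound hs 5 0 rfl 0 0 [] (fun _ => Nat.zero_le _) (fun _ => Nat.zero_le _)
      (by intro u hu; simp at hu)
    revert this
    decide +kernel

theorem strong_start {E : List (ℕ × ℕ)} {k : ℕ} (hk : 0 < k) {o c L : ℕ → ℕ}
    (hs : Seqs k (fun x y => (x, y) ∈ E) o c) (hL : SeqLabels k o c L) :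
    E.any (fun e => searchS E (k - 1) (e.1 + 1) (e.2 + 1) e.2) = true := by
  rw [List.any_eq_true]
  exact ⟨(o 0, c 0), hs.adj 0 hk, searchS_sound hs hL (k - 1) 0 (by omega) 0 le_rfl rfl⟩

theorem small9 {n : ℕ} (hn : 9 ≤ n) : (4 - 1) * n < exStronglyNonNested n 4 := by
  refine lower_strong (P := fun x y => (x, y) ∈ E9) hn (by norm_num) E9.toFinset ?_ ?_ ?_
  · decide +kernel
  · decide +kernel
  · intro o c L hs _ hL
    have := strong_start (by norm_num) hs hL
    revert this
    decide +kernel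

theorem small11 {n : ℕ} (hn : 11 ≤ n) : (5 - 1) * n < exStronglyNonNested n 5 := by
  refine lower_strong (P := fun x y => (x, y) ∈ E11) hn (by norm_num) E11.toFinset ?_ ?_ ?_
  · decide +kernel
  · decide +kernel
  · intro o c L hs _ hL
    have := strong_start (by norm_num) hs hL
    revert this
    decide +kernel

end Pool.Agent.Helper56.NonNested
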