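import Pool.Agent.Helper56.NonNestedSeq
import Pool.Agent.Helper56.NonNestedSmall

/-! The base graph for `k ≥ 6` on `2k+1` vertices. -/

namespace Pool.Agent.Helper56.NonNested

/-- All pairs `x < y ≤ 2k`. -/
def allPairs (k : ℕ) : Finset (ℕ × ℕ) :=
  ((Finset.range (2 * k + 1)).sigma (fun y => Finset.range y)).image (fun p => (p.2, p.1))

theorem mem_allPairs {k : ℕ} {p : ℕ × ℕ} : p ∈ allPairs k ↔ p.1 < p.2 ∧ p.2 < 2 * k + 1 := by
  unfold allPairs
  simp only [Finset.mem_image, Finset.mem_sigma, Finset.mem_range, Sigma.exists]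
  constructor
  · rintro ⟨a, b, ⟨h1, h2⟩, rfl⟩
    exact ⟨h2, h1⟩
  · rintro ⟨h1, h2⟩
    exact ⟨p.2, p.1, ⟨h2, h1⟩, rfl⟩

theorem card_allPairs (k : ℕ) : (allPairs k).card = k * (2 * k + 1) := by
  unfold allPairs
  rw [Finset.card_image_of_injective, Finset.card_sigma]
  · simp only [Finset.card_range]
    have := Finset.sum_range_id_mul_two (2 * k + 1)
    have h2 : (2 * k + 1) * (2 * k + 1 - 1) = (k * (2 * k + 1)) * 2 := by
      rw [Nat.add_sub_cancel]; ring
    omega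
  · rintro ⟨a, b⟩ ⟨c, d⟩ h
    simp only [Prod.mk.injEq] at h
    obtain ⟨rfl, rfl⟩ := h
    rfl

/-- The missing pairs. -/
def missing (k : ℕ) : Finset (ℕ × ℕ) :=
  (Finset.Icc 1 (k - 2)).image (fun y => (0, y)) ∪
    ((Finset.Ico (k + 2) (2 * k)).image (fun x => (x, 2 * k)) ∪
      {(2, k + 2), (3, k + 2), (3, k + 4), (4, k + 4)})

theorem card_missing (k : ℕ) (hk : 6 ≤ k) : (missing k).card ≤ 2 * k := by
  unfold missing
  have h1 := Finset.card_image_le (s := Finset.Icc 1 (k - 2)) (f := fun y => ((0 : ℕ), y))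
  have h2 := Finset.card_image_le (s := Finset.Ico (k + 2) (2 * k)) (f := fun x => (x, 2 * k))
  have h3 : ({(2, k + 2), (3, k + 2), (3, k + 4), (4, k + 4)} : Finset (ℕ × ℕ)).card ≤ 4 :=
    Finset.card_le_four
  rw [Nat.card_Icc] at h1
  rw [Nat.card_Ico] at h2
  refine (Finset.card_union_le _ _).trans ?_
  refine (Nat.add_le_add_left (Finset.card_union_le _ _) _).trans ?_
  omega

theorem main6 {k n : ℕ} (hk : 6 ≤ k) (hn : 2 * k + 1 ≤ n) : (k - 1) * n < exNonNested n k := by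
  refine lower_nonNested (P := fun x y => ¬ Hmem k x y) hn (by omega)
    (allPairs k \ missing k) ?_ ?_ ?_
  · intro p hp
    rw [Finset.mem_sdiff, mem_allPairs] at hp
    refine ⟨hp.1.1, hp.1.2, ?_⟩
    intro h
    apply hp.2
    unfold missing
    simp only [Finset.mem_union, Finset.mem_image, Finset.mem_Icc, Finset.mem_Ico,
      Finset.mem_insert, Finset.mem_singleton]
    obtain ⟨x, y⟩ := p
    simp only at hp h
    rcases h with ⟨rfl, h⟩ | ⟨rfl, h⟩ | ⟨rfl, rfl⟩ | ⟨rfl, rfl⟩ | ⟨rfl, rfl⟩ | ⟨rfl, rfl⟩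
    · left; exact ⟨y, by omega, rfl⟩
    · right; left; exact ⟨x, by omega, rfl⟩
    · simp
    · simp
    · simp
    · simp
  · have h1 := card_missing k hk
    have h2 := Finset.le_card_sdiff (missing k) (allPairs k)
    rw [card_allPairs] at h2
    obtain ⟨j, rfl⟩ : ∃ j, k = j + 1 := ⟨k - 1, by omega⟩
    rw [Nat.add_sub_cancel]
    have h3 : (j + 1) * (2 * (j + 1) + 1) = j * (2 * (j + 1) + 1) + (2 * (j + 1) + 1) := by ring
    omega
  · intro o c hs hle
    exact base hk hs.mo hs.mc hs.oc hs.dis (fun i hi => by have := hle i hi; omega)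
      (fun i hi => hs.adj i hi)

end Pool.Agent.Helper56.NonNested
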