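import Mathlib

/-! The combinatorial core: every non-nested matching with `k` edges on `2k+1` vertices uses one of
`2k` forbidden pairs. -/

namespace Pool.Agent.Helper56.NonNested

/-- The set of missing pairs of the base graph on `{0, ..., 2k}`. -/
def Hmem (k x y : ℕ) : Prop :=
  (x = 0 ∧ y ≤ k - 2) ∨ (y = 2 * k ∧ k + 2 ≤ x) ∨ (x = 2 ∧ y = k + 2) ∨ (x = 3 ∧ y = k + 2) ∨
    (x = 3 ∧ y = k + 4) ∨ (x = 4 ∧ y = k + 4)

instance (k x y : ℕ) : Decidable (Hmem k x y) := by unfold Hmem; infer_instance

theorem mono_le {f : ℕ → ℕ} {k : ℕ} (hf : ∀ i j, i < j → j < k → f i < f j) :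
    ∀ d i, i + d < k → f i + d ≤ f (i + d) := by
  intro d
  induction d with
  | zero => intro i _; simp
  | succ d ih =>
    intro i hi
    have h1 := ih i (by omega)
    have h2 := hf (i + d) (i + d + 1) (by omega) (by omega)
    have : i + (d + 1) = i + d + 1 := by omega
    rw [this]; omega

theorem mono_le' {f : ℕ → ℕ} {k : ℕ} (hf : ∀ i j, i < j → j < k → f i < f j) {i j : ℕ}
    (hij : i ≤ j) (hj : j < k) : f i + (j - i) ≤ f j := by
  have := mono_le hf (j - i) i (by omega)
  rwa [show i + (j - i) = j by omega] at this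

theorem cnt_low {f : ℕ → ℕ} {k : ℕ} (hf : ∀ i j, i < j → j < k → f i < f j) {t i : ℕ}
    (S : Finset ℕ) (hS : ∀ y ∈ S, (∃ j, j < k ∧ f j = y) ∧ y ≤ t)
    (hc : i < S.card) : f i ≤ t := by
  by_contra h
  push Not at h
  have hsub : S ⊆ (Finset.range i).image f := by
    intro y hy
    obtain ⟨⟨j, hj, rfl⟩, hyt⟩ := hS y hy
    refine Finset.mem_image.2 ⟨j, Finset.mem_range.2 ?_, rfl⟩
    by_contra hij
    push Not at hij
    have := mono_le' hf hij hj
    omega
  have h1 := Finset.card_le_card hsub
  have h2 := Finset.card_image_le (s := Finset.range i) (f := f)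
  rw [Finset.card_range] at h2
  omega

theorem cnt_high {f : ℕ → ℕ} {k : ℕ} (hf : ∀ i j, i < j → j < k → f i < f j) {t i : ℕ}
    (S : Finset ℕ) (hS : ∀ y ∈ S, (∃ j, j < k ∧ f j = y) ∧ t ≤ y) (hi : i < k)
    (hc : k ≤ S.card + i) : t ≤ f i := by
  by_contra h
  push Not at h
  have hsub : S ⊆ (Finset.Ioo i k).image f := by
    intro y hy
    obtain ⟨⟨j, hj, rfl⟩, hyt⟩ := hS y hy
    refine Finset.mem_image.2 ⟨j, Finset.mem_Ioo.2 ⟨?_, hj⟩, rfl⟩
    by_contra hij
    push Not at hij
    have := mono_le' hf hij hi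
    omega
  have h1 := Finset.card_le_card hsub
  have h2 := Finset.card_image_le (s := Finset.Ioo i k) (f := f)
  rw [Nat.card_Ioo] at h2
  omega

theorem exists_unused {k : ℕ} {o c : ℕ → ℕ} (ho : ∀ i j, i < j → j < k → o i < o j)
    (hc : ∀ i j, i < j → j < k → c i < c j) (hoc : ∀ i, i < k → o i < c i)
    (hd : ∀ i, i < k → ∀ j, j < k → o i ≠ c j) (hle : ∀ i, i < k → c i ≤ 2 * k) :
    ∃ v, v ≤ 2 * k ∧ (∀ i, i < k → o i ≠ v ∧ c i ≠ v) ∧
      ∀ y, y ≤ 2 * k → y ≠ v → (∃ i, i < k ∧ o i = y) ∨ (∃ i, i < k ∧ c i = y) := by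
  classical
  set U : Finset ℕ := (Finset.range k).image o ∪ (Finset.range k).image c with hU
  have injo : Set.InjOn o (Finset.range k : Set ℕ) := by
    intro a ha b hb hab
    simp only [Finset.coe_range, Set.mem_Iio] at ha hb
    rcases lt_trichotomy a b with h | h | h
    · have := ho a b h hb; omega
    · exact h
    · have := ho b a h ha; omega
  have injc : Set.InjOn c (Finset.range k : Set ℕ) := by
    intro a ha b hb hab
    simp only [Finset.coe_range, Set.mem_Iio] at ha hb
    rcases lt_trichotomy a b with h | h | h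
    · have := hc a b h hb; omega
    · exact h
    · have := hc b a h ha; omega
  have hUc : U.card = 2 * k := by
    rw [hU, Finset.card_union_of_disjoint]
    · rw [Finset.card_image_of_injOn injo, Finset.card_image_of_injOn injc, Finset.card_range]
      omega
    · rw [Finset.disjoint_left]
      intro x hx hx'
      obtain ⟨i, hi, rfl⟩ := Finset.mem_image.1 hx
      obtain ⟨j, hj, hij⟩ := Finset.mem_image.1 hx'
      exact hd i (Finset.mem_range.1 hi) j (Finset.mem_range.1 hj) hij.symm
  have hUs : U ⊆ Finset.range (2 * k + 1) := by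
    intro x hx
    rw [hU, Finset.mem_union] at hx
    rcases hx with hx | hx
    · obtain ⟨i, hi, rfl⟩ := Finset.mem_image.1 hx
      have h1 := hoc i (Finset.mem_range.1 hi)
      have h2 := hle i (Finset.mem_range.1 hi)
      exact Finset.mem_range.2 (by omega)
    · obtain ⟨i, hi, rfl⟩ := Finset.mem_image.1 hx
      have h2 := hle i (Finset.mem_range.1 hi)
      exact Finset.mem_range.2 (by omega)
  have hcomp : (Finset.range (2 * k + 1) \ U).card = 1 := by
    rw [Finset.card_sdiff_of_subset hUs, Finset.card_range, hUc]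
    omega
  obtain ⟨v, hv⟩ := Finset.card_eq_one.1 hcomp
  have hvm : v ∈ Finset.range (2 * k + 1) \ U := by rw [hv]; simp
  rw [Finset.mem_sdiff, Finset.mem_range] at hvm
  refine ⟨v, by omega, ?_, ?_⟩
  · intro i hi
    constructor
    · rintro rfl
      exact hvm.2 (by rw [hU]; exact Finset.mem_union_left _ (Finset.mem_image_of_mem _ (Finset.mem_range.2 hi)))
    · rintro rfl
      exact hvm.2 (by rw [hU]; exact Finset.mem_union_right _ (Finset.mem_image_of_mem _ (Finset.mem_range.2 hi)))
  · intro y hy hyv
    by_cases hyU : y ∈ U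
    · rw [hU, Finset.mem_union] at hyU
      rcases hyU with h | h
      · obtain ⟨i, hi, hiy⟩ := Finset.mem_image.1 h
        exact Or.inl ⟨i, Finset.mem_range.1 hi, hiy⟩
      · obtain ⟨i, hi, hiy⟩ := Finset.mem_image.1 h
        exact Or.inr ⟨i, Finset.mem_range.1 hi, hiy⟩
    · exfalso
      have : y ∈ Finset.range (2 * k + 1) \ U :=
        Finset.mem_sdiff.2 ⟨Finset.mem_range.2 (by omega), hyU⟩
      rw [hv, Finset.mem_singleton] at this
      exact hyv this

theorem base {k : ℕ} (hk : 6 ≤ k) {o c : ℕ → ℕ} (ho : ∀ i j, i < j → j < k → o i < o j)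
    (hc : ∀ i j, i < j → j < k → c i < c j) (hoc : ∀ i, i < k → o i < c i)
    (hd : ∀ i, i < k → ∀ j, j < k → o i ≠ c j) (hle : ∀ i, i < k → c i ≤ 2 * k)
    (hH : ∀ i, i < k → ¬ Hmem k (o i) (c i)) : False := by
  obtain ⟨v, hv, hvu, hcov⟩ := exists_unused ho hc hoc hd hle
  have n22 : ∀ i, i < k → ¬ (o i = 2 ∧ c i = k + 2) := fun i hi h =>
    hH i hi (Or.inr (Or.inr (Or.inl h)))
  have n32 : ∀ i, i < k → ¬ (o i = 3 ∧ c i = k + 2) := fun i hi h =>
    hH i hi (Or.inr (Or.inr (Or.inr (Or.inl h))))
  have n34 : ∀ i, i < k → ¬ (o i = 3 ∧ c i = k + 4) := fun i hi h =>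
    hH i hi (Or.inr (Or.inr (Or.inr (Or.inr (Or.inl h)))))
  have n44 : ∀ i, i < k → ¬ (o i = 4 ∧ c i = k + 4) := fun i hi h =>
    hH i hi (Or.inr (Or.inr (Or.inr (Or.inr (Or.inr h)))))
  have hol : ∀ i, i < k → i ≤ o i := by
    intro i hi
    have := mono_le' ho (Nat.zero_le i) hi
    omega
  have hcu : ∀ i, i < k → c i ≤ k + 1 + i := by
    intro i hi
    have h1 := mono_le' hc (show i ≤ k - 1 by omega) (by omega)
    have h2 := hle (k - 1) (by omega)
    omega
  -- if 2k is used then the last edge ends there and starts early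
  have hlast : v ≠ 2 * k → c (k - 1) = 2 * k ∧ o (k - 1) ≤ k + 1 := by
    intro hv2
    have hc2 : c (k - 1) = 2 * k := by
      rcases hcov (2 * k) le_rfl (fun h => hv2 h.symm) with ⟨i, hi, hoi⟩ | ⟨i, hi, hci⟩
      · have h1 := hoc i hi
        have h2 := hle i hi
        omega
      · have h1 := mono_le' hc (show i ≤ k - 1 by omega) (by omega)
        have h2 := hle (k - 1) (by omega)
        omega
    refine ⟨hc2, ?_⟩
    by_contra h
    push Not at h
    exact hH (k - 1) (by omega) (Or.inr (Or.inl ⟨hc2, by omega⟩))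
  -- closers at the end
  have hclos : v ≠ 2 * k → ∀ y, k + 2 ≤ y → y ≤ 2 * k → y ≠ v → ∃ j, j < k ∧ c j = y := by
    intro hv2 y hy1 hy2 hyv
    rcases hcov y hy2 hyv with ⟨i, hi, hoi⟩ | h
    · have h1 := (hlast hv2).2
      have h2 := mono_le' ho (show i ≤ k - 1 by omega) (by omega)
      omega
    · exact h
  by_cases hv0 : v = 0
  · -- case A
    have hv2 : v ≠ 2 * k := by omega
    have hc1 : k + 2 ≤ c 1 := by
      refine cnt_high hc (Finset.Icc (k + 2) (2 * k)) ?_ (by omega) ?_
      · intro y hy
        rw [Finset.mem_Icc] at hy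
        exact ⟨hclos hv2 y hy.1 hy.2 (by omega), hy.1⟩
      · rw [Nat.card_Icc]; omega
    have hc1' := hcu 1 (by omega)
    have ho0 := (hvu 0 (by omega)).1
    have ho1 := ho 0 1 (by omega) (by omega)
    have ho1' := mono_le' ho (show 1 ≤ k - 1 by omega) (by omega)
    have hol2 := (hlast hv2).2
    have h1 := n22 1 (by omega)
    have h2 := n32 1 (by omega)
    clear hH n22 n32 n34 n44 hcov hclos hlast hvu
    omega
  · -- 0 is used
    have ho0 : o 0 = 0 := by
      rcases hcov 0 (by omega) (fun h => hv0 h.symm) with ⟨i, hi, hoi⟩ | ⟨i, hi, hci⟩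
      · have := hol i hi
        have h0 : i = 0 := by omega
        rw [← h0]; omega
      · have := hoc i hi; omega
    have hc0 : k - 1 ≤ c 0 := by
      by_contra h
      push Not at h
      exact hH 0 (by omega) (Or.inl ⟨ho0, by omega⟩)
    have hcl : ∀ i, i < k → k - 1 + i ≤ c i := by
      intro i hi
      have := mono_le' hc (Nat.zero_le i) hi
      omega
    have hopen : ∀ y, y ≤ k - 2 → y ≠ v → ∃ j, j < k ∧ o j = y := by
      intro y hy hyv
      rcases hcov y (by omega) hyv with h | ⟨i, hi, hci⟩
      · exact h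
      · have := hcl i hi; omega
    -- if the unused vertex is late then the first openers are 0, 1, 2, ...
    have hoeq : k - 1 ≤ v → ∀ i, i ≤ k - 2 → o i = i := by
      intro hv1 i hi
      have h1 : o i ≤ i := by
        refine cnt_low ho (Finset.range (i + 1)) ?_ ?_
        · intro y hy
          rw [Finset.mem_range] at hy
          exact ⟨hopen y (by omega) (by omega), by omega⟩
        · rw [Finset.card_range]; omega
      have := hol i (by omega)
      omega
    by_cases hv2 : v = 2 * k
    · -- case B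
      have ho3 := hoeq (by omega) 3 (by omega)
      have ho4 := hoeq (by omega) 4 (by omega)
      have hc3 := hcl 3 (by omega)
      have hcm := mono_le' hc (show 3 ≤ k - 1 by omega) (by omega)
      have hcm4 := mono_le' hc (show 4 ≤ k - 1 by omega) (by omega)
      have hlast' := hle (k - 1) (by omega)
      have hne := (hvu (k - 1) (by omega)).2
      have h34 := hc 3 4 (by omega) (by omega)
      have h3 := n32 3 (by omega)
      have h4 := n44 4 (by omega)
      have e3 : c 3 = k + 3 := by omega
      have e4 : c 4 = k + 4 := by omega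
      exact h4 ⟨ho4, e4⟩
    · by_cases hv1 : k - 1 ≤ v
      · -- case C1
        have ho2 := hoeq hv1 2 (by omega)
        have ho3 := hoeq hv1 3 (by omega)
        have hc2 : k + 2 ≤ c 2 := by
          refine cnt_high hc ((Finset.Icc (k + 2) (2 * k)).erase v) ?_ (by omega) ?_
          · intro y hy
            rw [Finset.mem_erase, Finset.mem_Icc] at hy
            exact ⟨hclos hv2 y hy.2.1 hy.2.2 hy.1, hy.2.1⟩
          · have := Finset.pred_card_le_card_erase (s := Finset.Icc (k + 2) (2 * k)) (a := v)
            rw [Nat.card_Icc] at this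
            omega
        have hc2' := hcu 2 (by omega)
        have hc3' := hcu 3 (by omega)
        have h23 := hc 2 3 (by omega) (by omega)
        have h2 := n22 2 (by omega)
        have h3 := n34 3 (by omega)
        have e2 : c 2 = k + 3 := by omega
        have e3 : c 3 = k + 4 := by omega
        exact h3 ⟨ho3, e3⟩
      · -- case C2
        have hc1 : k + 2 ≤ c 1 := by
          refine cnt_high hc (Finset.Icc (k + 2) (2 * k)) ?_ (by omega) ?_
          · intro y hy
            rw [Finset.mem_Icc] at hy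
            exact ⟨hclos hv2 y hy.1 hy.2 (by omega), hy.1⟩
          · rw [Nat.card_Icc]; omega
        have hc3 := mono_le' hc (show 1 ≤ 3 by omega) (by omega)
        have hc3' := hcu 3 (by omega)
        have ho3' := hol 3 (by omega)
        have ho3 : o 3 ≤ 4 := by
          refine cnt_low ho ((Finset.range 5).erase v) ?_ ?_
          · intro y hy
            rw [Finset.mem_erase, Finset.mem_range] at hy
            exact ⟨hopen y (by omega) hy.1, by omega⟩
          · have := Finset.pred_card_le_card_erase (s := Finset.range 5) (a := v)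
            rw [Finset.card_range] at this
            omega
        have h3 := n34 3 (by omega)
        have h4 := n44 3 (by omega)
        have e3 : c 3 = k + 4 := by omega
        omega

end Pool.Agent.Helper56.NonNested
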