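import Mathlib

set_option autoImplicit false

namespace Pool.Agent.Helper56.SchurBase

open Finset Matrix

/-- The alternant `det (x_i ^ e_j)`. -/
noncomputable def D {n : ℕ} (e : Fin n → ℕ) (x : Fin n → ℝ) : ℝ :=
  (Matrix.of fun i j => x i ^ e j).det

/-- The Vandermonde product. -/
noncomputable def V {n : ℕ} (x : Fin n → ℝ) : ℝ :=
  ∏ i : Fin n, ∏ j ∈ Ioi i, (x j - x i)

/-- The branching sum: for strictly increasing exponents it is the Schur polynomial. -/
noncomputable def S : (n : ℕ) → (Fin n → ℕ) → (Fin n → ℝ) → ℝ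
  | 0, _, _ => 1
  | n + 1, e, x => x 0 ^ e 0 *
      ∑ m ∈ Fintype.piFinset (fun j : Fin n => Finset.Ico (e j.castSucc) (e j.succ)),
        (∏ j : Fin n, x 0 ^ (e j.succ - 1 - m j)) * S n m (fun i => x i.succ)

theorem S_succ (n : ℕ) (e : Fin (n + 1) → ℕ) (x : Fin (n + 1) → ℝ) :
    S (n + 1) e x = x 0 ^ e 0 *
      ∑ m ∈ Fintype.piFinset (fun j : Fin n => Finset.Ico (e j.castSucc) (e j.succ)),
        (∏ j : Fin n, x 0 ^ (e j.succ - 1 - m j)) * S n m (fun i => x i.succ) := rfl

theorem V_succ {n : ℕ} (x : Fin (n + 1) → ℝ) :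
    V x = (∏ i : Fin n, (x i.succ - x 0)) * V (fun i => x i.succ) := by
  unfold V
  rw [Fin.prod_univ_succ]
  congr 1
  · rw [Fin.prod_Ioi_zero]
  · refine Finset.prod_congr rfl fun i _ => ?_
    rw [Fin.prod_Ioi_succ]

theorem pow_sub_geom (a b : ℝ) (p q : ℕ) (h : p ≤ q) :
    b ^ q - a ^ (q - p) * b ^ p = (b - a) * ∑ m ∈ Finset.Ico p q, a ^ (q - 1 - m) * b ^ m := by
  induction q, h using Nat.le_induction with
  | base => simp
  | succ q hq ih =>
    rw [Finset.sum_Ico_succ_top hq, mul_add]
    have h1 : ∑ m ∈ Finset.Ico p q, a ^ (q + 1 - 1 - m) * b ^ m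
        = a * ∑ m ∈ Finset.Ico p q, a ^ (q - 1 - m) * b ^ m := by
      rw [Finset.mul_sum]
      refine Finset.sum_congr rfl fun m hm => ?_
      have hm' := (Finset.mem_Ico.1 hm).2
      have : q + 1 - 1 - m = (q - 1 - m) + 1 := by omega
      rw [this, pow_succ]
      ring
    rw [h1]
    have h2 : q + 1 - p = (q - p) + 1 := by omega
    rw [h2, pow_succ]
    have h3 : q + 1 - 1 - q = 0 := by omega
    rw [h3, pow_zero, one_mul]
    linear_combination a * ih

theorem D_succ {n : ℕ} (e : Fin (n + 1) → ℕ) (he : StrictMono e) (x : Fin (n + 1) → ℝ) :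
    D e x = x 0 ^ e 0 * (∏ i : Fin n, (x i.succ - x 0)) *
      ∑ m ∈ Fintype.piFinset (fun j : Fin n => Finset.Ico (e j.castSucc) (e j.succ)),
        (∏ j : Fin n, x 0 ^ (e j.succ - 1 - m j)) * D m (fun i => x i.succ) := by
  have hle : ∀ j : Fin n, e j.castSucc ≤ e j.succ := fun j =>
    (he (Fin.castSucc_lt_succ)).le
  -- column operations
  have h1 : D e x = (Matrix.of fun (i j : Fin (n + 1)) =>
      Fin.cases (motive := fun _ => ℝ) (x i ^ e 0)
        (fun j : Fin n => x i ^ e j.succ - x 0 ^ (e j.succ - e j.castSucc) * x i ^ e j.castSucc)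
        j).det := by
    unfold D
    apply Matrix.det_eq_of_forall_col_eq_smul_add_pred
      (fun j : Fin n => x 0 ^ (e j.succ - e j.castSucc))
    · intro i
      simp
    · intro i j
      simp
  rw [h1, Matrix.det_succ_row_zero, Fin.sum_univ_succ]
  have h2 : ∀ j : Fin n, x 0 ^ e j.succ
      - x 0 ^ (e j.succ - e j.castSucc) * x 0 ^ e j.castSucc = 0 := by
    intro j
    rw [← pow_add, Nat.sub_add_cancel (hle j), sub_self]
  have h3 : ∑ j : Fin n, (-1 : ℝ) ^ ((j.succ : Fin (n + 1)) : ℕ) *
      (Matrix.of fun (i j : Fin (n + 1)) =>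
      Fin.cases (motive := fun _ => ℝ) (x i ^ e 0)
        (fun j : Fin n => x i ^ e j.succ - x 0 ^ (e j.succ - e j.castSucc) * x i ^ e j.castSucc)
        j) 0 j.succ * ((Matrix.of fun (i j : Fin (n + 1)) =>
      Fin.cases (motive := fun _ => ℝ) (x i ^ e 0)
        (fun j : Fin n => x i ^ e j.succ - x 0 ^ (e j.succ - e j.castSucc) * x i ^ e j.castSucc)
        j).submatrix Fin.succ (Fin.succAbove j.succ)).det = 0 := by
    refine Finset.sum_eq_zero fun j _ => ?_
    simp only [Matrix.of_apply, Fin.cases_succ]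
    rw [h2 j]
    ring
  rw [h3, add_zero]
  simp only [Fin.val_zero, pow_zero, one_mul, Matrix.of_apply, Fin.cases_zero]
  rw [mul_assoc]
  congr 1
  -- the remaining minor
  have h4 : ((Matrix.of fun (i j : Fin (n + 1)) =>
      Fin.cases (motive := fun _ => ℝ) (x i ^ e 0)
        (fun j : Fin n => x i ^ e j.succ - x 0 ^ (e j.succ - e j.castSucc) * x i ^ e j.castSucc)
        j).submatrix Fin.succ (Fin.succAbove 0))
      = Matrix.of fun (i j : Fin n) => (x i.succ - x 0) *
          ∑ m ∈ Finset.Ico (e j.castSucc) (e j.succ), x 0 ^ (e j.succ - 1 - m) * x i.succ ^ m := by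
    ext i j
    simp only [Matrix.submatrix_apply, Matrix.of_apply, Fin.succAbove_zero, Fin.cases_succ]
    exact pow_sub_geom _ _ _ _ (hle j)
  rw [h4]
  have h5 := Matrix.det_mul_column (fun i : Fin n => x i.succ - x 0)
    (Matrix.of fun (i j : Fin n) =>
          ∑ m ∈ Finset.Ico (e j.castSucc) (e j.succ), x 0 ^ (e j.succ - 1 - m) * x i.succ ^ m)
  simp only [Matrix.of_apply] at h5
  rw [h5]
  congr 1
  -- multilinearity in the columns
  rw [← Matrix.det_transpose]
  have h6 := MultilinearMap.map_sum_finset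
    (Matrix.detRowAlternating (n := Fin n) (R := ℝ)).toMultilinearMap
    (fun (j : Fin n) (m : ℕ) => fun i : Fin n => x 0 ^ (e j.succ - 1 - m) * x i.succ ^ m)
    (fun j : Fin n => Finset.Ico (e j.castSucc) (e j.succ))
  have h7 : (Matrix.of fun (i j : Fin n) =>
          ∑ m ∈ Finset.Ico (e j.castSucc) (e j.succ), x 0 ^ (e j.succ - 1 - m) * x i.succ ^ m)ᵀ
      = fun j => ∑ m ∈ Finset.Ico (e j.castSucc) (e j.succ),
        (fun i : Fin n => x 0 ^ (e j.succ - 1 - m) * x i.succ ^ m) := by
    ext j i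
    simp [Matrix.transpose_apply]
  rw [h7]
  refine h6.trans ?_
  refine Finset.sum_congr rfl fun m _ => ?_
  have h8 := Matrix.det_mul_column (fun j : Fin n => x 0 ^ (e j.succ - 1 - m j))
    (Matrix.of fun (j i : Fin n) => x i.succ ^ m j)
  simp only [Matrix.of_apply] at h8
  unfold D
  rw [← Matrix.det_transpose (Matrix.of fun (i j : Fin n) => x i.succ ^ m j)]
  exact h8

theorem D_eq {n : ℕ} (e : Fin n → ℕ) (he : StrictMono e) (x : Fin n → ℝ) :
    D e x = S n e x * V x := by
  induction n with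
  | zero => simp [D, S, V]
  | succ n ih =>
    rw [D_succ e he, S_succ, V_succ]
    have h1 : ∑ m ∈ Fintype.piFinset (fun j : Fin n => Finset.Ico (e j.castSucc) (e j.succ)),
        (∏ j : Fin n, x 0 ^ (e j.succ - 1 - m j)) * D m (fun i => x i.succ)
        = (∑ m ∈ Fintype.piFinset (fun j : Fin n => Finset.Ico (e j.castSucc) (e j.succ)),
        (∏ j : Fin n, x 0 ^ (e j.succ - 1 - m j)) * S n m (fun i => x i.succ)) *
          V (fun i => x i.succ) := by
      rw [Finset.sum_mul]
      refine Finset.sum_congr rfl fun m hm => ?_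
      rw [ih m ?_]
      · ring
      · cases n with
        | zero => exact fun i => i.elim0
        | succ n =>
          rw [Fin.strictMono_iff_lt_succ]
          intro i
          rw [Fintype.mem_piFinset] at hm
          have h2 := (Finset.mem_Ico.1 (hm i.castSucc)).2
          have h3 := (Finset.mem_Ico.1 (hm i.succ)).1
          have h4 : i.castSucc.succ = i.succ.castSucc := Fin.succ_castSucc i
          rw [h4] at h2
          exact lt_of_lt_of_le h2 h3
    rw [h1]
    ring

theorem strictMono_of_mem {n : ℕ} {e : Fin (n + 1) → ℕ} {m : Fin n → ℕ}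
    (hm : m ∈ Fintype.piFinset (fun j : Fin n => Finset.Ico (e j.castSucc) (e j.succ))) :
    StrictMono m := by
  cases n with
  | zero => exact fun i => i.elim0
  | succ n =>
    rw [Fin.strictMono_iff_lt_succ]
    intro i
    rw [Fintype.mem_piFinset] at hm
    have h2 := (Finset.mem_Ico.1 (hm i.castSucc)).2
    have h3 := (Finset.mem_Ico.1 (hm i.succ)).1
    have h4 : i.castSucc.succ = i.succ.castSucc := Fin.succ_castSucc i
    rw [h4] at h2
    exact lt_of_lt_of_le h2 h3

theorem S_pos {n : ℕ} (e : Fin n → ℕ) (he : StrictMono e) (x : Fin n → ℝ) (hx : ∀ i, 0 < x i) :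
    0 < S n e x := by
  induction n with
  | zero => simp [S]
  | succ n ih =>
    rw [S_succ]
    refine mul_pos (pow_pos (hx 0) _) (Finset.sum_pos ?_ ?_)
    · intro m hm
      exact mul_pos (Finset.prod_pos fun j _ => pow_pos (hx 0) _)
        (ih m (strictMono_of_mem hm) _ fun i => hx i.succ)
    · refine ⟨fun j => e j.castSucc, ?_⟩
      rw [Fintype.mem_piFinset]
      intro j
      rw [Finset.mem_Ico]
      exact ⟨le_rfl, he Fin.castSucc_lt_succ⟩

theorem S_continuous {n : ℕ} (e : Fin n → ℕ) : Continuous (S n e) := by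
  induction n with
  | zero =>
    have : S 0 e = fun _ => 1 := by
      funext x; rfl
    rw [this]
    exact continuous_const
  | succ n ih =>
    have : S (n + 1) e = fun x => x 0 ^ e 0 *
      ∑ m ∈ Fintype.piFinset (fun j : Fin n => Finset.Ico (e j.castSucc) (e j.succ)),
        (∏ j : Fin n, x 0 ^ (e j.succ - 1 - m j)) * S n m (fun i => x i.succ) := by
      funext x; rfl
    rw [this]
    refine Continuous.mul (by fun_prop) (continuous_finset_sum _ fun m _ => ?_)
    refine Continuous.mul (by fun_prop) ?_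
    exact (ih m).comp (by fun_prop)

end Pool.Agent.Helper56.SchurBase
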