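import Mathlib
import Pool.Agent.Helper56.SchurBase

set_option autoImplicit false

namespace Pool.Agent.Helper56.SchurIdentity

open Finset Matrix Filter Topology
open Pool.Agent.Helper56.SchurBase

/-- Two functions on `ℝ ^ n` that agree at all positive points with distinct
coordinates agree at a positive point where both are continuous. -/
theorem eq_of_eq_on_injective_at {n : ℕ} {f g : (Fin n → ℝ) → ℝ}
    (h : ∀ x, (∀ i, 0 < x i) → Function.Injective x → f x = g x)
    (x : Fin n → ℝ) (hx : ∀ i, 0 < x i) (hf : ContinuousAt f x) (hg : ContinuousAt g x) :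
    f x = g x := by
  let p : ℝ → (Fin n → ℝ) := fun ε i => x i + ε * (i : ℕ)
  have hp : Continuous p := by fun_prop
  have hinj : ∀ᶠ ε in 𝓝[≠] (0 : ℝ), Function.Injective (p ε) := by
    have h1 : ∀ i j : Fin n, ∀ᶠ ε in 𝓝[≠] (0 : ℝ), p ε i = p ε j → i = j := by
      intro i j
      by_cases hij : i = j
      · exact Eventually.of_forall fun _ _ => hij
      · have hij' : ((i : ℕ) : ℝ) - ((j : ℕ) : ℝ) ≠ 0 := by
          intro h0
          apply hij
          apply Fin.ext
          exact_mod_cast sub_eq_zero.1 h0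
        have h2 : ∀ᶠ ε in 𝓝[≠] (0 : ℝ), ε ≠ (x j - x i) / ((i : ℕ) - (j : ℕ)) := by
          by_cases h0 : (x j - x i) / (((i : ℕ) : ℝ) - (j : ℕ)) = 0
          · rw [h0]
            exact self_mem_nhdsWithin
          · exact mem_nhdsWithin_of_mem_nhds (isOpen_ne.mem_nhds (Ne.symm h0))
        refine h2.mono fun ε hε heq => ?_
        exfalso
        apply hε
        rw [eq_div_iff hij']
        simp only [p] at heq
        linear_combination heq
    have h3 : ∀ᶠ ε in 𝓝[≠] (0 : ℝ), ∀ i j : Fin n, p ε i = p ε j → i = j := by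
      rw [eventually_all]
      intro i
      rw [eventually_all]
      exact h1 i
    exact h3.mono fun ε hε i j hij => hε i j hij
  have hp0 : p 0 = x := by
    funext i
    simp [p]
  have hpx : Tendsto p (𝓝 0) (𝓝 x) := by
    have := hp.tendsto 0
    rwa [hp0] at this
  have h1 : Tendsto (fun ε => f (p ε)) (𝓝[≠] 0) (𝓝 (f x)) :=
    (hf.tendsto.comp hpx).mono_left nhdsWithin_le_nhds
  have h2 : Tendsto (fun ε => g (p ε)) (𝓝[≠] 0) (𝓝 (g x)) :=
    (hg.tendsto.comp hpx).mono_left nhdsWithin_le_nhds
  have hpos : ∀ᶠ ε in 𝓝[≠] (0 : ℝ), ∀ i, 0 < p ε i := by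
    rw [eventually_all]
    intro i
    apply nhdsWithin_le_nhds
    have h4 : Tendsto (fun ε => p ε i) (𝓝 0) (𝓝 (p 0 i)) :=
      ((continuous_apply i).comp hp).tendsto 0
    rw [hp0] at h4
    exact h4.eventually (lt_mem_nhds (hx i))
  have h3 : Tendsto (fun ε => f (p ε)) (𝓝[≠] 0) (𝓝 (g x)) := by
    refine h2.congr' ?_
    exact (hinj.and hpos).mono fun ε hε => (h _ hε.2 hε.1).symm
  exact tendsto_nhds_unique h1 h3

/-- Two continuous functions on `ℝ ^ n` that agree at all positive points with distinct
coordinates agree at all positive points. -/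
theorem eq_of_eq_on_injective {n : ℕ} {f g : (Fin n → ℝ) → ℝ} (hf : Continuous f)
    (hg : Continuous g) (h : ∀ x, (∀ i, 0 < x i) → Function.Injective x → f x = g x)
    (x : Fin n → ℝ) (hx : ∀ i, 0 < x i) :
    f x = g x := eq_of_eq_on_injective_at h x hx hf.continuousAt hg.continuousAt

theorem cons_cons_one {n : ℕ} {α : Type*} (a b : α) (R : Fin n → α) :
    (Fin.cons a (Fin.cons b R : Fin (n + 1) → α) : Fin (n + 2) → α) 1 = b := rfl

theorem V_ne_zero {n : ℕ} {x : Fin n → ℝ} (hx : Function.Injective x) : V x ≠ 0 := by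
  unfold V
  rw [Finset.prod_ne_zero_iff]
  intro i _
  rw [Finset.prod_ne_zero_iff]
  intro j hj
  rw [sub_ne_zero]
  intro h
  exact (Finset.mem_Ioi.1 hj).ne (hx h).symm

theorem V_eq_D {n : ℕ} (x : Fin n → ℝ) : V x = D (fun j : Fin n => (j : ℕ)) x := by
  unfold V D
  rw [← Matrix.det_vandermonde]
  rfl

theorem D_perm {n : ℕ} (e : Fin n → ℕ) (x : Fin n → ℝ) (σ : Equiv.Perm (Fin n)) :
    D e (x ∘ σ) = (Equiv.Perm.sign σ : ℤ) * D e x := by
  unfold D
  have := Matrix.det_permute σ (Matrix.of fun (i j : Fin n) => x i ^ e j)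
  exact this

theorem S_perm {n : ℕ} (e : Fin n → ℕ) (he : StrictMono e) (σ : Equiv.Perm (Fin n))
    (x : Fin n → ℝ) (hx0 : ∀ i, 0 < x i) : S n e (x ∘ σ) = S n e x := by
  apply eq_of_eq_on_injective (f := fun x => S n e (x ∘ σ)) (g := S n e) _ (S_continuous e) _ x hx0
  · exact (S_continuous e).comp (by fun_prop)
  · intro x _ hx
    have hV := V_ne_zero hx
    have h1 := D_eq e he (x ∘ σ)
    have h2 := D_eq e he x
    rw [D_perm, h2] at h1
    have h3 : V (x ∘ σ) = (Equiv.Perm.sign σ : ℤ) * V x := by
      rw [V_eq_D, V_eq_D, D_perm]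
    rw [h3] at h1
    have h4 : ((Equiv.Perm.sign σ : ℤ) : ℝ) ≠ 0 := by
      rcases Int.units_eq_one_or (Equiv.Perm.sign σ) with h | h <;> simp [h]
    apply mul_right_cancel₀ (mul_ne_zero h4 hV)
    linear_combination -h1

theorem D_smul {n : ℕ} (e : Fin n → ℕ) (q : ℝ) (x : Fin n → ℝ) :
    D e (fun i => q * x i) = q ^ (∑ j, e j) * D e x := by
  unfold D
  have h := Matrix.det_mul_row (fun j : Fin n => q ^ e j)
    (Matrix.of fun (i j : Fin n) => x i ^ e j)
  rw [← Finset.prod_pow_eq_pow_sum, ← h]
  congr 1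
  ext i j
  simp [mul_pow]

theorem S_smul {n : ℕ} (e : Fin n → ℕ) (he : StrictMono e) (q : ℝ) (x : Fin n → ℝ)
    (hx0 : ∀ i, 0 < x i) :
    S n e (fun i => q * x i) * q ^ (∑ j : Fin n, (j : ℕ)) = q ^ (∑ j, e j) * S n e x := by
  apply eq_of_eq_on_injective
    (f := fun x => S n e (fun i => q * x i) * q ^ (∑ j : Fin n, (j : ℕ)))
    (g := fun x => q ^ (∑ j, e j) * S n e x) _ _ _ x hx0
  · exact ((S_continuous e).comp (by fun_prop)).mul continuous_const
  · exact continuous_const.mul (S_continuous e)
  · intro x _ hx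
    have hV := V_ne_zero hx
    apply mul_right_cancel₀ hV
    have h1 := D_eq e he (fun i => q * x i)
    have h2 := D_eq e he x
    have h3 : V (fun i => q * x i) = q ^ (∑ j : Fin n, (j : ℕ)) * V x := by
      rw [V_eq_D, V_eq_D, D_smul]
    rw [D_smul, h2, h3] at h1
    linear_combination -h1

/-- The three-term identity for determinants. -/
theorem det_three_term {n : ℕ} (a b a' b' : Fin (n + 2) → ℝ) (R : Fin n → Fin (n + 2) → ℝ)
    (h : (Matrix.of (Fin.cons a (Fin.cons b R) : Fin (n + 2) → Fin (n + 2) → ℝ)).det ≠ 0) :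
    (Matrix.of (Fin.cons a (Fin.cons b R) : Fin (n + 2) → Fin (n + 2) → ℝ)).det *
      (Matrix.of (Fin.cons a' (Fin.cons b' R) : Fin (n + 2) → Fin (n + 2) → ℝ)).det -
    (Matrix.of (Fin.cons a (Fin.cons b' R) : Fin (n + 2) → Fin (n + 2) → ℝ)).det *
      (Matrix.of (Fin.cons a' (Fin.cons b R) : Fin (n + 2) → Fin (n + 2) → ℝ)).det =
    (Matrix.of (Fin.cons a (Fin.cons a' R) : Fin (n + 2) → Fin (n + 2) → ℝ)).det *
      (Matrix.of (Fin.cons b (Fin.cons b' R) : Fin (n + 2) → Fin (n + 2) → ℝ)).det := by
  classical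
  let F : (Fin (n + 2) → ℝ) → (Fin (n + 2) → ℝ) → ℝ := fun p q =>
    (Matrix.of (Fin.cons p (Fin.cons q R) : Fin (n + 2) → Fin (n + 2) → ℝ)).det
  change F a b * F a' b' - F a b' * F a' b = F a a' * F b b'
  let M : Matrix (Fin (n + 2)) (Fin (n + 2)) ℝ :=
    Matrix.of (Fin.cons a (Fin.cons b R) : Fin (n + 2) → Fin (n + 2) → ℝ)
  have hM : M.det ≠ 0 := h
  have hupd : ∀ p q, F p q = (Matrix.updateRow (Matrix.updateRow M 0 p) 1 q).det := by
    intro p q
    simp only [F]
    congr 1
    ext i j
    refine Fin.cases ?_ (fun i => ?_) i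
    · rw [Matrix.updateRow_ne (by simp), Matrix.updateRow_self]
      simp
    · refine Fin.cases ?_ (fun i => ?_) i
      · have : (Fin.succ 0 : Fin (n + 2)) = 1 := rfl
        rw [this, Matrix.updateRow_self]
        rw [Matrix.of_apply, cons_cons_one]
      · rw [Matrix.updateRow_ne, Matrix.updateRow_ne]
        · simp [M]
        · exact Fin.succ_ne_zero _
        · intro h1
          have h2 : (Fin.succ (Fin.succ i) : Fin (n + 2)) = Fin.succ 0 := h1
          exact Fin.succ_ne_zero _ (Fin.succ_injective _ h2)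
  -- linearity in the second argument
  have hadd : ∀ p q q', F p (q + q') = F p q + F p q' := by
    intro p q q'
    rw [hupd, hupd, hupd, Matrix.det_updateRow_add]
  have hsmul : ∀ p (c : ℝ) q, F p (c • q) = c * F p q := by
    intro p c q
    rw [hupd, hupd, Matrix.det_updateRow_smul]
  have hself : ∀ p, F p p = 0 := by
    intro p
    apply Matrix.det_zero_of_row_eq (i := 0) (j := 1) (by simp)
    funext j
    rw [Matrix.of_apply, Matrix.of_apply, cons_cons_one, Fin.cons_zero]
  have hR : ∀ p (i : Fin n), F p (R i) = 0 := by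
    intro p i
    apply Matrix.det_zero_of_row_eq (i := 1) (j := i.succ.succ)
    · intro h1
      have h2 : (Fin.succ 0 : Fin (n + 2)) = Fin.succ (Fin.succ i) := h1
      exact Fin.succ_ne_zero _ (Fin.succ_injective _ h2).symm
    · funext j
      rw [Matrix.of_apply, Matrix.of_apply, cons_cons_one, Fin.cons_succ, Fin.cons_succ]
  have hanti : ∀ p q, F p q = - F q p := by
    intro p q
    have h0 : (1 : Fin (n + 2)) = Fin.succ 0 := rfl
    have h1 := Matrix.det_permute (Equiv.swap (0 : Fin (n + 2)) 1)
      (Matrix.of (Fin.cons q (Fin.cons p R) : Fin (n + 2) → Fin (n + 2) → ℝ))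
    have h2 : ((Matrix.of (Fin.cons q (Fin.cons p R) : Fin (n + 2) → Fin (n + 2) → ℝ)).submatrix
        (Equiv.swap (0 : Fin (n + 2)) 1) id) =
        (Matrix.of (Fin.cons p (Fin.cons q R) : Fin (n + 2) → Fin (n + 2) → ℝ)) := by
      ext i j
      rw [Matrix.submatrix_apply]
      refine Fin.cases ?_ (fun i => ?_) i
      · rw [Equiv.swap_apply_left, Matrix.of_apply, cons_cons_one, Matrix.of_apply, Fin.cons_zero]
        rfl
      · refine Fin.cases ?_ (fun i => ?_) i
        · rw [← h0, Equiv.swap_apply_right, Matrix.of_apply, Matrix.of_apply, cons_cons_one,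
            Fin.cons_zero]
          rfl
        · rw [Equiv.swap_apply_of_ne_of_ne]
          · simp
          · exact Fin.succ_ne_zero _
          · intro h1
            have h2 : (Fin.succ (Fin.succ i) : Fin (n + 2)) = Fin.succ 0 := h1
            exact Fin.succ_ne_zero _ (Fin.succ_injective _ h2)
    rw [h2, Equiv.Perm.sign_swap (by simp)] at h1
    simp only [F]
    rw [h1]
    simp
  -- the linear map vanishing on all rows
  let L : (Fin (n + 2) → ℝ) →ₗ[ℝ] ℝ :=
    { toFun := fun w => F a b * F a' w - F a w * F a' b - F a a' * F b w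
      map_add' := by
        intro w w'
        simp only [hadd]
        ring
      map_smul' := by
        intro c w
        simp only [hsmul, RingHom.id_apply, smul_eq_mul]
        ring }
  have hLrow : ∀ i, L (M i) = 0 := by
    intro i
    refine Fin.cases ?_ (fun i => ?_) i
    · change F a b * F a' a - F a a * F a' b - F a a' * F b a = 0
      rw [hself, hanti a' a, hanti b a]
      ring
    · refine Fin.cases ?_ (fun i => ?_) i
      · change F a b * F a' b - F a b * F a' b - F a a' * F b b = 0
        rw [hself]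
        ring
      · change F a b * F a' (R i) - F a (R i) * F a' b - F a a' * F b (R i) = 0
        rw [hR, hR, hR]
        ring
  have hL : L b' = 0 := by
    have h1 : b' = (b' ᵥ* M⁻¹) ᵥ* M := by
      rw [Matrix.vecMul_vecMul, Matrix.nonsing_inv_mul M (isUnit_iff_ne_zero.2 hM),
        Matrix.vecMul_one]
    rw [h1, Matrix.vecMul_eq_sum, map_sum]
    refine Finset.sum_eq_zero fun i _ => ?_
    have h2 : L ((b' ᵥ* M⁻¹) i • M i) = (b' ᵥ* M⁻¹) i • L (M i) := L.map_smul _ _
    rw [h2, hLrow, smul_zero]
  have hL' : F a b * F a' b' - F a b' * F a' b - F a a' * F b b' = 0 := hL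
  linear_combination hL'

theorem V_cons_cons {n : ℕ} (p q : ℝ) (y : Fin n → ℝ) :
    V (Fin.cons p (Fin.cons q y) : Fin (n + 2) → ℝ) =
      (q - p) * (∏ i, (y i - p)) * (∏ i, (y i - q)) * V y := by
  rw [V_succ, V_succ, Fin.prod_univ_succ]
  simp only [Fin.cons_succ, Fin.cons_zero]
  ring

/-- The three-term identity for branching sums, first two variables. -/
theorem S_three_term_cons {n : ℕ} (e : Fin (n + 2) → ℕ) (he : StrictMono e)
    (z : Fin (n + 4) → ℝ) (hz0 : ∀ i, 0 < z i) :
    (z 0 - z 1) * (z 2 - z 3) *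
        (S (n + 2) e (Fin.cons (z 0) (Fin.cons (z 1) fun i : Fin n => z i.succ.succ.succ.succ)) *
         S (n + 2) e (Fin.cons (z 2) (Fin.cons (z 3) fun i : Fin n => z i.succ.succ.succ.succ))) -
      (z 0 - z 3) * (z 2 - z 1) *
        (S (n + 2) e (Fin.cons (z 0) (Fin.cons (z 3) fun i : Fin n => z i.succ.succ.succ.succ)) *
         S (n + 2) e (Fin.cons (z 2) (Fin.cons (z 1) fun i : Fin n => z i.succ.succ.succ.succ))) =
    (z 0 - z 2) * (z 1 - z 3) *
        (S (n + 2) e (Fin.cons (z 0) (Fin.cons (z 2) fun i : Fin n => z i.succ.succ.succ.succ)) *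
         S (n + 2) e (Fin.cons (z 1) (Fin.cons (z 3) fun i : Fin n => z i.succ.succ.succ.succ))) := by
  have hcons : ∀ k l : Fin (n + 4), Continuous (fun z : Fin (n + 4) → ℝ =>
      S (n + 2) e (Fin.cons (z k) (Fin.cons (z l) fun i : Fin n => z i.succ.succ.succ.succ))) := by
    intro k l
    apply (S_continuous e).comp
    apply continuous_pi
    intro i
    refine Fin.cases ?_ (fun i => ?_) i
    · simpa using continuous_apply k
    · refine Fin.cases ?_ (fun i => ?_) i
      · simpa using continuous_apply l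
      · simpa using continuous_apply (i.succ.succ.succ.succ)
  apply eq_of_eq_on_injective (f := fun z : Fin (n + 4) → ℝ => (z 0 - z 1) * (z 2 - z 3) *
        (S (n + 2) e (Fin.cons (z 0) (Fin.cons (z 1) fun i : Fin n => z i.succ.succ.succ.succ)) *
         S (n + 2) e (Fin.cons (z 2) (Fin.cons (z 3) fun i : Fin n => z i.succ.succ.succ.succ))) -
      (z 0 - z 3) * (z 2 - z 1) *
        (S (n + 2) e (Fin.cons (z 0) (Fin.cons (z 3) fun i : Fin n => z i.succ.succ.succ.succ)) *
         S (n + 2) e (Fin.cons (z 2) (Fin.cons (z 1) fun i : Fin n => z i.succ.succ.succ.succ))))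
    (g := fun z : Fin (n + 4) → ℝ => (z 0 - z 2) * (z 1 - z 3) *
        (S (n + 2) e (Fin.cons (z 0) (Fin.cons (z 2) fun i : Fin n => z i.succ.succ.succ.succ)) *
         S (n + 2) e (Fin.cons (z 1) (Fin.cons (z 3) fun i : Fin n => z i.succ.succ.succ.succ)))) _ _ _ z hz0
  · have h01 := hcons 0 1
    have h23 := hcons 2 3
    have h03 := hcons 0 3
    have h21 := hcons 2 1
    fun_prop
  · have h02 := hcons 0 2
    have h13 := hcons 1 3
    fun_prop
  · intro z hzp hz
    set y : Fin n → ℝ := fun i => z i.succ.succ.succ.succ with hy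
    have hyi : Function.Injective y := by
      intro i j hij
      have := hz hij
      simpa using this
    have hne : ∀ (k : Fin (n + 4)), (∀ i : Fin n, k ≠ i.succ.succ.succ.succ) →
        (∏ i, (y i - z k)) ≠ 0 := by
      intro k hk
      rw [Finset.prod_ne_zero_iff]
      intro i _
      rw [sub_ne_zero]
      intro h
      exact hk i (hz h).symm
    have e1 : (1 : Fin (n + 4)) = Fin.succ 0 := rfl
    have e2 : (2 : Fin (n + 4)) = Fin.succ (Fin.succ 0) := rfl
    have e3 : (3 : Fin (n + 4)) = Fin.succ (Fin.succ (Fin.succ 0)) := rfl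
    have h0 : (∏ i, (y i - z 0)) ≠ 0 := hne 0 fun i h => Fin.succ_ne_zero _ h.symm
    have h1 : (∏ i, (y i - z 1)) ≠ 0 := hne 1 fun i h => by
      rw [e1] at h
      exact Fin.succ_ne_zero _ (Fin.succ_injective _ h).symm
    have h2 : (∏ i, (y i - z 2)) ≠ 0 := hne 2 fun i h => by
      rw [e2] at h
      exact Fin.succ_ne_zero _ (Fin.succ_injective _ (Fin.succ_injective _ h)).symm
    have h3 : (∏ i, (y i - z 3)) ≠ 0 := hne 3 fun i h => by
      rw [e3] at h
      exact Fin.succ_ne_zero _
        (Fin.succ_injective _ (Fin.succ_injective _ (Fin.succ_injective _ h))).symm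
    have n01 : z 0 - z 1 ≠ 0 := sub_ne_zero.2 fun h => by
      have := hz h
      rw [e1] at this
      exact Fin.succ_ne_zero _ this.symm
    have hVy := V_ne_zero hyi
    have hD : ∀ p q : ℝ, D e (Fin.cons p (Fin.cons q y)) =
        S (n + 2) e (Fin.cons p (Fin.cons q y)) *
          ((q - p) * (∏ i, (y i - p)) * (∏ i, (y i - q)) * V y) := by
      intro p q
      rw [D_eq e he, V_cons_cons]
    have hDdet : ∀ p q : ℝ, D e (Fin.cons p (Fin.cons q y)) =
        (Matrix.of (Fin.cons (fun j => p ^ e j) (Fin.cons (fun j => q ^ e j)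
          (fun i j => y i ^ e j)) : Fin (n + 2) → Fin (n + 2) → ℝ)).det := by
      intro p q
      unfold D
      congr 1
      ext i j
      refine Fin.cases ?_ (fun i => ?_) i
      · simp
      · refine Fin.cases ?_ (fun i => ?_) i
        · simp
        · simp
    have hD01 : (Matrix.of (Fin.cons (fun j => z 0 ^ e j) (Fin.cons (fun j => z 1 ^ e j)
          (fun i j => y i ^ e j)) : Fin (n + 2) → Fin (n + 2) → ℝ)).det ≠ 0 := by
      rw [← hDdet, hD]
      refine mul_ne_zero (S_pos e he _ ?_).ne' (mul_ne_zero (mul_ne_zero (mul_ne_zero ?_ h0) h1) hVy)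
      · intro i
        refine Fin.cases ?_ (fun i => ?_) i
        · exact hzp 0
        · refine Fin.cases ?_ (fun i => ?_) i
          · exact hzp 1
          · exact hzp _
      · intro h
        apply n01
        linarith
    have key := det_three_term (fun j => z 0 ^ e j) (fun j => z 1 ^ e j) (fun j => z 2 ^ e j)
      (fun j => z 3 ^ e j) (fun i j => y i ^ e j) hD01
    rw [← hDdet, ← hDdet, ← hDdet, ← hDdet, ← hDdet, ← hDdet] at key
    rw [hD, hD, hD, hD, hD, hD] at key
    have hC : (∏ i, (y i - z 0)) * (∏ i, (y i - z 1)) * (∏ i, (y i - z 2)) * (∏ i, (y i - z 3)) *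
        (V y * V y) ≠ 0 := by
      refine mul_ne_zero (mul_ne_zero (mul_ne_zero (mul_ne_zero h0 h1) h2) h3) (mul_ne_zero hVy hVy)
    apply mul_right_cancel₀ hC
    linear_combination key

/-- The three-term identity for branching sums in arbitrary positions `k ≠ i`. -/
theorem S_three_term {N : ℕ} (e : Fin N → ℕ) (he : StrictMono e) (x : Fin N → ℝ)
    (hx : ∀ j, 0 < x j) (k i : Fin N) (hki : k ≠ i) (u v u' v' : ℝ) (hu : 0 < u) (hv : 0 < v)
    (hu' : 0 < u') (hv' : 0 < v') :
    (u - v) * (u' - v') *
        (S N e (Function.update (Function.update x k u) i v) *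
         S N e (Function.update (Function.update x k u') i v')) -
      (u - v') * (u' - v) *
        (S N e (Function.update (Function.update x k u) i v') *
         S N e (Function.update (Function.update x k u') i v)) =
    (u - u') * (v - v') *
        (S N e (Function.update (Function.update x k u) i u') *
         S N e (Function.update (Function.update x k v) i v')) := by
  obtain ⟨n, rfl⟩ : ∃ n, N = n + 2 := by
    refine ⟨N - 2, ?_⟩
    have h1 := k.isLt
    have h2 := i.isLt
    have h3 : (k : ℕ) ≠ (i : ℕ) := fun h => hki (Fin.ext h)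
    omega
  -- a permutation sending `0` to `k` and `1` to `i`
  obtain ⟨σ, hσ0, hσ1⟩ : ∃ σ : Equiv.Perm (Fin (n + 2)), σ 0 = k ∧ σ 1 = i := by
    let τ : Equiv.Perm (Fin (n + 2)) := Equiv.swap 0 k
    have hτ : τ.symm i ≠ 0 := by
      intro h
      apply hki
      have h1 : i = τ 0 := by rw [← h, Equiv.apply_symm_apply]
      rw [h1]
      exact (Equiv.swap_apply_left 0 k).symm
    refine ⟨(Equiv.swap 1 (τ.symm i)).trans τ, ?_, ?_⟩
    · rw [Equiv.trans_apply, Equiv.swap_apply_of_ne_of_ne (by simp) hτ.symm]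
      exact Equiv.swap_apply_left 0 k
    · rw [Equiv.trans_apply, Equiv.swap_apply_left, Equiv.apply_symm_apply]
  set y : Fin n → ℝ := fun j => x (σ j.succ.succ) with hy
  have hupd : ∀ p q : ℝ, 0 < p → 0 < q →
      S (n + 2) e (Function.update (Function.update x k p) i q) =
      S (n + 2) e (Fin.cons p (Fin.cons q y)) := by
    intro p q hp hq
    rw [← S_perm e he σ]
    · congr 1
      funext j
      refine Fin.cases ?_ (fun j => ?_) j
      · rw [Function.comp_apply, hσ0, Function.update_of_ne hki, Function.update_self]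
        rfl
      · refine Fin.cases ?_ (fun j => ?_) j
        · have h0 : (Fin.succ 0 : Fin (n + 2)) = 1 := rfl
          rw [h0, Function.comp_apply, hσ1, Function.update_self]
          rfl
        · have h1 : σ j.succ.succ ≠ i := by
            rw [← hσ1]
            intro h
            have h2 : (Fin.succ (Fin.succ j) : Fin (n + 2)) = Fin.succ 0 := σ.injective h
            exact Fin.succ_ne_zero _ (Fin.succ_injective _ h2)
          have h2 : σ j.succ.succ ≠ k := by
            rw [← hσ0]
            intro h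
            exact Fin.succ_ne_zero _ (σ.injective h)
          rw [Function.comp_apply, Function.update_of_ne h1, Function.update_of_ne h2]
          rfl
    · intro j
      by_cases hj : j = i
      · subst hj
        rw [Function.update_self]
        exact hq
      · rw [Function.update_of_ne hj]
        by_cases hj' : j = k
        · subst hj'
          rw [Function.update_self]
          exact hp
        · rw [Function.update_of_ne hj']
          exact hx j
  rw [hupd u v hu hv, hupd u' v' hu' hv', hupd u v' hu hv', hupd u' v hu' hv,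
    hupd u u' hu hu', hupd v v' hv hv']
  have h := S_three_term_cons e he (Fin.cons u (Fin.cons v (Fin.cons u' (Fin.cons v' y))))
    (by
      intro j
      refine Fin.cases hu (fun j => ?_) j
      refine Fin.cases hv (fun j => ?_) j
      refine Fin.cases hu' (fun j => ?_) j
      refine Fin.cases hv' (fun j => ?_) j
      exact hx _)
  exact h

end Pool.Agent.Helper56.SchurIdentity
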