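import Mathlib
import Pool.Agent.Helper56.SchurIdentity

set_option autoImplicit false

namespace Pool.Agent.Helper56.SchurVertex

open Finset Filter Topology
open Pool.Agent.Helper56.SchurBase Pool.Agent.Helper56.SchurIdentity

/-- `F q = 1 + (q - 1) ^ 2 * g q` near `1` with `g` continuous at `1` and `g 1 = L`. -/
def Good (F : ℝ → ℝ) (L : ℝ) : Prop :=
  ∃ g : ℝ → ℝ, ContinuousAt g 1 ∧ g 1 = L ∧ ∀ᶠ q in 𝓝 (1 : ℝ), F q = 1 + (q - 1) ^ 2 * g q

theorem Good.congr {F F' : ℝ → ℝ} {L : ℝ} (h : Good F L) (hF : ∀ᶠ q in 𝓝 (1 : ℝ), F' q = F q) :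
    Good F' L := by
  obtain ⟨g, hg, hg1, hgF⟩ := h
  refine ⟨g, hg, hg1, ?_⟩
  filter_upwards [hF, hgF] with q h1 h2
  rw [h1, h2]

theorem Good.one : Good (fun _ => 1) 0 :=
  ⟨fun _ => 0, continuousAt_const, rfl, Eventually.of_forall fun q => by simp⟩

theorem Good.mul {F F' : ℝ → ℝ} {L L' : ℝ} (h : Good F L) (h' : Good F' L') :
    Good (fun q => F q * F' q) (L + L') := by
  obtain ⟨g, hg, hg1, hgF⟩ := h
  obtain ⟨g', hg', hg1', hgF'⟩ := h'
  refine ⟨fun q => g q + g' q + (q - 1) ^ 2 * (g q * g' q), ?_, ?_, ?_⟩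
  · refine (hg.add hg').add (ContinuousAt.mul ?_ (hg.mul hg'))
    exact ((continuous_id.sub continuous_const).pow 2).continuousAt
  · simp [hg1, hg1']
  · filter_upwards [hgF, hgF'] with q h1 h2
    rw [h1, h2]
    ring

variable {N : ℕ}

/-- The configuration where the coordinates in `A` are multiplied by `q`. -/
def P (x : Fin N → ℝ) (A : Finset (Fin N)) (q : ℝ) : Fin N → ℝ :=
  fun j => if j ∈ A then q * x j else x j

theorem P_continuous (x : Fin N → ℝ) (A : Finset (Fin N)) : Continuous (P x A) := by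
  apply continuous_pi
  intro j
  unfold P
  by_cases hj : j ∈ A
  · simp only [hj, if_true]
    fun_prop
  · simp only [hj, if_false]
    fun_prop

theorem P_one (x : Fin N → ℝ) (A : Finset (Fin N)) : P x A 1 = x := by
  funext j
  simp [P]

theorem P_pos (x : Fin N → ℝ) (hx : ∀ j, 0 < x j) (A : Finset (Fin N)) {q : ℝ} (hq : 0 < q)
    (j : Fin N) : 0 < P x A q j := by
  unfold P
  split_ifs
  · exact mul_pos hq (hx j)
  · exact hx j

theorem P_insert (x : Fin N → ℝ) (A : Finset (Fin N)) (k : Fin N) (q : ℝ) :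
    P x (insert k A) q = Function.update (P x A q) k (q * x k) := by
  funext j
  by_cases hj : j = k
  · subst hj
    simp [P]
  · rw [Function.update_of_ne hj]
    simp [P, hj]

variable (e e' : Fin N → ℕ)

/-- The ratio of branching sums. -/
noncomputable def r (x : Fin N → ℝ) : ℝ := S N e x / S N e' x

/-- Value of the swapped quotient. -/
noncomputable def Q (e : Fin N → ℕ) (x : Fin N → ℝ) (k i : Fin N) : ℝ :=
  S N e (Function.update x i (x k)) * S N e (Function.update x k (x i)) / (S N e x * S N e x)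

/-- The limit weight of a pair. -/
noncomputable def w (x : Fin N → ℝ) (k i : Fin N) : ℝ :=
  (x k * x i / (x k - x i) ^ 2) * (Q e x k i - Q e' x k i)

theorem good_single (he : StrictMono e) (x : Fin N → ℝ) (hx : ∀ j, 0 < x j)
    (A : Finset (Fin N)) (k i : Fin N) (hk : k ∉ A) (hi : i ∉ A) (hki : x k ≠ x i) :
    ∃ a : ℝ → ℝ, ContinuousAt a 1 ∧ a 1 = (x k * x i / (x k - x i) ^ 2) * (Q e x k i - 1) ∧
      ∀ᶠ q in 𝓝 (1 : ℝ), S N e (P x A q) * S N e (P x (insert i (insert k A)) q) /
        (S N e (P x (insert k A) q) * S N e (P x (insert i A) q)) = 1 + (q - 1) ^ 2 * a q := by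
  have hne : k ≠ i := fun h => hki (by rw [h])
  set u := x k with hu
  set v := x i with hv
  have huv : (u - v) ^ 2 ≠ 0 := pow_ne_zero _ (sub_ne_zero.2 hki)
  let G : ℝ → ℝ := fun q => S N e (Function.update (Function.update (P x A q) k u) i (q * u))
  let H : ℝ → ℝ := fun q => S N e (Function.update (Function.update (P x A q) k v) i (q * v))
  let C : ℝ → ℝ := fun q => S N e (P x (insert k A) q)
  let E : ℝ → ℝ := fun q => S N e (P x (insert i A) q)
  have hupd : ∀ s t : ℝ → ℝ, Continuous s → Continuous t → Continuous (fun q : ℝ =>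
      Function.update (Function.update (P x A q) k (s q)) i (t q)) := by
    intro s t hs ht
    exact ((P_continuous x A).update k hs).update i ht
  have hG : Continuous G := (S_continuous e).comp (hupd _ _ continuous_const (by fun_prop))
  have hH : Continuous H := (S_continuous e).comp (hupd _ _ continuous_const (by fun_prop))
  have hC : Continuous C := (S_continuous e).comp (P_continuous x _)
  have hE : Continuous E := (S_continuous e).comp (P_continuous x _)
  have hCpos : ∀ q : ℝ, 0 < q → 0 < C q := fun q hq =>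
    S_pos e he _ (P_pos x hx _ hq)
  have hEpos : ∀ q : ℝ, 0 < q → 0 < E q := fun q hq =>
    S_pos e he _ (P_pos x hx _ hq)
  refine ⟨fun q => (u * v / (q * (u - v) ^ 2)) * (G q * H q / (C q * E q) - 1), ?_, ?_, ?_⟩
  · refine ContinuousAt.mul (ContinuousAt.div continuousAt_const (by fun_prop) ?_)
      (ContinuousAt.sub (ContinuousAt.div (hG.mul hH).continuousAt (hC.mul hE).continuousAt ?_)
        continuousAt_const)
    · rw [one_mul]; exact huv
    · exact (mul_pos (hCpos 1 one_pos) (hEpos 1 one_pos)).ne'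
  · have h1 : G 1 = S N e (Function.update x i u) := by
      simp only [G, P_one, one_mul, hu, Function.update_eq_self]
    have h2 : H 1 = S N e (Function.update x k v) := by
      simp only [H, P_one, one_mul]
      congr 1
      rw [Function.update_comm hne, hv, Function.update_eq_self]
    have h3 : C 1 = S N e x := by simp only [C, P_one]
    have h4 : E 1 = S N e x := by simp only [E, P_one]
    simp only [h1, h2, h3, h4, one_mul, Q]
    rfl
  · filter_upwards [lt_mem_nhds (zero_lt_one : (0 : ℝ) < 1)] with q hq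
    have hPk : P x A q k = u := by simp [P, hk, hu]
    have hPi : P x A q i = v := by simp [P, hi, hv]
    have e1 : Function.update (Function.update (P x A q) k u) i v = P x A q := by
      rw [← hPk, Function.update_eq_self, ← hPi, Function.update_eq_self]
    have e2 : Function.update (Function.update (P x A q) k (q * u)) i (q * v)
        = P x (insert i (insert k A)) q := by
      rw [P_insert, P_insert]
    have e3 : Function.update (Function.update (P x A q) k u) i (q * v)
        = P x (insert i A) q := by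
      rw [← hPk, Function.update_eq_self, P_insert]
    have e4 : Function.update (Function.update (P x A q) k (q * u)) i v
        = P x (insert k A) q := by
      rw [P_insert, ← hPi, Function.update_comm hne, Function.update_eq_self]
    have key := S_three_term e he (P x A q) (P_pos x hx A hq) k i hne u v (q * u) (q * v)
      (hx k) (hx i) (mul_pos hq (hx k)) (mul_pos hq (hx i))
    rw [e1, e2, e3, e4] at key
    have hCq := (hCpos q hq).ne'
    have hEq := (hEpos q hq).ne'
    have hq0 := hq.ne'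
    change S N e (P x A q) * S N e (P x (insert i (insert k A)) q) / (C q * E q) =
      1 + (q - 1) ^ 2 * ((u * v / (q * (u - v) ^ 2)) * (G q * H q / (C q * E q) - 1))
    have key' : (u - v) * (q * u - q * v) *
        (S N e (P x A q) * S N e (P x (insert i (insert k A)) q)) -
        (u - q * v) * (q * u - v) * (E q * C q) = (u - q * u) * (v - q * v) * (G q * H q) := key
    field_simp
    linear_combination key'

theorem r_pos (he : StrictMono e) (he' : StrictMono e') (x : Fin N → ℝ) (hx : ∀ j, 0 < x j) :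
    0 < r e e' x := div_pos (S_pos e he x hx) (S_pos e' he' x hx)

theorem good_pair (he : StrictMono e) (he' : StrictMono e') (x : Fin N → ℝ) (hx : ∀ j, 0 < x j)
    (A : Finset (Fin N)) (k i : Fin N) (hk : k ∉ A) (hi : i ∉ A) (hki : x k ≠ x i) :
    Good (fun q => r e e' (P x A q) * r e e' (P x (insert i (insert k A)) q) /
        (r e e' (P x (insert k A) q) * r e e' (P x (insert i A) q))) (w e e' x k i) := by
  obtain ⟨a, ha, ha1, haF⟩ := good_single e he x hx A k i hk hi hki
  obtain ⟨b, hb, hb1, hbF⟩ := good_single e' he' x hx A k i hk hi hki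
  refine ⟨fun q => (a q - b q) / (1 + (q - 1) ^ 2 * b q), ?_, ?_, ?_⟩
  · refine ContinuousAt.div (ha.sub hb) ?_ (by simp)
    refine continuousAt_const.add (ContinuousAt.mul ?_ hb)
    exact ((continuous_id.sub continuous_const).pow 2).continuousAt
  · simp only [sub_self, ne_eq, OfNat.ofNat_ne_zero, not_false_eq_true, zero_pow, zero_mul,
      add_zero, div_one, ha1, hb1, w]
    ring
  · filter_upwards [haF, hbF, lt_mem_nhds (zero_lt_one : (0 : ℝ) < 1)] with q h1 h2 hq
    have p1 := (S_pos e' he' _ (P_pos x hx A hq)).ne'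
    have p2 := (S_pos e' he' _ (P_pos x hx (insert i (insert k A)) hq)).ne'
    have p3 := (S_pos e' he' _ (P_pos x hx (insert k A) hq)).ne'
    have p4 := (S_pos e' he' _ (P_pos x hx (insert i A) hq)).ne'
    have p3' := (S_pos e he _ (P_pos x hx (insert k A) hq)).ne'
    have p4' := (S_pos e he _ (P_pos x hx (insert i A) hq)).ne'
    have hb0 : 1 + (q - 1) ^ 2 * b q ≠ 0 := by
      rw [← h2]
      exact div_ne_zero (mul_ne_zero p1 p2) (mul_ne_zero p3 p4)
    have h3 : r e e' (P x A q) * r e e' (P x (insert i (insert k A)) q) /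
        (r e e' (P x (insert k A) q) * r e e' (P x (insert i A) q)) =
        (1 + (q - 1) ^ 2 * a q) / (1 + (q - 1) ^ 2 * b q) := by
      rw [← h1, ← h2]
      unfold r
      field_simp
    rw [h3, div_eq_iff hb0]
    field_simp
    ring

theorem good_row (he : StrictMono e) (he' : StrictMono e') (x : Fin N → ℝ) (hx : ∀ j, 0 < x j)
    (A : Finset (Fin N)) (k : Fin N) (hk : k ∉ A) (B : Finset (Fin N)) (hkB : k ∉ B)
    (hAB : Disjoint A B) (hne : ∀ i ∈ B, x k ≠ x i) :
    Good (fun q => r e e' (P x A q) * r e e' (P x (insert k (A ∪ B)) q) /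
        (r e e' (P x (insert k A) q) * r e e' (P x (A ∪ B) q))) (∑ i ∈ B, w e e' x k i) := by
  induction B using Finset.induction_on with
  | empty =>
    rw [Finset.sum_empty]
    refine Good.one.congr ?_
    filter_upwards [lt_mem_nhds (zero_lt_one : (0 : ℝ) < 1)] with q hq
    rw [Finset.union_empty]
    have p1 := (r_pos e e' he he' _ (P_pos x hx A hq)).ne'
    have p2 := (r_pos e e' he he' _ (P_pos x hx (insert k A) hq)).ne'
    rw [mul_comm, div_self (mul_ne_zero p2 p1)]
  | insert i B hiB ih =>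
    have hkB' : k ∉ B := fun h => hkB (Finset.mem_insert_of_mem h)
    have hki : k ≠ i := fun h => hkB (h ▸ Finset.mem_insert_self _ _)
    have hAB' : Disjoint A B := Finset.disjoint_of_subset_right (Finset.subset_insert _ _) hAB
    have hiA : i ∉ A := fun h => (Finset.disjoint_left.1 hAB h) (Finset.mem_insert_self _ _)
    have h1 := ih hkB' hAB' (fun j hj => hne j (Finset.mem_insert_of_mem hj))
    have hiAB : i ∉ A ∪ B := by
      rw [Finset.mem_union, not_or]; exact ⟨hiA, hiB⟩
    have hkAB : k ∉ A ∪ B := by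
      rw [Finset.mem_union, not_or]; exact ⟨hk, hkB'⟩
    have h2 := good_pair e e' he he' x hx (A ∪ B) k i hkAB hiAB
      (hne i (Finset.mem_insert_self _ _))
    rw [Finset.sum_insert hiB, add_comm]
    refine (h1.mul h2).congr ?_
    filter_upwards [lt_mem_nhds (zero_lt_one : (0 : ℝ) < 1)] with q hq
    have s1 : A ∪ insert i B = insert i (A ∪ B) := Finset.union_insert _ _ _
    have s2 : insert k (insert i (A ∪ B)) = insert i (insert k (A ∪ B)) := Finset.insert_comm _ _ _
    rw [s1, s2]
    have p1 := (r_pos e e' he he' _ (P_pos x hx (insert k A) hq)).ne'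
    have p2 := (r_pos e e' he he' _ (P_pos x hx (A ∪ B) hq)).ne'
    have p3 := (r_pos e e' he he' _ (P_pos x hx (insert k (A ∪ B)) hq)).ne'
    have p4 := (r_pos e e' he he' _ (P_pos x hx (insert i (A ∪ B)) hq)).ne'
    field_simp

theorem good_all (he : StrictMono e) (he' : StrictMono e') (x : Fin N → ℝ) (hx : ∀ j, 0 < x j)
    (K B : Finset (Fin N)) (hKB : Disjoint K B) (hne : ∀ k ∈ K, ∀ i ∈ B, x k ≠ x i) :
    Good (fun q => r e e' x * r e e' (P x (K ∪ B) q) /
        (r e e' (P x K q) * r e e' (P x B q))) (∑ k ∈ K, ∑ i ∈ B, w e e' x k i) := by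
  induction K using Finset.induction_on with
  | empty =>
    rw [Finset.sum_empty]
    refine Good.one.congr ?_
    filter_upwards [lt_mem_nhds (zero_lt_one : (0 : ℝ) < 1)] with q hq
    rw [Finset.empty_union]
    have h0 : P x ∅ q = x := by funext j; simp [P]
    rw [h0]
    have p1 := (r_pos e e' he he' _ hx).ne'
    have p2 := (r_pos e e' he he' _ (P_pos x hx B hq)).ne'
    rw [div_self (mul_ne_zero p1 p2)]
  | insert k K hkK ih =>
    have hKB' : Disjoint K B := Finset.disjoint_of_subset_left (Finset.subset_insert _ _) hKB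
    have hkB : k ∉ B := fun h => (Finset.disjoint_left.1 hKB (Finset.mem_insert_self _ _)) h
    have h1 := ih hKB' (fun j hj => hne j (Finset.mem_insert_of_mem hj))
    have h2 := good_row e e' he he' x hx K k hkK B hkB hKB' (hne k (Finset.mem_insert_self _ _))
    rw [Finset.sum_insert hkK, add_comm]
    refine (h1.mul h2).congr ?_
    filter_upwards [lt_mem_nhds (zero_lt_one : (0 : ℝ) < 1)] with q hq
    rw [Finset.insert_union]
    have p1 := (r_pos e e' he he' _ (P_pos x hx K hq)).ne'
    have p2 := (r_pos e e' he he' _ (P_pos x hx B hq)).ne'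
    have p3 := (r_pos e e' he he' _ (P_pos x hx (K ∪ B) hq)).ne'
    have p4 := (r_pos e e' he he' _ (P_pos x hx (insert k K) hq)).ne'
    field_simp

/-- Homogeneity of the ratio. -/
theorem r_smul (he : StrictMono e) (he' : StrictMono e') (x : Fin N → ℝ) (hx : ∀ j, 0 < x j)
    {q : ℝ} (hq : 0 < q) :
    r e e' (fun j => q * x j) = q ^ (∑ j, e j) / q ^ (∑ j, e' j) * r e e' x := by
  have h1 := S_smul e he q x hx
  have h2 := S_smul e' he' q x hx
  have p1 := (S_pos e' he' _ (fun j => mul_pos hq (hx j))).ne'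
  have p2 := (S_pos e' he' x hx).ne'
  have hqn : ∀ n : ℕ, q ^ n ≠ 0 := fun n => pow_ne_zero _ hq.ne'
  have h3 : S N e (fun j => q * x j) = q ^ (∑ j, e j) * S N e x / q ^ (∑ j : Fin N, (j : ℕ)) := by
    rw [eq_div_iff (hqn _), h1]
  have h4 : S N e' (fun j => q * x j) = q ^ (∑ j, e' j) * S N e' x / q ^ (∑ j : Fin N, (j : ℕ)) := by
    rw [eq_div_iff (hqn _), h2]
  unfold r
  rw [h3, h4]
  have hA := hqn (∑ j, e j)
  have hB := hqn (∑ j, e' j)
  have hC := hqn (∑ j : Fin N, (j : ℕ))
  field_simp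

/-- At a minimiser over the cube, the total weight between an interior cluster and the rest is
nonpositive. -/
theorem sum_w_nonpos (he : StrictMono e) (he' : StrictMono e') (a b : ℝ) (ha : 0 < a)
    (x : Fin N → ℝ) (hx : ∀ j, x j ∈ Set.Icc a b)
    (hmin : ∀ y : Fin N → ℝ, (∀ j, y j ∈ Set.Icc a b) → r e e' x ≤ r e e' y)
    (K : Finset (Fin N)) (hK : ∀ k ∈ K, x k ∈ Set.Ioo a b)
    (hne : ∀ k ∈ K, ∀ i ∉ K, x k ≠ x i) :
    ∑ k ∈ K, ∑ i ∈ Kᶜ, w e e' x k i ≤ 0 := by
  have hx0 : ∀ j, 0 < x j := fun j => lt_of_lt_of_le ha (hx j).1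
  obtain ⟨g, hg, hg1, hgF⟩ := good_all e e' he he' x hx0 K Kᶜ disjoint_compl_right
    (fun k hk i hi => hne k hk i (Finset.mem_compl.1 hi))
  -- the moved points stay in the cube
  have hcube : ∀ᶠ q in 𝓝 (1 : ℝ), ∀ j, P x K q j ∈ Set.Icc a b := by
    rw [eventually_all]
    intro j
    by_cases hj : j ∈ K
    · have h1 : Tendsto (fun q => P x K q j) (𝓝 1) (𝓝 (P x K 1 j)) :=
        ((continuous_apply j).comp (P_continuous x K)).tendsto 1
      rw [P_one] at h1
      exact h1.eventually (Icc_mem_nhds (hK j hj).1 (hK j hj).2)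
    · refine Eventually.of_forall fun q => ?_
      have : P x K q j = x j := by simp [P, hj]
      rw [this]
      exact hx j
  have hinv : Tendsto (fun q : ℝ => q⁻¹) (𝓝 1) (𝓝 1) := by
    have := (continuousAt_inv₀ (one_ne_zero : (1 : ℝ) ≠ 0)).tendsto
    rwa [inv_one] at this
  have hcube' : ∀ᶠ q in 𝓝 (1 : ℝ), ∀ j, P x K q⁻¹ j ∈ Set.Icc a b := hinv.eventually hcube
  have hle : ∀ᶠ q in 𝓝 (1 : ℝ), (q - 1) ^ 2 * g q ≤ 0 := by
    filter_upwards [hgF, hcube, hcube', lt_mem_nhds (zero_lt_one : (0 : ℝ) < 1)]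
      with q h1 h2 h3 hq
    have hqi : 0 < q⁻¹ := inv_pos.2 hq
    have m1 := hmin _ h2
    have m2 := hmin _ h3
    have hr0 := r_pos e e' he he' x hx0
    have hu : P x (K ∪ Kᶜ) q = fun j => q * x j := by
      funext j
      simp [P]
    have hKc : P x Kᶜ q = fun j => q * P x K q⁻¹ j := by
      funext j
      by_cases hj : j ∈ K
      · simp only [P, Finset.mem_compl, hj, not_true, if_false, if_true]
        rw [← mul_assoc, mul_inv_cancel₀ hq.ne', one_mul]
      · simp only [P, Finset.mem_compl, hj, not_false_eq_true, if_false, if_true]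
    rw [hu, hKc, r_smul e e' he he' x hx0 hq,
      r_smul e e' he he' _ (P_pos x hx0 K hqi) hq] at h1
    set c : ℝ := q ^ (∑ j, e j) / q ^ (∑ j, e' j) with hc
    have hc0 : 0 < c := div_pos (pow_pos hq _) (pow_pos hq _)
    have p1 := r_pos e e' he he' _ (P_pos x hx0 K hq)
    have p2 := r_pos e e' he he' _ (P_pos x hx0 K hqi)
    have h4 : r e e' x * (c * r e e' x) / (r e e' (P x K q) * (c * r e e' (P x K q⁻¹))) ≤ 1 := by
      rw [div_le_one (mul_pos p1 (mul_pos hc0 p2))]
      have : r e e' x * r e e' x ≤ r e e' (P x K q) * r e e' (P x K q⁻¹) :=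
        mul_le_mul m1 m2 hr0.le p1.le
      nlinarith
    linarith
  have hle' : ∀ᶠ q in 𝓝[≠] (1 : ℝ), g q ≤ 0 := by
    filter_upwards [nhdsWithin_le_nhds hle, self_mem_nhdsWithin] with q h1 h2
    have h3 : 0 < (q - 1) ^ 2 := by
      have : q - 1 ≠ 0 := sub_ne_zero.2 h2
      positivity
    by_contra hcon
    push Not at hcon
    have := mul_pos h3 hcon
    linarith
  have hlim : Tendsto g (𝓝[≠] 1) (𝓝 (g 1)) := hg.tendsto.mono_left nhdsWithin_le_nhds
  rw [← hg1]
  exact le_of_tendsto hlim hle'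

theorem update_mem {a b : ℝ} {x : Fin N → ℝ} (hx : ∀ j, x j ∈ Set.Icc a b) (k i : Fin N) :
    ∀ j, Function.update x k (x i) j ∈ Set.Icc a b := by
  intro j
  by_cases hj : j = k
  · subst hj
    rw [Function.update_self]
    exact hx i
  · rw [Function.update_of_ne hj]
    exact hx j

theorem w_nonneg (he : StrictMono e) (he' : StrictMono e') (a b : ℝ) (ha : 0 < a)
    (x : Fin N → ℝ) (hx : ∀ j, x j ∈ Set.Icc a b)
    (hmin : ∀ y : Fin N → ℝ, (∀ j, y j ∈ Set.Icc a b) → r e e' x ≤ r e e' y)
    (k i : Fin N) :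
    0 ≤ w e e' x k i := by
  have hx0 : ∀ j, 0 < x j := fun j => lt_of_lt_of_le ha (hx j).1
  have h1 := hmin _ (update_mem hx i k)
  have h2 := hmin _ (update_mem hx k i)
  have hr0 := r_pos e e' he he' x hx0
  have q1 : ∀ j, 0 < Function.update x i (x k) j := fun j =>
    lt_of_lt_of_le ha (update_mem hx i k j).1
  have q2 : ∀ j, 0 < Function.update x k (x i) j := fun j =>
    lt_of_lt_of_le ha (update_mem hx k i j).1
  have p0 := S_pos e he x hx0
  have p0' := S_pos e' he' x hx0
  have p1 := S_pos e he _ q1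
  have p1' := S_pos e' he' _ q1
  have p2 := S_pos e he _ q2
  have p2' := S_pos e' he' _ q2
  unfold w
  refine mul_nonneg (div_nonneg (mul_nonneg (hx0 k).le (hx0 i).le) (sq_nonneg _)) ?_
  rw [sub_nonneg]
  unfold Q
  have h3 : r e e' x * r e e' x ≤
      r e e' (Function.update x i (x k)) * r e e' (Function.update x k (x i)) :=
    mul_le_mul h1 h2 hr0.le (hr0.le.trans h1)
  unfold r at h3
  rw [div_mul_div_comm, div_mul_div_comm, div_le_div_iff₀ (mul_pos p0' p0') (mul_pos p1' p2')] at h3
  rw [div_le_div_iff₀ (mul_pos p0' p0') (mul_pos p0 p0)]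
  linarith

theorem eq_of_w_eq_zero (he : StrictMono e) (he' : StrictMono e') (a b : ℝ) (ha : 0 < a)
    (x : Fin N → ℝ) (hx : ∀ j, x j ∈ Set.Icc a b)
    (hmin : ∀ y : Fin N → ℝ, (∀ j, y j ∈ Set.Icc a b) → r e e' x ≤ r e e' y)
    (k i : Fin N) (hki : x k ≠ x i) (hw : w e e' x k i = 0) :
    r e e' (Function.update x i (x k)) = r e e' x ∧
    r e e' (Function.update x k (x i)) = r e e' x := by
  have hx0 : ∀ j, 0 < x j := fun j => lt_of_lt_of_le ha (hx j).1
  have h1 := hmin _ (update_mem hx i k)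
  have h2 := hmin _ (update_mem hx k i)
  have hr0 := r_pos e e' he he' x hx0
  have q1 : ∀ j, 0 < Function.update x i (x k) j := fun j =>
    lt_of_lt_of_le ha (update_mem hx i k j).1
  have q2 : ∀ j, 0 < Function.update x k (x i) j := fun j =>
    lt_of_lt_of_le ha (update_mem hx k i j).1
  have p0 := S_pos e he x hx0
  have p0' := S_pos e' he' x hx0
  have p1' := S_pos e' he' _ q1
  have p2' := S_pos e' he' _ q2
  unfold w at hw
  have h4 : x k * x i / (x k - x i) ^ 2 ≠ 0 :=
    div_ne_zero (mul_pos (hx0 k) (hx0 i)).ne' (pow_ne_zero _ (sub_ne_zero.2 hki))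
  have h5 := (mul_eq_zero.1 hw).resolve_left h4
  rw [sub_eq_zero] at h5
  unfold Q at h5
  rw [div_eq_div_iff (mul_pos p0 p0).ne' (mul_pos p0' p0').ne'] at h5
  have h3 : r e e' (Function.update x i (x k)) * r e e' (Function.update x k (x i)) =
      r e e' x * r e e' x := by
    unfold r
    rw [div_mul_div_comm, div_mul_div_comm,
      div_eq_div_iff (mul_pos p1' p2').ne' (mul_pos p0' p0').ne']
    linarith
  constructor
  · apply le_antisymm _ h1
    by_contra hcon
    push Not at hcon
    have : r e e' x * r e e' x < r e e' (Function.update x i (x k)) *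
        r e e' (Function.update x k (x i)) := mul_lt_mul hcon h2 hr0 (hr0.le.trans h1)
    linarith
  · apply le_antisymm _ h2
    by_contra hcon
    push Not at hcon
    have : r e e' x * r e e' x < r e e' (Function.update x i (x k)) *
        r e e' (Function.update x k (x i)) := mul_lt_mul' h1 hcon hr0.le (hr0.trans_le h1)
    linarith

theorem sum_sq_update (x : Fin N → ℝ) (k : Fin N) (v : ℝ) :
    ∑ j, (Function.update x k v j) ^ 2 = (∑ j, x j ^ 2) + (v ^ 2 - x k ^ 2) := by
  classical
  rw [← Finset.add_sum_erase Finset.univ (fun j => (Function.update x k v j) ^ 2)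
      (Finset.mem_univ k),
    ← Finset.add_sum_erase Finset.univ (fun j => x j ^ 2) (Finset.mem_univ k)]
  simp only [Function.update_self]
  have : ∑ j ∈ Finset.univ.erase k, (Function.update x k v j) ^ 2 =
      ∑ j ∈ Finset.univ.erase k, x j ^ 2 := by
    refine Finset.sum_congr rfl fun j hj => ?_
    rw [Function.update_of_ne (Finset.ne_of_mem_erase hj)]
  rw [this]
  ring

theorem r_continuousOn (he' : StrictMono e') :
    ContinuousOn (r e e') {x | ∀ j, 0 < x j} := by
  unfold r
  exact ContinuousOn.div (S_continuous e).continuousOn (S_continuous e').continuousOn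
    fun x hx => (S_pos e' he' x hx).ne'

/-- The vertex principle: the minimum over a cube is attained at a vertex. -/
theorem exists_vertex (he : StrictMono e) (he' : StrictMono e') (a b : ℝ) (ha : 0 < a)
    (hab : a ≤ b) :
    ∃ v : Fin N → ℝ, (∀ j, v j = a ∨ v j = b) ∧
      ∀ y : Fin N → ℝ, (∀ j, y j ∈ Set.Icc a b) → r e e' v ≤ r e e' y := by
  classical
  let C : Set (Fin N → ℝ) := Set.univ.pi fun _ => Set.Icc a b
  have hCmem : ∀ x : Fin N → ℝ, x ∈ C ↔ ∀ j, x j ∈ Set.Icc a b := by
    intro x; exact Set.mem_univ_pi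
  have hC : IsCompact C := isCompact_univ_pi fun _ => isCompact_Icc
  have hCne : C.Nonempty := ⟨fun _ => a, (hCmem _).2 fun _ => ⟨le_rfl, hab⟩⟩
  have hrC : ContinuousOn (r e e') C := (r_continuousOn e e' he').mono fun x hx j =>
    lt_of_lt_of_le ha ((hCmem x).1 hx j).1
  obtain ⟨x0, hx0C, hx0⟩ := hC.exists_isMinOn hCne hrC
  -- the set of minimisers
  let Z : Set (Fin N → ℝ) := C ∩ (r e e') ⁻¹' {r e e' x0}
  have hZ : IsCompact Z := by
    have : IsClosed Z := hrC.preimage_isClosed_of_isClosed hC.isClosed isClosed_singleton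
    exact hC.of_isClosed_subset this Set.inter_subset_left
  have hZne : Z.Nonempty := ⟨x0, hx0C, rfl⟩
  have hsq : Continuous fun x : Fin N → ℝ => ∑ j, x j ^ 2 := by fun_prop
  obtain ⟨x, hxZ, hxmax⟩ := hZ.exists_isMaxOn hZne hsq.continuousOn
  have hxC : ∀ j, x j ∈ Set.Icc a b := (hCmem x).1 hxZ.1
  have hxr : r e e' x = r e e' x0 := hxZ.2
  have hmin : ∀ y : Fin N → ℝ, (∀ j, y j ∈ Set.Icc a b) → r e e' x ≤ r e e' y := by
    intro y hy
    rw [hxr]
    exact hx0 ((hCmem y).2 hy)
  by_cases hvert : ∀ j, x j = a ∨ x j = b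
  · exact ⟨x, hvert, hmin⟩
  push Not at hvert
  obtain ⟨k, hka, hkb⟩ := hvert
  have hk : x k ∈ Set.Ioo a b :=
    ⟨lt_of_le_of_ne (hxC k).1 (Ne.symm hka), lt_of_le_of_ne (hxC k).2 hkb⟩
  let K : Finset (Fin N) := Finset.univ.filter fun j => x j = x k
  have hKmem : ∀ j, j ∈ K ↔ x j = x k := by intro j; simp [K]
  have hsum := sum_w_nonpos e e' he he' a b ha x hxC hmin K
    (fun j hj => by rw [(hKmem j).1 hj]; exact hk)
    (fun j hj i hi h => hi ((hKmem i).2 (h ▸ (hKmem j).1 hj)))
  -- all other coordinates coincide with `x k`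
  have hall : ∀ i, x i = x k := by
    by_contra hcon
    push Not at hcon
    obtain ⟨i, hi⟩ := hcon
    have hw0 : w e e' x k i = 0 := by
      apply le_antisymm _ (w_nonneg e e' he he' a b ha x hxC hmin k i)
      have h1 : ∑ i ∈ Kᶜ, w e e' x k i ≤ ∑ k ∈ K, ∑ i ∈ Kᶜ, w e e' x k i :=
        Finset.single_le_sum (f := fun k => ∑ i ∈ Kᶜ, w e e' x k i)
          (fun j _ => Finset.sum_nonneg fun i _ => w_nonneg e e' he he' a b ha x hxC hmin j i)
          ((hKmem k).2 rfl)
      have h2 : w e e' x k i ≤ ∑ i ∈ Kᶜ, w e e' x k i :=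
        Finset.single_le_sum (f := fun i => w e e' x k i)
          (fun j _ => w_nonneg e e' he he' a b ha x hxC hmin k j)
          (Finset.mem_compl.2 fun h => hi ((hKmem i).1 h))
      linarith
    obtain ⟨h1, h2⟩ := eq_of_w_eq_zero e e' he he' a b ha x hxC hmin k i (Ne.symm hi) hw0
    have z1 : Function.update x i (x k) ∈ Z :=
      ⟨(hCmem _).2 (update_mem hxC i k), h1.trans hxr⟩
    have z2 : Function.update x k (x i) ∈ Z :=
      ⟨(hCmem _).2 (update_mem hxC k i), h2.trans hxr⟩
    have m1 : ∑ j, (Function.update x i (x k) j) ^ 2 ≤ ∑ j, x j ^ 2 := hxmax z1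
    have m2 : ∑ j, (Function.update x k (x i) j) ^ 2 ≤ ∑ j, x j ^ 2 := hxmax z2
    rw [sum_sq_update] at m1 m2
    have hxi0 : 0 < x i := lt_of_lt_of_le ha (hxC i).1
    have hxk0 : 0 < x k := lt_of_lt_of_le ha (hxC k).1
    have h3 : x i ^ 2 = x k ^ 2 := by linarith
    exact hi ((pow_left_inj₀ hxi0.le hxk0.le two_ne_zero).1 h3)
  -- the constant case
  have hxk0 : 0 < x k := lt_of_lt_of_le ha (hxC k).1
  have hxconst : x = fun j => x k * 1 := by
    funext j; rw [mul_one]; exact hall j
  have hone : ∀ _j : Fin N, (0 : ℝ) < 1 := fun _ => one_pos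
  have hb : 0 < b := lt_of_lt_of_le ha hab
  have rx : r e e' x = x k ^ (∑ j, e j) / x k ^ (∑ j, e' j) * r e e' (fun _ => 1) := by
    conv_lhs => rw [hxconst]
    exact r_smul e e' he he' (fun _ => 1) hone hxk0
  have ra := r_smul e e' he he' (fun _ => (1 : ℝ)) hone ha
  have rb := r_smul e e' he he' (fun _ => (1 : ℝ)) hone hb
  have hr1 := r_pos e e' he he' (fun _ => (1 : ℝ)) hone
  rcases le_total (∑ j, e' j) (∑ j, e j) with hle | hle
  · refine ⟨fun _ => a * 1, fun j => Or.inl (mul_one a), fun y hy => le_trans ?_ (hmin y hy)⟩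
    rw [ra, rx]
    refine mul_le_mul_of_nonneg_right ?_ hr1.le
    obtain ⟨d, hd⟩ := Nat.exists_eq_add_of_le hle
    rw [hd, pow_add, pow_add, mul_div_cancel_left₀ _ (pow_ne_zero _ ha.ne'),
      mul_div_cancel_left₀ _ (pow_ne_zero _ hxk0.ne')]
    exact pow_le_pow_left₀ ha.le hk.1.le _
  · refine ⟨fun _ => b * 1, fun j => Or.inr (mul_one b), fun y hy => le_trans ?_ (hmin y hy)⟩
    rw [rb, rx]
    refine mul_le_mul_of_nonneg_right ?_ hr1.le
    obtain ⟨d, hd⟩ := Nat.exists_eq_add_of_le hle
    rw [hd, pow_add, pow_add, div_mul_eq_div_div, div_mul_eq_div_div,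
      div_self (pow_ne_zero _ hb.ne'), div_self (pow_ne_zero _ hxk0.ne')]
    exact one_div_le_one_div_of_le (pow_pos hxk0 _) (pow_le_pow_left₀ hxk0.le hk.2.le _)

end Pool.Agent.Helper56.SchurVertex
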