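import Mathlib
import Pool.Agent.Helper56.SchurVertex

set_option autoImplicit false

namespace Pool.Agent.Helper56.SchurUnbounded

open Finset Filter Topology
open Pool.Agent.Helper56.SchurBase Pool.Agent.Helper56.SchurIdentity
open Pool.Agent.Helper56.SchurVertex

variable {N : ℕ}

theorem le_of_strictMono {n : ℕ} {e : Fin n → ℕ} (he : StrictMono e) (j : Fin n) :
    (j : ℕ) ≤ e j := by
  obtain ⟨j, hj⟩ := j
  induction j with
  | zero => exact Nat.zero_le _
  | succ j ih =>
    have h1 := ih (by omega)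
    have h2 : e ⟨j, by omega⟩ < e ⟨j + 1, hj⟩ := he (by simp [Fin.lt_def])
    simp only at h1 ⊢
    omega

/-- The total degree of the first `k` exponents, reduced by the staircase. -/
def sig {n : ℕ} (e : Fin n → ℕ) (k : ℕ) : ℕ :=
  ∑ j ∈ univ.filter (fun j : Fin n => (j : ℕ) < k), (e j - (j : ℕ))

theorem sig_zero {n : ℕ} (e : Fin n → ℕ) : sig e 0 = 0 := by
  simp [sig]

theorem sig_succ {n : ℕ} (e : Fin (n + 1) → ℕ) (k : ℕ) :
    sig e (k + 1) = e 0 + ∑ j ∈ univ.filter (fun j : Fin n => (j : ℕ) < k),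
      (e j.succ - ((j : ℕ) + 1)) := by
  unfold sig
  rw [Finset.sum_filter, Finset.sum_filter, Fin.sum_univ_succ]
  simp

/-- The point with the first `k` coordinates `a` and the rest `1`. -/
def vk (n k : ℕ) (a : ℝ) : Fin n → ℝ := fun i => if (i : ℕ) < k then a else 1

theorem vk_zero (n : ℕ) (a : ℝ) : vk n 0 a = fun _ => 1 := by
  funext i; simp [vk]

theorem vk_tail (n k : ℕ) (a : ℝ) : (fun i : Fin n => vk (n + 1) (k + 1) a i.succ) = vk n k a := by
  funext i; simp [vk]

theorem S_vk_le {n : ℕ} (e : Fin n → ℕ) (he : StrictMono e) (k : ℕ) (a : ℝ) (ha : 0 < a)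
    (ha1 : a ≤ 1) : S n e (vk n k a) ≤ a ^ sig e k * S n e (fun _ => 1) := by
  induction n generalizing k with
  | zero => simp [S, sig]
  | succ n ih =>
    cases k with
    | zero => rw [vk_zero, sig_zero]; simp
    | succ k =>
      rw [S_succ, S_succ, vk_tail, sig_succ]
      have h0 : vk (n + 1) (k + 1) a 0 = a := by simp [vk]
      rw [h0, Finset.mul_sum, Finset.mul_sum, Finset.mul_sum]
      refine Finset.sum_le_sum fun m hm => ?_
      have hm' := strictMono_of_mem hm
      have h1 := ih m hm' k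
      have hS1 := S_pos m hm' (fun _ => (1 : ℝ)) (fun _ => one_pos)
      rw [Fintype.mem_piFinset] at hm
      simp only [one_pow, Finset.prod_const_one, one_mul]
      have h2 : (∏ j : Fin n, a ^ (e j.succ - 1 - m j)) =
          a ^ (∑ j : Fin n, (e j.succ - 1 - m j)) := Finset.prod_pow_eq_pow_sum _ _ _
      rw [h2]
      have h3 : a ^ e 0 * (a ^ (∑ j : Fin n, (e j.succ - 1 - m j)) * S n m (vk n k a)) ≤
          a ^ e 0 * (a ^ (∑ j : Fin n, (e j.succ - 1 - m j)) *
            (a ^ sig m k * S n m (fun _ => 1))) := by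
        gcongr
      refine h3.trans ?_
      have h4 : a ^ e 0 * (a ^ (∑ j : Fin n, (e j.succ - 1 - m j)) *
            (a ^ sig m k * S n m (fun _ => 1))) =
          a ^ (e 0 + (∑ j : Fin n, (e j.succ - 1 - m j)) + sig m k) * S n m (fun _ => 1) := by
        rw [pow_add, pow_add]; ring
      rw [h4]
      refine mul_le_mul_of_nonneg_right ?_ hS1.le
      apply pow_le_pow_of_le_one ha.le ha1
      -- exponent comparison
      have h5 : ∑ j ∈ univ.filter (fun j : Fin n => (j : ℕ) < k), (e j.succ - ((j : ℕ) + 1)) ≤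
          (∑ j : Fin n, (e j.succ - 1 - m j)) + sig m k := by
        unfold sig
        rw [Finset.sum_filter, Finset.sum_filter, ← Finset.sum_add_distrib]
        refine Finset.sum_le_sum fun j _ => ?_
        have h6 := Finset.mem_Ico.1 (hm j)
        have h7 := le_of_strictMono hm' j
        split_ifs <;> omega
      omega

theorem le_S_vk {n : ℕ} (e : Fin n → ℕ) (he : StrictMono e) (k : ℕ) (a : ℝ) (ha : 0 < a) :
    a ^ sig e k ≤ S n e (vk n k a) := by
  induction n generalizing k with
  | zero => simp [S, sig]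
  | succ n ih =>
    have hone : ∀ (p : ℕ) (f : Fin p → ℕ), StrictMono f → (1 : ℝ) ≤ S p f (fun _ => 1) := by
      intro p
      induction p with
      | zero => intro f _; simp [S]
      | succ p ihp =>
        intro f hf
        rw [S_succ]
        simp only [one_pow, Finset.prod_const_one, one_mul]
        have hmem : (fun j : Fin p => f j.castSucc) ∈
            Fintype.piFinset (fun j : Fin p => Finset.Ico (f j.castSucc) (f j.succ)) := by
          rw [Fintype.mem_piFinset]
          intro j
          rw [Finset.mem_Ico]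
          exact ⟨le_rfl, hf Fin.castSucc_lt_succ⟩
        refine le_trans (ihp _ (strictMono_of_mem hmem)) ?_
        exact Finset.single_le_sum (f := fun m => S p m (fun _ => (1 : ℝ)))
          (fun m hm => (S_pos m (strictMono_of_mem hm) _ fun _ => one_pos).le) hmem
    cases k with
    | zero => rw [vk_zero, sig_zero, pow_zero]; exact hone _ _ he
    | succ k =>
      rw [S_succ, vk_tail, sig_succ]
      have h0 : vk (n + 1) (k + 1) a 0 = a := by simp [vk]
      rw [h0, pow_add]
      refine mul_le_mul_of_nonneg_left ?_ (pow_pos ha _).le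
      have hmem : (fun j : Fin n => e j.succ - 1) ∈
          Fintype.piFinset (fun j : Fin n => Finset.Ico (e j.castSucc) (e j.succ)) := by
        rw [Fintype.mem_piFinset]
        intro j
        rw [Finset.mem_Ico]
        have := he (Fin.castSucc_lt_succ (i := j))
        omega
      have h1 := ih _ (strictMono_of_mem hmem) k
      have h2 : sig (fun j : Fin n => e j.succ - 1) k =
          ∑ j ∈ univ.filter (fun j : Fin n => (j : ℕ) < k), (e j.succ - ((j : ℕ) + 1)) := by
        unfold sig
        refine Finset.sum_congr rfl fun j _ => ?_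
        beta_reduce
        omega
      rw [← h2]
      refine le_trans h1 ?_
      have hpos : ∀ i, 0 < vk n k a i := by
        intro i; unfold vk; split_ifs
        · exact ha
        · exact one_pos
      have h3 := Finset.single_le_sum (f := fun m : Fin n → ℕ =>
          (∏ j : Fin n, a ^ (e j.succ - 1 - m j)) * S n m (vk n k a))
          (fun m hm => (mul_pos (Finset.prod_pos fun j _ => pow_pos ha _)
            (S_pos m (strictMono_of_mem hm) _ hpos)).le) hmem
      refine le_trans (le_of_eq ?_) h3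
      simp

/-- Symmetry reduces any two-valued point to a `vk`. -/
theorem exists_vk (v : Fin N → ℝ) (a b : ℝ) (hv : ∀ j, v j = a ∨ v j = b) :
    ∃ k ≤ N, ∃ σ : Equiv.Perm (Fin N), v ∘ σ = fun i : Fin N => if (i : ℕ) < k then a else b := by
  classical
  let A : Finset (Fin N) := univ.filter fun j => v j = a
  have hA : A.card ≤ N := (Finset.card_le_univ _).trans (by simp)
  refine ⟨A.card, hA, ?_⟩
  -- an equivalence between initial segment and A
  let B : Finset (Fin N) := univ.filter fun i : Fin N => (i : ℕ) < A.card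
  have hB : B.card = A.card := by
    have h1 : B = univ.filter fun i : Fin N => (i : ℕ) < A.card := rfl
    rw [h1, Fin.card_filter_val_lt]
    exact min_eq_right hA
  have e1 : {i : Fin N // (i : ℕ) < A.card} ≃ {j : Fin N // v j = a} := by
    apply Fintype.equivOfCardEq
    rw [Fintype.card_subtype, Fintype.card_subtype]
    exact hB
  refine ⟨e1.extendSubtype, ?_⟩
  funext i
  rw [Function.comp_apply]
  split_ifs with h
  · exact e1.extendSubtype_mem i h
  · have h1 := e1.extendSubtype_not_mem i h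
    exact (hv _).resolve_left h1

theorem r_perm (e e' : Fin N → ℕ) (he : StrictMono e) (he' : StrictMono e')
    (σ : Equiv.Perm (Fin N)) (x : Fin N → ℝ) (hx : ∀ j, 0 < x j) :
    r e e' (x ∘ σ) = r e e' x := by
  unfold r
  rw [S_perm e he σ x hx, S_perm e' he' σ x hx]

/-- The vertex principle with sorted vertices. -/
theorem exists_vk_le (e e' : Fin N → ℕ) (he : StrictMono e) (he' : StrictMono e')
    (a b : ℝ) (ha : 0 < a) (hab : a ≤ b) :
    ∃ k ≤ N, ∀ y : Fin N → ℝ, (∀ j, y j ∈ Set.Icc a b) →
      r e e' (fun i : Fin N => if (i : ℕ) < k then a else b) ≤ r e e' y := by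
  obtain ⟨v, hv, hmin⟩ := exists_vertex e e' he he' a b ha hab
  obtain ⟨k, hk, σ, hσ⟩ := exists_vk v a b hv
  refine ⟨k, hk, fun y hy => ?_⟩
  rw [← hσ, r_perm e e' he he' σ v]
  · exact hmin y hy
  · intro j
    rcases hv j with h | h <;> rw [h]
    · exact ha
    · exact ha.trans_le hab

theorem r_vk_ge (e e' : Fin N → ℕ) (he : StrictMono e) (he' : StrictMono e') (k : ℕ) (a : ℝ)
    (ha : 0 < a) (ha1 : a ≤ 1) :
    a ^ sig e k / (a ^ sig e' k * S N e' (fun _ => 1)) ≤ r e e' (vk N k a) := by
  have hpos : ∀ i, 0 < vk N k a i := by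
    intro i; unfold vk; split_ifs
    · exact ha
    · exact one_pos
  unfold r
  exact div_le_div₀ (S_pos e he _ hpos).le (le_S_vk e he k a ha) (S_pos e' he' _ hpos)
    (S_vk_le e' he' k a ha ha1)

theorem r_vk_le (e e' : Fin N → ℕ) (he : StrictMono e) (he' : StrictMono e') (k : ℕ) (a : ℝ)
    (ha : 0 < a) (ha1 : a ≤ 1) :
    r e e' (vk N k a) ≤ a ^ sig e k * S N e (fun _ => 1) / a ^ sig e' k := by
  unfold r
  exact div_le_div₀ (mul_pos (pow_pos ha _) (S_pos e he _ fun _ => one_pos)).le
    (S_vk_le e he k a ha ha1) (pow_pos ha _) (le_S_vk e' he' k a ha)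

/-- Strict case: if all partial degrees are strictly smaller, the ratio is minimised at `1`
on `(0, 1] ^ N`. -/
theorem min_of_strict (e e' : Fin N → ℕ) (he : StrictMono e) (he' : StrictMono e')
    (hs : ∀ k, 1 ≤ k → k ≤ N → sig e k < sig e' k) (y : Fin N → ℝ)
    (hy : ∀ j, y j ∈ Set.Ioc 0 1) : r e e' (fun _ => 1) ≤ r e e' y := by
  have hr1 := r_pos e e' he he' (fun _ => (1 : ℝ)) (fun _ => one_pos)
  have hS1 := S_pos e' he' (fun _ => (1 : ℝ)) (fun _ => one_pos)
  -- choose `a` small
  obtain ⟨a, ha0, ha1, hay, hasmall⟩ : ∃ a : ℝ, 0 < a ∧ a ≤ 1 ∧ (∀ j, a ≤ y j) ∧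
      a * (r e e' (fun _ => 1) * S N e' (fun _ => 1)) < 1 := by
    have h1 : ∀ᶠ a in 𝓝[>] (0 : ℝ), ∀ j, a ≤ y j := by
      rw [eventually_all]
      intro j
      exact nhdsWithin_le_nhds (Iic_mem_nhds (hy j).1)
    have h2 : ∀ᶠ a in 𝓝[>] (0 : ℝ), a * (r e e' (fun _ => 1) * S N e' (fun _ => 1)) < 1 := by
      apply nhdsWithin_le_nhds
      have : Tendsto (fun a : ℝ => a * (r e e' (fun _ => 1) * S N e' (fun _ => 1))) (𝓝 0)
          (𝓝 (0 * (r e e' (fun _ => 1) * S N e' (fun _ => 1)))) :=
        (continuous_id.mul continuous_const).tendsto 0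
      rw [zero_mul] at this
      exact this.eventually (gt_mem_nhds one_pos)
    have h3 : ∀ᶠ a in 𝓝[>] (0 : ℝ), a ≤ 1 := nhdsWithin_le_nhds (Iic_mem_nhds one_pos)
    have h4 : ∀ᶠ a in 𝓝[>] (0 : ℝ), 0 < a := self_mem_nhdsWithin
    obtain ⟨a, h⟩ := (h1.and (h2.and (h3.and h4))).exists
    exact ⟨a, h.2.2.2, h.2.2.1, h.1, h.2.1⟩
  obtain ⟨k, hk, hmin⟩ := exists_vk_le e e' he he' a 1 ha0 ha1
  rcases Nat.eq_zero_or_pos k with hk0 | hk0
  · subst hk0
    have := hmin y fun j => ⟨hay j, (hy j).2⟩
    simpa using this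
  · exfalso
    have h1 := hmin (fun _ => 1) fun _ => ⟨ha1, le_rfl⟩
    have h2 := r_vk_ge e e' he he' k a ha0 ha1
    have h3 : a ^ sig e k / (a ^ sig e' k * S N e' (fun _ => 1)) ≤ r e e' (fun _ => 1) := h2.trans h1
    obtain ⟨d, hd⟩ := Nat.exists_eq_add_of_lt (hs k hk0 hk)
    rw [div_le_iff₀ (mul_pos (pow_pos ha0 _) hS1)] at h3
    rw [hd] at h3
    have h4 : a ^ (sig e k + d + 1) = a ^ sig e k * (a ^ d * a) := by
      rw [pow_add, pow_add]; ring
    rw [h4] at h3
    have h5 : a ^ d * a ≤ a := by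
      have : a ^ d ≤ 1 := pow_le_one₀ ha0.le ha1
      nlinarith
    have h6 : 0 < a ^ sig e k := pow_pos ha0 _
    have h7 : r e e' (fun _ => 1) * (a ^ sig e k * (a ^ d * a) * S N e' (fun _ => 1)) =
        a ^ sig e k * ((a ^ d * a) * (r e e' (fun _ => 1) * S N e' (fun _ => 1))) := by ring
    rw [h7] at h3
    have h8 : 1 ≤ (a ^ d * a) * (r e e' (fun _ => 1) * S N e' (fun _ => 1)) := by
      by_contra hcon
      push Not at hcon
      nlinarith
    have h9 : (a ^ d * a) * (r e e' (fun _ => 1) * S N e' (fun _ => 1)) ≤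
        a * (r e e' (fun _ => 1) * S N e' (fun _ => 1)) :=
      mul_le_mul_of_nonneg_right h5 (mul_pos hr1 hS1).le
    linarith

theorem r_continuousAt (e e' : Fin N → ℕ) (he' : StrictMono e') (x : Fin N → ℝ)
    (hx : ∀ j, 0 < x j) : ContinuousAt (r e e') x := by
  unfold r
  exact (S_continuous e).continuousAt.div (S_continuous e').continuousAt (S_pos e' he' x hx).ne'

theorem r_eq_D (e e' : Fin N → ℕ) (he : StrictMono e) (he' : StrictMono e') (x : Fin N → ℝ)
    (hx : Function.Injective x) : r e e' x = D e x / D e' x := by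
  unfold r
  rw [D_eq e he, D_eq e' he', mul_div_mul_right _ _ (V_ne_zero hx)]

theorem D_geom (e : Fin N → ℕ) (q : ℝ) :
    D e (fun i : Fin N => q ^ (i : ℕ)) = V (fun j => q ^ e j) := by
  unfold D V
  rw [← Matrix.det_vandermonde, ← Matrix.det_transpose]
  congr 1
  ext i j
  simp only [Matrix.transpose_apply, Matrix.of_apply, Matrix.vandermonde_apply]
  rw [← pow_mul, ← pow_mul, mul_comm]

theorem tendsto_slope_pow (m : ℕ) :
    Tendsto (fun q : ℝ => (q ^ m - 1) / (q - 1)) (𝓝[≠] 1) (𝓝 (m : ℝ)) := by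
  have h := (hasDerivAt_pow m (1 : ℝ)).tendsto_slope
  simp only [one_pow, mul_one] at h
  refine h.congr fun q => ?_
  rw [slope_def_field]
  simp

theorem r_one (e e' : Fin N → ℕ) (he : StrictMono e) (he' : StrictMono e') :
    r e e' (fun _ => 1) = V (fun j => (e j : ℝ)) / V (fun j => (e' j : ℝ)) := by
  have hV : ∀ f : Fin N → ℕ, Tendsto (fun q : ℝ => ∏ i : Fin N, ∏ j ∈ Ioi i,
      ((q ^ f j - q ^ f i) / (q - 1))) (𝓝[≠] 1) (𝓝 (V (fun j => (f j : ℝ)))) := by
    intro f
    unfold V
    refine tendsto_finsetProd _ fun i _ => tendsto_finsetProd _ fun j _ => ?_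
    have := (tendsto_slope_pow (f j)).sub (tendsto_slope_pow (f i))
    refine this.congr fun q => ?_
    rw [← sub_div]
    congr 1
    ring
  have hVne : V (fun j => (e' j : ℝ)) ≠ 0 := by
    apply V_ne_zero
    intro i j hij
    have hij' : (e' i : ℝ) = e' j := hij
    exact he'.injective (by exact_mod_cast hij')
  have h1 := (hV e).div (hV e') hVne
  have h2 : Tendsto (fun q : ℝ => r e e' (fun i : Fin N => q ^ (i : ℕ))) (𝓝[≠] 1)
      (𝓝 (r e e' (fun _ => 1))) := by
    have h3 : Tendsto (fun q : ℝ => (fun i : Fin N => q ^ (i : ℕ))) (𝓝 1)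
        (𝓝 (fun i : Fin N => (1 : ℝ) ^ (i : ℕ))) := by
      have : Continuous (fun q : ℝ => (fun i : Fin N => q ^ (i : ℕ))) := by fun_prop
      exact this.tendsto 1
    have h4 : (fun i : Fin N => (1 : ℝ) ^ (i : ℕ)) = fun _ => 1 := by
      funext i; exact one_pow _
    rw [h4] at h3
    exact (((r_continuousAt e e' he' (fun _ => 1) fun _ => one_pos).tendsto).comp h3).mono_left
      nhdsWithin_le_nhds
  have h5 : ∀ᶠ q : ℝ in 𝓝[≠] 1, (∏ i : Fin N, ∏ j ∈ Ioi i, ((q ^ e j - q ^ e i) / (q - 1))) /
      (∏ i : Fin N, ∏ j ∈ Ioi i, ((q ^ e' j - q ^ e' i) / (q - 1))) =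
      r e e' (fun i : Fin N => q ^ (i : ℕ)) := by
    have hq0 : ∀ᶠ q : ℝ in 𝓝[≠] 1, 0 < q := nhdsWithin_le_nhds (lt_mem_nhds one_pos)
    filter_upwards [hq0, self_mem_nhdsWithin] with q hq hq1
    have hinj : Function.Injective (fun i : Fin N => q ^ (i : ℕ)) := by
      intro i j hij
      apply Fin.ext
      exact pow_right_injective₀ hq hq1 hij
    rw [r_eq_D e e' he he' _ hinj, D_geom, D_geom]
    have hsplit : ∀ f : Fin N → ℕ, V (fun j => q ^ f j) =
        (∏ i : Fin N, ∏ _j ∈ Ioi i, (q - 1)) *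
          ∏ i : Fin N, ∏ j ∈ Ioi i, ((q ^ f j - q ^ f i) / (q - 1)) := by
      intro f
      unfold V
      rw [← Finset.prod_mul_distrib]
      refine Finset.prod_congr rfl fun i _ => ?_
      rw [← Finset.prod_mul_distrib]
      refine Finset.prod_congr rfl fun j _ => ?_
      rw [mul_div_cancel₀ _ (sub_ne_zero.2 hq1)]
    rw [hsplit e, hsplit e', mul_div_mul_left]
    rw [Finset.prod_ne_zero_iff]
    intro i _
    rw [Finset.prod_ne_zero_iff]
    intro j _
    exact sub_ne_zero.2 hq1
  exact tendsto_nhds_unique (h2.congr' (h5.mono fun q hq => hq.symm)) h1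

theorem D_add_one (e : Fin N → ℕ) (x : Fin N → ℝ) :
    D (fun j => e j + 1) x = (∏ i, x i) * D e x := by
  unfold D
  have h := Matrix.det_mul_column (fun i : Fin N => x i) (Matrix.of fun (i j : Fin N) => x i ^ e j)
  rw [← h]
  congr 1
  ext i j
  simp [pow_succ, mul_comm]

/-- Weak majorization implies that the ratio is minimised at `1` on `(0, 1] ^ N`. -/
theorem min_of_weak (e e' : Fin N → ℕ) (he : StrictMono e) (he' : StrictMono e')
    (hs : ∀ k, k ≤ N → sig e k ≤ sig e' k) (x : Fin N → ℝ)
    (hx : ∀ j, x j ∈ Set.Ioc 0 1) : r e e' (fun _ => 1) ≤ r e e' x := by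
  rcases Nat.eq_zero_or_pos N with hN | hN
  · subst hN
    apply le_of_eq
    congr 1
    funext j
    exact j.elim0
  have : NeZero N := ⟨hN.ne'⟩
  -- the perturbed exponents
  let E : ℕ → Fin N → ℕ := fun n j => n * (e j + 1) - (if j = 0 then 1 else 0)
  let E' : ℕ → Fin N → ℕ := fun n j => n * (e' j + 1)
  have hE : ∀ n, 1 ≤ n → StrictMono (E n) := by
    intro n hn i j hij
    have h1 : e i < e j := he hij
    have h2 : j ≠ 0 := fun h => by
      rw [h] at hij
      exact absurd hij (Fin.not_lt_zero _)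
    have h3 : n * (e i + 1) < n * (e j + 1) := by
      apply Nat.mul_lt_mul_of_pos_left _ hn
      omega
    simp only [E, h2, if_false]
    omega
  have hE' : ∀ n, 1 ≤ n → StrictMono (E' n) := by
    intro n hn i j hij
    have h1 : e' i < e' j := he' hij
    apply Nat.mul_lt_mul_of_pos_left _ hn
    omega
  have hstrict : ∀ n, 1 ≤ n → ∀ k, 1 ≤ k → k ≤ N → sig (E n) k < sig (E' n) k := by
    intro n hn k hk hkN
    have h1 := hs k hkN
    have key : ∀ (f : Fin N → ℕ), StrictMono f → sig f k +
        ∑ j ∈ univ.filter (fun j : Fin N => (j : ℕ) < k), (j : ℕ) =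
        ∑ j ∈ univ.filter (fun j : Fin N => (j : ℕ) < k), f j := by
      intro f hf
      unfold sig
      rw [← Finset.sum_add_distrib]
      refine Finset.sum_congr rfl fun j _ => ?_
      exact Nat.sub_add_cancel (le_of_strictMono hf j)
    have k1 := key e he
    have k2 := key e' he'
    have k3 := key (E n) (hE n hn)
    have k4 := key (E' n) (hE' n hn)
    have h0mem : (0 : Fin N) ∈ univ.filter (fun j : Fin N => (j : ℕ) < k) := by
      simp; omega
    have k5 : ∑ j ∈ univ.filter (fun j : Fin N => (j : ℕ) < k), E n j + 1 =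
        ∑ j ∈ univ.filter (fun j : Fin N => (j : ℕ) < k), n * (e j + 1) := by
      rw [← Finset.add_sum_erase _ _ h0mem, ← Finset.add_sum_erase _ (fun j => n * (e j + 1)) h0mem]
      have h6 : ∑ j ∈ (univ.filter (fun j : Fin N => (j : ℕ) < k)).erase 0, E n j =
          ∑ j ∈ (univ.filter (fun j : Fin N => (j : ℕ) < k)).erase 0, n * (e j + 1) := by
        refine Finset.sum_congr rfl fun j hj => ?_
        have : j ≠ 0 := Finset.ne_of_mem_erase hj
        simp [E, this]
      rw [h6]
      have h7 : E n 0 + 1 = n * (e 0 + 1) := by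
        simp only [E, if_true]
        have : 0 < n * (e 0 + 1) := Nat.mul_pos hn (Nat.succ_pos _)
        omega
      omega
    have k6 : ∑ j ∈ univ.filter (fun j : Fin N => (j : ℕ) < k), n * (e j + 1) ≤
        ∑ j ∈ univ.filter (fun j : Fin N => (j : ℕ) < k), E' n j := by
      simp only [E']
      rw [← Finset.mul_sum, ← Finset.mul_sum]
      apply Nat.mul_le_mul_left
      rw [Finset.sum_add_distrib, Finset.sum_add_distrib]
      omega
    omega
  -- the statement for points with distinct coordinates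
  have main : ∀ x : Fin N → ℝ, (∀ j, x j ∈ Set.Ioc 0 1) → Function.Injective x →
      r e e' (fun _ => 1) ≤ r e e' x := by
    intro x hx hinj
    let y : ℕ → Fin N → ℝ := fun n i => x i ^ (1 / (n : ℝ))
    have hineq : ∀ n, 1 ≤ n → r (E n) (E' n) (fun _ => 1) ≤ r (E n) (E' n) (y n) := by
      intro n hn
      apply min_of_strict _ _ (hE n hn) (hE' n hn) (hstrict n hn)
      intro j
      exact ⟨Real.rpow_pos_of_pos (hx j).1 _,
        Real.rpow_le_one (hx j).1.le (hx j).2 (by positivity)⟩
    -- limit of the left-hand side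
    have hl : Tendsto (fun n => r (E n) (E' n) (fun _ => 1)) atTop (𝓝 (r e e' (fun _ => 1))) := by
      rw [r_one e e' he he']
      have hVe : Tendsto (fun n : ℕ => ∏ i : Fin N, ∏ j ∈ Ioi i,
          (((E n j : ℕ) : ℝ) - (E n i : ℕ)) / n) atTop (𝓝 (V (fun j => (e j : ℝ)))) := by
        unfold V
        refine tendsto_finsetProd _ fun i _ => tendsto_finsetProd _ fun j hj => ?_
        have hj0 : j ≠ 0 := fun h => by
          have := Finset.mem_Ioi.1 hj
          rw [h] at this
          exact absurd this (Fin.not_lt_zero _)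
        have h1 : Tendsto (fun n : ℕ => ((e j : ℝ) - e i) + (if i = 0 then (1 : ℝ) else 0) / n)
            atTop (𝓝 (((e j : ℝ) - e i) + 0)) := by
          refine tendsto_const_nhds.add ?_
          exact tendsto_const_div_atTop_nhds_zero_nat _
        rw [add_zero] at h1
        refine h1.congr' ?_
        filter_upwards [eventually_ge_atTop 1] with n hn
        have hn0 : (n : ℝ) ≠ 0 := by
          have : (0 : ℝ) < n := by exact_mod_cast hn
          exact this.ne'
        have h2 : ((E n j : ℕ) : ℝ) = n * (e j + 1) := by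
          simp [E, hj0]
        have h3 : ((E n i : ℕ) : ℝ) = n * (e i + 1) - (if i = 0 then (1 : ℝ) else 0) := by
          simp only [E]
          have h4 : (if i = 0 then 1 else 0) ≤ n * (e i + 1) := by
            have : 0 < n * (e i + 1) := Nat.mul_pos hn (Nat.succ_pos _)
            split_ifs <;> omega
          rw [Nat.cast_sub h4]
          push_cast
          rfl
        rw [h2, h3]
        field_simp
        ring
      have hVe' : Tendsto (fun n : ℕ => ∏ i : Fin N, ∏ j ∈ Ioi i,
          (((E' n j : ℕ) : ℝ) - (E' n i : ℕ)) / n) atTop (𝓝 (V (fun j => (e' j : ℝ)))) := by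
        unfold V
        refine tendsto_finsetProd _ fun i _ => tendsto_finsetProd _ fun j hj => ?_
        refine tendsto_const_nhds.congr' ?_
        filter_upwards [eventually_ge_atTop 1] with n hn
        have hn0 : (n : ℝ) ≠ 0 := by
          have : (0 : ℝ) < n := by exact_mod_cast hn
          exact this.ne'
        simp only [E']
        push_cast
        field_simp
        ring
      have hVne : V (fun j => (e' j : ℝ)) ≠ 0 := by
        apply V_ne_zero
        intro i j hij
        have hij' : (e' i : ℝ) = e' j := hij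
        exact he'.injective (by exact_mod_cast hij')
      refine (hVe.div hVe' hVne).congr' ?_
      filter_upwards [eventually_ge_atTop 1] with n hn
      have hn0 : (n : ℝ) ≠ 0 := by
        have : (0 : ℝ) < n := by exact_mod_cast hn
        exact this.ne'
      rw [r_one _ _ (hE n hn) (hE' n hn)]
      have hsplit : ∀ f : Fin N → ℕ, V (fun j => (f j : ℝ)) =
          (∏ i : Fin N, ∏ _j ∈ Ioi i, (n : ℝ)) *
            ∏ i : Fin N, ∏ j ∈ Ioi i, (((f j : ℝ) - f i) / n) := by
        intro f
        unfold V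
        rw [← Finset.prod_mul_distrib]
        refine Finset.prod_congr rfl fun i _ => ?_
        rw [← Finset.prod_mul_distrib]
        refine Finset.prod_congr rfl fun j _ => ?_
        rw [mul_div_cancel₀ _ hn0]
      have hne0 : (∏ i : Fin N, ∏ _j ∈ Ioi i, (n : ℝ)) ≠ 0 := by
        rw [Finset.prod_ne_zero_iff]
        intro i _
        rw [Finset.prod_ne_zero_iff]
        intro j _
        exact hn0
      rw [hsplit (E n), hsplit (E' n), mul_div_mul_left _ _ hne0, Pi.div_apply]
    -- limit of the right-hand side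
    have hr : Tendsto (fun n => r (E n) (E' n) (y n)) atTop (𝓝 (r e e' x)) := by
      have hprod : (∏ i, x i) ≠ 0 := Finset.prod_ne_zero_iff.2 fun i _ => (hx i).1.ne'
      have hDe' : D e' x ≠ 0 := by
        rw [D_eq e' he']
        exact mul_ne_zero (S_pos e' he' x fun j => (hx j).1).ne' (V_ne_zero hinj)
      have h1 : r e e' x = D (fun j => e j + 1) x / D (fun j => e' j + 1) x := by
        rw [r_eq_D e e' he he' x hinj, D_add_one, D_add_one, mul_div_mul_left _ _ hprod]
      rw [h1]
      have hpow : ∀ (n : ℕ), 1 ≤ n → ∀ i (m : ℕ), (y n i) ^ (n * m) = x i ^ m := by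
        intro n hn i m
        have hn0 : (n : ℝ) ≠ 0 := by
          have : (0 : ℝ) < n := by exact_mod_cast hn
          exact this.ne'
        rw [pow_mul]
        congr 1
        simp only [y]
        rw [← Real.rpow_natCast, ← Real.rpow_mul (hx i).1.le, one_div, inv_mul_cancel₀ hn0,
          Real.rpow_one]
      have h2 : Tendsto (fun n => D (E n) (y n)) atTop (𝓝 (D (fun j => e j + 1) x)) := by
        unfold D
        have hcd : Continuous (fun M : Matrix (Fin N) (Fin N) ℝ => M.det) :=
          Continuous.matrix_det continuous_id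
        refine (hcd.tendsto _).comp ?_
        refine tendsto_pi_nhds.2 fun i => tendsto_pi_nhds.2 fun j => ?_
        simp only [Matrix.of_apply]
        by_cases hj : j = 0
        · have h3 : Tendsto (fun n : ℕ => x i ^ (e j + 1) / x i ^ (1 / (n : ℝ))) atTop
              (𝓝 (x i ^ (e j + 1) / 1)) := by
            refine tendsto_const_nhds.div ?_ one_ne_zero
            have h4 : Tendsto (fun n : ℕ => (1 / (n : ℝ))) atTop (𝓝 0) :=
              tendsto_const_div_atTop_nhds_zero_nat 1
            have h5 := (Real.continuousAt_const_rpow (b := 0) (hx i).1.ne').tendsto.comp h4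
            rw [Real.rpow_zero] at h5
            exact h5
          rw [div_one] at h3
          refine h3.congr' ?_
          filter_upwards [eventually_ge_atTop 1] with n hn
          have hy0 : y n i ≠ 0 := (Real.rpow_pos_of_pos (hx i).1 _).ne'
          have h6 : 1 ≤ n * (e j + 1) := Nat.mul_pos hn (Nat.succ_pos _)
          simp only [E, hj, if_true]
          rw [div_eq_iff hy0]
          rw [← pow_succ, Nat.sub_add_cancel (hj ▸ h6), hpow n hn]
        · refine tendsto_const_nhds.congr' ?_
          filter_upwards [eventually_ge_atTop 1] with n hn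
          simp only [E, hj, if_false, Nat.sub_zero]
          rw [hpow n hn]
      have h3 : Tendsto (fun n => D (E' n) (y n)) atTop (𝓝 (D (fun j => e' j + 1) x)) := by
        refine tendsto_const_nhds.congr' ?_
        filter_upwards [eventually_ge_atTop 1] with n hn
        unfold D
        congr 1
        ext i j
        simp only [Matrix.of_apply, E']
        rw [hpow n hn]
      have hne : D (fun j => e' j + 1) x ≠ 0 := by
        rw [D_add_one]
        exact mul_ne_zero hprod hDe'
      refine (h2.div h3 hne).congr' ?_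
      filter_upwards [eventually_ge_atTop 1] with n hn
      rw [Pi.div_apply]
      symm
      apply r_eq_D _ _ (hE n hn) (hE' n hn)
      intro i j hij
      apply hinj
      have h4 := hpow n hn i 1
      have h5 := hpow n hn j 1
      rw [pow_one] at h4 h5
      rw [← h4, ← h5, hij]
    exact le_of_tendsto_of_tendsto hl hr
      (by filter_upwards [eventually_ge_atTop 1] with n hn using hineq n hn)
  -- extension to all points
  let p : ℝ → Fin N → ℝ := fun ε i => x i - ε * ((i : ℕ) + 1)
  have hp : Continuous p := by fun_prop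
  have hp0 : p 0 = x := by
    funext i
    simp [p]
  have hle : 𝓝[>] (0 : ℝ) ≤ 𝓝[≠] 0 := nhdsWithin_mono _ fun ε hε => ne_of_gt hε
  have hinj : ∀ᶠ ε in 𝓝[>] (0 : ℝ), Function.Injective (p ε) := by
    have h1 : ∀ i j : Fin N, ∀ᶠ ε in 𝓝[>] (0 : ℝ), p ε i = p ε j → i = j := by
      intro i j
      by_cases hij : i = j
      · exact Eventually.of_forall fun _ _ => hij
      · have hij' : ((j : ℕ) : ℝ) - ((i : ℕ) : ℝ) ≠ 0 := by
          intro h0
          apply hij
          apply Fin.ext
          exact_mod_cast (sub_eq_zero.1 h0).symm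
        have h2 : ∀ᶠ ε in 𝓝[≠] (0 : ℝ), ε ≠ (x j - x i) / ((j : ℕ) - (i : ℕ)) := by
          by_cases h0 : (x j - x i) / (((j : ℕ) : ℝ) - (i : ℕ)) = 0
          · rw [h0]
            exact self_mem_nhdsWithin
          · exact mem_nhdsWithin_of_mem_nhds (isOpen_ne.mem_nhds (Ne.symm h0))
        refine (h2.filter_mono hle).mono fun ε hε heq => ?_
        exfalso
        apply hε
        rw [eq_div_iff hij']
        simp only [p] at heq
        linear_combination heq
    have h3 : ∀ᶠ ε in 𝓝[>] (0 : ℝ), ∀ i j : Fin N, p ε i = p ε j → i = j := by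
      rw [eventually_all]
      intro i
      rw [eventually_all]
      exact h1 i
    exact h3.mono fun ε hε i j hij => hε i j hij
  have hmem : ∀ᶠ ε in 𝓝[>] (0 : ℝ), ∀ j, p ε j ∈ Set.Ioc 0 1 := by
    rw [eventually_all]
    intro j
    have h1 : ∀ᶠ ε in 𝓝[>] (0 : ℝ), 0 < p ε j := by
      apply nhdsWithin_le_nhds
      have h4 : Tendsto (fun ε => p ε j) (𝓝 0) (𝓝 (p 0 j)) :=
        ((continuous_apply j).comp hp).tendsto 0
      rw [hp0] at h4
      exact h4.eventually (lt_mem_nhds (hx j).1)
    filter_upwards [h1, self_mem_nhdsWithin] with ε h2 h3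
    refine ⟨h2, ?_⟩
    have h4 : 0 < ε * ((j : ℕ) + 1) := mul_pos h3 (by positivity)
    have h5 := (hx j).2
    simp only [p]
    linarith
  have hlim : Tendsto (fun ε => r e e' (p ε)) (𝓝[>] 0) (𝓝 (r e e' x)) := by
    have h1 : Tendsto p (𝓝 0) (𝓝 x) := by
      have := hp.tendsto 0
      rwa [hp0] at this
    exact (((r_continuousAt e e' he' x fun j => (hx j).1).tendsto).comp h1).mono_left
      nhdsWithin_le_nhds
  exact ge_of_tendsto hlim ((hinj.and hmem).mono fun ε hε => main _ hε.2 hε.1)

/-- The exponents seen after inverting the variables. -/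
def inv (M : ℕ) (e : Fin N → ℕ) : Fin N → ℕ := fun j => M - e (Fin.rev j)

theorem inv_strictMono (M : ℕ) (e : Fin N → ℕ) (he : StrictMono e) (hM : ∀ j, e j ≤ M) :
    StrictMono (inv M e) := by
  intro i j hij
  have h1 : e (Fin.rev j) < e (Fin.rev i) := he (Fin.rev_lt_rev.2 hij)
  have h2 := hM (Fin.rev i)
  unfold inv
  omega

theorem D_inv (M : ℕ) (e : Fin N → ℕ) (hM : ∀ j, e j ≤ M) (x : Fin N → ℝ) (hx : ∀ j, 0 < x j) :
    D (inv M e) x =
      ((Equiv.Perm.sign (Fin.revPerm : Equiv.Perm (Fin N)) : ℤ) : ℝ) *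
        ((∏ i, x i ^ M) * D e (fun i => (x i)⁻¹)) := by
  have h1 : (∏ i, x i ^ M) * D e (fun i => (x i)⁻¹) =
      (Matrix.of fun (i j : Fin N) => x i ^ (M - e j)).det := by
    unfold D
    have h := Matrix.det_mul_column (fun i : Fin N => x i ^ M)
      (Matrix.of fun (i j : Fin N) => (x i)⁻¹ ^ e j)
    rw [← h]
    congr 1
    ext i j
    simp only [Matrix.of_apply]
    rw [inv_pow, pow_sub₀ _ (hx i).ne' (hM j)]
  rw [h1]
  have h2 := Matrix.det_permute' (Fin.revPerm : Equiv.Perm (Fin N))
    (Matrix.of fun (i j : Fin N) => x i ^ (M - e j))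
  rw [← h2]
  rfl

theorem r_inv (M : ℕ) (e e' : Fin N → ℕ) (he : StrictMono e) (he' : StrictMono e')
    (hM : ∀ j, e j ≤ M) (hM' : ∀ j, e' j ≤ M) (x : Fin N → ℝ) (hx : ∀ j, 0 < x j) :
    r e e' (fun i => (x i)⁻¹) = r (inv M e) (inv M e') x := by
  apply eq_of_eq_on_injective_at (f := fun x => r e e' (fun i => (x i)⁻¹))
    (g := r (inv M e) (inv M e')) _ x hx
  · have h1 : ContinuousAt (fun x : Fin N → ℝ => fun i => (x i)⁻¹) x := by
      rw [continuousAt_pi]
      intro i
      exact (continuous_apply i).continuousAt.inv₀ (hx i).ne'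
    exact ContinuousAt.comp (g := r e e') (f := fun x : Fin N → ℝ => fun i => (x i)⁻¹)
      (r_continuousAt e e' he' _ fun j => inv_pos.2 (hx j)) h1
  · exact r_continuousAt _ _ (inv_strictMono M e' he' hM') x hx
  · intro x hx hinj
    have hinj' : Function.Injective (fun i => (x i)⁻¹) := fun i j hij => hinj (inv_injective hij)
    have h1 := r_eq_D _ _ (inv_strictMono M e he hM) (inv_strictMono M e' he' hM') x hinj
    change r e e' (fun i => (x i)⁻¹) = r (inv M e) (inv M e') x
    rw [h1, D_inv M e hM x hx, D_inv M e' hM' x hx, r_eq_D e e' he he' _ hinj']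
    have h2 : ((Equiv.Perm.sign (Fin.revPerm : Equiv.Perm (Fin N)) : ℤ) : ℝ) ≠ 0 := by
      rcases Int.units_eq_one_or (Equiv.Perm.sign (Fin.revPerm : Equiv.Perm (Fin N))) with h | h <;>
        simp [h]
    have h3 : (∏ i, x i ^ M) ≠ 0 := Finset.prod_ne_zero_iff.2 fun i _ => pow_ne_zero _ (hx i).ne'
    rw [mul_div_mul_left _ _ h2, mul_div_mul_left _ _ h3]

/-- If the ratio is minimised at `1` on all points `vk N k a` with `a` small, then the weak
majorization holds. -/
theorem weak_of_min (e e' : Fin N → ℕ) (he : StrictMono e) (he' : StrictMono e') (k : ℕ)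
    (h : ∀ a : ℝ, 0 < a → a ≤ 1 → r e e' (fun _ => 1) ≤ r e e' (vk N k a)) :
    sig e k ≤ sig e' k := by
  by_contra hcon
  push Not at hcon
  obtain ⟨d, hd⟩ := Nat.exists_eq_add_of_lt hcon
  have hr1 := r_pos e e' he he' (fun _ => (1 : ℝ)) (fun _ => one_pos)
  have hS1 := S_pos e he (fun _ => (1 : ℝ)) (fun _ => one_pos)
  obtain ⟨a, ha0, ha1, hasmall⟩ : ∃ a : ℝ, 0 < a ∧ a ≤ 1 ∧
      a * S N e (fun _ => 1) < r e e' (fun _ => 1) := by
    have h2 : ∀ᶠ a in 𝓝[>] (0 : ℝ), a * S N e (fun _ => 1) < r e e' (fun _ => 1) := by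
      apply nhdsWithin_le_nhds
      have : Tendsto (fun a : ℝ => a * S N e (fun _ => 1)) (𝓝 0)
          (𝓝 (0 * S N e (fun _ => 1))) := (continuous_id.mul continuous_const).tendsto 0
      rw [zero_mul] at this
      exact this.eventually (gt_mem_nhds hr1)
    have h3 : ∀ᶠ a in 𝓝[>] (0 : ℝ), a ≤ 1 := nhdsWithin_le_nhds (Iic_mem_nhds one_pos)
    have h4 : ∀ᶠ a in 𝓝[>] (0 : ℝ), 0 < a := self_mem_nhdsWithin
    obtain ⟨a, h⟩ := (h2.and (h3.and h4)).exists
    exact ⟨a, h.2.2, h.2.1, h.1⟩
  have h1 := h a ha0 ha1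
  have h2 := r_vk_le e e' he he' k a ha0 ha1
  rw [hd] at h2
  have h3 : a ^ (sig e' k + d + 1) * S N e (fun _ => 1) / a ^ sig e' k =
      (a ^ d * a) * S N e (fun _ => 1) := by
    rw [pow_add, pow_add, pow_one]
    have : a ^ sig e' k ≠ 0 := pow_ne_zero _ ha0.ne'
    field_simp
  rw [h3] at h2
  have h5 : a ^ d * a ≤ a := by
    have : a ^ d ≤ 1 := pow_le_one₀ ha0.le ha1
    nlinarith
  have h6 : (a ^ d * a) * S N e (fun _ => 1) ≤ a * S N e (fun _ => 1) :=
    mul_le_mul_of_nonneg_right h5 hS1.le
  linarith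

end Pool.Agent.Helper56.SchurUnbounded
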