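import Mathlib
import Pool.Agent.Helper56.SchurUnbounded

set_option autoImplicit false

namespace Pool.Agent.Helper56.SchurClass

open Finset Filter Topology
open Pool.Agent.Helper56.SchurBase Pool.Agent.Helper56.SchurIdentity
open Pool.Agent.Helper56.SchurVertex Pool.Agent.Helper56.SchurUnbounded

variable {N : ℕ}

/-- Increasing exponents attached to a non-increasing tuple. -/
def ex (lam : Fin N → ℕ) : Fin N → ℕ := fun j => lam (Fin.rev j) + (j : ℕ)

theorem ex_strictMono (lam : Fin N → ℕ) (h : Antitone lam) : StrictMono (ex lam) := by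
  intro i j hij
  have h1 : lam (Fin.rev i) ≤ lam (Fin.rev j) := h (Fin.rev_le_rev.2 hij.le)
  have h2 : (i : ℕ) < (j : ℕ) := hij
  unfold ex
  omega

/-- The branching sum as a polynomial. -/
noncomputable def SP : (n : ℕ) → (Fin n → ℕ) → MvPolynomial (Fin n) ℝ
  | 0, _ => 1
  | n + 1, e => MvPolynomial.X 0 ^ e 0 *
      ∑ m ∈ Fintype.piFinset (fun j : Fin n => Finset.Ico (e j.castSucc) (e j.succ)),
        (∏ j : Fin n, MvPolynomial.X 0 ^ (e j.succ - 1 - m j)) *
          MvPolynomial.rename Fin.succ (SP n m)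

theorem eval_SP {n : ℕ} (e : Fin n → ℕ) (x : Fin n → ℝ) :
    MvPolynomial.eval x (SP n e) = S n e x := by
  induction n with
  | zero => simp [SP, S]
  | succ n ih =>
    simp only [SP, S_succ, map_mul, map_pow, map_sum, map_prod, MvPolynomial.eval_X,
      MvPolynomial.eval_rename]
    congr 1
    refine Finset.sum_congr rfl fun m _ => ?_
    rw [ih]
    rfl

theorem D_rev (l : Fin N → ℕ) (x : Fin N → ℝ) :
    D (fun j => l (Fin.rev j)) x =
      ((Equiv.Perm.sign (Fin.revPerm : Equiv.Perm (Fin N)) : ℤ) : ℝ) * D l x := by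
  have h2 := Matrix.det_permute' (Fin.revPerm : Equiv.Perm (Fin N))
    (Matrix.of fun (i j : Fin N) => x i ^ l j)
  unfold D
  rw [← h2]
  rfl

theorem sign_ne : ((Equiv.Perm.sign (Fin.revPerm : Equiv.Perm (Fin N)) : ℤ) : ℝ) ≠ 0 := by
  rcases Int.units_eq_one_or (Equiv.Perm.sign (Fin.revPerm : Equiv.Perm (Fin N))) with h | h <;>
    simp [h]

theorem S_mul_D (lam : Fin N → ℕ) (h : Antitone lam) (x : Fin N → ℝ) :
    S N (ex lam) x * D (fun j : Fin N => N - 1 - j) x = D (fun j : Fin N => lam j + (N - 1 - j)) x := by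
  have h1 := D_eq (ex lam) (ex_strictMono lam h) x
  have h2 : D (ex lam) x = ((Equiv.Perm.sign (Fin.revPerm : Equiv.Perm (Fin N)) : ℤ) : ℝ) *
      D (fun j : Fin N => lam j + (N - 1 - j)) x := by
    rw [← D_rev]
    congr 1
    funext j
    simp only [ex, Fin.val_rev]
    have := j.isLt
    omega
  have h3 : V x = ((Equiv.Perm.sign (Fin.revPerm : Equiv.Perm (Fin N)) : ℤ) : ℝ) *
      D (fun j : Fin N => N - 1 - j) x := by
    rw [← D_rev, V_eq_D]
    congr 1
    funext j
    simp only [Fin.val_rev]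
    have := j.isLt
    omega
  rw [h2, h3] at h1
  apply mul_left_cancel₀ (sign_ne (N := N))
  linear_combination -h1

/-- The minimum property on a set for the ratio of branching sums. -/
def Min (e e' : Fin N → ℕ) (I : Set ℝ) : Prop :=
  ∀ x : Fin N → ℝ, (∀ i, x i ∈ I) → r e e' (fun _ => 1) ≤ r e e' x

theorem min_iff_vertices (e e' : Fin N → ℕ) (he : StrictMono e) (he' : StrictMono e')
    (I : Set ℝ) (h1 : (1 : ℝ) ∈ I) (hpos : 0 < sInf I) (hI0 : I ⊆ Set.Ioi 0) (hb : BddAbove I) :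
    Min e e' I ↔ ∀ k ≤ N, r e e' (fun _ => 1) ≤
      r e e' (fun i : Fin N => if (i : ℕ) < k then sInf I else sSup I) := by
  have hne : I.Nonempty := ⟨1, h1⟩
  have hbb : BddBelow I := ⟨0, fun x hx => (hI0 hx).le⟩
  have hab : sInf I ≤ sSup I := (csInf_le hbb h1).trans (le_csSup hb h1)
  constructor
  · intro h k _
    set v : Fin N → ℝ := fun i : Fin N => if (i : ℕ) < k then sInf I else sSup I with hv
    have hv0 : ∀ j, 0 < v j := by
      intro j
      simp only [hv]
      split_ifs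
      · exact hpos
      · exact hpos.trans_le hab
    have hvc : v ∈ closure (Set.univ.pi fun _ : Fin N => I) := by
      rw [closure_pi_set]
      intro j _
      simp only [hv]
      split_ifs
      · exact csInf_mem_closure hne hbb
      · exact csSup_mem_closure hne hb
    have hnb := mem_closure_iff_nhdsWithin_neBot.1 hvc
    have hlim : Tendsto (r e e') (𝓝[Set.univ.pi fun _ : Fin N => I] v) (𝓝 (r e e' v)) :=
      (r_continuousAt e e' he' v hv0).tendsto.mono_left nhdsWithin_le_nhds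
    refine ge_of_tendsto hlim ?_
    filter_upwards [self_mem_nhdsWithin] with x hx
    exact h x fun i => hx i (Set.mem_univ i)
  · intro h x hx
    obtain ⟨k, hk, hmin⟩ := exists_vk_le e e' he he' (sInf I) (sSup I) hpos hab
    exact (h k hk).trans (hmin x fun j => ⟨csInf_le hbb (hx j), le_csSup hb (hx j)⟩)

theorem vk_mem (k : ℕ) (a : ℝ) (ha : 0 < a) (ha1 : a ≤ 1) (j : Fin N) :
    vk N k a j ∈ Set.Ioc (0 : ℝ) 1 := by
  unfold vk
  split_ifs
  · exact ⟨ha, ha1⟩
  · exact ⟨one_pos, le_rfl⟩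

theorem min_Ioc (e e' : Fin N → ℕ) (he : StrictMono e) (he' : StrictMono e') :
    Min e e' (Set.Ioc 0 1) ↔ ∀ k ≤ N, sig e k ≤ sig e' k := by
  constructor
  · intro h k _
    exact weak_of_min e e' he he' k fun a ha ha1 => h _ fun j => vk_mem k a ha ha1 j
  · intro h x hx
    exact min_of_weak e e' he he' h x hx

theorem min_Ici (e e' : Fin N → ℕ) (he : StrictMono e) (he' : StrictMono e') (M : ℕ)
    (hM : ∀ j, e j ≤ M) (hM' : ∀ j, e' j ≤ M) :
    Min e e' (Set.Ici 1) ↔ ∀ k ≤ N, sig (inv M e) k ≤ sig (inv M e') k := by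
  rw [← min_Ioc (inv M e) (inv M e') (inv_strictMono M e he hM) (inv_strictMono M e' he' hM')]
  have hone : r (inv M e) (inv M e') (fun _ => 1) = r e e' (fun _ => 1) := by
    rw [← r_inv M e e' he he' hM hM' (fun _ => 1) (fun _ => one_pos)]
    simp
  constructor
  · intro h x hx
    rw [hone, ← r_inv M e e' he he' hM hM' x (fun j => (hx j).1)]
    exact h _ fun j => (one_le_inv₀ (hx j).1).2 (hx j).2
  · intro h x hx
    have hx0 : ∀ j, 0 < x j := fun j => lt_of_lt_of_le one_pos (hx j)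
    have h1 := h (fun j => (x j)⁻¹) fun j => ⟨inv_pos.2 (hx0 j), inv_le_one_of_one_le₀ (hx j)⟩
    rw [hone, ← r_inv M e e' he he' hM hM' _ (fun j => inv_pos.2 (hx0 j))] at h1
    simpa using h1

theorem sig_ex (lam : Fin N → ℕ) (k : ℕ) (hk : k ≤ N) :
    sig (ex lam) k = ∑ i ∈ univ.filter (fun i : Fin N => N - k ≤ (i : ℕ)), lam i := by
  unfold sig
  rw [Finset.sum_filter, Finset.sum_filter]
  rw [← Equiv.sum_comp Fin.revPerm]
  refine Finset.sum_congr rfl fun j _ => ?_
  simp only [Fin.revPerm_apply, Fin.val_rev, ex, Fin.rev_rev]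
  have := j.isLt
  by_cases h : N - k ≤ (j : ℕ)
  · rw [if_pos h, if_pos (by omega)]
    omega
  · rw [if_neg h, if_neg (by omega)]

theorem sig_inv_ex (lam : Fin N → ℕ) (M : ℕ) (hM : ∀ j, lam j + N ≤ M) (k : ℕ) :
    sig (inv M (ex lam)) k + ∑ i ∈ univ.filter (fun i : Fin N => (i : ℕ) < k), lam i =
      ∑ i ∈ univ.filter (fun i : Fin N => (i : ℕ) < k), (M - (N - 1)) := by
  unfold sig
  rw [← Finset.sum_add_distrib]
  refine Finset.sum_congr rfl fun j _ => ?_
  simp only [inv, ex, Fin.rev_rev, Fin.val_rev]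
  have h1 := hM j
  have := j.isLt
  omega

theorem sum_split (lam : Fin N → ℕ) (k : ℕ) (hk : k ≤ N) :
    ∑ i ∈ univ.filter (fun i : Fin N => (i : ℕ) < k), lam i +
      ∑ i ∈ univ.filter (fun i : Fin N => N - (N - k) ≤ (i : ℕ)), lam i = ∑ i, lam i := by
  have h1 : N - (N - k) = k := by omega
  rw [h1, ← Finset.sum_filter_add_sum_filter_not univ (fun i : Fin N => (i : ℕ) < k)]
  congr 1
  refine Finset.sum_congr ?_ fun _ _ => rfl
  ext i
  simp

theorem sum_ex (lam : Fin N → ℕ) : ∑ j, ex lam j = ∑ j, lam j + ∑ j : Fin N, (j : ℕ) := by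
  unfold ex
  rw [Finset.sum_add_distrib]
  congr 1
  exact Equiv.sum_comp Fin.revPerm lam

/-- Homogeneous case: with equal degrees the ratio is minimised at `1` everywhere. -/
theorem min_of_weak_eq (e e' : Fin N → ℕ) (he : StrictMono e) (he' : StrictMono e')
    (hs : ∀ k, k ≤ N → sig e k ≤ sig e' k) (hsum : ∑ j, e j = ∑ j, e' j) (I : Set ℝ)
    (hI : I ⊆ Set.Ioi 0) : Min e e' I := by
  intro x hx
  rcases Nat.eq_zero_or_pos N with hN | hN
  · subst hN
    apply le_of_eq
    congr 1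
    funext j
    exact j.elim0
  have : NeZero N := ⟨hN.ne'⟩
  have hx0 : ∀ j, 0 < x j := fun j => hI (hx j)
  obtain ⟨j0, -, hj0⟩ := Finset.exists_max_image univ x ⟨0, Finset.mem_univ _⟩
  set t := x j0 with ht
  have ht0 : 0 < t := hx0 j0
  have h1 : x = fun j => t * (x j / t) := by
    funext j
    rw [mul_div_cancel₀ _ ht0.ne']
  rw [h1, r_smul e e' he he' _ (fun j => div_pos (hx0 j) ht0) ht0, hsum,
    div_self (pow_ne_zero _ ht0.ne'), one_mul]
  exact min_of_weak e e' he he' hs _ fun j =>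
    ⟨div_pos (hx0 j) ht0, (div_le_one ht0).2 (hj0 j (Finset.mem_univ _))⟩

theorem sum_le_of_const (e e' : Fin N → ℕ) (he : StrictMono e) (he' : StrictMono e') (c : ℝ)
    (hc : 1 < c) (h : r e e' (fun _ => 1) ≤ r e e' (fun _ => c)) :
    ∑ j, e' j ≤ ∑ j, e j := by
  by_contra hcon
  push Not at hcon
  have hc0 : 0 < c := one_pos.trans hc
  have hr1 := r_pos e e' he he' (fun _ => (1 : ℝ)) (fun _ => one_pos)
  have h1 := r_smul e e' he he' (fun _ => (1 : ℝ)) (fun _ => one_pos) hc0
  simp only [mul_one] at h1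
  rw [h1] at h
  have h2 : c ^ (∑ j, e j) / c ^ (∑ j, e' j) < 1 := by
    rw [div_lt_one (pow_pos hc0 _)]
    exact pow_lt_pow_right₀ hc hcon
  nlinarith

theorem sum_le_of_const' (e e' : Fin N → ℕ) (he : StrictMono e) (he' : StrictMono e') (c : ℝ)
    (hc0 : 0 < c) (hc : c < 1) (h : r e e' (fun _ => 1) ≤ r e e' (fun _ => c)) :
    ∑ j, e j ≤ ∑ j, e' j := by
  by_contra hcon
  push Not at hcon
  have hr1 := r_pos e e' he he' (fun _ => (1 : ℝ)) (fun _ => one_pos)
  have h1 := r_smul e e' he he' (fun _ => (1 : ℝ)) (fun _ => one_pos) hc0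
  simp only [mul_one] at h1
  rw [h1] at h
  have h2 : c ^ (∑ j, e j) / c ^ (∑ j, e' j) < 1 := by
    rw [div_lt_one (pow_pos hc0 _)]
    exact pow_lt_pow_right_of_lt_one₀ hc0 hc hcon
  nlinarith

theorem class_Ioc (lam mu : Fin N → ℕ) (hl : Antitone lam) (hm : Antitone mu) :
    Min (ex lam) (ex mu) (Set.Ioc 0 1) ↔
      ∀ k ≤ N, ∑ i ∈ univ.filter (fun i : Fin N => N - k ≤ (i : ℕ)), lam i ≤
        ∑ i ∈ univ.filter (fun i : Fin N => N - k ≤ (i : ℕ)), mu i := by
  rw [min_Ioc _ _ (ex_strictMono lam hl) (ex_strictMono mu hm)]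
  constructor
  · intro h k hk
    rw [← sig_ex lam k hk, ← sig_ex mu k hk]
    exact h k hk
  · intro h k hk
    rw [sig_ex lam k hk, sig_ex mu k hk]
    exact h k hk

theorem class_Ici (lam mu : Fin N → ℕ) (hl : Antitone lam) (hm : Antitone mu) :
    Min (ex lam) (ex mu) (Set.Ici 1) ↔
      ∀ k ≤ N, ∑ i ∈ univ.filter (fun i : Fin N => (i : ℕ) < k), mu i ≤
        ∑ i ∈ univ.filter (fun i : Fin N => (i : ℕ) < k), lam i := by
  let M : ℕ := (∑ j, lam j) + (∑ j, mu j) + N
  have h1 : ∀ j, lam j + N ≤ M := fun j => by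
    have := Finset.single_le_sum (f := lam) (fun _ _ => Nat.zero_le _) (Finset.mem_univ j)
    simp only [M]; omega
  have h2 : ∀ j, mu j + N ≤ M := fun j => by
    have := Finset.single_le_sum (f := mu) (fun _ _ => Nat.zero_le _) (Finset.mem_univ j)
    simp only [M]; omega
  have h3 : ∀ j, ex lam j ≤ M := fun j => by
    have := h1 (Fin.rev j)
    have := j.isLt
    unfold ex; omega
  have h4 : ∀ j, ex mu j ≤ M := fun j => by
    have := h2 (Fin.rev j)
    have := j.isLt
    unfold ex; omega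
  rw [min_Ici _ _ (ex_strictMono lam hl) (ex_strictMono mu hm) M h3 h4]
  constructor
  · intro h k hk
    have := h k hk
    have a1 := sig_inv_ex lam M h1 k
    have a2 := sig_inv_ex mu M h2 k
    omega
  · intro h k hk
    have := h k hk
    have a1 := sig_inv_ex lam M h1 k
    have a2 := sig_inv_ex mu M h2 k
    omega

theorem class_rest (lam mu : Fin N → ℕ) (hl : Antitone lam) (hm : Antitone mu) (I : Set ℝ)
    (hI : I.OrdConnected) (hI0 : I ⊆ Set.Ioi 0) (h1 : (1 : ℝ) ∈ I)
    (hnb : ¬ (0 < sInf I ∧ BddAbove I)) (hne1 : I ≠ Set.Ioc 0 1) (hne2 : I ≠ Set.Ici 1) :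
    Min (ex lam) (ex mu) I ↔
      (∀ k ≤ N, ∑ i ∈ univ.filter (fun i : Fin N => (i : ℕ) < k), mu i ≤
        ∑ i ∈ univ.filter (fun i : Fin N => (i : ℕ) < k), lam i) ∧
      ∑ i, lam i = ∑ i, mu i := by
  have he := ex_strictMono lam hl
  have he' := ex_strictMono mu hm
  have hne : I.Nonempty := ⟨1, h1⟩
  have hbb : BddBelow I := ⟨0, fun x hx => (hI0 hx).le⟩
  have huniv : ∀ f : Fin N → ℕ, ∑ i ∈ univ.filter (fun i : Fin N => (i : ℕ) < N), f i =
      ∑ i, f i := by
    intro f
    congr 1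
    ext i
    simp
  constructor
  · intro h
    by_cases hinf : 0 < sInf I
    · have hub : ¬ BddAbove I := fun hb => hnb ⟨hinf, hb⟩
      -- `[1, ∞) ⊆ I`
      have hsub : Set.Ici 1 ⊆ I := by
        intro t ht
        rw [not_bddAbove_iff] at hub
        obtain ⟨s, hs, hts⟩ := hub t
        exact hI.out h1 hs ⟨ht, hts.le⟩
      obtain ⟨c, hcI, hc1⟩ : ∃ c ∈ I, c < 1 := by
        by_contra hcon
        push Not at hcon
        exact hne2 (Set.Subset.antisymm (fun t ht => hcon t ht) hsub)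
      have hmin : Min (ex lam) (ex mu) (Set.Ici 1) := fun x hx => h x fun i => hsub (hx i)
      have hw := (class_Ici lam mu hl hm).1 hmin
      refine ⟨hw, ?_⟩
      have hs1 := sum_le_of_const' _ _ he he' c (hI0 hcI) hc1 (h (fun _ => c) fun _ => hcI)
      rw [sum_ex, sum_ex] at hs1
      have hs2 := hw N le_rfl
      rw [huniv, huniv] at hs2
      omega
    · have hsub : Set.Ioc 0 1 ⊆ I := by
        intro t ht
        have h2 : sInf I < t := lt_of_le_of_lt (not_lt.1 hinf) ht.1
        obtain ⟨s, hs, hst⟩ := exists_lt_of_csInf_lt hne h2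
        exact hI.out hs h1 ⟨hst.le, ht.2⟩
      obtain ⟨c, hcI, hc1⟩ : ∃ c ∈ I, 1 < c := by
        by_contra hcon
        push Not at hcon
        exact hne1 (Set.Subset.antisymm (fun t ht => ⟨hI0 ht, hcon t ht⟩) hsub)
      have hmin : Min (ex lam) (ex mu) (Set.Ioc 0 1) := fun x hx => h x fun i => hsub (hx i)
      have hw := (class_Ioc lam mu hl hm).1 hmin
      have hs1 := sum_le_of_const _ _ he he' c hc1 (h (fun _ => c) fun _ => hcI)
      rw [sum_ex, sum_ex] at hs1
      have hs2 := hw N le_rfl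
      have hall : ∀ f : Fin N → ℕ, ∑ i ∈ univ.filter (fun i : Fin N => N - N ≤ (i : ℕ)), f i =
          ∑ i, f i := by
        intro f
        congr 1
        ext i
        simp
      rw [hall, hall] at hs2
      have heq : ∑ i, lam i = ∑ i, mu i := by omega
      refine ⟨fun k hk => ?_, heq⟩
      have h3 := hw (N - k) (Nat.sub_le _ _)
      have h4 := sum_split lam k hk
      have h5 := sum_split mu k hk
      omega
  · rintro ⟨hw, heq⟩
    apply min_of_weak_eq _ _ he he' _ _ I hI0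
    · intro k hk
      rw [sig_ex lam k hk, sig_ex mu k hk]
      have h3 := hw (N - k) (Nat.sub_le _ _)
      have h4 := sum_split lam (N - k) (Nat.sub_le _ _)
      have h5 := sum_split mu (N - k) (Nat.sub_le _ _)
      have h6 : N - (N - k) = k := by omega
      rw [h6] at h4 h5
      omega
    · rw [sum_ex, sum_ex, heq]

end Pool.Agent.Helper56.SchurClass
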