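import Pool.Agent.Helper56.SchurThreshold

/-!
# An example: the property depends on the interval
-/

set_option autoImplicit false

namespace Pool.Agent.Helper56.SchurExample

open Finset Pool.Agent.Helper56.SchurClass Pool.Agent.Helper56.SchurTwo
  Pool.Agent.Helper56.SchurThreshold

theorem G_three (l : Fin 3 → ℕ) (q : ℝ) :
    G 0 l q = 1 ∧
    G 1 l q = q ^ l 0 * (((l 1 : ℝ) - l 0)⁻¹ * ((l 2 : ℝ) - l 0)⁻¹) +
      q ^ l 1 * (((l 0 : ℝ) - l 1)⁻¹ * ((l 2 : ℝ) - l 1)⁻¹) +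
      q ^ l 2 * (((l 0 : ℝ) - l 2)⁻¹ * ((l 1 : ℝ) - l 2)⁻¹) ∧
    G 2 l q = q ^ (l 0 + l 1) * (((l 2 : ℝ) - l 0)⁻¹ * ((l 2 : ℝ) - l 1)⁻¹) +
      q ^ (l 0 + l 2) * (((l 1 : ℝ) - l 0)⁻¹ * ((l 1 : ℝ) - l 2)⁻¹) +
      q ^ (l 1 + l 2) * (((l 0 : ℝ) - l 1)⁻¹ * ((l 0 : ℝ) - l 2)⁻¹) ∧
    G 3 l q = q ^ (l 0 + l 1 + l 2) := by
  have p0 : powersetCard 0 (univ : Finset (Fin 3)) = {∅} := by decide
  have p1 : powersetCard 1 (univ : Finset (Fin 3)) = {{0}, {1}, {2}} := by decide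
  have p2 : powersetCard 2 (univ : Finset (Fin 3)) = {{0, 1}, {0, 2}, {1, 2}} := by decide
  have p3 : powersetCard 3 (univ : Finset (Fin 3)) = {{0, 1, 2}} := by decide
  have c0 : ({0} : Finset (Fin 3))ᶜ = {1, 2} := by decide
  have c1 : ({1} : Finset (Fin 3))ᶜ = {0, 2} := by decide
  have c2 : ({2} : Finset (Fin 3))ᶜ = {0, 1} := by decide
  have c01 : ({0, 1} : Finset (Fin 3))ᶜ = {2} := by decide
  have c02 : ({0, 2} : Finset (Fin 3))ᶜ = {1} := by decide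
  have c12 : ({1, 2} : Finset (Fin 3))ᶜ = {0} := by decide
  have c012 : ({0, 1, 2} : Finset (Fin 3))ᶜ = ∅ := by decide
  have n1 : ({0} : Finset (Fin 3)) ∉ ({{1}, {2}} : Finset (Finset (Fin 3))) := by decide
  have n2 : ({1} : Finset (Fin 3)) ∉ ({{2}} : Finset (Finset (Fin 3))) := by decide
  have n3 : ({0, 1} : Finset (Fin 3)) ∉ ({{0, 2}, {1, 2}} : Finset (Finset (Fin 3))) := by decide
  have n4 : ({0, 2} : Finset (Fin 3)) ∉ ({{1, 2}} : Finset (Finset (Fin 3))) := by decide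
  have a01 : (0 : Fin 3) ∉ ({1} : Finset (Fin 3)) := by decide
  have a02 : (0 : Fin 3) ∉ ({2} : Finset (Fin 3)) := by decide
  have a12 : (1 : Fin 3) ∉ ({2} : Finset (Fin 3)) := by decide
  have a012 : (0 : Fin 3) ∉ ({1, 2} : Finset (Fin 3)) := by decide
  unfold G
  refine ⟨?_, ?_, ?_, ?_⟩
  · rw [p0, Finset.sum_singleton, Finset.sum_empty, Finset.prod_empty, pow_zero, mul_one]
  · rw [p1, Finset.sum_insert n1, Finset.sum_insert n2, Finset.sum_singleton,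
      Finset.sum_singleton, Finset.sum_singleton, Finset.sum_singleton,
      Finset.prod_singleton, Finset.prod_singleton, Finset.prod_singleton, c0, c1, c2,
      Finset.prod_insert a12, Finset.prod_insert a02, Finset.prod_insert a01]
    simp only [Finset.prod_singleton]
    ring
  · rw [p2, Finset.sum_insert n3, Finset.sum_insert n4, Finset.sum_singleton,
      Finset.sum_insert a01, Finset.sum_insert a02, Finset.sum_insert a12,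
      Finset.sum_singleton, Finset.sum_singleton,
      Finset.prod_insert a01, Finset.prod_insert a02, Finset.prod_insert a12, c01, c02, c12]
    simp only [Finset.prod_singleton]
    ring
  · rw [p3, Finset.sum_singleton, Finset.sum_insert a012, Finset.sum_insert a12,
      Finset.sum_singleton, Finset.prod_insert a012, Finset.prod_insert a12,
      Finset.prod_singleton, c012]
    simp only [Finset.prod_empty, mul_one]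
    rw [add_assoc]

theorem anti_lam : Antitone (![7, 2, 2] : Fin 3 → ℕ) := by
  rw [Fin.antitone_iff_succ_le]
  decide

theorem anti_mu : Antitone (![5, 5, 1] : Fin 3 → ℕ) := by
  rw [Fin.antitone_iff_succ_le]
  decide

theorem sum_lam : ∑ j, (![7, 2, 2] : Fin 3 → ℕ) j = 11 := by decide

theorem sum_mu : ∑ j, (![5, 5, 1] : Fin 3 → ℕ) j = 11 := by decide

theorem fun_lam : (fun j : Fin 3 => (![7, 2, 2] : Fin 3 → ℕ) j + (3 - 1 - (j : ℕ))) =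
    ![9, 3, 2] := by decide

theorem fun_mu : (fun j : Fin 3 => (![5, 5, 1] : Fin 3 → ℕ) j + (3 - 1 - (j : ℕ))) =
    ![7, 6, 1] := by decide

theorem G_lam (q : ℝ) :
    G 0 ![9, 3, 2] q = 1 ∧
    G 1 ![9, 3, 2] q = q ^ 9 * ((3 - 9 : ℝ)⁻¹ * (2 - 9 : ℝ)⁻¹) +
      q ^ 3 * ((9 - 3 : ℝ)⁻¹ * (2 - 3 : ℝ)⁻¹) + q ^ 2 * ((9 - 2 : ℝ)⁻¹ * (3 - 2 : ℝ)⁻¹) ∧
    G 2 ![9, 3, 2] q = q ^ (9 + 3) * ((2 - 9 : ℝ)⁻¹ * (2 - 3 : ℝ)⁻¹) +
      q ^ (9 + 2) * ((3 - 9 : ℝ)⁻¹ * (3 - 2 : ℝ)⁻¹) +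
      q ^ (3 + 2) * ((9 - 3 : ℝ)⁻¹ * (9 - 2 : ℝ)⁻¹) ∧
    G 3 ![9, 3, 2] q = q ^ (9 + 3 + 2) := by
  have h := G_three ![9, 3, 2] q
  have a0 : (![9, 3, 2] : Fin 3 → ℕ) 0 = 9 := rfl
  have a1 : (![9, 3, 2] : Fin 3 → ℕ) 1 = 3 := rfl
  have a2 : (![9, 3, 2] : Fin 3 → ℕ) 2 = 2 := rfl
  rw [a0, a1, a2] at h
  exact_mod_cast h

theorem G_mu (q : ℝ) :
    G 0 ![7, 6, 1] q = 1 ∧
    G 1 ![7, 6, 1] q = q ^ 7 * ((6 - 7 : ℝ)⁻¹ * (1 - 7 : ℝ)⁻¹) +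
      q ^ 6 * ((7 - 6 : ℝ)⁻¹ * (1 - 6 : ℝ)⁻¹) + q ^ 1 * ((7 - 1 : ℝ)⁻¹ * (6 - 1 : ℝ)⁻¹) ∧
    G 2 ![7, 6, 1] q = q ^ (7 + 6) * ((1 - 7 : ℝ)⁻¹ * (1 - 6 : ℝ)⁻¹) +
      q ^ (7 + 1) * ((6 - 7 : ℝ)⁻¹ * (6 - 1 : ℝ)⁻¹) +
      q ^ (6 + 1) * ((7 - 6 : ℝ)⁻¹ * (7 - 1 : ℝ)⁻¹) ∧
    G 3 ![7, 6, 1] q = q ^ (7 + 6 + 1) := by
  have h := G_three ![7, 6, 1] q
  have a0 : (![7, 6, 1] : Fin 3 → ℕ) 0 = 7 := rfl
  have a1 : (![7, 6, 1] : Fin 3 → ℕ) 1 = 6 := rfl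
  have a2 : (![7, 6, 1] : Fin 3 → ℕ) 2 = 1 := rfl
  rw [a0, a1, a2] at h
  exact_mod_cast h

theorem example_min : Min (ex ![7, 2, 2]) (ex ![5, 5, 1]) (Set.Icc (3 / 4 : ℝ) (3 / 2)) := by
  rw [min_Icc _ _ anti_lam anti_mu _ _ (by norm_num) (by norm_num) (by norm_num) (by norm_num)]
  unfold Ineq
  rw [sum_lam, sum_mu, fun_lam, fun_mu]
  obtain ⟨h0, h1, h2, h3⟩ := G_lam ((3 / 4 : ℝ) / (3 / 2))
  obtain ⟨h0', h1', h2', h3'⟩ := G_mu ((3 / 4 : ℝ) / (3 / 2))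
  intro k hk
  have hk3 : k ≤ 3 := hk
  interval_cases k
  · rw [h0, h0']
  · rw [h1, h1']
    norm_num
  · rw [h2, h2']
    norm_num
  · rw [h3, h3']

theorem example_not_min : ¬ Min (ex ![7, 2, 2]) (ex ![5, 5, 1]) (Set.Icc (1 / 2 : ℝ) 2) := by
  rw [min_Icc _ _ anti_lam anti_mu _ _ (by norm_num) (by norm_num) (by norm_num) (by norm_num)]
  unfold Ineq
  rw [sum_lam, sum_mu, fun_lam, fun_mu]
  obtain ⟨h0, h1, h2, h3⟩ := G_lam ((1 / 2 : ℝ) / 2)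
  obtain ⟨h0', h1', h2', h3'⟩ := G_mu ((1 / 2 : ℝ) / 2)
  intro h
  have h4 := h 1 (by norm_num)
  rw [h1, h1'] at h4
  norm_num at h4

end Pool.Agent.Helper56.SchurExample
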