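import Pool.Agent.Helper56.SchurTwo

/-!
# The explicit criterion for bounded intervals
-/

set_option autoImplicit false

namespace Pool.Agent.Helper56.SchurExplicit

open Finset Matrix Filter Topology Pool.Agent.Helper56.SchurBase
  Pool.Agent.Helper56.SchurVertex Pool.Agent.Helper56.SchurUnbounded
  Pool.Agent.Helper56.SchurClass Pool.Agent.Helper56.SchurIdentity
  Pool.Agent.Helper56.SchurLaplace Pool.Agent.Helper56.SchurTwo

variable {N : ℕ}

theorem G_perm (k : ℕ) (l : Fin N → ℕ) (q : ℝ) (σ : Equiv.Perm (Fin N)) :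
    G k (fun j => l (σ j)) q = G k l q := by
  unfold G
  refine Finset.sum_bij (fun S _ => S.map σ.toEmbedding) ?_ ?_ ?_ ?_
  · intro S hS
    rw [Finset.mem_powersetCard] at hS ⊢
    exact ⟨Finset.subset_univ _, by rw [Finset.card_map]; exact hS.2⟩
  · intro S _ S' _ h
    exact Finset.map_injective _ h
  · intro T hT
    refine ⟨T.map σ.symm.toEmbedding, ?_, ?_⟩
    · rw [Finset.mem_powersetCard] at hT ⊢
      exact ⟨Finset.subset_univ _, by rw [Finset.card_map]; exact hT.2⟩
    · ext a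
      simp
  · intro S _
    have hc : (S.map σ.toEmbedding)ᶜ = Sᶜ.map σ.toEmbedding := by
      ext a
      simp
    rw [hc, Finset.sum_map, Finset.prod_map]
    congr 1
    refine Finset.prod_congr rfl fun i _ => ?_
    rw [Finset.prod_map]
    rfl

theorem G_ex (k : ℕ) (lam : Fin N → ℕ) (q : ℝ) :
    G k (ex lam) q = G k (fun j : Fin N => lam j + (N - 1 - j)) q := by
  rw [← G_perm k (fun j : Fin N => lam j + (N - 1 - j)) q Fin.revPerm]
  congr 1
  funext j
  unfold ex
  simp only [Fin.revPerm_apply, Fin.val_rev]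
  have := j.isLt
  omega

/-- the inequality at a vertex -/
theorem vertex_iff (e e' : Fin N → ℕ) (he : StrictMono e) (he' : StrictMono e') (a b : ℝ)
    (ha : 0 < a) (hab : a < b) (k : ℕ) (hk : k ≤ N) :
    r e e' (fun _ => 1) ≤ r e e' (fun i : Fin N => if (i : ℕ) < k then a else b) ↔
      b ^ (∑ j, e' j) * G k e' (a / b) ≤ b ^ (∑ j, e j) * G k e (a / b) := by
  obtain ⟨m, rfl⟩ := Nat.exists_eq_add_of_le hk
  have hb : 0 < b := ha.trans hab
  have hq : 0 < a / b := div_pos ha hb
  have hq1 : a / b < 1 := (div_lt_one hb).2 hab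
  have hv : (fun i : Fin (k + m) => if (i : ℕ) < k then a else b) =
      fun i => b * vk (k + m) k (a / b) i := by
    funext i
    unfold vk
    split_ifs
    · field_simp
    · rw [mul_one]
  have h1 := S_smul e he b _ (vk_pos (k + m) k (a / b) hq)
  have h2 := S_smul e' he' b _ (vk_pos (k + m) k (a / b) hq)
  have hc : (0 : ℝ) < b ^ (∑ j : Fin (k + m), (j : ℕ)) := pow_pos hb _
  have hr : r e e' (fun i : Fin (k + m) => b * vk (k + m) k (a / b) i) =
      b ^ (∑ j, e j) * S (k + m) e (vk (k + m) k (a / b)) /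
        (b ^ (∑ j, e' j) * S (k + m) e' (vk (k + m) k (a / b))) := by
    rw [← h1, ← h2]
    unfold r
    rw [mul_div_mul_right _ _ hc.ne']
  have hr2 : r e e' (fun i : Fin (k + m) => b * vk (k + m) k (a / b) i) =
      r e e' (fun _ => 1) * ((b ^ (∑ j, e j) * G k e (a / b)) /
        (b ^ (∑ j, e' j) * G k e' (a / b))) := by
    have h3 := r_vk e e' he he' (a / b) hq hq1
    rw [hr, mul_div_mul_comm, mul_div_mul_comm]
    have h4 : S (k + m) e (vk (k + m) k (a / b)) / S (k + m) e' (vk (k + m) k (a / b)) =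
        r e e' (vk (k + m) k (a / b)) := rfl
    rw [h4, h3]
    ring
  have hG' := G_pos e' he' (a / b) hq hq1
  have h0 : 0 < b ^ (∑ j, e' j) * G k e' (a / b) := mul_pos (pow_pos hb _) hG'
  rw [hv, hr2]
  rw [le_mul_iff_one_le_right (r_pos e e' he he' _ fun _ => one_pos), one_le_div h0]

/-- the criterion for intervals bounded away from `0` and `∞` -/
theorem class_bounded (lam mu : Fin N → ℕ) (hl : Antitone lam) (hm : Antitone mu) (I : Set ℝ)
    (hI0 : I ⊆ Set.Ioi 0) (h1 : (1 : ℝ) ∈ I) (hn : I.Nontrivial) (hpos : 0 < sInf I)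
    (hb : BddAbove I) :
    Min (ex lam) (ex mu) I ↔ ∀ k ≤ N,
      sSup I ^ (∑ j, mu j) * G k (fun j : Fin N => mu j + (N - 1 - j)) (sInf I / sSup I) ≤
        sSup I ^ (∑ j, lam j) * G k (fun j : Fin N => lam j + (N - 1 - j)) (sInf I / sSup I) := by
  have he := ex_strictMono lam hl
  have he' := ex_strictMono mu hm
  have hbb : BddBelow I := ⟨0, fun x hx => (hI0 hx).le⟩
  have hab : sInf I < sSup I := by
    obtain ⟨x, hx, y, hy, hxy⟩ := hn.exists_lt
    exact (csInf_le hbb hx).trans_lt (hxy.trans_le (le_csSup hb hy))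
  rw [min_iff_vertices _ _ he he' I h1 hpos hI0 hb]
  refine forall_congr' fun k => forall_congr' fun hk => ?_
  rw [vertex_iff _ _ he he' _ _ hpos hab k hk, sum_ex, sum_ex, G_ex, G_ex, pow_add, pow_add]
  have hc : (0 : ℝ) < sSup I ^ (∑ j : Fin N, (j : ℕ)) := pow_pos (hpos.trans hab) _
  rw [mul_right_comm, mul_right_comm (sSup I ^ (∑ j, lam j))]
  exact mul_le_mul_iff_left₀ hc

end Pool.Agent.Helper56.SchurExplicit
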