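import Pool.Agent.Helper56.SchurClass

/-!
# Two-point values of Schur polynomials: a determinant identity
-/

set_option autoImplicit false

namespace Pool.Agent.Helper56.SchurLaplace

open Finset Matrix Pool.Agent.Helper56.SchurBase

variable {k m : ℕ}

/-- the upper rows -/
def up (z : Fin (k + m) → ℝ) (j i : Fin (k + m)) : ℝ := if (i : ℕ) < k then z j ^ (i : ℕ) else 0

/-- the lower rows -/
def lo (z : Fin (k + m) → ℝ) (j i : Fin (k + m)) : ℝ :=
  if (i : ℕ) < k then 0 else z j ^ ((i : ℕ) - k)

theorem det_expand (z w : Fin (k + m) → ℝ) :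
    (Matrix.of fun j i => w j * up z j i + lo z j i).det =
      ∑ S : Finset (Fin (k + m)), (∏ j ∈ S, w j) *
        (Matrix.of fun j i => if j ∈ S then up z j i else lo z j i).det := by
  have h := (Matrix.detRowAlternating (R := ℝ) (n := Fin (k + m))).toMultilinearMap.map_add_univ
    (fun j => w j • up z j) (fun j => lo z j)
  have h0 : (Matrix.of fun j i => w j * up z j i + lo z j i).det =
      (Matrix.detRowAlternating (R := ℝ) (n := Fin (k + m))).toMultilinearMap
        ((fun j => w j • up z j) + fun j => lo z j) := rfl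
  rw [h0, h]
  refine Finset.sum_congr rfl fun S _ => ?_
  have h1 : S.piecewise (fun j => w j • up z j) (fun j => lo z j) =
      S.piecewise (fun j => w j • (S.piecewise (up z) (lo z)) j) (S.piecewise (up z) (lo z)) := by
    funext j
    by_cases hj : j ∈ S
    · rw [Finset.piecewise_eq_of_mem _ _ _ hj, Finset.piecewise_eq_of_mem _ _ _ hj,
        Finset.piecewise_eq_of_mem _ _ _ hj]
    · rw [Finset.piecewise_eq_of_notMem _ _ _ hj, Finset.piecewise_eq_of_notMem _ _ _ hj,
        Finset.piecewise_eq_of_notMem _ _ _ hj]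
  rw [h1, MultilinearMap.map_piecewise_smul, smul_eq_mul]
  congr 1
  have h2 : (S.piecewise (up z) (lo z)) =
      (Matrix.of fun j i => if j ∈ S then up z j i else lo z j i) := by
    funext j i
    by_cases hj : j ∈ S
    · rw [Finset.piecewise_eq_of_mem _ _ _ hj, Matrix.of_apply, if_pos hj]
    · rw [Finset.piecewise_eq_of_notMem _ _ _ hj, Matrix.of_apply, if_neg hj]
  rw [h2]
  rfl

theorem prod_append (F : Fin (k + m) → Fin (k + m) → ℝ) :
    ∏ i, ∏ j ∈ Ioi i, F i j =
      (∏ i : Fin k, ∏ j ∈ Ioi i, F (Fin.castAdd m i) (Fin.castAdd m j)) *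
        (∏ i : Fin m, ∏ j ∈ Ioi i, F (Fin.natAdd k i) (Fin.natAdd k j)) *
      ∏ i : Fin k, ∏ j : Fin m, F (Fin.castAdd m i) (Fin.natAdd k j) := by
  have hI : ∀ (n : ℕ) (F : Fin n → Fin n → ℝ), ∏ i, ∏ j ∈ Ioi i, F i j =
      ∏ i : Fin n, ∏ j : Fin n, if i < j then F i j else 1 := by
    intro n F
    refine Finset.prod_congr rfl fun i _ => ?_
    rw [← Finset.prod_filter]
    refine Finset.prod_congr ?_ fun _ _ => rfl
    ext j
    simp
  rw [hI, hI k (fun i j => F (Fin.castAdd m i) (Fin.castAdd m j)),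
    hI m (fun i j => F (Fin.natAdd k i) (Fin.natAdd k j)), Fin.prod_univ_add]
  simp_rw [Fin.prod_univ_add]
  have e1 : ∀ (i : Fin k) (j : Fin m), (if Fin.castAdd m i < Fin.natAdd k j then
      F (Fin.castAdd m i) (Fin.natAdd k j) else 1) =
      F (Fin.castAdd m i) (Fin.natAdd k j) := by
    intro i j
    rw [if_pos]
    rw [Fin.lt_def, Fin.val_castAdd, Fin.val_natAdd]
    omega
  have e2 : ∀ (i : Fin m) (j : Fin k), (if Fin.natAdd k i < Fin.castAdd m j then
      F (Fin.natAdd k i) (Fin.castAdd m j) else 1) = 1 := by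
    intro i j
    rw [if_neg]
    rw [Fin.lt_def, Fin.val_castAdd, Fin.val_natAdd]
    omega
  have e3 : ∀ (i j : Fin k), (if Fin.castAdd m i < Fin.castAdd m j then
      F (Fin.castAdd m i) (Fin.castAdd m j) else 1) =
      if i < j then F (Fin.castAdd m i) (Fin.castAdd m j) else 1 := by
    intro i j
    by_cases h : i < j
    · rw [if_pos h, if_pos (by rw [Fin.lt_def] at h ⊢; simpa using h)]
    · rw [if_neg h, if_neg (by rw [Fin.lt_def] at h ⊢; simpa using h)]
  have e4 : ∀ (i j : Fin m), (if Fin.natAdd k i < Fin.natAdd k j then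
      F (Fin.natAdd k i) (Fin.natAdd k j) else 1) =
      if i < j then F (Fin.natAdd k i) (Fin.natAdd k j) else 1 := by
    intro i j
    by_cases h : i < j
    · rw [if_pos h, if_pos (by rw [Fin.lt_def] at h ⊢; simpa using h)]
    · rw [if_neg h, if_neg (by rw [Fin.lt_def] at h ⊢; simpa using h)]
  simp_rw [e1, e2, e3, e4, Finset.prod_const_one, one_mul]
  rw [Finset.prod_mul_distrib]
  ring

theorem V_append (y : Fin (k + m) → ℝ) :
    V y = V (fun i : Fin k => y (Fin.castAdd m i)) * V (fun i : Fin m => y (Fin.natAdd k i)) *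
      ∏ i : Fin k, ∏ j : Fin m, (y (Fin.natAdd k j) - y (Fin.castAdd m i)) :=
  prod_append fun i j => y j - y i

theorem det_block (y : Fin (k + m) → ℝ) :
    (Matrix.of fun j i : Fin (k + m) => if (j : ℕ) < k then up y j i else lo y j i).det =
      V (fun i : Fin k => y (Fin.castAdd m i)) * V (fun i : Fin m => y (Fin.natAdd k i)) := by
  rw [← Matrix.det_submatrix_equiv_self (finSumFinEquiv (m := k) (n := m))]
  have h : (Matrix.of fun j i : Fin (k + m) => if (j : ℕ) < k then up y j i else
      lo y j i).submatrix (finSumFinEquiv (m := k) (n := m)) (finSumFinEquiv (m := k) (n := m)) =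
      Matrix.fromBlocks (Matrix.vandermonde fun i : Fin k => y (Fin.castAdd m i)) 0 0
        (Matrix.vandermonde fun i : Fin m => y (Fin.natAdd k i)) := by
    ext a b
    rcases a with a | a <;> rcases b with b | b <;>
      simp [up, lo, Matrix.vandermonde_apply]
  rw [h, Matrix.det_fromBlocks_zero₂₁, Matrix.det_vandermonde, Matrix.det_vandermonde]
  rfl

theorem V_perm {n : ℕ} (y : Fin n → ℝ) (σ : Equiv.Perm (Fin n)) :
    V (fun i => y (σ i)) = Equiv.Perm.sign σ * V y := by
  have h : ∀ y : Fin n → ℝ, V y = (Matrix.vandermonde y).det := fun y => by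
    rw [Matrix.det_vandermonde]
    rfl
  rw [h, h, ← Matrix.det_permute]
  rfl

/-- a permutation which maps the first `k` indices to `S` -/
theorem exists_perm (S : Finset (Fin (k + m))) (hS : S.card = k) :
    ∃ σ : Equiv.Perm (Fin (k + m)), ∀ i, σ i ∈ S ↔ (i : ℕ) < k := by
  have h1 : Fintype.card {i : Fin (k + m) // (i : ℕ) < k} = Fintype.card {i // i ∈ S} := by
    rw [Fintype.card_coe, hS, Fintype.card_subtype]
    have : (univ.filter fun i : Fin (k + m) => (i : ℕ) < k) = univ.image (Fin.castAdd m) := by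
      ext i
      simp only [mem_filter, mem_univ, true_and, mem_image]
      constructor
      · intro h
        exact ⟨⟨i, h⟩, Fin.ext rfl⟩
      · rintro ⟨j, rfl⟩
        simp
    rw [this, Finset.card_image_of_injective _ (Fin.castAdd_injective k m), Finset.card_univ,
      Fintype.card_fin]
  obtain ⟨e⟩ := Fintype.card_eq.1 h1
  refine ⟨e.extendSubtype, fun i => ⟨fun h => ?_, fun h => e.extendSubtype_mem i h⟩⟩
  by_contra hi
  exact e.extendSubtype_not_mem i hi h

theorem det_S (z : Fin (k + m) → ℝ) (hz : Function.Injective z) (S : Finset (Fin (k + m)))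
    (hS : S.card = k) :
    (Matrix.of fun j i => if j ∈ S then up z j i else lo z j i).det =
      V z * ∏ i ∈ S, ∏ j ∈ Sᶜ, (z j - z i)⁻¹ := by
  obtain ⟨σ, hσ⟩ := exists_perm S hS
  have h1 := Matrix.det_permute σ (Matrix.of fun j i => if j ∈ S then up z j i else lo z j i)
  have h2 : (Matrix.of fun j i => if j ∈ S then up z j i else lo z j i).submatrix σ id =
      Matrix.of fun j i : Fin (k + m) => if (j : ℕ) < k then up (fun a => z (σ a)) j i else
        lo (fun a => z (σ a)) j i := by
    ext j i
    simp only [Matrix.submatrix_apply, Matrix.of_apply, hσ, id]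
    rfl
  rw [h2, det_block] at h1
  have h3 := V_append (fun a => z (σ a))
  rw [V_perm] at h3
  have hs : ((Equiv.Perm.sign σ : ℤ) : ℝ) * ((Equiv.Perm.sign σ : ℤ) : ℝ) = 1 := by
    rw [← Int.cast_mul, ← Units.val_mul, Int.units_mul_self]
    simp
  have h4 : ∏ i : Fin k, ∏ j : Fin m, (z (σ (Fin.natAdd k j)) - z (σ (Fin.castAdd m i))) =
      ∏ i ∈ S, ∏ j ∈ Sᶜ, (z j - z i) := by
    have hS1 : S = (univ.image (Fin.castAdd m)).map σ.toEmbedding := by
      ext a
      rw [Finset.mem_map]
      constructor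
      · intro ha
        refine ⟨σ.symm a, ?_, by simp⟩
        have := (hσ (σ.symm a)).1 (by simpa using ha)
        exact Finset.mem_image.2 ⟨⟨_, this⟩, mem_univ _, Fin.ext rfl⟩
      · rintro ⟨b, hb, rfl⟩
        obtain ⟨c, _, rfl⟩ := Finset.mem_image.1 hb
        exact (hσ _).2 (by simp)
    have hS2 : Sᶜ = (univ.image (Fin.natAdd (m := m) k)).map σ.toEmbedding := by
      ext a
      rw [Finset.mem_map, Finset.mem_compl]
      constructor
      · intro ha
        refine ⟨σ.symm a, ?_, by simp⟩
        have h5 : ¬ ((σ.symm a : Fin (k + m)) : ℕ) < k := fun h => ha (by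
          simpa using (hσ (σ.symm a)).2 h)
        refine Finset.mem_image.2 ⟨⟨(σ.symm a : Fin (k + m)) - k, ?_⟩, mem_univ _, ?_⟩
        · have := (σ.symm a).isLt
          omega
        · apply Fin.ext
          rw [Fin.val_natAdd]
          simp only
          omega
      · rintro ⟨b, hb, rfl⟩ h
        obtain ⟨c, _, rfl⟩ := Finset.mem_image.1 hb
        have := (hσ _).1 h
        rw [Fin.val_natAdd] at this
        omega
    rw [hS2]
    conv_rhs => rw [hS1]
    rw [Finset.prod_map, Finset.prod_image fun a _ b _ h => Fin.castAdd_injective k m h]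
    refine Finset.prod_congr rfl fun i _ => ?_
    rw [Finset.prod_map, Finset.prod_image fun a _ b _ h => Fin.natAdd_injective m k h]
    rfl
  have h5 : ∏ i ∈ S, ∏ j ∈ Sᶜ, (z j - z i) ≠ 0 := by
    rw [Finset.prod_ne_zero_iff]
    intro i hi
    rw [Finset.prod_ne_zero_iff]
    intro j hj h0
    have : j = i := hz (sub_eq_zero.1 h0)
    rw [this] at hj
    exact (Finset.mem_compl.1 hj) hi
  simp only [Finset.prod_inv_distrib]
  rw [eq_mul_inv_iff_mul_eq₀ h5, ← h4]
  linear_combination (-((Equiv.Perm.sign σ : ℤ) : ℝ) * (∏ i : Fin k, ∏ j : Fin m,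
    (z (σ (Fin.natAdd k j)) - z (σ (Fin.castAdd m i))))) * h1 -
    ((Equiv.Perm.sign σ : ℤ) : ℝ) * h3 + (V z - (Matrix.of fun j i => if j ∈ S then up z j i else
      lo z j i).det * (∏ i : Fin k, ∏ j : Fin m,
    (z (σ (Fin.natAdd k j)) - z (σ (Fin.castAdd m i))))) * hs

theorem det_S_zero (z : Fin (k + m) → ℝ) (S : Finset (Fin (k + m))) (hS : S.card ≠ k) :
    (Matrix.of fun j i => if j ∈ S then up z j i else lo z j i).det = 0 := by
  rw [Matrix.det_apply']
  refine Finset.sum_eq_zero fun σ _ => ?_
  have h : ∃ i, (Matrix.of fun j i => if j ∈ S then up z j i else lo z j i) (σ i) i = 0 := by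
    by_contra hc
    push Not at hc
    apply hS
    have h1 : ∀ i, σ i ∈ S ↔ (i : ℕ) < k := by
      intro i
      have := hc i
      rw [Matrix.of_apply] at this
      constructor
      · intro hi
        by_contra hk
        rw [if_pos hi] at this
        exact this (if_neg hk)
      · intro hk
        by_contra hi
        rw [if_neg hi] at this
        exact this (if_pos hk)
    have h2 : S = (univ.image (Fin.castAdd m)).map σ.toEmbedding := by
      ext a
      rw [Finset.mem_map]
      constructor
      · intro ha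
        refine ⟨σ.symm a, ?_, by simp⟩
        have := (h1 (σ.symm a)).1 (by simpa using ha)
        exact Finset.mem_image.2 ⟨⟨_, this⟩, mem_univ _, Fin.ext rfl⟩
      · rintro ⟨b, hb, rfl⟩
        obtain ⟨c, _, rfl⟩ := Finset.mem_image.1 hb
        exact (h1 _).2 (by simp)
    rw [h2, Finset.card_map, Finset.card_image_of_injective _ (Fin.castAdd_injective k m),
      Finset.card_univ, Fintype.card_fin]
  obtain ⟨i, hi⟩ := h
  exact mul_eq_zero_of_right _ (Finset.prod_eq_zero (mem_univ i) hi)

/-- the determinant with the rows `w_j z_j ^ i`, `i < k`, and `z_j ^ i`, `i < m` -/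
theorem det_two (z w : Fin (k + m) → ℝ) (hz : Function.Injective z) :
    (Matrix.of fun i j : Fin (k + m) => if (i : ℕ) < k then w j * z j ^ (i : ℕ) else
      z j ^ ((i : ℕ) - k)).det = V z * ∑ S ∈ powersetCard k (univ : Finset (Fin (k + m))),
        (∏ j ∈ S, w j) * ∏ i ∈ S, ∏ j ∈ Sᶜ, (z j - z i)⁻¹ := by
  rw [← Matrix.det_transpose]
  have h : (Matrix.of fun i j : Fin (k + m) => if (i : ℕ) < k then w j * z j ^ (i : ℕ) else
      z j ^ ((i : ℕ) - k)).transpose = Matrix.of fun j i => w j * up z j i + lo z j i := by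
    ext j i
    simp only [Matrix.transpose_apply, Matrix.of_apply, up, lo]
    split_ifs <;> ring
  rw [h, det_expand, Finset.mul_sum]
  rw [← Finset.sum_subset (Finset.subset_univ (powersetCard k (univ : Finset (Fin (k + m)))))]
  · refine Finset.sum_congr rfl fun S hS => ?_
    rw [det_S z hz S (Finset.mem_powersetCard.1 hS).2]
    ring
  · intro S _ hS
    rw [det_S_zero z S fun hc => hS (Finset.mem_powersetCard.2 ⟨Finset.subset_univ _, hc⟩),
      mul_zero]

end Pool.Agent.Helper56.SchurLaplace
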