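import Pool.Agent.Helper56.SchurExplicit

/-!
# The dependence of the criterion on the interval
-/

set_option autoImplicit false

namespace Pool.Agent.Helper56.SchurThreshold

open Finset Matrix Filter Topology Pool.Agent.Helper56.SchurBase
  Pool.Agent.Helper56.SchurVertex Pool.Agent.Helper56.SchurUnbounded
  Pool.Agent.Helper56.SchurClass Pool.Agent.Helper56.SchurIdentity
  Pool.Agent.Helper56.SchurLaplace Pool.Agent.Helper56.SchurTwo
  Pool.Agent.Helper56.SchurExplicit

variable {N : ℕ}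

theorem exists_threshold (Q : ℝ → Prop)
    (hup : ∀ p q : ℝ, 0 < p → p ≤ q → q < 1 → Q p → Q q)
    (hcl : ∀ p : ℝ, 0 < p → p < 1 → (∀ q, p < q → q < 1 → Q q) → Q p) :
    ∃ t : ℝ, 0 ≤ t ∧ t ≤ 1 ∧ ∀ q, 0 < q → q < 1 → (Q q ↔ t ≤ q) := by
  by_cases hT : ∃ q, 0 < q ∧ q < 1 ∧ Q q
  · let T : Set ℝ := {q | 0 < q ∧ q < 1 ∧ Q q}
    have hne : T.Nonempty := hT
    have hbb : BddBelow T := ⟨0, fun q hq => hq.1.le⟩
    have h0 : 0 ≤ sInf T := le_csInf hne fun q hq => hq.1.le
    have h1 : sInf T < 1 := by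
      obtain ⟨q, hq⟩ := hne
      exact (csInf_le hbb hq).trans_lt hq.2.1
    have hgt : ∀ q, sInf T < q → q < 1 → Q q := by
      intro q hq hq1
      obtain ⟨p, hp, hpq⟩ := exists_lt_of_csInf_lt hne hq
      exact hup p q hp.1 hpq.le hq1 hp.2.2
    refine ⟨sInf T, h0, h1.le, fun q hq hq1 => ⟨fun h => csInf_le hbb ⟨hq, hq1, h⟩, fun h => ?_⟩⟩
    rcases h.eq_or_lt with h | h
    · rw [← h]
      exact hcl _ (by rw [h]; exact hq) h1 hgt
    · exact hgt q h hq1
  · push Not at hT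
    refine ⟨1, zero_le_one, le_rfl, fun q hq hq1 => ⟨fun h => absurd h (hT q hq hq1), fun h => ?_⟩⟩
    linarith

/-- the inequalities for the interval with the end points `q b` and `b` -/
def Ineq (lam mu : Fin N → ℕ) (b : ℝ) (q : ℝ) : Prop := ∀ k ≤ N,
  b ^ (∑ j, mu j) * G k (fun j : Fin N => mu j + (N - 1 - j)) q ≤
    b ^ (∑ j, lam j) * G k (fun j : Fin N => lam j + (N - 1 - j)) q

theorem G_continuous (k : ℕ) (l : Fin N → ℕ) : Continuous (G k l) := by
  unfold G
  fun_prop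

theorem min_Icc (lam mu : Fin N → ℕ) (hl : Antitone lam) (hm : Antitone mu) (a b : ℝ)
    (ha : 0 < a) (ha1 : a ≤ 1) (hb1 : 1 ≤ b) (hab : a < b) :
    Min (ex lam) (ex mu) (Set.Icc a b) ↔ Ineq lam mu b (a / b) := by
  have h := class_bounded lam mu hl hm (Set.Icc a b) (fun x hx => ha.trans_le hx.1)
    ⟨ha1, hb1⟩ (Set.nontrivial_of_exists_ne (x := a) ⟨le_rfl, hab.le⟩ ⟨b, ⟨hab.le, le_rfl⟩, hab.ne'⟩)
    (by rw [csInf_Icc hab.le]; exact ha) bddAbove_Icc
  rw [csInf_Icc hab.le, csSup_Icc hab.le] at h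
  exact h

theorem min_mono {e e' : Fin N → ℕ} {I J : Set ℝ} (h : Min e e' J) (hIJ : I ⊆ J) :
    Min e e' I := fun x hx => h x fun i => hIJ (hx i)

/-- the threshold for intervals in `(0, 1]` -/
theorem exists_t (lam mu : Fin N → ℕ) (hl : Antitone lam) (hm : Antitone mu) :
    ∃ t : ℝ, 0 ≤ t ∧ t ≤ 1 ∧ ∀ q, 0 < q → q < 1 → (Ineq lam mu 1 q ↔ t ≤ q) := by
  have key : ∀ q : ℝ, 0 < q → q < 1 → (Ineq lam mu 1 q ↔
      Min (ex lam) (ex mu) (Set.Icc q 1)) := by
    intro q hq hq1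
    rw [min_Icc lam mu hl hm q 1 hq hq1.le le_rfl hq1, div_one]
  refine exists_threshold _ ?_ ?_
  · intro p q hp hpq hq1 h
    rw [key q (hp.trans_le hpq) hq1]
    rw [key p hp (hpq.trans_lt hq1)] at h
    exact min_mono h (Set.Icc_subset_Icc_left hpq)
  · intro p hp hp1 h k hk
    refine le_of_tendsto_of_tendsto (b := 𝓝[>] p)
      (((continuous_const.mul (G_continuous k _)).tendsto p).mono_left nhdsWithin_le_nhds)
      (((continuous_const.mul (G_continuous k _)).tendsto p).mono_left nhdsWithin_le_nhds) ?_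
    have h1 : ∀ᶠ q : ℝ in 𝓝[>] p, q < 1 := nhdsWithin_le_nhds (gt_mem_nhds hp1)
    filter_upwards [h1, self_mem_nhdsWithin] with q hq1 hq
    exact h q hq hq1 k hk

/-- the threshold for intervals in `[1, ∞)` -/
theorem exists_u (lam mu : Fin N → ℕ) (hl : Antitone lam) (hm : Antitone mu) :
    ∃ u : ℝ, 0 ≤ u ∧ u ≤ 1 ∧ ∀ q, 0 < q → q < 1 → (Ineq lam mu q⁻¹ q ↔ u ≤ q) := by
  have key : ∀ q : ℝ, 0 < q → q < 1 → (Ineq lam mu q⁻¹ q ↔
      Min (ex lam) (ex mu) (Set.Icc 1 q⁻¹)) := by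
    intro q hq hq1
    have h1 : 1 < q⁻¹ := (one_lt_inv₀ hq).2 hq1
    rw [min_Icc lam mu hl hm 1 q⁻¹ one_pos le_rfl h1.le h1, one_div, inv_inv]
  refine exists_threshold _ ?_ ?_
  · intro p q hp hpq hq1 h
    rw [key q (hp.trans_le hpq) hq1]
    rw [key p hp (hpq.trans_lt hq1)] at h
    exact min_mono h (Set.Icc_subset_Icc_right (inv_anti₀ hp hpq))
  · intro p hp hp1 h k hk
    have hc : ∀ l n, Tendsto (fun q : ℝ => q⁻¹ ^ n * G k l q) (𝓝[>] p)
        (𝓝 (p⁻¹ ^ n * G k (l : Fin N → ℕ) p)) := by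
      intro l n
      have h1 : ContinuousAt (fun q : ℝ => q⁻¹ ^ n * G k l q) p :=
        ((continuousAt_inv₀ hp.ne').pow n).mul (G_continuous k l).continuousAt
      exact h1.tendsto.mono_left nhdsWithin_le_nhds
    refine le_of_tendsto_of_tendsto (hc _ _) (hc _ _) ?_
    have h1 : ∀ᶠ q : ℝ in 𝓝[>] p, q < 1 := nhdsWithin_le_nhds (gt_mem_nhds hp1)
    filter_upwards [h1, self_mem_nhdsWithin] with q hq1 hq
    exact h q hq hq1 k hk

theorem ineq_iff_of_sum_eq (lam mu : Fin N → ℕ) (h : ∑ i, lam i = ∑ i, mu i) (b q : ℝ)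
    (hb : 0 < b) : Ineq lam mu b q ↔ Ineq lam mu 1 q := by
  unfold Ineq
  refine forall_congr' fun k => forall_congr' fun _ => ?_
  rw [h, one_pow, one_mul, one_mul]
  exact mul_le_mul_iff_right₀ (pow_pos hb _)

theorem eq_of_threshold {t u : ℝ} (ht : 0 ≤ t) (ht1 : t ≤ 1) (hu : 0 ≤ u) (hu1 : u ≤ 1)
    (h : ∀ q, 0 < q → q < 1 → (t ≤ q ↔ u ≤ q)) : t = u := by
  rcases lt_trichotomy t u with hl | hl | hl
  · have := (h ((t + u) / 2) (by linarith) (by linarith)).1 (by linarith)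
    linarith
  · exact hl
  · have := (h ((t + u) / 2) (by linarith) (by linarith)).2 (by linarith)
    linarith

theorem min_of_forall {e e' : Fin N → ℕ} {I : Set ℝ}
    (h : ∀ x : Fin N → ℝ, (∀ i, x i ∈ I) → ∃ J : Set ℝ, Min e e' J ∧ ∀ i, x i ∈ J) :
    Min e e' I := by
  intro x hx
  obtain ⟨J, hJ, hxJ⟩ := h x hx
  exact hJ x hxJ

theorem t_zero (lam mu : Fin N → ℕ) (hl : Antitone lam) (hm : Antitone mu) (t : ℝ)
    (ht : 0 ≤ t) (h : ∀ q, 0 < q → q < 1 → (Ineq lam mu 1 q ↔ t ≤ q)) :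
    Min (ex lam) (ex mu) (Set.Ioc 0 1) ↔ t = 0 := by
  constructor
  · intro hmin
    by_contra h0
    have htp : 0 < t := lt_of_le_of_ne ht (Ne.symm h0)
    obtain ⟨w, hq, hq1, hwt⟩ : ∃ w : ℝ, 0 < w ∧ w < 1 ∧ w < t :=
      ⟨min (t / 2) (1 / 2), lt_min (by linarith) (by norm_num),
        (min_le_right _ _).trans_lt (by norm_num), (min_le_left _ _).trans_lt (by linarith)⟩
    have h1 := (h w hq hq1).1 (by
      have h2 := (min_Icc lam mu hl hm w 1 hq hq1.le le_rfl hq1).1
        (min_mono hmin fun x hx => ⟨hq.trans_le hx.1, hx.2⟩)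
      rwa [div_one] at h2)
    linarith
  · intro h0
    refine min_of_forall fun x hx => ?_
    obtain ⟨q, hq, hq1, hxq⟩ : ∃ q : ℝ, 0 < q ∧ q < 1 ∧ ∀ i, q ≤ x i := by
      rcases Nat.eq_zero_or_pos N with hN | hN
      · subst hN
        exact ⟨1 / 2, by norm_num, by norm_num, fun i => i.elim0⟩
      · have : NeZero N := ⟨hN.ne'⟩
        obtain ⟨j0, -, hj0⟩ := Finset.exists_min_image univ x ⟨0, Finset.mem_univ _⟩
        refine ⟨min (x j0) (1 / 2), lt_min (hx j0).1 (by norm_num),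
          (min_le_right _ _).trans_lt (by norm_num), fun i =>
          (min_le_left _ _).trans (hj0 i (Finset.mem_univ _))⟩
    refine ⟨Set.Icc q 1, ?_, fun i => ⟨hxq i, (hx i).2⟩⟩
    rw [min_Icc lam mu hl hm q 1 hq hq1.le le_rfl hq1, div_one, h q hq hq1, h0]
    exact hq.le

theorem u_zero (lam mu : Fin N → ℕ) (hl : Antitone lam) (hm : Antitone mu) (u : ℝ)
    (hu : 0 ≤ u) (h : ∀ q, 0 < q → q < 1 → (Ineq lam mu q⁻¹ q ↔ u ≤ q)) :
    Min (ex lam) (ex mu) (Set.Ici 1) ↔ u = 0 := by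
  constructor
  · intro hmin
    by_contra h0
    have htp : 0 < u := lt_of_le_of_ne hu (Ne.symm h0)
    obtain ⟨w, hq, hq1, hwu⟩ : ∃ w : ℝ, 0 < w ∧ w < 1 ∧ w < u :=
      ⟨min (u / 2) (1 / 2), lt_min (by linarith) (by norm_num),
        (min_le_right _ _).trans_lt (by norm_num), (min_le_left _ _).trans_lt (by linarith)⟩
    have hb : 1 < w⁻¹ := (one_lt_inv₀ hq).2 hq1
    have h1 := (h w hq hq1).1 (by
      have h2 := (min_Icc lam mu hl hm 1 w⁻¹ one_pos le_rfl hb.le hb).1
        (min_mono hmin fun x hx => hx.1)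
      rwa [one_div, inv_inv] at h2)
    linarith
  · intro h0
    refine min_of_forall fun x hx => ?_
    obtain ⟨q, hq, hq1, hxq⟩ : ∃ q : ℝ, 0 < q ∧ q < 1 ∧ ∀ i, x i ≤ q⁻¹ := by
      rcases Nat.eq_zero_or_pos N with hN | hN
      · subst hN
        exact ⟨1 / 2, by norm_num, by norm_num, fun i => i.elim0⟩
      · have : NeZero N := ⟨hN.ne'⟩
        obtain ⟨j0, -, hj0⟩ := Finset.exists_max_image univ x ⟨0, Finset.mem_univ _⟩
        have hx0 : 0 < x j0 := one_pos.trans_le (hx j0)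
        refine ⟨(x j0 + 1)⁻¹, inv_pos.2 (by linarith), inv_lt_one_of_one_lt₀ (by linarith),
          fun i => ?_⟩
        rw [inv_inv]
        linarith [hj0 i (Finset.mem_univ _)]
    refine ⟨Set.Icc 1 q⁻¹, ?_, fun i => ⟨hx i, hxq i⟩⟩
    have hb : 1 < q⁻¹ := (one_lt_inv₀ hq).2 hq1
    rw [min_Icc lam mu hl hm 1 _ one_pos le_rfl hb.le hb, one_div, inv_inv, h q hq hq1, h0]
    exact hq.le

/-- the thresholds -/
theorem thresholds (lam mu : Fin N → ℕ) (hl : Antitone lam) (hm : Antitone mu) :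
    ∃ t u : ℝ, 0 ≤ t ∧ t ≤ 1 ∧ 0 ≤ u ∧ u ≤ 1 ∧ (∑ i, lam i = ∑ i, mu i → t = u) ∧
      ∀ I : Set ℝ, I.OrdConnected → I ⊆ Set.Ioi 0 → (1 : ℝ) ∈ I → I.Nontrivial →
        ((∀ x ∈ I, x ≤ 1) → (Min (ex lam) (ex mu) I ↔ t ≤ sInf I)) ∧
        ((∀ x ∈ I, 1 ≤ x) → (Min (ex lam) (ex mu) I ↔
          u = 0 ∨ (BddAbove I ∧ u ≤ (sSup I)⁻¹))) ∧
        ((∃ x ∈ I, x < 1) → (∃ x ∈ I, 1 < x) → (Min (ex lam) (ex mu) I ↔
          ∑ i, lam i = ∑ i, mu i ∧ (t = 0 ∨ (BddAbove I ∧ t ≤ sInf I / sSup I)))) := by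
  obtain ⟨t, ht, ht1, hQ⟩ := exists_t lam mu hl hm
  obtain ⟨u, hu, hu1, hP⟩ := exists_u lam mu hl hm
  have he := ex_strictMono lam hl
  have he' := ex_strictMono mu hm
  refine ⟨t, u, ht, ht1, hu, hu1, ?_, ?_⟩
  · intro hs
    refine eq_of_threshold ht ht1 hu hu1 fun q hq hq1 => ?_
    rw [← hQ q hq hq1, ← hP q hq hq1]
    exact (ineq_iff_of_sum_eq lam mu hs q⁻¹ q (inv_pos.2 hq)).symm
  · intro I hI hI0 h1 hn
    have hne : I.Nonempty := ⟨1, h1⟩
    have hbb : BddBelow I := ⟨0, fun x hx => (hI0 hx).le⟩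
    have hinf0 : 0 ≤ sInf I := le_csInf hne fun x hx => (hI0 hx).le
    refine ⟨?_, ?_, ?_⟩
    · intro hle
      have hsup : sSup I = 1 := le_antisymm (csSup_le hne hle) (le_csSup ⟨1, hle⟩ h1)
      have hlt : sInf I < 1 := by
        obtain ⟨x, hx, y, hy, hxy⟩ := hn.exists_lt
        exact (csInf_le hbb hx).trans_lt (hxy.trans_le (hle y hy))
      by_cases hpos : 0 < sInf I
      · rw [class_bounded lam mu hl hm I hI0 h1 hn hpos ⟨1, hle⟩, hsup, div_one]
        exact hQ _ hpos hlt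
      · have h0 : sInf I = 0 := le_antisymm (not_lt.1 hpos) hinf0
        have hIoc : I = Set.Ioc 0 1 := by
          refine Set.Subset.antisymm (fun x hx => ⟨hI0 hx, hle x hx⟩) fun x hx => ?_
          have h2 : sInf I < x := by rw [h0]; exact hx.1
          obtain ⟨s, hs, hsx⟩ := exists_lt_of_csInf_lt hne h2
          exact hI.out hs h1 ⟨hsx.le, hx.2⟩
        rw [h0, hIoc, t_zero lam mu hl hm t ht hQ]
        exact ⟨fun h => h.le, fun h => le_antisymm h ht⟩
    · intro hge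
      have hinf : sInf I = 1 := le_antisymm (csInf_le hbb h1) (le_csInf hne hge)
      by_cases hb : BddAbove I
      · have hlt : 1 < sSup I := by
          obtain ⟨x, hx, y, hy, hxy⟩ := hn.exists_lt
          exact (hge x hx).trans_lt (hxy.trans_le (le_csSup hb hy))
        have hs0 : 0 < sSup I := one_pos.trans hlt
        rw [class_bounded lam mu hl hm I hI0 h1 hn (by rw [hinf]; exact one_pos) hb, hinf,
          one_div]
        have h2 := hP (sSup I)⁻¹ (inv_pos.2 hs0) (inv_lt_one_of_one_lt₀ hlt)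
        rw [inv_inv] at h2
        refine Iff.trans h2 ⟨fun h => Or.inr ⟨hb, h⟩, fun h => ?_⟩
        rcases h with h | h
        · rw [h]
          exact (inv_pos.2 hs0).le
        · exact h.2
      · have hIci : I = Set.Ici 1 := by
          refine Set.Subset.antisymm (fun x hx => hge x hx) fun x hx => ?_
          rw [not_bddAbove_iff] at hb
          obtain ⟨s, hs, hxs⟩ := hb x
          exact hI.out h1 hs ⟨hx, hxs.le⟩
        have h3 := u_zero lam mu hl hm u hu hP
        rw [← hIci] at h3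
        rw [h3]
        exact ⟨Or.inl, fun h => h.resolve_right fun h => hb h.1⟩
    · rintro ⟨c, hc, hc1⟩ ⟨d, hd, hd1⟩
      have hsum : Min (ex lam) (ex mu) I → ∑ i, lam i = ∑ i, mu i := by
        intro h
        have h2 := sum_le_of_const _ _ he he' d hd1 (h (fun _ => d) fun _ => hd)
        have h3 := sum_le_of_const' _ _ he he' c (hI0 hc) hc1 (h (fun _ => c) fun _ => hc)
        rw [sum_ex, sum_ex] at h2 h3
        omega
      by_cases hs : ∑ i, lam i = ∑ i, mu i
      swap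
      · exact ⟨fun h => absurd (hsum h) hs, fun h => absurd h.1 hs⟩
      by_cases hbd : 0 < sInf I ∧ BddAbove I
      · obtain ⟨hpos, hb⟩ := hbd
        have hlt : 1 < sSup I := hd1.trans_le (le_csSup hb hd)
        have hs0 : 0 < sSup I := one_pos.trans hlt
        have hinf1 : sInf I < 1 := (csInf_le hbb hc).trans_lt hc1
        have hq : 0 < sInf I / sSup I := div_pos hpos hs0
        have hq1 : sInf I / sSup I < 1 := (div_lt_one hs0).2 (hinf1.trans hlt)
        rw [class_bounded lam mu hl hm I hI0 h1 hn hpos hb]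
        have h2 : Ineq lam mu (sSup I) (sInf I / sSup I) ↔ t ≤ sInf I / sSup I := by
          rw [ineq_iff_of_sum_eq lam mu hs _ _ hs0]
          exact hQ _ hq hq1
        refine Iff.trans h2 ⟨fun h => ⟨hs, Or.inr ⟨hb, h⟩⟩, fun h => ?_⟩
        rcases h.2 with h | h
        · rw [h]
          exact hq.le
        · exact h.2
      · have hIoc : Min (ex lam) (ex mu) (Set.Ioc 0 1) ↔ t = 0 := t_zero lam mu hl hm t ht hQ
        have hne1 : I ≠ Set.Ioc 0 1 := fun h => by
          rw [h] at hd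
          exact absurd hd.2 (not_le.2 hd1)
        have hne2 : I ≠ Set.Ici 1 := fun h => by
          rw [h] at hc
          exact absurd hc (not_le.2 hc1)
        have hr := class_rest lam mu hl hm I hI hI0 h1 hbd hne1 hne2
        have hr2 := class_rest lam mu hl hm (Set.Ioi 0) Set.ordConnected_Ioi subset_rfl
          (by simp) (by
            rintro ⟨-, hb⟩
            exact not_bddAbove_Ioi 0 hb) (by
            intro h
            have : (2 : ℝ) ∈ Set.Ioc (0 : ℝ) 1 := by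
              rw [← h]
              norm_num
            norm_num at this) (by
            intro h
            have : (1 / 2 : ℝ) ∈ Set.Ici (1 : ℝ) := by
              rw [← h]
              norm_num
            norm_num at this)
        have h4 : Min (ex lam) (ex mu) I → Min (ex lam) (ex mu) (Set.Ioc 0 1) := by
          intro h
          exact min_mono (hr2.2 (hr.1 h)) fun x hx => hx.1
        constructor
        · intro h
          exact ⟨hs, Or.inl (hIoc.1 (h4 h))⟩
        · rintro ⟨-, h⟩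
          have h5 : t = 0 := by
            rcases h with h | ⟨hb, h⟩
            · exact h
            · have h6 : sInf I = 0 := by
                by_contra h7
                exact hbd ⟨lt_of_le_of_ne hinf0 (Ne.symm h7), hb⟩
              rw [h6, zero_div] at h
              exact le_antisymm h ht
          have h6 := (class_Ioc lam mu hl hm).1 (hIoc.2 h5)
          refine hr.2 ⟨fun k hk => ?_, hs⟩
          have h3 := h6 (N - k) (Nat.sub_le _ _)
          have h7 := sum_split lam k hk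
          have h8 := sum_split mu k hk
          omega

end Pool.Agent.Helper56.SchurThreshold
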