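import Pool.Agent.Helper56.SchurLaplace

/-!
# Two-point values of Schur polynomials: the explicit formula
-/

set_option autoImplicit false

namespace Pool.Agent.Helper56.SchurTwo

open Finset Matrix Filter Topology Pool.Agent.Helper56.SchurBase
  Pool.Agent.Helper56.SchurVertex Pool.Agent.Helper56.SchurUnbounded
  Pool.Agent.Helper56.SchurClass Pool.Agent.Helper56.SchurIdentity
  Pool.Agent.Helper56.SchurLaplace

/-- the sum over the subsets with `k` elements -/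
noncomputable def G {N : ℕ} (k : ℕ) (l : Fin N → ℕ) (q : ℝ) : ℝ :=
  ∑ S ∈ powersetCard k (univ : Finset (Fin N)),
    q ^ (∑ i ∈ S, l i) * ∏ i ∈ S, ∏ j ∈ Sᶜ, ((l j : ℝ) - l i)⁻¹

variable {k m : ℕ}

/-- the points `q t ^ i`, `i < k`, and `t ^ i`, `i < m` -/
noncomputable def xt (q t : ℝ) (i : Fin (k + m)) : ℝ :=
  if (i : ℕ) < k then q * t ^ (i : ℕ) else t ^ ((i : ℕ) - k)

theorem xt_cast (q t : ℝ) (i : Fin k) : xt q t (Fin.castAdd m i) = q * t ^ (i : ℕ) := by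
  unfold xt
  rw [Fin.val_castAdd, if_pos i.isLt]

theorem xt_nat (q t : ℝ) (i : Fin m) : xt q t (Fin.natAdd k i) = t ^ (i : ℕ) := by
  unfold xt
  rw [Fin.val_natAdd, if_neg (by omega), Nat.add_sub_cancel_left]

theorem D_xt (e : Fin (k + m) → ℕ) (he : StrictMono e) (q t : ℝ) (ht : 0 < t) (ht1 : t ≠ 1) :
    D e (xt q t) = V (fun j => t ^ e j) * ∑ S ∈ powersetCard k (univ : Finset (Fin (k + m))),
      (∏ j ∈ S, q ^ e j) * ∏ i ∈ S, ∏ j ∈ Sᶜ, (t ^ e j - t ^ e i)⁻¹ := by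
  have hinj : Function.Injective fun j => t ^ e j := fun i j h =>
    he.injective (pow_right_injective₀ ht ht1 h)
  rw [← det_two (fun j => t ^ e j) (fun j => q ^ e j) hinj]
  unfold D
  congr 1
  ext i j
  simp only [Matrix.of_apply, xt]
  split_ifs with h
  · rw [mul_pow, ← pow_mul, ← pow_mul, mul_comm (i : ℕ)]
  · rw [← pow_mul, ← pow_mul, mul_comm ((i : ℕ) - k)]

/-- the left factor -/
noncomputable def Af (k m : ℕ) (q t : ℝ) : ℝ :=
  (∏ i : Fin k, ∏ j ∈ Ioi i, (q * ((t ^ (j : ℕ) - t ^ (i : ℕ)) / (t - 1)))) *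
    (∏ i : Fin m, ∏ j ∈ Ioi i, ((t ^ (j : ℕ) - t ^ (i : ℕ)) / (t - 1))) *
    ∏ i : Fin k, ∏ j : Fin m, (t ^ (j : ℕ) - q * t ^ (i : ℕ))

/-- the limit of the left factor -/
noncomputable def A1 (k m : ℕ) (q : ℝ) : ℝ :=
  (∏ i : Fin k, ∏ j ∈ Ioi i, (q * (((j : ℕ) : ℝ) - ((i : ℕ) : ℝ)))) *
    (∏ i : Fin m, ∏ j ∈ Ioi i, (((j : ℕ) : ℝ) - ((i : ℕ) : ℝ))) *
    ∏ _i : Fin k, ∏ _j : Fin m, (1 - q)

theorem V_xt (q t : ℝ) (ht1 : t ≠ 1) : V (xt (k := k) (m := m) q t) =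
    (∏ i : Fin k, ∏ _j ∈ Ioi i, (t - 1)) * (∏ i : Fin m, ∏ _j ∈ Ioi i, (t - 1)) *
      Af k m q t := by
  have h1 : t - 1 ≠ 0 := sub_ne_zero.2 ht1
  rw [V_append]
  simp only [xt_cast, xt_nat]
  unfold V Af
  have e1 : ∏ i : Fin k, ∏ j ∈ Ioi i, (q * t ^ (j : ℕ) - q * t ^ (i : ℕ)) =
      (∏ i : Fin k, ∏ _j ∈ Ioi i, (t - 1)) *
        ∏ i : Fin k, ∏ j ∈ Ioi i, (q * ((t ^ (j : ℕ) - t ^ (i : ℕ)) / (t - 1))) := by
    rw [← Finset.prod_mul_distrib]
    refine Finset.prod_congr rfl fun i _ => ?_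
    rw [← Finset.prod_mul_distrib]
    refine Finset.prod_congr rfl fun j _ => ?_
    field_simp
  have e2 : ∏ i : Fin m, ∏ j ∈ Ioi i, (t ^ (j : ℕ) - t ^ (i : ℕ)) =
      (∏ i : Fin m, ∏ _j ∈ Ioi i, (t - 1)) *
        ∏ i : Fin m, ∏ j ∈ Ioi i, ((t ^ (j : ℕ) - t ^ (i : ℕ)) / (t - 1)) := by
    rw [← Finset.prod_mul_distrib]
    refine Finset.prod_congr rfl fun i _ => ?_
    rw [← Finset.prod_mul_distrib]
    refine Finset.prod_congr rfl fun j _ => ?_
    field_simp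
  rw [e1, e2]
  ring

theorem S_xt (e : Fin (k + m) → ℕ) (he : StrictMono e) (q t : ℝ) (ht : 0 < t) (ht1 : t ≠ 1) :
    S (k + m) e (xt q t) * Af k m q t =
      (∏ i : Fin (k + m), ∏ j ∈ Ioi i, ((t ^ e j - t ^ e i) / (t - 1))) *
      ∑ S ∈ powersetCard k (univ : Finset (Fin (k + m))),
        q ^ (∑ j ∈ S, e j) * ∏ i ∈ S, ∏ j ∈ Sᶜ, ((t ^ e j - t ^ e i) / (t - 1))⁻¹ := by
  have h1 : t - 1 ≠ 0 := sub_ne_zero.2 ht1
  have hD := D_eq e he (xt q t)
  rw [D_xt e he q t ht ht1, V_xt q t ht1] at hD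
  have hV : V (fun j => t ^ e j) = (∏ i : Fin (k + m), ∏ _j ∈ Ioi i, (t - 1)) *
      ∏ i : Fin (k + m), ∏ j ∈ Ioi i, ((t ^ e j - t ^ e i) / (t - 1)) := by
    unfold V
    rw [← Finset.prod_mul_distrib]
    refine Finset.prod_congr rfl fun i _ => ?_
    rw [← Finset.prod_mul_distrib]
    refine Finset.prod_congr rfl fun j _ => ?_
    field_simp
  have hP : (∏ i : Fin (k + m), ∏ _j ∈ Ioi i, (t - 1)) =
      (∏ i : Fin k, ∏ _j ∈ Ioi i, (t - 1)) * (∏ i : Fin m, ∏ _j ∈ Ioi i, (t - 1)) *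
        (t - 1) ^ (k * m) := by
    rw [prod_append (k := k) (m := m) fun _ _ => t - 1]
    congr 1
    simp only [Finset.prod_const, Finset.card_univ, Fintype.card_fin]
    rw [← pow_mul, mul_comm m k]
  have hG : ∑ S ∈ powersetCard k (univ : Finset (Fin (k + m))),
      q ^ (∑ j ∈ S, e j) * ∏ i ∈ S, ∏ j ∈ Sᶜ, ((t ^ e j - t ^ e i) / (t - 1))⁻¹ =
      (t - 1) ^ (k * m) * ∑ S ∈ powersetCard k (univ : Finset (Fin (k + m))),
        (∏ j ∈ S, q ^ e j) * ∏ i ∈ S, ∏ j ∈ Sᶜ, (t ^ e j - t ^ e i)⁻¹ := by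
    rw [Finset.mul_sum]
    refine Finset.sum_congr rfl fun S hS => ?_
    have hc := (Finset.mem_powersetCard.1 hS).2
    have hc' : Sᶜ.card = m := by
      rw [Finset.card_compl, Fintype.card_fin, hc]
      omega
    have e1 : ∏ i ∈ S, ∏ j ∈ Sᶜ, ((t ^ e j - t ^ e i) / (t - 1))⁻¹ =
        (∏ _i ∈ S, ∏ _j ∈ Sᶜ, (t - 1)) * ∏ i ∈ S, ∏ j ∈ Sᶜ, (t ^ e j - t ^ e i)⁻¹ := by
      rw [← Finset.prod_mul_distrib]
      refine Finset.prod_congr rfl fun i _ => ?_
      rw [← Finset.prod_mul_distrib]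
      refine Finset.prod_congr rfl fun j _ => ?_
      rw [inv_div, div_eq_mul_inv]
    rw [e1, Finset.prod_pow_eq_pow_sum]
    simp only [Finset.prod_const, hc, hc']
    rw [← pow_mul, mul_comm m k]
    ring
  have hne : (∏ i : Fin k, ∏ _j ∈ Ioi i, (t - 1)) * (∏ i : Fin m, ∏ _j ∈ Ioi i, (t - 1)) ≠
      0 := by
    refine mul_ne_zero ?_ ?_ <;>
    · rw [Finset.prod_ne_zero_iff]
      intro i _
      rw [Finset.prod_ne_zero_iff]
      intro j _
      exact h1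
  apply mul_left_cancel₀ hne
  rw [hG]
  rw [hV, hP] at hD
  linear_combination -hD

theorem tendsto_Af (q : ℝ) : Tendsto (Af k m q) (𝓝[≠] 1) (𝓝 (A1 k m q)) := by
  unfold Af A1
  have hs : ∀ a b : ℕ, Tendsto (fun t : ℝ => (t ^ a - t ^ b) / (t - 1)) (𝓝[≠] 1)
      (𝓝 ((a : ℝ) - b)) := by
    intro a b
    have := (tendsto_slope_pow a).sub (tendsto_slope_pow b)
    refine this.congr fun t => ?_
    rw [← sub_div]
    congr 1
    ring
  refine (Tendsto.mul ?_ ?_).mul ?_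
  · exact tendsto_finsetProd _ fun i _ => tendsto_finsetProd _ fun j _ =>
      (hs j i).const_mul q
  · exact tendsto_finsetProd _ fun i _ => tendsto_finsetProd _ fun j _ => hs j i
  · refine tendsto_finsetProd _ fun i _ => tendsto_finsetProd _ fun j _ => ?_
    have h : Continuous fun t : ℝ => t ^ ((j : Fin m) : ℕ) - q * t ^ ((i : Fin k) : ℕ) := by
      fun_prop
    have h2 := h.tendsto 1
    rw [one_pow, one_pow, mul_one] at h2
    exact h2.mono_left nhdsWithin_le_nhds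

/-- the explicit formula for the value of a Schur polynomial at a point with `k` coordinates `q`
and `m` coordinates `1` -/
theorem S_two (e : Fin (k + m) → ℕ) (he : StrictMono e) (q : ℝ) :
    S (k + m) e (vk (k + m) k q) * A1 k m q = V (fun j => (e j : ℝ)) * G k e q := by
  have hs : ∀ a b : ℕ, Tendsto (fun t : ℝ => (t ^ a - t ^ b) / (t - 1)) (𝓝[≠] 1)
      (𝓝 ((a : ℝ) - b)) := by
    intro a b
    have := (tendsto_slope_pow a).sub (tendsto_slope_pow b)
    refine this.congr fun t => ?_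
    rw [← sub_div]
    congr 1
    ring
  have h1 : Tendsto (fun t : ℝ => S (k + m) e (xt q t) * Af k m q t) (𝓝[≠] 1)
      (𝓝 (S (k + m) e (vk (k + m) k q) * A1 k m q)) := by
    refine Tendsto.mul ?_ (tendsto_Af q)
    have h2 : Continuous fun t : ℝ => S (k + m) e (xt q t) := by
      refine (S_continuous e).comp ?_
      refine continuous_pi fun i => ?_
      unfold xt
      split_ifs <;> fun_prop
    have h3 := h2.tendsto 1
    have h4 : xt (k := k) (m := m) q 1 = vk (k + m) k q := by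
      funext i
      unfold xt vk
      split_ifs <;> simp
    rw [h4] at h3
    exact h3.mono_left nhdsWithin_le_nhds
  have h2 : Tendsto (fun t : ℝ => (∏ i : Fin (k + m), ∏ j ∈ Ioi i,
      ((t ^ e j - t ^ e i) / (t - 1))) * ∑ S ∈ powersetCard k (univ : Finset (Fin (k + m))),
        q ^ (∑ j ∈ S, e j) * ∏ i ∈ S, ∏ j ∈ Sᶜ, ((t ^ e j - t ^ e i) / (t - 1))⁻¹) (𝓝[≠] 1)
      (𝓝 (V (fun j => (e j : ℝ)) * G k e q)) := by
    unfold V G
    refine Tendsto.mul ?_ ?_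
    · exact tendsto_finsetProd _ fun i _ => tendsto_finsetProd _ fun j _ => hs (e j) (e i)
    · refine tendsto_finsetSum _ fun S _ => Tendsto.const_mul _ ?_
      refine tendsto_finsetProd _ fun i hi => tendsto_finsetProd _ fun j hj => ?_
      refine (hs (e j) (e i)).inv₀ ?_
      intro h0
      have : e j = e i := by exact_mod_cast sub_eq_zero.1 h0
      rw [he.injective this] at hj
      exact (Finset.mem_compl.1 hj) hi
  refine tendsto_nhds_unique h1 (h2.congr' ?_)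
  have hq0 : ∀ᶠ t : ℝ in 𝓝[≠] 1, 0 < t := nhdsWithin_le_nhds (lt_mem_nhds one_pos)
  filter_upwards [hq0, self_mem_nhdsWithin] with t ht ht1
  exact (S_xt e he q t ht ht1).symm

theorem A1_pos (q : ℝ) (hq : 0 < q) (hq1 : q < 1) : 0 < A1 k m q := by
  unfold A1
  have h : ∀ (n : ℕ) (i j : Fin n), j ∈ Ioi i → (0 : ℝ) < ((j : ℕ) : ℝ) - ((i : ℕ) : ℝ) := by
    intro n i j hj
    have h0 : i < j := Finset.mem_Ioi.1 hj
    have : (i : ℕ) < j := h0
    have h2 : ((i : ℕ) : ℝ) < ((j : ℕ) : ℝ) := by exact_mod_cast this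
    linarith
  refine mul_pos (mul_pos ?_ ?_) ?_
  · exact Finset.prod_pos fun i _ => Finset.prod_pos fun j hj => mul_pos hq (h k i j hj)
  · exact Finset.prod_pos fun i _ => Finset.prod_pos fun j hj => h m i j hj
  · exact Finset.prod_pos fun i _ => Finset.prod_pos fun j _ => by linarith

theorem V_cast_pos {n : ℕ} (e : Fin n → ℕ) (he : StrictMono e) : 0 < V (fun j => (e j : ℝ)) := by
  unfold V
  refine Finset.prod_pos fun i _ => Finset.prod_pos fun j hj => ?_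
  have : e i < e j := he (Finset.mem_Ioi.1 hj)
  have h2 : (e i : ℝ) < e j := by exact_mod_cast this
  linarith

theorem vk_pos (n k : ℕ) (q : ℝ) (hq : 0 < q) (j : Fin n) : 0 < vk n k q j := by
  unfold vk
  split_ifs
  · exact hq
  · exact one_pos

theorem G_pos (e : Fin (k + m) → ℕ) (he : StrictMono e) (q : ℝ) (hq : 0 < q) (hq1 : q < 1) :
    0 < G k e q := by
  have h := S_two e he q
  have h1 : 0 < S (k + m) e (vk (k + m) k q) * A1 k m q :=
    mul_pos (S_pos e he _ (vk_pos _ _ q hq)) (A1_pos q hq hq1)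
  rw [h] at h1
  exact (mul_pos_iff_of_pos_left (V_cast_pos e he)).1 h1

/-- the ratio at a point with two values -/
theorem r_vk (e e' : Fin (k + m) → ℕ) (he : StrictMono e) (he' : StrictMono e') (q : ℝ)
    (hq : 0 < q) (hq1 : q < 1) :
    r e e' (vk (k + m) k q) = r e e' (fun _ => 1) * (G k e q / G k e' q) := by
  have h := S_two e he q
  have h' := S_two e' he' q
  have hA := (A1_pos (k := k) (m := m) q hq hq1).ne'
  have hG := (G_pos e' he' q hq hq1).ne'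
  have hV := (V_cast_pos e' he').ne'
  have hS := (S_pos e' he' _ (vk_pos (k + m) k q hq)).ne'
  rw [r_one e e' he he']
  unfold r
  rw [div_mul_div_comm, ← h, ← h', mul_div_mul_right _ _ hA]

end Pool.Agent.Helper56.SchurTwo
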