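import Pool.Agent.Helper56.Rep.Main
import Pool.Agent.Helper56.Rep.Affine

set_option autoImplicit false

/-!
# MP_4ed1f9_lc: counting with caching up to arbitrary reparametrisations

Exact or approximate model counting by splitting the set of models into disjoint unions and
unambiguous products needs `2 ^ ((1 - ε) n)` steps, even if sets that differ by a map of a large
family `Λ` (all affine maps of `F_2 ^ n`, in particular all renamings and negations of variables,
or any family with not too many composites) may be shared.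

The definitions are in `Pool/Agent/Helper56/Rep/Path.lean` (`X`, `comps`),
`Pool/Agent/Helper56/Rep/Program.lean` (`IsProgram`), `Pool/Agent/Helper56/Rep/Exist.lean`
(`Clause`, `Sat`) and `Pool/Agent/Helper56/Rep/Affine.lean` (`Affine`).
-/

namespace Pool.Agent.Results.MP_4ed1f9_lc.UnambiguousPrograms

open Pool.Agent.Helper56.Rep

theorem result :
    ∀ ε : ℝ, 0 < ε → ∃ (c : ℝ) (b n0 : ℕ), 0 < c ∧
      ∀ n ≥ n0, ∀ N : ℕ, (N : ℝ) ≤ 2 ^ (c * n) →
      ∀ (Λ : Set (X n → X n)) (D : ℕ),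
      ((comps Λ D).ncard ≤ 2 ^ (N * n) ∨ (Λ = Affine n ∧ n + 1 ≤ N)) →
      ∃ (m k : ℕ) (φ : Fin m → Clause k n),
        2 ^ k ≤ (b * (N + 1)) ^ b ∧ m ≤ (b * (N + 1)) ^ b * n ∧
        (2 : ℝ) ^ ((1 - ε) * n) ≤ ({x | Sat φ x} : Set (X n)).ncard ∧
        ∀ (s W : ℕ) (M : ℕ → Finset (X n)), IsProgram Λ D W s M → ∀ v < s,
          (((M v).card : ℝ) ≤ (2 : ℝ) ^ (ε * n) * ((W + 1) * s) +
            ((b * (N + 1)) ^ b : ℕ) * ({x | x ∈ M v ∧ ¬ Sat φ x} : Set (X n)).ncard) ∧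
          ((∀ x, x ∈ M v ↔ Sat φ x) → (2 : ℝ) ^ ((1 - ε) * n) ≤ (W + 1) * s) := by
  intro ε hε
  obtain ⟨c, b, n0, hc, h⟩ := main ε hε
  refine ⟨c, b, n0, hc, fun n hn N hN Λ D hΛ => h n hn N hN Λ D ?_⟩
  rcases hΛ with hΛ | ⟨rfl, hN1⟩
  · exact hΛ
  · exact (card_comps_affine n D).trans
      (Nat.pow_le_pow_right (by norm_num) (Nat.mul_le_mul_right n hN1))

end Pool.Agent.Results.MP_4ed1f9_lc.UnambiguousPrograms
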