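import Mathlib
import Pool.Agent.Helper35.YG.Model

set_option autoImplicit false
set_option linter.unusedSectionVars false

/-! Bilinear algebra on the ambient space `W`. -/

namespace Pool.Agent.Helper56.YGXX

open Pool.Agent.Helper35.YG Finset

variable {F E : Type*} [Field F] [CharP F 2] [CommRing E] [Nontrivial E] [Algebra F E]

lemma two0 : (2 : F) = 0 := CharTwo.two_eq_zero

omit [Nontrivial E] in
lemma two0E (F : Type*) {E : Type*} [Field F] [CharP F 2] [CommRing E] [Algebra F E] : (2 : E) = 0 := by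
  have : algebraMap F E 2 = 0 := by rw [CharTwo.two_eq_zero, map_zero]
  rw [← this, map_ofNat]

lemma self_add (F : Type*) {V : Type*} [Field F] [CharP F 2] [AddCommGroup V] [Module F V] (v : V) :
    v + v = 0 := by
  rw [← two_smul F v, CharTwo.two_eq_zero, zero_smul]

lemma add_eq_zero_iff (F : Type*) {V : Type*} [Field F] [CharP F 2] [AddCommGroup V] [Module F V]
    (v w : V) : v + w = 0 ↔ v = w := by
  constructor
  · intro h
    calc v = (v + w) + w := by rw [add_assoc, self_add F w, add_zero]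
      _ = w := by rw [h, zero_add]
  · rintro rfl; exact self_add F v

variable (q : QE F E)

lemma inj : Function.Injective (algebraMap F E) := (algebraMap F E).injective

lemma T_add (x y : E) : q.T (x + y) = q.T x + q.T y := by
  apply inj (E := E)
  rw [map_add, q.T_eq, q.T_eq, q.T_eq, map_add]; ring

lemma T_smul (a : F) (x : E) : q.T (a • x) = a * q.T x := by
  apply inj (E := E)
  rw [map_mul, q.T_eq, q.T_eq, Algebra.smul_def, map_mul, q.bar_alg]; ring

lemma T_bar (x : E) : q.T (q.bar x) = q.T x := by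
  apply inj (E := E)
  rw [q.T_eq, q.T_eq, q.bar_bar]; ring

lemma T_alg (a : F) : q.T (algebraMap F E a) = 0 := by
  apply inj (E := E)
  rw [q.T_eq, q.bar_alg, map_zero]
  linear_combination (algebraMap F E a) * two0E (E := E) F

lemma T_zero : q.T 0 = 0 := by
  have := T_smul q 0 0
  simpa using this

lemma N_add (x y : E) : q.N (x + y) = q.N x + q.N y + q.T (x * q.bar y) := by
  apply inj (E := E)
  rw [map_add, map_add, q.N_eq, q.N_eq, q.N_eq, q.T_eq, map_add, map_mul, q.bar_bar]; ring

lemma N_smul (a : F) (x : E) : q.N (a • x) = a ^ 2 * q.N x := by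
  apply inj (E := E)
  rw [map_mul, q.N_eq, q.N_eq, Algebra.smul_def, map_mul, q.bar_alg, map_pow]; ring

lemma N_zero : q.N 0 = 0 := by
  have := N_smul q 0 0
  simpa using this

lemma T_comm (x y : E) : q.T (x * q.bar y) = q.T (y * q.bar x) := by
  rw [← T_bar q (x * q.bar y), map_mul, q.bar_bar]
  congr 1; ring

/-- nondegeneracy on `E` -/
lemma T_nondeg (x : E) (h : ∀ y, q.T (x * q.bar y) = 0) : x = 0 := by
  obtain ⟨a, b, rfl⟩ := q.span x
  have h1 := h 1
  rw [map_one, mul_one, T_add, T_alg, zero_add, ← Algebra.smul_def, T_smul] at h1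
  have hb : b = 0 := (mul_eq_zero.1 h1).resolve_right q.s_ne
  have h2 := h (q.η * q.η)
  rw [hb, map_zero, zero_mul, add_zero, ← Algebra.smul_def, T_smul, T_bar] at h2
  have ha : a = 0 := (mul_eq_zero.1 h2).resolve_right q.s_ne
  rw [ha, hb]; simp

/-- `E` is two-dimensional -/
noncomputable def equivE : (F × F) ≃ₗ[F] E :=
  LinearEquiv.ofBijective
    { toFun := fun p => algebraMap F E p.1 + algebraMap F E p.2 * (q.η * q.η)
      map_add' := fun p r => by simp only [Prod.fst_add, Prod.snd_add, map_add]; ring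
      map_smul' := fun c p => by
        simp only [Prod.smul_fst, Prod.smul_snd, smul_eq_mul, map_mul, RingHom.id_apply]
        rw [Algebra.smul_def]
        ring }
    ⟨by
      rw [← LinearMap.ker_eq_bot, LinearMap.ker_eq_bot']
      rintro ⟨a, b⟩ h
      simp only [LinearMap.coe_mk, AddHom.coe_mk] at h
      have h1 : q.T (algebraMap F E a + algebraMap F E b * (q.η * q.η)) = 0 := by rw [h, T_zero]
      rw [T_add, T_alg, zero_add, ← Algebra.smul_def, T_smul] at h1
      have hb : b = 0 := (mul_eq_zero.1 h1).resolve_right q.s_ne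
      rw [hb, map_zero, zero_mul, add_zero] at h
      have ha : a = 0 := inj (E := E) (by rw [h, map_zero])
      rw [ha, hb]; rfl,
    by
      intro x
      obtain ⟨a, b, h⟩ := q.span x
      exact ⟨(a, b), h.symm⟩⟩

include q in
lemma finrankE : Module.finrank F E = 2 := by
  rw [← (equivE q).finrank_eq]; simp

include q in
lemma finiteE : FiniteDimensional F E := (equivE q).finiteDimensional

/-- the form on `F × F × E` -/
lemma Q3_add (x y : F × F × E) : q.Q3 (x + y) = q.Q3 x + q.Q3 y + q.B3 x y := by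
  simp only [QE.Q3, QE.B3, Prod.fst_add, Prod.snd_add, N_add]; ring

lemma Q3_smul (a : F) (x : F × F × E) : q.Q3 (a • x) = a ^ 2 * q.Q3 x := by
  simp only [QE.Q3, Prod.smul_fst, Prod.smul_snd, smul_eq_mul, N_smul]; ring

lemma B3_add_left (x y z : F × F × E) : q.B3 (x + y) z = q.B3 x z + q.B3 y z := by
  simp only [QE.B3, Prod.fst_add, Prod.snd_add, add_mul, T_add]; ring

lemma B3_smul_left (a : F) (x z : F × F × E) : q.B3 (a • x) z = a * q.B3 x z := by
  simp only [QE.B3, Prod.smul_fst, Prod.smul_snd, smul_eq_mul, smul_mul_assoc, T_smul]; ring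

lemma B3_comm (x y : F × F × E) : q.B3 x y = q.B3 y x := by
  simp only [QE.B3, T_comm q x.2.2 y.2.2]; ring

lemma B3_self (x : F × F × E) : q.B3 x x = 0 := by
  have h1 : q.T (x.2.2 * q.bar x.2.2) = 0 := by rw [← q.N_eq, T_alg]
  simp only [QE.B3, h1]
  linear_combination x.1 * x.2.1 * two0 (F := F)

lemma B3_zero_left (x : F × F × E) : q.B3 0 x = 0 := by
  have := B3_smul_left q 0 0 x
  simpa using this

lemma B3_zero_right (x : F × F × E) : q.B3 x 0 = 0 := by rw [B3_comm, B3_zero_left]

lemma Q3_zero : q.Q3 0 = 0 := by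
  have := Q3_smul q 0 0
  simpa using this

lemma B3_nondeg (x : F × F × E) (h : ∀ y, q.B3 x y = 0) : x = 0 := by
  obtain ⟨α, β, e⟩ := x
  have h1 := h (1, 0, 0)
  have h2 := h (0, 1, 0)
  simp [QE.B3, T_zero] at h1 h2
  have h3 : e = 0 := by
    apply T_nondeg q
    intro y
    have := h (0, 0, y)
    simpa [QE.B3] using this
  rw [h1, h2, h3]; rfl

/-! the big space -/

lemma sum_mul_sum' (M : ℕ) (y z : ℕ → F) : (∑ i ∈ range M, y i) * (∑ i ∈ range M, z i) =
    (∑ i ∈ range M, y i * z i) + ∑ j ∈ range M, ∑ i ∈ range j, (y i * z j + z i * y j) := by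
  induction M with
  | zero => simp
  | succ M ih =>
    rw [sum_range_succ, sum_range_succ, sum_range_succ, sum_range_succ, add_mul, mul_add, mul_add, ih,
      sum_add_distrib (s := range M), ← sum_mul, ← sum_mul]
    ring

lemma QM_add (M : ℕ) (y z : QE.W F E) : q.QM M (y + z) = q.QM M y + q.QM M z + q.BM M y z := by
  have h1 : ∑ i ∈ range M, (y + z).2 i ^ 2 = (∑ i ∈ range M, y.2 i ^ 2) + ∑ i ∈ range M, z.2 i ^ 2 := by
    rw [← sum_add_distrib]
    apply sum_congr rfl
    intro i _
    simp only [Prod.snd_add, Pi.add_apply]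
    linear_combination (y.2 i * z.2 i) * two0 (F := F)
  have h2 : ∑ j ∈ range M, ∑ i ∈ range j, (y + z).2 i * (y + z).2 j =
      (∑ j ∈ range M, ∑ i ∈ range j, y.2 i * y.2 j) + (∑ j ∈ range M, ∑ i ∈ range j, z.2 i * z.2 j) +
      ∑ j ∈ range M, ∑ i ∈ range j, (y.2 i * z.2 j + z.2 i * y.2 j) := by
    rw [← sum_add_distrib, ← sum_add_distrib]
    apply sum_congr rfl
    intro j _
    rw [← sum_add_distrib, ← sum_add_distrib]
    apply sum_congr rfl
    intro i _
    simp only [Prod.snd_add, Pi.add_apply]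
    ring
  have h3 := sum_mul_sum' M y.2 z.2
  simp only [QE.QM, QE.BM, h1, h2, h3, Prod.fst_add, Q3_add]
  linear_combination -(∑ i ∈ range M, y.2 i * z.2 i) * two0 (F := F)

lemma QM_smul (M : ℕ) (a : F) (y : QE.W F E) : q.QM M (a • y) = a ^ 2 * q.QM M y := by
  simp only [QE.QM, Prod.smul_fst, Prod.smul_snd, Pi.smul_apply, smul_eq_mul, Q3_smul, mul_add, mul_sum]
  congr 1
  · congr 1
    apply sum_congr rfl
    intro i _
    ring
  · apply sum_congr rfl
    intro j _
    apply sum_congr rfl
    intro i _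
    ring

lemma BM_add_left (M : ℕ) (x y z : QE.W F E) : q.BM M (x + y) z = q.BM M x z + q.BM M y z := by
  simp only [QE.BM, Prod.fst_add, Prod.snd_add, Pi.add_apply, B3_add_left, sum_add_distrib, add_mul]
  ring

lemma BM_smul_left (M : ℕ) (a : F) (x z : QE.W F E) : q.BM M (a • x) z = a * q.BM M x z := by
  simp only [QE.BM, Prod.smul_fst, Prod.smul_snd, Pi.smul_apply, smul_eq_mul, B3_smul_left, mul_add,
    mul_sum, sum_mul, mul_assoc]

lemma BM_comm (M : ℕ) (x y : QE.W F E) : q.BM M x y = q.BM M y x := by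
  simp only [QE.BM, B3_comm q x.1 y.1]
  rw [mul_comm (∑ i ∈ range M, x.2 i)]
  congr 1
  apply sum_congr rfl
  intro i _
  ring

lemma BM_add_right (M : ℕ) (x y z : QE.W F E) : q.BM M x (y + z) = q.BM M x y + q.BM M x z := by
  rw [BM_comm, BM_add_left, BM_comm q M y, BM_comm q M z]

lemma BM_smul_right (M : ℕ) (a : F) (x z : QE.W F E) : q.BM M x (a • z) = a * q.BM M x z := by
  rw [BM_comm, BM_smul_left, BM_comm]

lemma BM_self (M : ℕ) (x : QE.W F E) : q.BM M x x = 0 := by
  have h3 := sum_mul_sum' M x.2 x.2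
  have h4 : ∑ j ∈ range M, ∑ i ∈ range j, (x.2 i * x.2 j + x.2 i * x.2 j) = 0 := by
    apply sum_eq_zero
    intro j _
    apply sum_eq_zero
    intro i _
    linear_combination (x.2 i * x.2 j) * two0 (F := F)
  simp only [QE.BM, h3, h4, B3_self]
  linear_combination (∑ i ∈ range M, x.2 i * x.2 i) * two0 (F := F)

/-- the quadratic form on `W` -/
noncomputable def QW (M : ℕ) : QuadraticForm F (QE.W F E) where
  toFun := q.QM M
  toFun_smul a x := by rw [QM_smul, pow_two, smul_eq_mul]
  exists_companion' := ⟨LinearMap.mk₂ F (q.BM M) (BM_add_left q M)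
    (fun a x z => by rw [BM_smul_left]; rfl)
    (BM_add_right q M) (fun a x z => by rw [BM_smul_right]; rfl), fun x y => by
      rw [QM_add]; rfl⟩

lemma QW_apply (M : ℕ) (y : QE.W F E) : QW q M y = q.QM M y := rfl

lemma QW_polar (M : ℕ) (y z : QE.W F E) : QuadraticMap.polar (QW q M) y z = q.BM M y z := by
  rw [QuadraticMap.polar, QW_apply, QW_apply, QW_apply, QM_add]; ring

/-- the truncated space -/
abbrev Wk (F E : Type*) (k : ℕ) := (F × F × E) × (Fin k → F)

/-- embedding into `W` -/
def emb (k : ℕ) : Wk F E k →ₗ[F] QE.W F E where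
  toFun y := (y.1, fun j => if h : j < k then y.2 ⟨j, h⟩ else 0)
  map_add' y z := by
    refine Prod.ext rfl (funext fun j => ?_)
    by_cases h : j < k <;> simp [h]
  map_smul' a y := by
    refine Prod.ext rfl (funext fun j => ?_)
    by_cases h : j < k <;> simp [h]

/-- restriction -/
def res (k : ℕ) (y : QE.W F E) : Wk F E k := (y.1, fun j => y.2 j)

lemma res_emb (k : ℕ) (y : Wk F E k) : res k (emb k y) = y := by
  refine Prod.ext rfl (funext fun j => ?_)
  simp [res, emb]

lemma emb_res (k : ℕ) (y : QE.W F E) (h : ∀ j, k ≤ j → y.2 j = 0) : emb k (res k y) = y := by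
  refine Prod.ext rfl (funext fun j => ?_)
  by_cases hj : j < k
  · simp [res, emb, hj]
  · simp [res, emb, hj, h j (by omega)]

lemma res_add (k : ℕ) (y z : QE.W F E) : res k (y + z) = res k y + res k z := rfl

lemma emb_snd_of_le (k : ℕ) (y : Wk F E k) (j : ℕ) (h : k ≤ j) : (emb k y).2 j = 0 := by
  simp [emb, Nat.not_lt.2 h]

lemma emb_snd_of_lt (k : ℕ) (y : Wk F E k) (j : ℕ) (h : j < k) : (emb k y).2 j = y.2 ⟨j, h⟩ := by
  simp [emb, h]

lemma sum_of_supp {k M : ℕ} (hk : k ≤ M) (f : ℕ → F) (h : ∀ j, k ≤ j → f j = 0) :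
    ∑ j ∈ range M, f j = ∑ j ∈ range k, f j := by
  symm
  apply sum_subset (range_mono hk)
  intro j _ hj
  exact h j (by simpa using hj)

/-- the form on the truncated space -/
noncomputable def QF (M k : ℕ) : QuadraticForm F (Wk F E k) := (QW q M).comp (emb k)

lemma QF_apply (M k : ℕ) (y : Wk F E k) : QF q M k y = q.QM M (emb k y) := rfl

lemma QF_polar (M k : ℕ) (y z : Wk F E k) :
    QuadraticMap.polar (QF q M k) y z = q.BM M (emb k y) (emb k z) := by
  rw [QuadraticMap.polar, QF_apply, QF_apply, QF_apply, map_add, QM_add]; ring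

lemma QF_nondeg {M k : ℕ} (hk : k ≤ M) (hk2 : Even k) (x : Wk F E k)
    (h : ∀ y, QuadraticMap.polar (QF q M k) x y = 0) : x = 0 := by
  obtain ⟨v, g⟩ := x
  have hv : v = 0 := by
    apply B3_nondeg q
    intro w
    have := h (w, 0)
    rw [QF_polar] at this
    have e1 : ∀ i, (emb k (w, (0 : Fin k → F))).2 i = 0 := by
      intro i; simp [emb]
    simp only [QE.BM, e1, sum_const_zero, mul_zero, add_zero] at this
    exact this
  have hg : ∀ j : Fin k, g j = ∑ i, g i := by
    intro j
    have := h (0, Pi.single j 1)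
    rw [QF_polar] at this
    simp only [QE.BM] at this
    have e1 : q.B3 (emb k (v, g)).1 (emb k ((0 : F × F × E), (Pi.single j 1 : Fin k → F))).1 = 0 :=
      B3_zero_right q _
    have e2 : ∑ i ∈ range M, (emb k ((0 : F × F × E), (Pi.single j 1 : Fin k → F))).2 i = 1 := by
      rw [sum_of_supp hk _ (fun i hi => emb_snd_of_le k _ i hi), sum_range]
      simp only [emb_snd_of_lt, Fin.is_lt, Fin.eta]
      simp
    have e3 : ∑ i ∈ range M, (emb k (v, g)).2 i = ∑ i, g i := by
      rw [sum_of_supp hk _ (fun i hi => emb_snd_of_le k _ i hi), sum_range]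
      simp only [emb_snd_of_lt, Fin.is_lt, Fin.eta]
    have e4 : ∑ i ∈ range M, (emb k (v, g)).2 i *
        (emb k ((0 : F × F × E), (Pi.single j 1 : Fin k → F))).2 i = g j := by
      rw [sum_of_supp hk _ (fun i hi => by rw [emb_snd_of_le k _ i hi, zero_mul]), sum_range]
      simp only [emb_snd_of_lt, Fin.is_lt, Fin.eta]
      simp [Pi.single_apply]
    rw [e1, e2, e3, e4] at this
    linear_combination this - (∑ i, g i) * two0 (F := F)
  have hs : ∑ i, g i = 0 := by
    have h1 : ∑ i : Fin k, g i = ∑ _i : Fin k, (∑ i, g i) := sum_congr rfl (fun j _ => hg j)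
    rw [sum_const, card_univ, Fintype.card_fin, nsmul_eq_mul] at h1
    obtain ⟨m, hm⟩ := hk2
    have h2 : (k : F) = 0 := by
      rw [hm, Nat.cast_add]
      linear_combination (m : F) * two0 (F := F)
    rw [h1, h2, zero_mul]
  have hg0 : g = 0 := by
    funext j
    rw [hg j, hs]; rfl
  rw [hv, hg0]; rfl

include q in
lemma finrank_Wk (k : ℕ) : Module.finrank F (Wk F E k) = 4 + k := by
  have := finiteE q
  rw [Module.finrank_prod, Module.finrank_prod, Module.finrank_prod, finrankE q]
  simp

end Pool.Agent.Helper56.YGXX
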