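import Mathlib
import Pool.Agent.Helper35.YG.Model
import Pool.Agent.Helper56.YGXXa
import Pool.Agent.Helper56.YGConn
import Pool.Agent.Helper84.YG.SCEven

set_option autoImplicit false
set_option linter.unusedSectionVars false

/-! Simple connectivity and connectivity of the point sets `X_i`. -/

namespace Pool.Agent.Helper56.YGXX

open Pool.Agent.Helper35.YG Finset

theorem transport {V V' Ω : Type*} {X : Set V} {Adj : V → V → Prop} {Spec : V → V → V → Prop}
    {R : Ω → Ω → Prop} {π : Ω → V} (hc : Cover' X Adj Spec R π) (X' : Set V')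
    (Adj' : V' → V' → Prop) (Spec' : V' → V' → V' → Prop) (φ : V → V') (ψ : V' → V)
    (hφ : ∀ x ∈ X, φ x ∈ X') (hψ : ∀ x ∈ X', ψ x ∈ X) (hφψ : ∀ x ∈ X', φ (ψ x) = x)
    (hψφ : ∀ x ∈ X, ψ (φ x) = x) (hA : ∀ x ∈ X, ∀ y ∈ X, Adj x y ↔ Adj' (φ x) (φ y))
    (hS : ∀ x ∈ X, ∀ y ∈ X, ∀ z ∈ X, Spec x y z → Spec' (φ x) (φ y) (φ z)) :
    Cover' X' Adj' Spec' R (φ ∘ π) where
  mem ω := hφ _ (hc.mem ω)
  symm := hc.symm
  adj ω ω' h := (hA _ (hc.mem ω) _ (hc.mem ω')).1 (hc.adj _ _ h)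
  lift ω v hv h := by
    obtain ⟨ω', h1, h2⟩ := hc.lift ω (ψ v) (hψ v hv)
      ((hA _ (hc.mem ω) _ (hψ v hv)).2 (by rw [hφψ v hv]; exact h))
    exact ⟨ω', h1, by simp only [Function.comp_apply, h2, hφψ v hv]⟩
  uniq ω ω₁ ω₂ h1 h2 h := by
    refine hc.uniq ω ω₁ ω₂ h1 h2 ?_
    rw [← hψφ _ (hc.mem ω₁), ← hψφ _ (hc.mem ω₂)]
    exact congrArg ψ h
  tri ω ω₁ ω₂ h1 h2 h hS' := by
    refine hc.tri ω ω₁ ω₂ h1 h2 ((hA _ (hc.mem ω) _ (hc.mem ω₂)).2 h) (fun hs => hS' ?_)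
    exact hS _ (hc.mem ω) _ (hc.mem ω₁) _ (hc.mem ω₂) hs
  conn := hc.conn

theorem cover_of_cover' {V Ω : Type*} {X : Set V} {Adj : V → V → Prop} {Spec : V → V → V → Prop}
    {R : Ω → Ω → Prop} {π : Ω → V} (hc : Cover' X Adj Spec R π) (h : ∀ x y z, ¬ Spec x y z) :
    Cover X Adj R π where
  mem := hc.mem
  symm := hc.symm
  adj := hc.adj
  lift := hc.lift
  uniq := hc.uniq
  tri ω ω₁ ω₂ h1 h2 h3 := hc.tri ω ω₁ ω₂ h1 h2 h3 (h _ _ _)
  conn := hc.conn

theorem conn_transport {V V' : Type*} {X : Set V} {Adj : V → V → Prop} (X' : Set V')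
    (Adj' : V' → V' → Prop) (φ : V → V') (ψ : V' → V)
    (hφ : ∀ x ∈ X, φ x ∈ X') (hψ : ∀ x ∈ X', ψ x ∈ X) (hφψ : ∀ x ∈ X', φ (ψ x) = x)
    (hψφ : ∀ x ∈ X, ψ (φ x) = x) (hA : ∀ x ∈ X, ∀ y ∈ X, Adj x y ↔ Adj' (φ x) (φ y))
    (hconn : ∀ v w, v ∈ X' → w ∈ X' → Relation.ReflTransGen (fun a b => b ∈ X' ∧ Adj' a b) v w)
    (y z : V) (hy : y ∈ X) (hz : z ∈ X) :
    Relation.ReflTransGen (fun a b => b ∈ X ∧ Adj a b) y z := by
  have key : ∀ w, Relation.ReflTransGen (fun a b => b ∈ X' ∧ Adj' a b) (φ y) w →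
      w ∈ X' ∧ Relation.ReflTransGen (fun a b => b ∈ X ∧ Adj a b) y (ψ w) := by
    intro w hw
    induction hw with
    | refl => exact ⟨hφ y hy, by rw [hψφ y hy]⟩
    | @tail a b _ hab ih =>
      refine ⟨hab.1, ih.2.tail ⟨hψ b hab.1, ?_⟩⟩
      rw [hA _ (hψ a ih.1) _ (hψ b hab.1), hφψ a ih.1, hφψ b hab.1]
      exact hab.2
  have := (key (φ z) (hconn _ _ (hφ y hy) (hφ z hz))).2
  rwa [hψφ z hz] at this

variable {F E : Type*} [Field F] [CharP F 2] [CommRing E] [Nontrivial E] [Algebra F E] (q : QE F E)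

lemma cast_even {n : ℕ} (h : Even n) : (n : F) = 0 := by
  obtain ⟨m, rfl⟩ := h
  rw [Nat.cast_add]
  linear_combination (m : F) * two0 (F := F)

lemma cast_odd {n : ℕ} (h : Odd n) : (n : F) = 1 := by
  obtain ⟨m, rfl⟩ := h
  push_cast
  linear_combination (m : F) * two0 (F := F)

lemma ones_snd (i j : ℕ) : (QE.ones F E i).2 j = if j ≤ i then 1 else 0 := rfl

lemma ones_supp (i j : ℕ) (h : i + 1 ≤ j) : (QE.ones F E i).2 j = 0 := by
  rw [ones_snd, if_neg (by omega)]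

lemma sum_ones {M i : ℕ} (h : i + 1 ≤ M) : ∑ j ∈ range M, (QE.ones F E i).2 j = ((i + 1 : ℕ) : F) := by
  rw [sum_of_supp h _ (fun j hj => ones_supp i j hj)]
  rw [sum_congr rfl (fun j hj => by
    rw [ones_snd, if_pos (by have := mem_range.1 hj; omega)] : ∀ j ∈ range (i + 1),
      (QE.ones F E i).2 j = 1)]
  simp

lemma sum_mul_ones {M i : ℕ} (h : i + 1 ≤ M) (y : ℕ → F) :
    ∑ j ∈ range M, y j * (QE.ones F E i).2 j = ∑ j ∈ range (i + 1), y j := by
  rw [sum_of_supp h _ (fun j hj => by rw [ones_supp i j hj, mul_zero])]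
  apply sum_congr rfl
  intro j hj
  rw [ones_snd, if_pos (by have := mem_range.1 hj; omega), mul_one]

lemma BM_ones_even {M i : ℕ} (hM : i + 2 ≤ M) (hi : Even i) (y : QE.W F E)
    (hy : ∀ j, i + 1 < j → y.2 j = 0) : q.BM M y (QE.ones F E i) = y.2 (i + 1) := by
  have h1 : ∑ j ∈ range M, y.2 j = (∑ j ∈ range (i + 1), y.2 j) + y.2 (i + 1) := by
    rw [sum_of_supp hM _ (fun j hj => hy j (by omega)), sum_range_succ]
  have h2 : q.B3 y.1 (QE.ones F E i).1 = 0 := B3_zero_right q _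
  rw [QE.BM, h2, h1, sum_ones (by omega), sum_mul_ones (by omega), cast_odd (hi.add_one)]
  linear_combination (∑ j ∈ range (i + 1), y.2 j) * two0 (F := F)

lemma BM_ones_odd {M i : ℕ} (hM : i + 2 ≤ M) (hi : Odd i) (y : QE.W F E)
    (hy : ∀ j, i + 1 < j → y.2 j = 0) : q.BM M y (QE.ones F E (i + 1)) = 0 := by
  have h1 : ∑ j ∈ range M, y.2 j = (∑ j ∈ range (i + 2), y.2 j) :=
    sum_of_supp hM _ (fun j hj => hy j (by omega))
  have h2 : q.B3 y.1 (QE.ones F E (i + 1)).1 = 0 := B3_zero_right q _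
  rw [QE.BM, h2, h1, sum_ones (by omega), sum_mul_ones (by omega),
    cast_odd (n := i + 1 + 1) (by obtain ⟨m, rfl⟩ := hi; exact ⟨m + 1, by ring⟩)]
  linear_combination (∑ j ∈ range (i + 2), y.2 j) * two0 (F := F)

lemma QM_ones (M i : ℕ) : q.QM M (QE.ones F E i) = 0 ∨ q.QM M (QE.ones F E i) = 1 := by
  have h : q.QM M (QE.ones F E i) = (((∑ j ∈ range M, (if j ≤ i then 1 else 0) ^ 2) +
      ∑ j ∈ range M, ∑ l ∈ range j, (if l ≤ i then 1 else 0) * (if j ≤ i then 1 else 0) : ℕ) : F) := by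
    have h2 : q.Q3 (QE.ones F E i).1 = 0 := Q3_zero q
    rw [QE.QM, h2, zero_add]
    push_cast
    rfl
  rw [h]
  rcases Nat.even_or_odd ((∑ j ∈ range M, (if j ≤ i then 1 else 0) ^ 2) +
      ∑ j ∈ range M, ∑ l ∈ range j, (if l ≤ i then 1 else 0) * (if j ≤ i then 1 else 0)) with h | h
  · exact Or.inl (cast_even h)
  · exact Or.inr (cast_odd h)

lemma ones_ne_zero (i : ℕ) : QE.ones F E i ≠ 0 := by
  intro h
  have : (QE.ones F E i).2 0 = 0 := by rw [h]; rfl
  rw [ones_snd, if_pos (Nat.zero_le _)] at this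
  exact one_ne_zero this

/-! even case -/

section even

variable {M i : ℕ} (hM : i + 2 ≤ M) (hi : Even i)

lemma emb_rho (F E : Type*) [Field F] [CharP F 2] [CommRing E] [Nontrivial E] [Algebra F E] (i : ℕ) :
    emb (i + 2) (res (i + 2) (QE.ones F E i)) = QE.ones F E i :=
  emb_res _ _ (fun j hj => ones_supp i j (by omega))

lemma rho_ne (F E : Type*) [Field F] [CharP F 2] [CommRing E] [Nontrivial E] [Algebra F E] (i : ℕ) :
    res (i + 2) (QE.ones F E i) ≠ 0 := by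
  intro h
  apply ones_ne_zero (F := F) (E := E) i
  rw [← emb_rho F E i, h, map_zero]

lemma XX_emb_res {y : QE.W F E} (hy : y ∈ q.XX M i) : emb (i + 2) (res (i + 2) y) = y :=
  emb_res _ _ (fun j hj => hy.1 j (by omega))

include hM hi in
lemma even_mem_iff (y : QE.W F E) (hs : ∀ j, i + 1 < j → y.2 j = 0) : y ∈ q.XX M i ↔
    (QuadraticMap.polar (QF q M (i + 2)) (res (i + 2) y) (res (i + 2) (QE.ones F E i)) = 1 ∧
      QF q M (i + 2) (res (i + 2) y) = 1) := by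
  have h1 : emb (i + 2) (res (i + 2) y) = y := emb_res _ _ (fun j hj => hs j (by omega))
  rw [QF_polar, QF_apply, h1, emb_rho, BM_ones_even q hM hi y hs]
  constructor
  · intro h; exact ⟨h.2.1, h.2.2.1⟩
  · intro h; exact ⟨hs, h.1, h.2, fun ho => absurd ho (Nat.not_odd_iff_even.2 hi)⟩

include hi in
lemma even_adj {y z : QE.W F E} (hy : y ∈ q.XX M i) (hz : z ∈ q.XX M i) : q.AA M i y z ↔
    (QuadraticMap.polar (QF q M (i + 2)) (res (i + 2) y) (res (i + 2) z) = 1 ∧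
      res (i + 2) y + res (i + 2) z ≠ res (i + 2) (QE.ones F E i)) := by
  rw [QF_polar, XX_emb_res q hy, XX_emb_res q hz, QE.AA]
  have : (y + z ≠ QE.ones F E i) ↔
      res (i + 2) y + res (i + 2) z ≠ res (i + 2) (QE.ones F E i) := by
    constructor
    · intro h h'
      apply h
      have := congrArg (emb (i + 2)) h'
      rwa [map_add, XX_emb_res q hy, XX_emb_res q hz, emb_rho] at this
    · intro h h'
      apply h
      rw [← res_add, h']
  rw [← this]
  simp [hi]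

end even

/-! odd case -/

section odd

variable {M i : ℕ} (hM : i + 2 ≤ M) (hi : Odd i)

/-- `κ` -/
noncomputable def kap (M i : ℕ) : F := 1 + q.QM M (QE.ones F E (i + 1))

lemma kap_cases (M i : ℕ) : kap q M i = 0 ∨ kap q M i = 1 := by
  rcases QM_ones q M (i + 1) with h | h
  · right; rw [kap, h]; ring
  · left; rw [kap, h]; linear_combination two0 (F := F)

/-- the map to the truncated space -/
def phi (i : ℕ) (y : QE.W F E) : Wk F E (i + 1) := res (i + 1) (y + QE.ones F E (i + 1))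

/-- the map back -/
def psi (i : ℕ) (v : Wk F E (i + 1)) : QE.W F E := emb (i + 1) v + QE.ones F E (i + 1)

lemma emb_phi {y : QE.W F E} (hy : y ∈ q.XX M i) : emb (i + 1) (phi i y) = y + QE.ones F E (i + 1) := by
  apply emb_res
  intro j hj
  rcases Nat.lt_or_ge (i + 1) j with h | h
  · rw [Prod.snd_add, Pi.add_apply, hy.1 j h, ones_supp _ _ (by omega), add_zero]
  · obtain rfl : j = i + 1 := by omega
    rw [Prod.snd_add, Pi.add_apply, hy.2.1, ones_snd, if_pos le_rfl]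
    linear_combination two0 (F := F)

lemma psi_phi {y : QE.W F E} (hy : y ∈ q.XX M i) : psi i (phi i y) = y := by
  rw [psi, emb_phi q hy, add_assoc, self_add F, add_zero]

lemma phi_psi (v : Wk F E (i + 1)) : phi i (psi i v) = v := by
  rw [phi, psi, add_assoc, self_add F, add_zero, res_emb]

include hM hi in
lemma phi_mem {y : QE.W F E} (hy : y ∈ q.XX M i) :
    QF q M (i + 1) (phi i y) = kap q M i ∧ phi i y ≠ 0 := by
  constructor
  · rw [QF_apply, emb_phi q hy, QM_add, hy.2.2.1, BM_ones_odd q hM hi y hy.1, kap, add_zero]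
  · intro h
    have h1 := emb_phi q hy
    rw [h, map_zero] at h1
    exact hy.2.2.2 hi ((add_eq_zero_iff F _ _).1 h1.symm)

include hM hi in
lemma psi_mem {v : Wk F E (i + 1)} (hv : QF q M (i + 1) v = kap q M i ∧ v ≠ 0) :
    psi i v ∈ q.XX M i := by
  refine ⟨?_, ?_, ?_, ?_⟩
  · intro j hj
    rw [psi, Prod.snd_add, Pi.add_apply, emb_snd_of_le _ _ _ (by omega), ones_supp _ _ (by omega), add_zero]
  · rw [psi, Prod.snd_add, Pi.add_apply, emb_snd_of_le _ _ _ (by omega), ones_snd, if_pos le_rfl, zero_add]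
  · have h1 := hv.1
    rw [QF_apply, kap] at h1
    rw [psi, QM_add, BM_ones_odd q hM hi _ (fun j hj => emb_snd_of_le _ _ _ (by omega)), h1]
    linear_combination (q.QM M (QE.ones F E (i + 1))) * two0 (F := F)
  · intro _ h
    apply hv.2
    have h1 : phi i (psi i v) = phi i (QE.ones F E (i + 1)) := by rw [h]
    rw [phi_psi, phi, self_add F] at h1
    rw [h1]; rfl

include hM hi in
lemma odd_adj {y z : QE.W F E} (hy : y ∈ q.XX M i) (hz : z ∈ q.XX M i) : q.AA M i y z ↔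
    QuadraticMap.polar (QF q M (i + 1)) (phi i y) (phi i z) = 1 := by
  rw [QF_polar, emb_phi q hy, emb_phi q hz, BM_add_left, BM_add_right, BM_add_right, BM_self,
    BM_ones_odd q hM hi y hy.1, BM_comm q M (QE.ones F E (i + 1)) z, BM_ones_odd q hM hi z hz.1,
    QE.AA]
  simp [Nat.not_even_iff_odd.2 hi]

include hi in
lemma odd_spec {x y z : QE.W F E} (h : QE.SS i x y z) : phi i x + phi i y + phi i z = 0 := by
  have h1 : phi i x + phi i y + phi i z =
      res (i + 1) ((x + y + z) + (QE.ones F E (i + 1) + QE.ones F E (i + 1)) + QE.ones F E (i + 1)) := by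
    rw [phi, phi, phi, ← res_add, ← res_add]
    congr 1
    abel
  rw [h1, h.2, self_add F, add_zero, self_add F]; rfl

end odd

/-! `i = 0` -/

lemma sum_zero_case {M : ℕ} (hM : 2 ≤ M) (f : ℕ → F) (hf : ∀ j, 1 < j → f j = 0) :
    ∑ j ∈ range M, f j = f 0 + f 1 := by
  rw [sum_of_supp hM f (fun j hj => hf j (by omega)), sum_range_succ, sum_range_one]

lemma QM_zero_case {M : ℕ} (hM : 2 ≤ M) (y : QE.W F E) (hy : ∀ j, 1 < j → y.2 j = 0) :
    q.QM M y = q.Q3 y.1 + y.2 0 ^ 2 + y.2 1 ^ 2 + y.2 0 * y.2 1 := by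
  rw [QE.QM, sum_zero_case hM _ (fun j hj => by rw [hy j hj]; ring),
    sum_zero_case hM _ (fun j hj => sum_eq_zero (fun i _ => by rw [hy j hj, mul_zero]))]
  rw [sum_range_zero, sum_range_one]
  ring

lemma BM_zero_case {M : ℕ} (hM : 2 ≤ M) (y z : QE.W F E) (hy : ∀ j, 1 < j → y.2 j = 0)
    (hz : ∀ j, 1 < j → z.2 j = 0) :
    q.BM M y z = q.B3 y.1 z.1 + (y.2 0 * z.2 1 + y.2 1 * z.2 0) := by
  rw [QE.BM, sum_zero_case hM _ hy, sum_zero_case hM _ hz,
    sum_zero_case hM _ (fun j hj => by rw [hy j hj, zero_mul])]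
  linear_combination (y.2 0 * z.2 0 + y.2 1 * z.2 1) * two0 (F := F)

/-- to the four-dimensional model -/
def phi0 (y : QE.W F E) : (F × F × E) × F := (y.1, y.2 0)

/-- and back -/
def psi0 (x : (F × F × E) × F) : QE.W F E := (x.1, fun j => if j = 0 then x.2 else if j = 1 then 1 else 0)

lemma phi0_psi0 (x : (F × F × E) × F) : phi0 (psi0 x) = x := rfl

lemma psi0_phi0 {M : ℕ} {y : QE.W F E} (hy : y ∈ q.XX M 0) : psi0 (phi0 y) = y := by
  refine Prod.ext rfl (funext fun j => ?_)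
  rcases Nat.lt_trichotomy j 1 with h | h | h
  · obtain rfl : j = 0 := by omega
    rfl
  · subst h
    exact hy.2.1.symm
  · have h1 := hy.1 j (by omega)
    rw [h1]
    simp [psi0, show j ≠ 0 by omega, show j ≠ 1 by omega]

lemma phi0_mem {M : ℕ} (hM : 2 ≤ M) {y : QE.W F E} (hy : y ∈ q.XX M 0) : phi0 y ∈ q.X4 := by
  have h1 := hy.2.2.1
  rw [QM_zero_case q hM y (fun j hj => hy.1 j (by omega)), hy.2.1] at h1
  show q.Q3 y.1 = y.2 0 ^ 2 + y.2 0
  linear_combination h1 - (y.2 0 ^ 2 + y.2 0) * two0 (F := F)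

lemma psi0_mem {M : ℕ} (hM : 2 ≤ M) {x : (F × F × E) × F} (hx : x ∈ q.X4) : psi0 x ∈ q.XX M 0 := by
  have hx' : q.Q3 x.1 = x.2 ^ 2 + x.2 := hx
  have hs : ∀ j, 1 < j → (psi0 x).2 j = 0 := by
    intro j hj
    simp [psi0, show j ≠ 0 by omega, show j ≠ 1 by omega]
  refine ⟨fun j hj => hs j (by omega), rfl, ?_, fun h => absurd h (by decide)⟩
  rw [QM_zero_case q hM _ hs]
  have h0 : (psi0 x).2 0 = x.2 := rfl
  have h1 : (psi0 x).2 1 = 1 := rfl
  have h2 : (psi0 x).1 = x.1 := rfl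
  rw [h0, h1, h2, hx']
  linear_combination (x.2 ^ 2 + x.2) * two0 (F := F)

lemma zero_adj {M : ℕ} (hM : 2 ≤ M) {y z : QE.W F E} (hy : y ∈ q.XX M 0) (hz : z ∈ q.XX M 0) :
    q.AA M 0 y z ↔ q.Adj4 (phi0 y) (phi0 z) := by
  have hB : q.BM M y z = q.B3 y.1 z.1 + y.2 0 + z.2 0 := by
    rw [BM_zero_case q hM y z (fun j hj => hy.1 j (by omega)) (fun j hj => hz.1 j (by omega)),
      hy.2.1, hz.2.1]
    ring
  have e1 : (phi0 y).1 = y.1 := rfl
  have e2 : (phi0 z).1 = z.1 := rfl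
  have e3 : (phi0 y).2 = y.2 0 := rfl
  have e4 : (phi0 z).2 = z.2 0 := rfl
  rw [QE.AA, QE.Adj4, hB, e1, e2, e3, e4]
  have h : q.B3 y.1 z.1 + y.2 0 + z.2 0 = 1 → ((Even 0 → y + z ≠ QE.ones F E 0) ↔ y.1 ≠ z.1) := by
    intro hb
    constructor
    · intro h1 h2
      apply h1 Even.zero
      refine Prod.ext ?_ (funext fun j => ?_)
      · rw [Prod.fst_add, h2, self_add F]; rfl
      · rw [Prod.snd_add, Pi.add_apply, ones_snd]
        rcases Nat.lt_trichotomy j 1 with h | h | h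
        · obtain rfl : j = 0 := by omega
          rw [if_pos le_rfl]
          rw [h2, B3_self] at hb
          linear_combination hb
        · subst h
          rw [if_neg (by omega), show y.2 1 = 1 from hy.2.1, show z.2 1 = 1 from hz.2.1]
          linear_combination two0 (F := F)
        · rw [if_neg (by omega), hy.1 j (by omega), hz.1 j (by omega), add_zero]
    · intro h1 _ h2
      apply h1
      have h3 : y.1 + z.1 = 0 := by
        have := congrArg Prod.fst h2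
        exact this
      exact (add_eq_zero_iff F _ _).1 h3
  constructor
  · rintro ⟨h1, h2⟩; exact ⟨h1, (h h1).1 h2⟩
  · rintro ⟨h1, h2⟩; exact ⟨h1, (h h1).2 h2⟩

end Pool.Agent.Helper56.YGXX
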