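import Mathlib
import Pool.Agent.Helper56.YGXXb

set_option autoImplicit false
set_option linter.unusedSectionVars false

/-! Neighbours in the point sets `X_i`. -/

namespace Pool.Agent.Helper56.YGXX

open Pool.Agent.Helper35.YG Finset

variable {F E : Type*} [Field F] [CharP F 2] [CommRing E] [Nontrivial E] [Algebra F E] (q : QE F E)

lemma rho_snd (i j : ℕ) : (QE.rho F E i).2 j = if j = i then 1 else 0 := by
  simp [QE.rho, Pi.single_apply]

lemma oo_snd (i j : ℕ) : (QE.oo F E i).2 j = (if j = i then 1 else 0) + (if j = i + 1 then 1 else 0) := by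
  rw [QE.oo, Prod.snd_add, Pi.add_apply, rho_snd, rho_snd]

lemma oo_fst (i : ℕ) : (QE.oo F E i).1 = 0 := by
  rw [QE.oo, Prod.fst_add]; simp [QE.rho]

/-- `B(o_i, y) = y_i + y_{i+1}` -/
lemma BM_oo {M i : ℕ} (hM : i + 2 ≤ M) (y : QE.W F E) :
    q.BM M (QE.oo F E i) y = y.2 i + y.2 (i + 1) := by
  have h1 : q.B3 (QE.oo F E i).1 y.1 = 0 := by rw [oo_fst, B3_zero_left]
  have h2 : ∑ j ∈ range M, (QE.oo F E i).2 j = 0 := by
    simp only [oo_snd, sum_add_distrib, sum_ite_eq', mem_range]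
    rw [if_pos (by omega), if_pos (by omega)]
    linear_combination two0 (F := F)
  have h3 : ∑ j ∈ range M, (QE.oo F E i).2 j * y.2 j = y.2 i + y.2 (i + 1) := by
    simp only [oo_snd, add_mul, ite_mul, one_mul, zero_mul, sum_add_distrib, sum_ite_eq', mem_range]
    rw [if_pos (by omega), if_pos (by omega)]
  rw [QE.BM, h1, h2, h3]; ring

lemma QM_rho {M i : ℕ} (hM : i + 1 ≤ M) : q.QM M (QE.rho F E i) = 1 := by
  have h1 : q.Q3 (QE.rho F E i).1 = 0 := Q3_zero q
  have h2 : ∑ j ∈ range M, (QE.rho F E i).2 j ^ 2 = 1 := by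
    have : ∀ j, (QE.rho F E i).2 j ^ 2 = if j = i then 1 else 0 := by
      intro j; rw [rho_snd]; split_ifs <;> simp
    simp only [this, sum_ite_eq', mem_range]
    rw [if_pos (by omega)]
  have h3 : ∑ j ∈ range M, ∑ l ∈ range j, (QE.rho F E i).2 l * (QE.rho F E i).2 j = 0 := by
    apply sum_eq_zero
    intro j _
    apply sum_eq_zero
    intro l hl
    rw [rho_snd, rho_snd]
    have := mem_range.1 hl
    by_cases h : j = i
    · rw [if_neg (by omega), zero_mul]
    · rw [if_neg h, mul_zero]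
  rw [QE.QM, h1, h2, h3]; ring

lemma BM_rho_rho {M i : ℕ} (hM : i + 2 ≤ M) : q.BM M (QE.rho F E i) (QE.rho F E (i + 1)) = 1 := by
  have h1 : q.B3 (QE.rho F E i).1 (QE.rho F E (i + 1)).1 = 0 := B3_zero_left q _
  have h2 : ∑ j ∈ range M, (QE.rho F E i).2 j = 1 := by
    simp only [rho_snd, sum_ite_eq', mem_range]
    rw [if_pos (by omega)]
  have h3 : ∑ j ∈ range M, (QE.rho F E (i + 1)).2 j = 1 := by
    simp only [rho_snd, sum_ite_eq', mem_range]
    rw [if_pos (by omega)]
  have h4 : ∑ j ∈ range M, (QE.rho F E i).2 j * (QE.rho F E (i + 1)).2 j = 0 := by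
    apply sum_eq_zero
    intro j _
    rw [rho_snd, rho_snd]
    by_cases h : j = i
    · rw [if_neg (by omega : ¬ j = i + 1), mul_zero]
    · rw [if_neg h, zero_mul]
  rw [QE.BM, h1, h2, h3, h4]; ring

lemma QM_oo {M i : ℕ} (hM : i + 2 ≤ M) : q.QM M (QE.oo F E i) = 1 := by
  rw [QE.oo, QM_add, QM_rho q (by omega), QM_rho q (by omega), BM_rho_rho q hM]
  linear_combination two0 (F := F)

/-- (d) -/
theorem nbr_succ {M j : ℕ} (hM : j + 3 ≤ M) {y : QE.W F E} (hy : y ∈ q.XX M (j + 1))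
    (ha : q.AA M (j + 1) (QE.oo F E (j + 1)) y) : ∃ z ∈ q.XX M j, y = QE.oo F E (j + 1) + z := by
  have hb := ha.1
  rw [BM_oo q (by omega), show y.2 (j + 1 + 1) = 1 from hy.2.1] at hb
  have hy1 : y.2 (j + 1) = 0 := by linear_combination hb
  refine ⟨QE.oo F E (j + 1) + y, ⟨?_, ?_, ?_, ?_⟩, ?_⟩
  · intro l hl
    rw [Prod.snd_add, Pi.add_apply, oo_snd, if_neg (by omega : ¬ l = j + 1)]
    rcases Nat.lt_or_ge (j + 2) l with h | h
    · rw [if_neg (by omega), hy.1 l (by omega)]; ring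
    · obtain rfl : l = j + 2 := by omega
      rw [if_pos rfl, show y.2 (j + 2) = 1 from hy.2.1]
      linear_combination two0 (F := F)
  · rw [Prod.snd_add, Pi.add_apply, oo_snd, if_pos rfl, if_neg (by omega), hy1]; ring
  · rw [QM_add, QM_oo q (by omega), hy.2.2.1, ha.1]
    linear_combination two0 (F := F)
  · intro hj
    exact ha.2 hj.add_one
  · rw [← add_assoc, self_add F, zero_add]

/-- (e) -/
theorem nbr_adj {M j : ℕ} (hM : j + 3 ≤ M) {z : QE.W F E} (hz : z ∈ q.XX M j)
    (ha : q.AA M (j + 1) (QE.oo F E (j + 1) + QE.oo F E j) (QE.oo F E (j + 1) + z))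
    (hs : ¬ QE.SS (j + 1) (QE.oo F E (j + 1)) (QE.oo F E (j + 1) + QE.oo F E j)
      (QE.oo F E (j + 1) + z)) : q.AA M j (QE.oo F E j) z := by
  have hb := ha.1
  rw [BM_add_left, BM_add_right, BM_self, BM_add_right, BM_oo q (i := j + 1) (by omega) z,
    BM_oo q (i := j) (by omega) (QE.oo F E (j + 1)), show z.2 (j + 1) = 1 from hz.2.1,
    hz.1 (j + 1 + 1) (by omega), oo_snd, oo_snd, if_neg (by omega : ¬ j = j + 1),
    if_neg (by omega : ¬ j = j + 1 + 1), if_pos rfl, if_neg (by omega : ¬ j + 1 = j + 1 + 1)] at hb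
  refine ⟨by linear_combination hb - two0 (F := F), ?_⟩
  intro hj h
  apply hs
  refine ⟨hj.add_one, ?_⟩
  have h1 : QE.oo F E (j + 1) + (QE.oo F E (j + 1) + QE.oo F E j) + (QE.oo F E (j + 1) + z) =
      (QE.oo F E (j + 1) + QE.oo F E (j + 1)) + QE.oo F E (j + 1) + (QE.oo F E j + z) := by abel
  rw [h1, self_add F, zero_add, h]
  refine Prod.ext ?_ (funext fun l => ?_)
  · rw [Prod.fst_add, oo_fst, zero_add]; rfl
  · rw [Prod.snd_add, Pi.add_apply, oo_snd, ones_snd, ones_snd]
    rcases Nat.lt_trichotomy l (j + 1) with h | rfl | h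
    · rw [if_neg (by omega), if_neg (by omega), if_pos (by omega), if_pos (by omega)]; ring
    · rw [if_pos rfl, if_neg (by omega), if_neg (by omega), if_pos (by omega)]; ring
    · rcases Nat.lt_or_ge (j + 2) l with h' | h'
      · rw [if_neg (by omega), if_neg (by omega), if_neg (by omega), if_neg (by omega)]; ring
      · obtain rfl : l = j + 1 + 1 := by omega
        rw [if_neg (by omega), if_pos rfl, if_neg (by omega), if_pos le_rfl]; ring

lemma single_snd (x : F × F × E) (j : ℕ) : ((x, Pi.single 1 1) : QE.W F E).2 j = if j = 1 then 1 else 0 := by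
  simp [Pi.single_apply]

/-- (f), first part -/
theorem nbr_zero {M : ℕ} (hM : 2 ≤ M) {y : QE.W F E} (hy : y ∈ q.XX M 0)
    (ha : q.AA M 0 (QE.oo F E 0) y) :
    ∃ x : F × F × E, y = (x, Pi.single 1 1) ∧ q.Q3 x = 0 ∧ x ≠ 0 := by
  have hb := ha.1
  rw [BM_oo q (by omega), show y.2 (0 + 1) = 1 from hy.2.1] at hb
  have hy0 : y.2 0 = 0 := by linear_combination hb
  have hyy : y = (y.1, Pi.single 1 1) := by
    refine Prod.ext rfl (funext fun j => ?_)
    rw [single_snd]
    rcases Nat.lt_trichotomy j 1 with h | rfl | h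
    · obtain rfl : j = 0 := by omega
      rw [if_neg (by omega), hy0]
    · rw [if_pos rfl]; exact hy.2.1
    · rw [if_neg (by omega), hy.1 j (by omega)]
  refine ⟨y.1, hyy, ?_, ?_⟩
  · have h1 := hy.2.2.1
    rw [QM_zero_case q hM y (fun j hj => hy.1 j (by omega)), hy0, show y.2 1 = 1 from hy.2.1] at h1
    linear_combination h1
  · intro h0
    apply ha.2 Even.zero
    refine Prod.ext ?_ (funext fun j => ?_)
    · rw [Prod.fst_add, oo_fst, h0]; simp [QE.ones]
    · rw [Prod.snd_add, Pi.add_apply, oo_snd, ones_snd]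
      rcases Nat.lt_trichotomy j 1 with h | rfl | h
      · obtain rfl : j = 0 := by omega
        rw [if_pos rfl, if_neg (by omega), if_pos le_rfl, hy0]; ring
      · rw [if_neg (by omega), if_pos rfl, if_neg (by omega), show y.2 1 = 1 from hy.2.1]
        linear_combination two0 (F := F)
      · rw [if_neg (by omega), if_neg (by omega), if_neg (by omega), hy.1 j (by omega)]; ring

lemma BM_single {M : ℕ} (hM : 2 ≤ M) (x x' : F × F × E) :
    q.BM M (x, Pi.single 1 1) (x', Pi.single 1 1) = q.B3 x x' := by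
  have hs : ∀ (x : F × F × E) j, 1 < j → ((x, Pi.single 1 1) : QE.W F E).2 j = 0 := by
    intro x j hj
    rw [single_snd, if_neg (by omega)]
  rw [BM_zero_case q hM _ _ (hs x) (hs x')]
  simp

/-- (f), second part -/
theorem nbr_zero_adj {M : ℕ} (hM : 2 ≤ M) {x : F × F × E}
    (ha : q.AA M 0 (((1, 0, 0) : F × F × E), Pi.single 1 1) (x, Pi.single 1 1)) :
    q.B3 x (1, 0, 0) = 1 := by
  have hb := ha.1
  rw [BM_single q hM] at hb
  rw [B3_comm, hb]

/-- (g), membership -/
theorem oo_mem {M i : ℕ} (hM : i + 2 ≤ M) : QE.oo F E i ∈ q.XX M i := by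
  refine ⟨?_, ?_, QM_oo q hM, ?_⟩
  · intro j hj
    rw [oo_snd, if_neg (by omega), if_neg (by omega), add_zero]
  · rw [oo_snd, if_neg (by omega), if_pos rfl, zero_add]
  · intro hi h
    have h1 : (QE.oo F E i).2 0 = (QE.ones F E (i + 1)).2 0 := by rw [h]
    obtain ⟨m, rfl⟩ := hi
    rw [oo_snd, ones_snd, if_neg (by omega), if_neg (by omega), if_pos (by omega), add_zero] at h1
    exact zero_ne_one h1

theorem oo_adj_zero {M : ℕ} (hM : 2 ≤ M) :
    q.AA M 0 (QE.oo F E 0) (((1, 0, 0) : F × F × E), Pi.single 1 1) := by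
  refine ⟨?_, ?_⟩
  · rw [BM_oo q (by omega), single_snd, single_snd, if_neg (by omega), if_pos (by omega), zero_add]
  · intro _ h
    have h1 := congrArg Prod.fst h
    rw [Prod.fst_add, oo_fst, zero_add] at h1
    have h2 : ((1, 0, 0) : F × F × E) = 0 := h1
    simp at h2

theorem oo_adj_succ {M j : ℕ} (hM : j + 3 ≤ M) :
    q.AA M (j + 1) (QE.oo F E (j + 1)) (QE.oo F E (j + 1) + QE.oo F E j) := by
  refine ⟨?_, ?_⟩
  · rw [BM_add_right, BM_self, BM_comm, BM_oo q (by omega), oo_snd, oo_snd,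
      if_neg (by omega : ¬ j = j + 1), if_neg (by omega : ¬ j = j + 1 + 1), if_pos rfl,
      if_neg (by omega : ¬ j + 1 = j + 1 + 1)]
    ring
  · intro hj h
    rw [← add_assoc, self_add F, zero_add] at h
    have h1 : (QE.oo F E j).2 0 = (QE.ones F E (j + 1)).2 0 := by rw [h]
    have h2 : j ≠ 0 := by rintro rfl; exact absurd hj (by decide)
    rw [oo_snd, ones_snd, if_neg (by omega), if_neg (by omega), if_pos (by omega), add_zero] at h1
    exact zero_ne_one h1

end Pool.Agent.Helper56.YGXX
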