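import Mathlib
import Pool.Agent.Helper56.YGXXb

set_option autoImplicit false
set_option linter.unusedSectionVars false

/-! Simple connectivity, connectivity and finiteness of the point sets `X_i`. -/

namespace Pool.Agent.Helper56.YGXX

open Pool.Agent.Helper35.YG Finset

variable {F E : Type*} [Field F] [Fintype F] [CharP F 2] [CommRing E] [Nontrivial E] [Algebra F E]

theorem SC_XX_of (hq : 4 ≤ Fintype.card F) (q : QE F E) (M i : ℕ) (hM : i + 2 ≤ M)
    {Ω : Type*} {R : Ω → Ω → Prop} {π : Ω → QE.W F E}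
    (h4 : ∀ {π' : Ω → (F × F × E) × F}, Cover q.X4 q.Adj4 R π' → Function.Injective π')
    (hodd : ∀ (k : ℕ) (_ : 6 ≤ Module.finrank F (Wk F E k))
      (_ : ∀ x, (∀ y, QuadraticMap.polar (QF q M k) x y = 0) → x = 0) (κ : F) (_ : κ = 0 ∨ κ = 1)
      {π' : Ω → Wk F E k}, Cover' {v : Wk F E k | QF q M k v = κ ∧ v ≠ 0}
        (fun v w => QuadraticMap.polar (QF q M k) v w = 1) (fun x y z => x + y + z = 0) R π' →
      Function.Injective π')
    (hc : Cover' (q.XX M i) (q.AA M i) (QE.SS i) R π) : Function.Injective π := by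
  have hE := finiteE q
  rcases Nat.even_or_odd i with hi | hi
  · rcases Nat.eq_zero_or_pos i with rfl | hpos
    · -- the four-dimensional case
      have h1 := transport hc q.X4 q.Adj4 (fun _ _ _ => False) phi0 psi0
        (fun x hx => phi0_mem q (by omega) hx) (fun x hx => psi0_mem q (by omega) hx)
        (fun x _ => phi0_psi0 x) (fun x hx => psi0_phi0 q hx)
        (fun x hx y hy => zero_adj q (by omega) hx hy)
        (fun x _ y _ z _ h => absurd h.1 (by decide))
      have h2 := h4 (cover_of_cover' h1 (fun _ _ _ h => h))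
      exact h2.of_comp
    · have h1 := transport hc
        {v : Wk F E (i + 2) | QuadraticMap.polar (QF q M (i + 2)) v (res (i + 2) (QE.ones F E i)) = 1 ∧
          QF q M (i + 2) v = 1}
        (fun v w => QuadraticMap.polar (QF q M (i + 2)) v w = 1 ∧ v + w ≠ res (i + 2) (QE.ones F E i))
        (fun _ _ _ => False) (res (i + 2)) (emb (i + 2))
        (fun x hx => (even_mem_iff q hM hi x hx.1).1 hx)
        (fun x hx => (even_mem_iff q hM hi (emb (i + 2) x)
          (fun j hj => emb_snd_of_le _ _ _ (by omega))).2 (by rw [res_emb]; exact hx))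
        (fun x _ => res_emb _ x) (fun x hx => XX_emb_res q hx)
        (fun x hx y hy => even_adj q hi hx hy)
        (fun x _ y _ z _ h => absurd h.1 (Nat.not_odd_iff_even.2 hi))
      have h2 := Pool.Agent.Helper84.YG.SC_even hq (QF q M (i + 2))
        (QF_nondeg q hM (by obtain ⟨m, rfl⟩ := hi; exact ⟨m + 1, by ring⟩))
        (by rw [finrank_Wk q]; obtain ⟨m, rfl⟩ := hi; omega) (res (i + 2) (QE.ones F E i))
        (rho_ne F E i) (by rw [QF_apply, emb_rho]; exact QM_ones q M i)
        (cover_of_cover' h1 (fun _ _ _ h => h))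
      exact h2.of_comp
  · have h1 := transport hc
      {v : Wk F E (i + 1) | QF q M (i + 1) v = kap q M i ∧ v ≠ 0}
      (fun v w => QuadraticMap.polar (QF q M (i + 1)) v w = 1)
      (fun x y z => x + y + z = 0) (phi i) (psi i)
      (fun x hx => phi_mem q hM hi hx) (fun x hx => psi_mem q hM hi hx)
      (fun x _ => phi_psi x) (fun x hx => psi_phi q hx)
      (fun x hx y hy => odd_adj q hM hi hx hy)
      (fun x _ y _ z _ h => odd_spec hi h)
    have h2 := hodd (i + 1) (by rw [finrank_Wk q]; obtain ⟨m, rfl⟩ := hi; omega)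
      (QF_nondeg q (by omega) hi.add_one) (kap q M i) (kap_cases q M i) h1
    exact h2.of_comp

/-- (b) -/
theorem conn_XX (hq : 4 ≤ Fintype.card F) (q : QE F E) (M i : ℕ) (hM : i + 2 ≤ M) (y z : QE.W F E)
    (hy : y ∈ q.XX M i) (hz : z ∈ q.XX M i) :
    Relation.ReflTransGen (fun a b => b ∈ q.XX M i ∧ q.AA M i a b) y z := by
  have hE := finiteE q
  rcases Nat.even_or_odd i with hi | hi
  · refine conn_transport
      {v : Wk F E (i + 2) | QuadraticMap.polar (QF q M (i + 2)) v (res (i + 2) (QE.ones F E i)) = 1 ∧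
        QF q M (i + 2) v = 1}
      (fun v w => QuadraticMap.polar (QF q M (i + 2)) v w = 1 ∧ v + w ≠ res (i + 2) (QE.ones F E i))
      (res (i + 2)) (emb (i + 2))
      (fun x hx => (even_mem_iff q hM hi x hx.1).1 hx)
      (fun x hx => (even_mem_iff q hM hi (emb (i + 2) x)
        (fun j hj => emb_snd_of_le _ _ _ (by omega))).2 (by rw [res_emb]; exact hx))
      (fun x _ => res_emb _ x) (fun x hx => XX_emb_res q hx)
      (fun x hx y hy => even_adj q hi hx hy) ?_ y z hy hz
    intro v w hv hw
    exact Pool.Agent.Helper56.YGConn.conn_even hq (QF q M (i + 2))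
      (QF_nondeg q hM (by obtain ⟨m, rfl⟩ := hi; exact ⟨m + 1, by ring⟩))
      (by rw [finrank_Wk q]; omega) (res (i + 2) (QE.ones F E i))
      (rho_ne F E i) (by rw [QF_apply, emb_rho]; exact QM_ones q M i) v w hv hw
  · refine conn_transport
      {v : Wk F E (i + 1) | QF q M (i + 1) v = kap q M i ∧ v ≠ 0}
      (fun v w => QuadraticMap.polar (QF q M (i + 1)) v w = 1)
      (phi i) (psi i)
      (fun x hx => phi_mem q hM hi hx) (fun x hx => psi_mem q hM hi hx)
      (fun x _ => phi_psi x) (fun x hx => psi_phi q hx)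
      (fun x hx y hy => odd_adj q hM hi hx hy) ?_ y z hy hz
    intro v w hv hw
    exact Pool.Agent.Helper56.YGConn.conn_odd hq (QF q M (i + 1)) (QF_nondeg q (by omega) hi.add_one)
      (by rw [finrank_Wk q]; obtain ⟨m, rfl⟩ := hi; omega) (kap q M i) (kap_cases q M i) v w hv hw

/-- (c) -/
theorem finite_XX (q : QE F E) (M i : ℕ) : (q.XX M i).Finite := by
  have hE : Finite E := by
    have : Finite (F × F) := inferInstance
    exact Finite.of_equiv _ (equivE q).toEquiv
  have h1 : (Set.range (emb (F := F) (E := E) (i + 2))).Finite := Set.finite_range _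
  refine h1.subset (fun y hy => ⟨res (i + 2) y, XX_emb_res q hy⟩)

end Pool.Agent.Helper56.YGXX
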