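import Mathlib
import Pool.Agent.Helper56.YGXXc
import Pool.Agent.Helper56.YGXXd
import Pool.Agent.Helper20.YGspec
import Pool.Agent.Helper76.YG.Four

set_option autoImplicit false

/-! Simple connectivity of the point sets `X_i` (offer YG-13). -/

namespace Pool.Agent.Helper56.YGXX

open Pool.Agent.Helper35.YG

/-- (a) -/
theorem SC_XX {F E : Type*} [Field F] [Fintype F] [CharP F 2] [CommRing E] [Nontrivial E] [Algebra F E]
    (hq : 4 ≤ Fintype.card F) (q : QE F E) (M i : ℕ) (hM : i + 2 ≤ M)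
    {Ω : Type*} {R : Ω → Ω → Prop} {π : Ω → QE.W F E}
    (hc : Cover' (q.XX M i) (q.AA M i) (QE.SS i) R π) : Function.Injective π := by
  have hE := finiteE q
  refine SC_XX_of hq q M i hM (fun h => Pool.Agent.Helper76.YG.SC_four hq q h) ?_ hc
  intro k h6 hnd κ hκ π' h
  exact Pool.Agent.Helper20.YGspec.SC_odd' hq (QF q M k) hnd h6 κ hκ h

end Pool.Agent.Helper56.YGXX
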